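import Pool.Agent.helper237_G5.Stmts3
import Pool.Agent.helper237_G5.pp56.Exists

/-!
# Construction of the clocks
-/

set_option autoImplicit false
set_option linter.unusedSectionVars false

namespace Pool.Agent.helper237_G5

open MeasureTheory ProbabilityTheory Filter Topology

namespace clocks_aux

open Set
open scoped ENNReal NNReal
open Pool.Agent.helper237_G5.pp712 (E count IsPoissonProcess)

/-! ## Slabs -/

/-- a slab -/
def slab (a b : ℝ) : Set (E 1) := {z | z 0 ∈ Ioc a b}

theorem slab_meas (a b : ℝ) : MeasurableSet (slab a b) := by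
  have h : Measurable (fun z : E 1 => z 0) := by fun_prop
  exact h measurableSet_Ioc

theorem slab_vol (a b : ℝ) : volume (slab a b) = ENNReal.ofReal (b - a) := by
  have h1 := PiLp.volume_preserving_ofLp (Fin 1)
  have h2 := volume_preserving_funUnique (Fin 1) ℝ
  have h3 := h2.comp h1
  have h4 : slab a b = ((MeasurableEquiv.funUnique (Fin 1) ℝ) ∘ (@WithLp.ofLp 2 (Fin 1 → ℝ))) ⁻¹'
      (Ioc a b) := rfl
  rw [h4, h3.measure_preimage measurableSet_Ioc.nullMeasurableSet, Real.volume_Ioc]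

theorem slab_vol_ne (a b : ℝ) : volume (slab a b) ≠ ∞ := by
  rw [slab_vol]; exact ENNReal.ofReal_ne_top

variable {Ω : Type} [MeasurableSpace Ω] {P : Measure Ω} {x : ℕ → Ω → E 1}

theorem count_meas (hx : IsPoissonProcess P 1 x) (a b : ℝ) : Measurable (count x (slab a b)) := by
  unfold count
  refine Measurable.tsum fun i => ?_
  exact (measurable_const.indicator (slab_meas a b)).comp (hx.measurable i)

theorem count_law (hx : IsPoissonProcess P 1 x) {a b : ℝ} (hab : a < b) (k : ℕ) :
    P {ω | count x (slab a b) ω = (k : ℝ≥0∞)} =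
      ENNReal.ofReal (Real.exp (-(b-a)) * (b-a)^k / k.factorial) := by
  have h1 := hx.law (slab a b) (slab_meas a b) (slab_vol_ne a b)
  have h2 : P {ω | count x (slab a b) ω = (k : ℝ≥0∞)} = P.map (count x (slab a b)) {(k : ℝ≥0∞)} := by
    rw [Measure.map_apply (count_meas hx a b) (measurableSet_singleton _)]
    rfl
  rw [h2, h1, Measure.map_apply measurable_from_nat (measurableSet_singleton _)]
  have h3 : (fun n : ℕ => (n : ℝ≥0∞)) ⁻¹' {(k : ℝ≥0∞)} = {k} := by
    ext n
    simp
  have h4 : ((1 * (volume (slab a b)).toNNReal : ℝ≥0) : ℝ) = b - a := by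
    rw [slab_vol, one_mul]
    exact Real.coe_toNNReal _ (by linarith)
  rw [h3, poissonMeasure_singleton, h4]

/-- two points in a slab -/
theorem two_le [IsProbabilityMeasure P] (hx : IsPoissonProcess P 1 x) {a b : ℝ} (hab : a < b) :
    P {ω | 2 ≤ count x (slab a b) ω} ≤ ENNReal.ofReal ((b - a) ^ 2) := by
  have m0 : MeasurableSet {ω | count x (slab a b) ω = ((0 : ℕ) : ℝ≥0∞)} :=
    count_meas hx a b (measurableSet_singleton _)
  have m1 : MeasurableSet {ω | count x (slab a b) ω = ((1 : ℕ) : ℝ≥0∞)} :=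
    count_meas hx a b (measurableSet_singleton _)
  have h0 := count_law hx hab 0
  have h1 := count_law hx hab 1
  have hd : Disjoint {ω | count x (slab a b) ω = ((0 : ℕ) : ℝ≥0∞)}
      {ω | count x (slab a b) ω = ((1 : ℕ) : ℝ≥0∞)} := by
    rw [Set.disjoint_left]
    intro ω h h'
    rw [mem_ofPred_eq] at h h'
    rw [h] at h'
    norm_num at h'
  have h2 : P ({ω | count x (slab a b) ω = ((0 : ℕ) : ℝ≥0∞)} ∪
      {ω | count x (slab a b) ω = ((1 : ℕ) : ℝ≥0∞)}) =
      ENNReal.ofReal (Real.exp (-(b-a)) * (1 + (b - a))) := by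
    rw [measure_union hd m1, h0, h1, ← ENNReal.ofReal_add]
    · congr 1
      simp
      ring
    · positivity
    · have : 0 < b - a := by linarith
      positivity
  have h3 : {ω | 2 ≤ count x (slab a b) ω} ⊆ ({ω | count x (slab a b) ω = ((0 : ℕ) : ℝ≥0∞)} ∪
      {ω | count x (slab a b) ω = ((1 : ℕ) : ℝ≥0∞)})ᶜ := by
    intro ω h
    rw [mem_ofPred_eq] at h
    rintro (h' | h')
    · rw [mem_ofPred_eq] at h'
      rw [h'] at h
      norm_num at h
    · rw [mem_ofPred_eq] at h'
      rw [h'] at h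
      norm_num at h
  refine (measure_mono h3).trans ?_
  rw [prob_compl_eq_one_sub (m0.union m1), h2, ← ENNReal.ofReal_one, ← ENNReal.ofReal_sub]
  · refine ENNReal.ofReal_le_ofReal ?_
    have h4 : 0 < b - a := by linarith
    have h5 := Real.add_one_le_exp (-(b-a))
    nlinarith
  · have h4 : 0 < b - a := by linarith
    positivity

theorem count_two {ω : Ω} {a b : ℝ} {i j : ℕ} (hij : i ≠ j) (hi : x i ω ∈ slab a b)
    (hj : x j ω ∈ slab a b) : 2 ≤ count x (slab a b) ω := by
  unfold count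
  calc (2 : ℝ≥0∞) = ∑ l ∈ ({i, j} : Finset ℕ),
        (slab a b).indicator (fun _ => (1 : ℝ≥0∞)) (x l ω) := by
        rw [Finset.sum_pair hij, indicator_of_mem hi, indicator_of_mem hj]; norm_num
    _ ≤ _ := ENNReal.sum_le_tsum _

theorem no_double_N [IsProbabilityMeasure P] (hx : IsPoissonProcess P 1 x) (N : ℕ) :
    P {ω | ∃ i j, i ≠ j ∧ x i ω 0 ∈ Ioc 0 (N : ℝ) ∧ x i ω 0 = x j ω 0} = 0 := by
  set D := {ω | ∃ i j, i ≠ j ∧ x i ω 0 ∈ Ioc 0 (N : ℝ) ∧ x i ω 0 = x j ω 0} with hD
  have key : ∀ n : ℕ, 0 < n → P D ≤ ENNReal.ofReal (N / n) := by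
    intro n hn
    have hn' : (0 : ℝ) < n := by exact_mod_cast hn
    have hsub : D ⊆ ⋃ k ∈ Finset.range (N * n),
        {ω | 2 ≤ count x (slab ((k : ℝ) / n) (((k : ℝ) + 1) / n)) ω} := by
      rintro ω ⟨i, j, hij, hi, hxe⟩
      set y := x i ω 0 with hy
      have hy0 : 0 < y * n := mul_pos hi.1 hn'
      obtain ⟨k, hk⟩ : ∃ k : ℕ, ⌈y * n⌉₊ = k + 1 :=
        ⟨⌈y * n⌉₊ - 1, by have := Nat.ceil_pos.2 hy0; omega⟩
      have h1 : y * n ≤ k + 1 := by
        have := Nat.le_ceil (y * n)
        rw [hk] at this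
        exact_mod_cast this
      have h2 : (k : ℝ) < y * n := by
        have := Nat.lt_ceil.1 (show k < ⌈y * n⌉₊ by omega)
        exact this
      have h3 : k < N * n := by
        have h4 : y * n ≤ N * n := mul_le_mul_of_nonneg_right hi.2 hn'.le
        have h5 : (k : ℝ) < N * n := lt_of_lt_of_le h2 h4
        exact_mod_cast h5
      have hin : y ∈ Ioc ((k : ℝ) / n) (((k : ℝ) + 1) / n) :=
        ⟨by rw [div_lt_iff₀ hn']; exact h2, by rw [le_div_iff₀ hn']; exact h1⟩
      rw [mem_iUnion₂]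
      refine ⟨k, Finset.mem_range.2 h3, ?_⟩
      refine count_two hij hin ?_
      change x j ω 0 ∈ Ioc ((k : ℝ) / n) (((k : ℝ) + 1) / n)
      rw [← hxe]
      exact hin
    refine (measure_mono hsub).trans ((measure_biUnion_finset_le _ _).trans ?_)
    calc ∑ k ∈ Finset.range (N * n), P {ω | 2 ≤ count x (slab ((k : ℝ) / n) (((k : ℝ) + 1) / n)) ω}
        ≤ ∑ _k ∈ Finset.range (N * n), ENNReal.ofReal ((1 / (n : ℝ)) ^ 2) := by
          refine Finset.sum_le_sum fun k _ => ?_
          have h1 : ((k : ℝ) + 1) / n - (k : ℝ) / n = 1 / n := by ring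
          have h2 : (k : ℝ) / n < ((k : ℝ) + 1) / n := by
            have : 0 < 1 / (n : ℝ) := by positivity
            linarith
          have := two_le hx h2
          rwa [h1] at this
      _ = ENNReal.ofReal (N / n) := by
          rw [Finset.sum_const, Finset.card_range, nsmul_eq_mul, ← ENNReal.ofReal_natCast,
            ← ENNReal.ofReal_mul (by positivity)]
          congr 1
          push_cast
          field_simp
  have ht : Tendsto (fun n : ℕ => ENNReal.ofReal ((N : ℝ) / n)) atTop (𝓝 0) := by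
    have := ENNReal.tendsto_ofReal (tendsto_const_div_atTop_nhds_zero_nat (N : ℝ))
    rwa [ENNReal.ofReal_zero] at this
  have := ge_of_tendsto ht ((eventually_gt_atTop 0).mono fun n hn => key n hn)
  exact le_antisymm this bot_le

theorem no_double [IsProbabilityMeasure P] (hx : IsPoissonProcess P 1 x) :
    ∀ᵐ ω ∂P, ∀ i j, i ≠ j → 0 < x i ω 0 → x i ω 0 ≠ x j ω 0 := by
  have h : ∀ᵐ ω ∂P, ∀ N : ℕ, ω ∉ {ω | ∃ i j, i ≠ j ∧ x i ω 0 ∈ Ioc 0 (N : ℝ) ∧
      x i ω 0 = x j ω 0} := by
    rw [ae_all_iff]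
    intro N
    exact measure_eq_zero_iff_ae_notMem.1 (no_double_N hx N)
  filter_upwards [h] with ω hω i j hij hi he
  obtain ⟨N, hN⟩ := exists_nat_ge (x i ω 0)
  exact hω N ⟨i, j, hij, ⟨hi, hN⟩, he⟩

theorem count_lt (hx : IsPoissonProcess P 1 x) (a b : ℝ) :
    ∀ᵐ ω ∂P, count x (slab a b) ω < ∞ := by
  have h1 := hx.law (slab a b) (slab_meas a b) (slab_vol_ne a b)
  have h2 : P {ω | count x (slab a b) ω = ∞} = 0 := by
    have h3 : P {ω | count x (slab a b) ω = ∞} = P.map (count x (slab a b)) {∞} := by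
      rw [Measure.map_apply (count_meas hx a b) (measurableSet_singleton _)]
      rfl
    rw [h3, h1, Measure.map_apply measurable_from_nat (measurableSet_singleton _)]
    have h4 : (fun n : ℕ => (n : ℝ≥0∞)) ⁻¹' {∞} = ∅ := by
      ext n
      simp
    rw [h4, measure_empty]
  have h5 := measure_eq_zero_iff_ae_notMem.1 h2
  filter_upwards [h5] with ω hω
  exact lt_top_iff_ne_top.2 hω

theorem count_eq (A : Set (E 1)) (ω : Ω) :
    count x A ω = (({i | x i ω ∈ A} : Set ℕ).encard : ℝ≥0∞) := by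
  rw [← ENNReal.tsum_set_one,
    tsum_subtype ({i | x i ω ∈ A} : Set ℕ) (fun _ => (1 : ℝ≥0∞))]
  rfl

/-- the good set -/
def Gd (x : ℕ → Ω → E 1) : Set Ω :=
  {ω | (∀ N : ℕ, count x (slab 0 N) ω < ∞) ∧
    ∀ i j, i ≠ j → 0 < x i ω 0 → x i ω 0 ≠ x j ω 0}

theorem Gd_ae [IsProbabilityMeasure P] (hx : IsPoissonProcess P 1 x) : ∀ᵐ ω ∂P, ω ∈ Gd x := by
  have h : ∀ᵐ ω ∂P, ∀ N : ℕ, count x (slab 0 N) ω < ∞ := by
    rw [ae_all_iff]
    intro N
    exact count_lt hx _ _
  filter_upwards [h, no_double hx] with ω h1 h2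
  exact ⟨h1, h2⟩

theorem Gd_meas (hx : IsPoissonProcess P 1 x) : MeasurableSet (Gd x) := by
  have hc : ∀ i, Measurable (fun ω => x i ω 0) := fun i => by
    have h : Measurable (fun z : E 1 => z 0) := by fun_prop
    exact h.comp (hx.measurable i)
  have h1 : Gd x = (⋂ N : ℕ, {ω | count x (slab 0 N) ω < ∞}) ∩
      ⋂ i, ⋂ j, {ω | i ≠ j → 0 < x i ω 0 → x i ω 0 ≠ x j ω 0} := by
    ext ω
    simp only [Gd, mem_ofPred_eq, mem_inter_iff, mem_iInter]
  rw [h1]
  refine (MeasurableSet.iInter fun N => ?_).inter (MeasurableSet.iInter fun i =>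
    MeasurableSet.iInter fun j => ?_)
  · exact measurableSet_lt (count_meas hx _ _) measurable_const
  · by_cases hij : i = j
    · have : {ω | i ≠ j → 0 < x i ω 0 → x i ω 0 ≠ x j ω 0} = univ := by
        ext ω
        simp [hij]
      rw [this]
      exact MeasurableSet.univ
    · have : {ω | i ≠ j → 0 < x i ω 0 → x i ω 0 ≠ x j ω 0} =
          ({ω | 0 < x i ω 0} ∩ {ω | x i ω 0 = x j ω 0})ᶜ := by
        ext ω
        simp only [mem_ofPred_eq, mem_compl_iff, mem_inter_iff, not_and]
        exact ⟨fun h => h hij, fun h _ => h⟩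
      rw [this]
      exact ((measurableSet_lt measurable_const (hc i)).inter
        (measurableSet_eq_fun (hc i) (hc j))).compl

open Classical in
/-- the ring times -/
noncomputable def RR (x : ℕ → Ω → E 1) (ω : Ω) : Set ℝ :=
  if ω ∈ Gd x then {s | 0 < s ∧ ∃ i, x i ω 0 = s} else ∅

theorem RR_pos (x : ℕ → Ω → E 1) (ω : Ω) : RR x ω ⊆ Ioi 0 := by
  unfold RR
  split_ifs
  · intro s hs
    exact hs.1
  · exact empty_subset _

theorem fin_idx {ω : Ω} (hω : ω ∈ Gd x) {a b : ℝ} (ha : 0 ≤ a) :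
    ({i | x i ω ∈ slab a b} : Set ℕ).Finite := by
  obtain ⟨N, hN⟩ := exists_nat_ge b
  have h1 := hω.1 N
  rw [count_eq] at h1
  have h2 : ({i | x i ω ∈ slab 0 N} : Set ℕ).Finite := by
    rw [← Set.encard_lt_top_iff]
    exact_mod_cast h1
  refine h2.subset fun i hi => ?_
  exact ⟨lt_of_le_of_lt ha hi.1, hi.2.trans hN⟩

theorem RR_image {ω : Ω} (hω : ω ∈ Gd x) {a b : ℝ} (ha : 0 ≤ a) :
    RR x ω ∩ Ioc a b = (fun i => x i ω 0) '' {i | x i ω ∈ slab a b} := by
  unfold RR
  rw [if_pos hω]
  ext s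
  constructor
  · rintro ⟨⟨h1, i, hi⟩, h2⟩
    refine ⟨i, ?_, hi⟩
    change x i ω 0 ∈ Ioc a b
    rw [hi]
    exact h2
  · rintro ⟨i, hi, rfl⟩
    exact ⟨⟨lt_of_le_of_lt ha hi.1, i, rfl⟩, hi⟩

theorem RR_fin (x : ℕ → Ω → E 1) (ω : Ω) (t : ℝ) : (RR x ω ∩ Iic t).Finite := by
  by_cases hω : ω ∈ Gd x
  · have h1 : RR x ω ∩ Iic t = RR x ω ∩ Ioc 0 t := by
      ext s
      constructor
      · rintro ⟨h1, h2⟩
        exact ⟨h1, RR_pos x ω h1, h2⟩
      · rintro ⟨h1, h2⟩
        exact ⟨h1, h2.2⟩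
    rw [h1, RR_image hω le_rfl]
    exact (fin_idx hω le_rfl).image _
  · unfold RR
    rw [if_neg hω, empty_inter]
    exact finite_empty

theorem RR_count {ω : Ω} (hω : ω ∈ Gd x) {a b : ℝ} (ha : 0 ≤ a) :
    ((RR x ω ∩ Ioc a b).ncard : ℝ≥0∞) = count x (slab a b) ω := by
  have hinj : InjOn (fun i => x i ω 0) {i | x i ω ∈ slab a b} := by
    intro i hi j hj hij
    by_contra hne
    exact hω.2 i j hne (lt_of_le_of_lt ha hi.1) hij
  rw [RR_image hω ha, hinj.ncard_image, count_eq, ← (fin_idx hω ha).cast_ncard_eq]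
  simp

theorem RR_max (x : ℕ → Ω → E 1) (ω : Ω) (a b : ℝ) :
    RR x ω ∩ Ioc a b = RR x ω ∩ Ioc (max a 0) b := by
  ext s
  constructor
  · rintro ⟨h1, h2⟩
    exact ⟨h1, max_lt h2.1 (RR_pos x ω h1), h2.2⟩
  · rintro ⟨h1, h2⟩
    exact ⟨h1, lt_of_le_of_lt (le_max_left _ _) h2.1, h2.2⟩

theorem RR_meas (hx : IsPoissonProcess P 1 x) (a b : ℝ) :
    Measurable (fun ω => (RR x ω ∩ Ioc a b).ncard) := by
  refine measurable_to_countable' fun k => ?_
  have h1 : (fun ω => (RR x ω ∩ Ioc a b).ncard) ⁻¹' {k} =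
      (Gd x ∩ {ω | count x (slab (max a 0) b) ω = (k : ℝ≥0∞)}) ∪
        ((Gd x)ᶜ ∩ {_ω | 0 = k}) := by
    ext ω
    simp only [mem_preimage, mem_singleton_iff, mem_union, mem_inter_iff, mem_ofPred_eq,
      mem_compl_iff]
    by_cases hω : ω ∈ Gd x
    · simp only [hω, true_and, not_true_eq_false, false_and, or_false]
      rw [RR_max, ← RR_count hω (le_max_right _ _)]
      exact Nat.cast_inj.symm
    · simp only [hω, false_and, not_false_eq_true, true_and, false_or]
      unfold RR
      rw [if_neg hω, empty_inter, ncard_empty]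
  rw [h1]
  refine ((Gd_meas hx).inter ?_).union ((Gd_meas hx).compl.inter (MeasurableSet.const _))
  exact count_meas hx _ _ (measurableSet_singleton _)

theorem RR_law [IsProbabilityMeasure P] (hx : IsPoissonProcess P 1 x) {a b : ℝ} (ha : 0 ≤ a)
    (hab : a < b) (k : ℕ) :
    P {ω | (RR x ω ∩ Ioc a b).ncard = k} =
      ENNReal.ofReal (Real.exp (-(b-a)) * (b-a)^k / k.factorial) := by
  rw [← count_law hx hab k]
  refine measure_congr ?_
  filter_upwards [Gd_ae hx] with ω hω
  refine propext ?_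
  change (RR x ω ∩ Ioc a b).ncard = k ↔ count x (slab a b) ω = (k : ℝ≥0∞)
  rw [← RR_count hω ha]
  exact Nat.cast_inj.symm

theorem RR_indep [IsProbabilityMeasure P] (hx : IsPoissonProcess P 1 x) (t : ℕ → ℝ)
    (ht0 : t 0 = 0) (ht : StrictMono t) :
    iIndepFun (fun n ω => (RR x ω ∩ Ioc (t n) (t (n+1))).ncard) P := by
  rw [iIndepFun_iff_finset]
  intro s
  have h1 := hx.indep s (fun n => slab (t n) (t (n+1))) (fun n => slab_meas _ _)
    (fun n => slab_vol_ne _ _) (by
      intro m n hmn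
      have hmn' : (m : ℕ) ≠ n := fun h => hmn (Subtype.ext h)
      change Disjoint (slab (t m) (t (m+1))) (slab (t n) (t (n+1)))
      rw [Set.disjoint_left]
      intro z hz hz'
      rcases lt_or_gt_of_ne hmn' with h | h
      · have h2 : t (m+1) ≤ t n := ht.monotone h
        exact absurd (lt_of_le_of_lt h2 hz'.1) (not_lt.2 hz.2)
      · have h2 : t (n+1) ≤ t m := ht.monotone h
        exact absurd (lt_of_le_of_lt h2 hz.1) (not_lt.2 hz'.2))
  have h2 := h1.comp (fun _ (y : ℝ≥0∞) => ⌊y.toReal⌋₊)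
    (fun _ => Nat.measurable_floor.comp ENNReal.measurable_toReal)
  refine h2.congr fun n => ?_
  have hn0 : 0 ≤ t n := by
    rw [← ht0]
    exact ht.monotone (Nat.zero_le _)
  filter_upwards [Gd_ae hx] with ω hω
  change ⌊(count x (slab (t n) (t (n+1))) ω).toReal⌋₊ = (RR x ω ∩ Ioc (t n) (t (n+1))).ncard
  rw [← RR_count hω hn0]
  simp

/-- one clock -/
theorem one_clock : ∃ (Ω : Type) (_ : MeasurableSpace Ω) (P : Measure Ω) (R : Ω → Set ℝ),
    IsProbabilityMeasure P ∧ (∀ ω, R ω ⊆ Ioi 0) ∧ (∀ ω t, (R ω ∩ Iic t).Finite) ∧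
    (∀ a b, Measurable (fun ω => (R ω ∩ Ioc a b).ncard)) ∧
    (∀ a b : ℝ, 0 ≤ a → a < b → ∀ k : ℕ, P {ω | (R ω ∩ Ioc a b).ncard = k} =
      ENNReal.ofReal (Real.exp (-(b-a)) * (b-a)^k / k.factorial)) ∧
    ∀ t : ℕ → ℝ, t 0 = 0 → StrictMono t →
      iIndepFun (fun n ω => (R ω ∩ Ioc (t n) (t (n+1))).ncard) P := by
  obtain ⟨Ω, mΩ, P, hP, x, hx⟩ := Pool.Agent.helper237_G5.pp56.exists_ppp 1 le_rfl 1 zero_lt_one
  exact ⟨Ω, mΩ, P, RR x, hP, RR_pos x, RR_fin x, RR_meas hx, fun a b ha hab k =>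
    RR_law hx ha hab k, fun t h0 h1 => RR_indep hx t h0 h1⟩

/-- the law of a spin -/
noncomputable def bern (p : ℝ) : Measure Bool :=
  ENNReal.ofReal p • Measure.dirac true + ENNReal.ofReal (1 - p) • Measure.dirac false

theorem bern_prob {p : ℝ} (h0 : 0 ≤ p) (h1 : p ≤ 1) : IsProbabilityMeasure (bern p) := by
  refine ⟨?_⟩
  unfold bern
  simp only [Measure.coe_add, Measure.coe_smul, Pi.add_apply, Pi.smul_apply, measure_univ,
    smul_eq_mul, mul_one]
  rw [← ENNReal.ofReal_add h0 (by linarith)]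
  simp

theorem bern_true {p : ℝ} : bern p {true} = ENNReal.ofReal p := by
  unfold bern
  simp

/-- the data of one vertex -/
def vf {Ω : Type} (f : ℕ → Ω → ℕ) : Option ℕ → Bool × Ω → ℕ
  | none, ω => if ω.1 = true then 1 else 0
  | some n, ω => f n ω.2

/-- the data of one vertex are independent -/
theorem vertex_indep {Ω : Type} [MeasurableSpace Ω] {P : Measure Ω} [IsProbabilityMeasure P]
    {ν : Measure Bool} [IsProbabilityMeasure ν] {f : ℕ → Ω → ℕ}
    (hi : iIndepFun f P) :
    iIndepFun (vf f) (ν.prod P) := by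
  rw [iIndepFun_iff_measure_inter_preimage_eq_mul]
  intro S sets hsets
  classical
  set S' : Finset ℕ := Finset.eraseNone S with hS'
  set T : Set Ω := ⋂ n ∈ S', f n ⁻¹' sets (some n) with hT
  have hTP : P T = ∏ n ∈ S', P (f n ⁻¹' sets (some n)) :=
    (iIndepFun_iff_measure_inter_preimage_eq_mul.1 hi) S' (sets := fun n => sets (some n))
      (fun n hn => hsets _ (Finset.mem_eraseNone.1 hn))
  have hsome : ∀ n, (ν.prod P) ((fun ω : Bool × Ω => f n ω.2) ⁻¹' sets (some n)) =
      P (f n ⁻¹' sets (some n)) := by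
    intro n
    have : (fun ω : Bool × Ω => f n ω.2) ⁻¹' sets (some n) =
      (univ : Set Bool) ×ˢ (f n ⁻¹' sets (some n)) := by
      ext ω
      simp
    rw [this, Measure.prod_prod, measure_univ, one_mul]
  set B : Set Bool := (fun b => if b = true then 1 else 0) ⁻¹' sets none with hB
  by_cases hn : none ∈ S
  · have hSi : S = insert none (S'.map Function.Embedding.some) := by
      ext o
      rcases o with _ | n
      · simp [hn]
      · simp [hS']
    have hset : (⋂ o ∈ S, vf f o ⁻¹' sets o) = B ×ˢ T := by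
      ext ω
      simp only [mem_iInter, mem_preimage, mem_prod]
      constructor
      · intro h
        refine ⟨h none hn, ?_⟩
        rw [hT]
        simp only [mem_iInter, mem_preimage]
        intro n hn'
        exact h (some n) (Finset.mem_eraseNone.1 hn')
      · rintro ⟨h1, h2⟩ o ho
        rw [hT] at h2
        simp only [mem_iInter, mem_preimage] at h2
        rcases o with _ | n
        · exact h1
        · exact h2 n (Finset.mem_eraseNone.2 ho)
    rw [hset, Measure.prod_prod, hTP, hSi, Finset.prod_insert (by simp), Finset.prod_map]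
    congr 1
    · have : (fun ω : Bool × Ω => if ω.1 = true then 1 else 0) ⁻¹' sets none =
        B ×ˢ (univ : Set Ω) := by
        ext ω
        simp [hB]
      change ν B = (ν.prod P) ((fun ω : Bool × Ω => if ω.1 = true then 1 else 0) ⁻¹' sets none)
      rw [this, Measure.prod_prod, measure_univ, mul_one]
    · refine Finset.prod_congr rfl fun n _ => ?_
      exact (hsome n).symm
  · have hSi : S = S'.map Function.Embedding.some := by
      ext o
      rcases o with _ | n
      · simp [hn]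
      · simp [hS']
    have hset : (⋂ o ∈ S, vf f o ⁻¹' sets o) = (univ : Set Bool) ×ˢ T := by
      ext ω
      simp only [mem_iInter, mem_preimage, mem_prod, mem_univ, true_and]
      constructor
      · intro h
        rw [hT]
        simp only [mem_iInter, mem_preimage]
        intro n hn'
        exact h (some n) (Finset.mem_eraseNone.1 hn')
      · intro h2 o ho
        rw [hT] at h2
        simp only [mem_iInter, mem_preimage] at h2
        rcases o with _ | n
        · exact absurd ho hn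
        · exact h2 n (Finset.mem_eraseNone.2 ho)
    rw [hset, Measure.prod_prod, hTP, measure_univ, one_mul, hSi, Finset.prod_map]
    refine Finset.prod_congr rfl fun n _ => ?_
    exact (hsome n).symm

end clocks_aux

open clocks_aux in
/-- **Construction of the clocks.** -/
theorem t_clocks : S_clocks := by
  intro V _ p hp0 hp1
  obtain ⟨Ω, mΩ, P, R, hP, hRpos, hRfin, hRmeas, hRlaw, hRind⟩ := one_clock
  have hν := bern_prob hp0 hp1
  refine ⟨V → Bool × Ω, inferInstance, Measure.infinitePi (fun _ : V => (bern p).prod P),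
    fun v ω => (ω v).1, fun v ω => R (ω v).2, ?_⟩
  have hmp : ∀ v : V, MeasurePreserving (fun ω : V → Bool × Ω => ω v)
      (Measure.infinitePi (fun _ : V => (bern p).prod P)) ((bern p).prod P) := fun v =>
    ⟨measurable_pi_apply v, Measure.infinitePi_map_eval _ v⟩
  refine ⟨inferInstance, fun v ω => hRpos _, fun v ω t => hRfin _ t, fun v => ?_, fun v a b => ?_,
    fun v => ?_, fun v a b ha hab k => ?_, fun t ht0 ht => ?_⟩
  · exact measurable_fst.comp (measurable_pi_apply v)
  · exact (hRmeas a b).comp (measurable_snd.comp (measurable_pi_apply v))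
  · have h1 := (hmp v).measure_preimage
      (measurable_fst (measurableSet_singleton true) :
        MeasurableSet ((Prod.fst : Bool × Ω → Bool) ⁻¹' {true})).nullMeasurableSet
    have h2 : ((Prod.fst : Bool × Ω → Bool) ⁻¹' {true}) = ({true} : Set Bool) ×ˢ Set.univ := by
      ext ω
      simp
    rw [h2, Measure.prod_prod, measure_univ, mul_one, bern_true] at h1
    rw [← h1]
    congr 1
    ext ω
    simp
  · have hm : MeasurableSet ((fun ω : Ω => (R ω ∩ Set.Ioc a b).ncard) ⁻¹' {k}) :=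
      hRmeas a b (measurableSet_singleton k)
    have h1 := (hmp v).measure_preimage
      (measurable_snd hm : MeasurableSet ((Prod.snd : Bool × Ω → Ω) ⁻¹'
        ((fun ω : Ω => (R ω ∩ Set.Ioc a b).ncard) ⁻¹' {k}))).nullMeasurableSet
    have h2 : ((Prod.snd : Bool × Ω → Ω) ⁻¹' ((fun ω : Ω => (R ω ∩ Set.Ioc a b).ncard) ⁻¹' {k})) =
        (Set.univ : Set Bool) ×ˢ ((fun ω : Ω => (R ω ∩ Set.Ioc a b).ncard) ⁻¹' {k}) := by
      ext ω
      simp
    rw [h2, Measure.prod_prod, measure_univ, one_mul] at h1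
    have h3 := hRlaw a b ha hab k
    change P ((fun ω : Ω => (R ω ∩ Set.Ioc a b).ncard) ⁻¹' {k}) = _ at h3
    rw [h3] at h1
    rw [← h1]
    congr 1
    ext ω
    simp [ringCount]
  · have hv := vertex_indep (ν := bern p) (P := P) (hRind t ht0 ht)
    set g : Option ℕ → Bool × Ω → ℕ :=
      vf (fun n ω => (R ω ∩ Set.Ioc (t n) (t (n+1))).ncard) with hg
    have hgm : ∀ o, Measurable (g o) := by
      intro o
      rcases o with _ | n
      · exact (measurable_of_countable (fun b : Bool => if b = true then 1 else 0)).comp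
          measurable_fst
      · exact (hRmeas _ _).comp measurable_snd
    have h := iIndepFun_uncurry' (X := fun (v : V) (o : Option ℕ) (ω : V → Bool × Ω) => g o (ω v))
      (P := Measure.infinitePi (fun _ : V => (bern p).prod P))
      (fun v o => (hgm o).comp (measurable_pi_apply v))
      (iIndepFun_infinitePi (P := fun _ : V => (bern p).prod P)
        (X := fun (_ : V) (w : Bool × Ω) (o : Option ℕ) => g o w)
        (fun _ => measurable_pi_lambda _ fun o => hgm o))
      (fun v => by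
        have h1 : iIndepFun g (Measure.map (fun ω : V → Bool × Ω => ω v)
          (Measure.infinitePi (fun _ : V => (bern p).prod P))) := by
          rw [(hmp v).map_eq]
          exact hv
        rw [iIndepFun_iff_measure_inter_preimage_eq_mul] at h1 ⊢
        intro S sets hsets
        have h2 := h1 S hsets
        rw [Measure.map_apply (measurable_pi_apply v)] at h2
        · rw [Set.preimage_iInter₂] at h2
          rw [show (⋂ i ∈ S, (fun ω : V → Bool × Ω => g i (ω v)) ⁻¹' sets i) =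
            ⋂ i ∈ S, (fun ω : V → Bool × Ω => ω v) ⁻¹' (g i ⁻¹' sets i) from rfl, h2]
          refine Finset.prod_congr rfl fun i hi => ?_
          rw [Measure.map_apply (measurable_pi_apply v) (hgm i (hsets i hi))]
          rfl
        · exact Finset.measurableSet_biInter _ fun i hi => hgm i (hsets i hi))
    refine h.congr fun i => ?_
    refine Filter.Eventually.of_forall fun ω => ?_
    rcases i with ⟨v, o⟩
    rcases o with _ | n <;> rfl

end Pool.Agent.helper237_G5
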