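import Pool.Agent.helper237_G5.Stmts2

/-!
# The closure theorem: a certificate bounds the probability of a valid labelling from below
-/

set_option autoImplicit false

namespace Pool.Agent.helper237_G5

open Finset

namespace closure_aux

/-! ## Sums -/

theorem prod_sum_pi {ι κ : Type} [Fintype ι] [DecidableEq ι] [Fintype κ] (f : ι → κ → ℝ) :
    ∏ i, ∑ j, f i j = ∑ x : ι → κ, ∏ i, f i (x i) := by
  classical
  have h := Finset.prod_univ_sum (fun _ : ι => (Finset.univ : Finset κ)) f
  rw [Fintype.piFinset_univ] at h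
  exact h

theorem sum_pair {α β : Type} [Fintype α] [Fintype β] (f : α × β → ℝ) :
    ∑ l : α × β, f l = ∑ l : α, ∑ y : β, f (l, y) := Fintype.sum_prod_type f

theorem sum_pairs {α β : Type} [Fintype α] [Fintype β] (f : (Fin 4 → α × β) → ℝ) :
    ∑ k : Fin 4 → α × β, f k = ∑ k : Fin 4 → α, ∑ y : Fin 4 → β, f (fun i => (k i, y i)) := by
  rw [← sum_pair (fun q : (Fin 4 → α) × (Fin 4 → β) => f (fun i => (q.1 i, q.2 i)))]
  refine Fintype.sum_equiv (Equiv.arrowProdEquivProdArrow (Fin 4) (fun _ => α) (fun _ => β)) _ _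
    fun k => ?_
  rfl

theorem sum_path {m : ℕ} (f : Path (m+1) → ℝ) :
    ∑ l : Path (m+1), f l = ∑ l : Path m, ∑ y : Lab, f (l, y) := sum_pair f

theorem sum_paths {m : ℕ} (f : (Fin 4 → Path (m+1)) → ℝ) :
    ∑ k : Fin 4 → Path (m+1), f k =
      ∑ k : Fin 4 → Path m, ∑ y : Fin 4 → Lab, f (fun i => (k i, y i)) := by
  exact sum_pairs f

theorem sum_lab (f : Lab → ℝ) : ∑ y, f y = f .Z + (f .C + ∑ j, f (.U j)) := by
  have h : (Finset.univ : Finset Lab) = {Lab.Z, Lab.C, Lab.U 0, Lab.U 1, Lab.U 2, Lab.U 3, Lab.U 4,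
    Lab.U 5} := by decide
  rw [h, Fin.sum_univ_six]
  simp
  ring

/-! ## Stochastic matrices of the shape of `Tm` -/

/-- the shape of `Tm` -/
noncomputable def mat (σ : Fin 6 → ℝ) (υ κ : ℝ) (j0 : Fin 6) : Lab → Lab → ℝ
  | .Z, .Z => 1
  | .Z, .C => 0
  | .Z, .U _ => 0
  | .C, .Z => 1 - κ - υ
  | .C, .C => κ
  | .C, .U j => if j = j0 then υ else 0
  | .U i, .Z => 1 - σ i
  | .U _, .C => 0
  | .U i, .U j => if i = j then σ i else 0

theorem Tm_eq (e : ℕ → Fin 6) (s : Option ℕ → ℕ → Fin 6 → ℝ) (u k : Option ℕ → ℕ → ℝ)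
    (g : Option ℕ) (n : ℕ) (x y : Lab) :
    Tm e s u k g n x y = mat (s g n) (u g n) (k g n) (e (n+1)) x y := by
  cases x <;> cases y <;> rfl

theorem mat_nonneg {σ : Fin 6 → ℝ} {υ κ : ℝ} (j0 : Fin 6) (h1 : ∀ i, 0 ≤ σ i) (h2 : ∀ i, σ i ≤ 1)
    (h3 : 0 ≤ υ) (h4 : 0 ≤ κ) (h5 : κ + υ ≤ 1) (x y : Lab) : 0 ≤ mat σ υ κ j0 x y := by
  cases x <;> cases y <;> simp only [mat] <;>
    first
    | positivity
    | (split_ifs <;> first | assumption | exact le_rfl | exact h1 _)
    | (linarith [h1 ‹Fin 6›, h2 ‹Fin 6›])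

theorem mat_sum (σ : Fin 6 → ℝ) (υ κ : ℝ) (j0 : Fin 6) (x : Lab) : ∑ y, mat σ υ κ j0 x y = 1 := by
  rw [sum_lab]
  cases x <;> simp [mat]

theorem mat_avg (t : ℝ) (σ1 σ2 : Fin 6 → ℝ) (υ1 υ2 κ1 κ2 : ℝ) (j0 : Fin 6) (x y : Lab) :
    t * mat σ1 υ1 κ1 j0 x y + (1 - t) * mat σ2 υ2 κ2 j0 x y =
      mat (fun i => t * σ1 i + (1 - t) * σ2 i) (t * υ1 + (1 - t) * υ2) (t * κ1 + (1 - t) * κ2) j0
        x y := by
  cases x <;> cases y <;> simp only [mat] <;> (try split_ifs) <;> ring

/-! ## The bounded weights -/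

/-- the conditional weight -/
noncomputable def th (κ M M' y' nt : ℝ) : ℝ := (κ * M / M') * (y' / nt)

theorem th_nonneg {κ M M' y' nt : ℝ} (h1 : 0 ≤ κ) (h2 : 0 ≤ M) (h3 : 0 ≤ M') (h4 : 0 ≤ y')
    (h5 : 0 ≤ nt) : 0 ≤ th κ M M' y' nt := by
  unfold th; positivity

theorem th_le {κ M M' y' nt : ℝ} (h3 : 0 ≤ M') (h4 : 0 ≤ y')
    (h5 : 0 ≤ nt) (h6 : κ * M ≤ M') (h7 : y' ≤ nt) : th κ M M' y' nt ≤ 1 := by
  unfold th
  exact mul_le_one₀ (div_le_one_of_le₀ h6 h3) (by positivity) (div_le_one_of_le₀ h7 h5)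

theorem th_key {K κ M M' y' nt : ℝ} (hM : M = 0 → K = 0) (h4 : 0 ≤ y') (h7 : y' ≤ nt) :
    (K * (nt / M)) * th κ M M' y' nt = K * κ * (y' / M') := by
  unfold th
  by_cases hM0 : M = 0
  · rw [hM hM0]; ring
  · by_cases hn : nt = 0
    · have : y' = 0 := le_antisymm (hn ▸ h7) h4
      rw [hn, this]; ring
    · field_simp

theorem nat4_nonneg {T : Lab → Lab → ℝ} {w : ℕ → ℝ} {Y : (Fin 4 → Lab) → ℝ}
    (hT : ∀ x y, 0 ≤ T x y) (hw : ∀ c, 0 ≤ w c) (hY : ∀ x, 0 ≤ Y x) (y : Fin 4 → Lab) :
    0 ≤ nat4 T w Y y := by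
  unfold nat4
  exact Finset.sum_nonneg fun x _ => mul_nonneg (mul_nonneg (hY x)
    (Finset.prod_nonneg fun i _ => hT _ _)) (hw _)

theorem wUp_nonneg {ρ : ℝ} (h : ρ ≤ 1) (d c : ℕ) : 0 ≤ wUp ρ d c := by
  unfold wUp; split_ifs <;> linarith

theorem wStay_nonneg {ρ : ℝ} (h : ρ ≤ 1) (d c : ℕ) : 0 ≤ wStay ρ d c := by
  unfold wStay; split_ifs <;> linarith

theorem wRise_nonneg {ρ : ℝ} (h : 0 ≤ ρ) (d c : ℕ) : 0 ≤ wRise ρ d c := by
  unfold wRise; split_ifs <;> linarith

theorem need_pre {b n : ℕ} (h : n < b) : need (some b) n = need none n := by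
  simp only [need]
  rw [if_neg (by omega)]

/-! ## Classes -/

theorem cls_mem {m : ℕ} (l : Path m) (y : Lab) :
    cls (m := m+1) (l, y) = cls l ∨ (cls l = none ∧ y.up = true ∧
      cls (m := m+1) (l, y) = some (m+1)) := by
  cases h : cls l with
  | some a => left; simp [cls, h]
  | none =>
    cases hy : y.up with
    | true => right; simp [cls, h, hy]
    | false => left; simp [cls, h, hy]

/-- a function of the class which does not distinguish `some (m+1)` from `none` -/
theorem cls_ind {m : ℕ} {X : Type} (Φ : Option ℕ → X) (hΦ : Φ (some (m+1)) = Φ none) (l : Path m)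
    (y : Lab) : Φ (cls (m := m+1) (l, y)) = Φ (cls l) := by
  rcases cls_mem l y with h | ⟨h1, _, h3⟩
  · rw [h]
  · rw [h3, h1, hΦ]

theorem last_succ {m : ℕ} (l : Path m) (y : Lab) : last (m := m+1) (l, y) = y := rfl

section main

variable {S : ℕ} {p0 : ℝ} {r : ℕ → ℝ} (ct : Cert S p0 r)

/-- the transition matrix -/
noncomputable def TT (g : Option ℕ) (n : ℕ) : Lab → Lab → ℝ := Tm ct.e ct.s ct.u ct.k g n

theorem TT_eq (g : Option ℕ) (n : ℕ) (x y : Lab) :
    TT ct g n x y = mat (ct.s g n) (ct.u g n) (ct.k g n) (ct.e (n+1)) x y := Tm_eq _ _ _ _ _ _ _ _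

theorem TT_nonneg (g : Option ℕ) (n : ℕ) (x y : Lab) : 0 ≤ TT ct g n x y := by
  rw [TT_eq]
  exact mat_nonneg _ (ct.s_nonneg g n) (ct.s_le g n) (ct.u_nonneg g n) (ct.k_nonneg g n)
    (ct.uk_le g n) x y

theorem TT_sum (g : Option ℕ) (n : ℕ) (x : Lab) : ∑ y, TT ct g n x y = 1 := by
  simp only [TT_eq]
  exact mat_sum _ _ _ _ x

theorem TT_pre {b n : ℕ} (h : n < b) : TT ct (some b) n = TT ct none n := by
  funext x y
  rw [TT_eq, TT_eq, ct.u_pre b n h, ct.k_pre b n h]
  have : ct.s (some b) n = ct.s none n := by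
    funext j
    exact ct.s_pre b n j h
  rw [this]

/-- law of the label path -/
noncomputable def kern (g : Option ℕ) : (m : ℕ) → Path m → ℝ
  | 0, x => initW p0 x
  | m+1, l => kern g m l.1 * TT ct g m (last l.1) l.2

theorem initW_nonneg (h0 : 0 ≤ p0) (h1 : p0 ≤ 1) (x : Lab) : 0 ≤ initW p0 x := by
  cases x <;> simp only [initW]
  · exact le_rfl
  · linarith
  · split_ifs
    · exact h0
    · exact le_rfl

theorem initW_sum (p : ℝ) : ∑ x, initW p x = 1 := by
  rw [sum_lab]
  simp [initW]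

theorem kern_nonneg (h0 : 0 ≤ p0) (h1 : p0 ≤ 1) (g : Option ℕ) :
    ∀ (m : ℕ) (l : Path m), 0 ≤ kern ct g m l
  | 0, x => initW_nonneg h0 h1 x
  | m+1, l => mul_nonneg (kern_nonneg h0 h1 g m l.1) (TT_nonneg ct g m _ _)

theorem kern_succ (g : Option ℕ) (m : ℕ) (l : Path m) (y : Lab) :
    kern ct g (m+1) (l, y) = kern ct g m l * TT ct g m (last l) y := rfl

theorem kern_sum (g : Option ℕ) (m : ℕ) (l : Path m) :
    ∑ y, kern ct g (m+1) (l, y) = kern ct g m l := by
  simp only [kern_succ]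
  rw [← Finset.mul_sum, TT_sum, mul_one]

theorem kern_pre {b : ℕ} : ∀ (m : ℕ), m ≤ b → ∀ l : Path m,
    kern ct (some b) m l = kern ct none m l
  | 0, _, _ => rfl
  | m+1, h, l => by
    show kern ct (some b) m l.1 * TT ct (some b) m (last l.1) l.2 =
      kern ct none m l.1 * TT ct none m (last l.1) l.2
    rw [kern_pre m (by omega) l.1, TT_pre ct (by omega)]

theorem kern_star (m : ℕ) : kern ct none m (star m) =
    p0 * ∏ n ∈ Finset.range m, ct.s none n 0 := by
  induction m with
  | zero => simp [kern, star, initW]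
  | succ m ih =>
    have h1 : kern ct none (m+1) (star (m+1)) =
      kern ct none m (star m) * TT ct none m (last (star m)) (Lab.U 0) := rfl
    have h2 : last (star m) = Lab.U 0 := by cases m <;> rfl
    rw [h1, h2, ih, TT_eq, Finset.prod_range_succ]
    simp [mat]
    ring

/-- labels match classes where the weight does not vanish -/
theorem kern_match (g : Option ℕ) : ∀ (m : ℕ) (l : Path m), kern ct g m l ≠ 0 →
    (last l = Lab.C → cls l = none) ∧
      ∀ j, last l = Lab.U j → ∃ a, a ≤ m ∧ cls l = some a ∧ j = ct.e a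
  | 0, x => by
    intro h
    change initW p0 x ≠ 0 at h
    constructor
    · intro hx
      change x = Lab.C at hx
      subst hx
      rfl
    · intro j hx
      change x = Lab.U j at hx
      subst hx
      refine ⟨0, le_rfl, rfl, ?_⟩
      rw [ct.e0]
      by_contra hj
      apply h
      simp [initW, hj]
  | m+1, l => by
    intro h
    change kern ct g m l.1 * TT ct g m (last l.1) l.2 ≠ 0 at h
    obtain ⟨h1, h2⟩ := mul_ne_zero_iff.1 h
    obtain ⟨i1, i2⟩ := kern_match g m l.1 h1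
    rw [TT_eq] at h2
    obtain ⟨l1, y⟩ := l
    change mat _ _ _ _ (last l1) y ≠ 0 at h2
    change (last l1 = Lab.C → cls l1 = none) at i1
    change (∀ j, last l1 = Lab.U j → ∃ a, a ≤ m ∧ cls l1 = some a ∧ j = ct.e a) at i2
    constructor
    · intro hy
      change y = Lab.C at hy
      subst hy
      have hc : last l1 = Lab.C := by
        revert h2
        cases last l1 <;> simp [mat]
      simp [cls, i1 hc, Lab.up]
    · intro j hy
      change y = Lab.U j at hy
      subst hy
      revert h2 i1 i2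
      cases last l1 with
      | Z => intro _ _ h2; simp [mat] at h2
      | C =>
        intro i1 _ h2
        refine ⟨m+1, le_rfl, ?_, ?_⟩
        · simp [cls, i1 rfl, Lab.up]
        · by_contra hj
          apply h2
          simp [mat, hj]
      | U i =>
        intro _ i2 h2
        have hij : i = j := by
          by_contra hj
          apply h2
          simp [mat, hj]
        subst hij
        obtain ⟨a, ha, hc, he⟩ := i2 i rfl
        exact ⟨a, by omega, by simp [cls, hc], he⟩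

/-! ## Extended inequalities -/

/-- total mass of an array -/
noncomputable def MM (h g : Option ℕ) (n : ℕ) : ℝ := ∑ x, ct.Y h g n x

theorem MM_nonneg (h g : Option ℕ) (n : ℕ) : 0 ≤ MM ct h g n :=
  Finset.sum_nonneg fun x _ => ct.Y_nonneg h g n x

theorem Y_pre' {b n : ℕ} (h : Option ℕ) (hn : n ≤ b) : ct.Y h (some b) n = ct.Y h none n :=
  funext fun y => ct.Y_pre h b n y hn

theorem MM_pre {b n : ℕ} (h : Option ℕ) (hn : n ≤ b) : MM ct h (some b) n = MM ct h none n := by
  unfold MM; rw [Y_pre' ct h hn]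

/-- the law after slot `n`, up vertex -/
noncomputable def NU (a : ℕ) (g : Option ℕ) (n : ℕ) (y : Fin 4 → Lab) : ℝ :=
  nat4 (TT ct (some a) n) (wUp (r n) (need g n)) (ct.Y (some a) g n) y

/-- the law after slot `n`, `C` vertex staying -/
noncomputable def NS (g : Option ℕ) (n : ℕ) (y : Fin 4 → Lab) : ℝ :=
  nat4 (TT ct none n) (wStay (r n) (need g n)) (ct.Y none g n) y

/-- the law after slot `n`, `C` vertex rising -/
noncomputable def NR (g : Option ℕ) (n : ℕ) (y : Fin 4 → Lab) : ℝ :=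
  nat4 (TT ct none n) (wRise (r n) (need g n)) (ct.Y none g n) y

theorem NU_pre {a b n : ℕ} (h : n < b) : NU ct a (some b) n = NU ct a none n := by
  funext y
  unfold NU
  rw [need_pre h, Y_pre' ct _ h.le]

theorem NS_pre {b n : ℕ} (h : n < b) : NS ct (some b) n = NS ct none n := by
  funext y
  unfold NS
  rw [need_pre h, Y_pre' ct _ h.le]

theorem NR_pre {b n : ℕ} (h : n < b) : NR ct (some b) n = NR ct none n := by
  funext y
  unfold NR
  rw [need_pre h, Y_pre' ct _ h.le]

theorem NU_nonneg (hr : ∀ n, r n ≤ 1) (a : ℕ) (g : Option ℕ) (n : ℕ) (y : Fin 4 → Lab) :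
    0 ≤ NU ct a g n y :=
  nat4_nonneg (TT_nonneg ct _ _) (wUp_nonneg (hr n) _) (ct.Y_nonneg _ _ _) y

theorem NS_nonneg (hr : ∀ n, r n ≤ 1) (g : Option ℕ) (n : ℕ) (y : Fin 4 → Lab) :
    0 ≤ NS ct g n y :=
  nat4_nonneg (TT_nonneg ct _ _) (wStay_nonneg (hr n) _) (ct.Y_nonneg _ _ _) y

theorem NR_nonneg (hr : ∀ n, 0 ≤ r n) (g : Option ℕ) (n : ℕ) (y : Fin 4 → Lab) :
    0 ≤ NR ct g n y :=
  nat4_nonneg (TT_nonneg ct _ _) (wRise_nonneg (hr n) _) (ct.Y_nonneg _ _ _) y

theorem all_g {Φ : Option ℕ → Prop} (h1 : ∀ g : Option ℕ, (∀ b, g = some b → b ≤ S) → Φ g)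
    (h2 : ∀ b, S < b → Φ none → Φ (some b)) : ∀ g, Φ g := by
  intro g
  rcases g with _ | b
  · exact h1 none (by simp)
  · by_cases hb : b ≤ S
    · exact h1 (some b) (by intro b' h; cases h; exact hb)
    · exact h2 b (by omega) (h1 none (by simp))

theorem up_le' {a n : ℕ} (ha : a ≤ n) (hn : n ≤ S) (y : Fin 4 → Lab) : ∀ g : Option ℕ,
    ct.Y (some a) g (n+1) y ≤ NU ct a g n y := by
  refine all_g (S := S) (fun g hg => ct.up_le a g n ha hn hg y) fun b hb h => ?_
  rw [Y_pre' ct _ (by omega), NU_pre ct (by omega)]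
  exact h

theorem up_mass' {a n : ℕ} (ha : a ≤ n) (hn : n ≤ S) : ∀ g : Option ℕ,
    ct.s g n (ct.e a) * MM ct (some a) g n ≤ MM ct (some a) g (n+1) := by
  refine all_g (S := S) (fun g hg => ct.up_mass a g n ha hn hg) fun b hb h => ?_
  rw [MM_pre ct _ (by omega), MM_pre ct _ (by omega), ct.s_pre b n _ (by omega)]
  exact h

theorem stay_le' {n : ℕ} (hn : n < S) (y : Fin 4 → Lab) : ∀ g : Option ℕ,
    ct.Y none g (n+1) y ≤ NS ct g n y := by
  refine all_g (S := S) (fun g hg => ct.stay_le g n hn hg y) fun b hb h => ?_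
  rw [Y_pre' ct _ (by omega), NS_pre ct (by omega)]
  exact h

theorem stay_mass' {n : ℕ} (hn : n < S) : ∀ g : Option ℕ,
    ct.k g n * MM ct none g n ≤ MM ct none g (n+1) := by
  refine all_g (S := S) (fun g hg => ct.stay_mass g n hn hg) fun b hb h => ?_
  rw [MM_pre ct _ (by omega), MM_pre ct _ (by omega), ct.k_pre b n (by omega)]
  exact h

theorem rise_le' {n : ℕ} (hn : n < S) (y : Fin 4 → Lab) : ∀ g : Option ℕ,
    ct.Y (some (n+1)) g (n+1) y ≤ ct.c n * NR ct g n y := by
  refine all_g (S := S) (fun g hg => ct.rise_le g n hn hg y) fun b hb h => ?_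
  rw [Y_pre' ct _ (by omega), NR_pre ct (by omega)]
  exact h

theorem rise_mass' {n : ℕ} (hn : n < S) : ∀ g : Option ℕ,
    ct.c n * ct.u g n * MM ct none g n ≤ MM ct (some (n+1)) g (n+1) := by
  refine all_g (S := S) (fun g hg => ct.rise_mass g n hn hg) fun b hb h => ?_
  rw [MM_pre ct _ (by omega), MM_pre ct _ (by omega), ct.u_pre b n (by omega)]
  exact h

/-! ## Weights of the steps -/

/-- weight of staying up -/
noncomputable def thU (g : Option ℕ) (n : ℕ) (h : Option ℕ) (j : Fin 6) (y : Fin 4 → Lab) : ℝ :=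
  match h with
  | none => 0
  | some a => if a ≤ n ∧ n ≤ S ∧ j = ct.e a then
      th (ct.s g n j) (MM ct (some a) g n) (MM ct (some a) g (n+1))
        (ct.Y (some a) g (n+1) y) (NU ct a g n y) else 0

/-- weight of staying `C` -/
noncomputable def thS (g : Option ℕ) (n : ℕ) (y : Fin 4 → Lab) : ℝ :=
  if n < S then th (ct.k g n) (MM ct none g n) (MM ct none g (n+1))
    (ct.Y none g (n+1) y) (NS ct g n y) else 0

/-- weight of rising -/
noncomputable def thR (g : Option ℕ) (n : ℕ) (y : Fin 4 → Lab) : ℝ :=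
  if n < S then th (ct.c n * ct.u g n) (MM ct none g n) (MM ct (some (n+1)) g (n+1))
    (ct.Y (some (n+1)) g (n+1) y) (ct.c n * NR ct g n y) else 0

theorem thU_mem (hr : ∀ n, r n ≤ 1) (g : Option ℕ) (n : ℕ) (h : Option ℕ) (j : Fin 6)
    (y : Fin 4 → Lab) : 0 ≤ thU ct g n h j y ∧ thU ct g n h j y ≤ 1 := by
  rcases h with _ | a
  · exact ⟨le_rfl, zero_le_one⟩
  · simp only [thU]
    split_ifs with hc
    · obtain ⟨h1, h2, h3⟩ := hc
      subst h3
      exact ⟨th_nonneg (ct.s_nonneg _ _ _) (MM_nonneg ct _ _ _) (MM_nonneg ct _ _ _)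
        (ct.Y_nonneg _ _ _ _) (NU_nonneg ct hr _ _ _ _),
        th_le (MM_nonneg ct _ _ _) (ct.Y_nonneg _ _ _ _) (NU_nonneg ct hr _ _ _ _)
        (up_mass' ct h1 h2 g) (up_le' ct h1 h2 y g)⟩
    · exact ⟨le_rfl, zero_le_one⟩

theorem thS_mem (hr : ∀ n, r n ≤ 1) (g : Option ℕ) (n : ℕ)
    (y : Fin 4 → Lab) : 0 ≤ thS ct g n y ∧ thS ct g n y ≤ 1 := by
  unfold thS
  split_ifs with hc
  · exact ⟨th_nonneg (ct.k_nonneg _ _) (MM_nonneg ct _ _ _) (MM_nonneg ct _ _ _)
      (ct.Y_nonneg _ _ _ _) (NS_nonneg ct hr _ _ _),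
      th_le (MM_nonneg ct _ _ _) (ct.Y_nonneg _ _ _ _) (NS_nonneg ct hr _ _ _)
      (stay_mass' ct hc g) (stay_le' ct hc y g)⟩
  · exact ⟨le_rfl, zero_le_one⟩

theorem thR_mem (hr : ∀ n, 0 ≤ r n) (g : Option ℕ) (n : ℕ)
    (y : Fin 4 → Lab) : 0 ≤ thR ct g n y ∧ thR ct g n y ≤ 1 := by
  unfold thR
  have hc0 := (ct.c_pos n).le
  split_ifs with hc
  · exact ⟨th_nonneg (mul_nonneg hc0 (ct.u_nonneg _ _)) (MM_nonneg ct _ _ _) (MM_nonneg ct _ _ _)
      (ct.Y_nonneg _ _ _ _) (mul_nonneg hc0 (NR_nonneg ct hr _ _ _)),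
      th_le (MM_nonneg ct _ _ _) (ct.Y_nonneg _ _ _ _) (mul_nonneg hc0 (NR_nonneg ct hr _ _ _))
      (rise_mass' ct hc g) (rise_le' ct hc y g)⟩
  · exact ⟨le_rfl, zero_le_one⟩

theorem thU_pre {b n : ℕ} (hb : n < b) (h : Option ℕ) : thU ct (some b) n h = thU ct none n h := by
  funext j y
  rcases h with _ | a
  · rfl
  · simp only [thU]
    rw [ct.s_pre b n j hb, MM_pre ct _ hb.le, MM_pre ct _ hb, Y_pre' ct _ hb, NU_pre ct hb]

theorem thS_pre {b n : ℕ} (hb : n < b) : thS ct (some b) n = thS ct none n := by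
  funext y
  unfold thS
  rw [ct.k_pre b n hb, MM_pre ct _ hb.le, MM_pre ct _ hb, Y_pre' ct _ hb, NS_pre ct hb]

theorem thR_pre {b n : ℕ} (hb : n < b) : thR ct (some b) n = thR ct none n := by
  funext y
  unfold thR
  rw [ct.u_pre b n hb, MM_pre ct _ hb.le, MM_pre ct _ hb, Y_pre' ct _ hb, NR_pre ct hb]

/-- the weight of a step of the vertex -/
noncomputable def st (g : Option ℕ) (n : ℕ) (h : Option ℕ) (x : Lab) (xs ys : Fin 4 → Lab)
    (y : Lab) (ring : Bool) : ℝ :=
  mat (fun j => if ring = true ∧ cnt xs ys < need g n then 0 else thU ct g n h j ys)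
    (if ring = true ∧ need g n ≤ cnt xs ys then thR ct g n ys else 0)
    (if ring = true ∧ need g n ≤ cnt xs ys then 0 else thS ct g n ys) (ct.e (n+1)) x y

theorem st_nonneg (hr0 : ∀ n, 0 ≤ r n) (hr1 : ∀ n, r n ≤ 1) (g : Option ℕ) (n : ℕ) (h : Option ℕ)
    (x : Lab) (xs ys : Fin 4 → Lab) (y : Lab) (ring : Bool) :
    0 ≤ st ct g n h x xs ys y ring := by
  have hU := thU_mem ct hr1 g n h
  have hS := thS_mem ct hr1 g n ys
  have hR := thR_mem ct hr0 g n ys
  unfold st
  refine mat_nonneg _ (fun i => ?_) (fun i => ?_) ?_ ?_ ?_ x y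
  · split_ifs
    · exact le_rfl
    · exact (hU i ys).1
  · split_ifs
    · exact zero_le_one
    · exact (hU i ys).2
  · split_ifs
    · exact hR.1
    · exact le_rfl
  · split_ifs
    · exact le_rfl
    · exact hS.1
  · split_ifs
    · linarith [hR.2]
    · linarith [hS.2]

theorem st_sum (g : Option ℕ) (n : ℕ) (h : Option ℕ) (x : Lab) (xs ys : Fin 4 → Lab)
    (ring : Bool) : ∑ y, st ct g n h x xs ys y ring = 1 := mat_sum _ _ _ _ x

theorem st_pre {b n : ℕ} (hb : n < b) (h : Option ℕ) (x : Lab) (xs ys : Fin 4 → Lab)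
    (y : Lab) (ring : Bool) : st ct (some b) n h x xs ys y ring = st ct none n h x xs ys y ring := by
  unfold st
  rw [need_pre hb, thU_pre ct hb, thS_pre ct hb, thR_pre ct hb]

theorem st_ok (g : Option ℕ) (n : ℕ) (h : Option ℕ) (x : Lab) (xs ys : Fin 4 → Lab) (y : Lab)
    (o : Own S) (hne : st ct g n h x xs ys y (rg o n) ≠ 0) : stepOK o g n x y (cnt xs ys) := by
  unfold st at hne
  cases x <;> cases y <;> simp only [mat, stepOK] at hne ⊢
  · exact hne rfl
  · exact hne rfl
  · by_contra hcon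
    apply hne
    rw [if_neg hcon]
    split_ifs <;> rfl
  · exact hne rfl
  · rename_i i j
    by_cases hij : i = j
    · refine ⟨hij, fun hr => ?_⟩
      by_contra hcon
      apply hne
      rw [if_pos hij, if_pos ⟨hr, by omega⟩]
    · exact absurd (if_neg hij) hne

theorem st_avg (g : Option ℕ) (n : ℕ) (h : Option ℕ) (x : Lab) (xs ys : Fin 4 → Lab) (y : Lab) :
    r n * st ct g n h x xs ys y true + (1 - r n) * st ct g n h x xs ys y false =
      mat (fun j => wUp (r n) (need g n) (cnt xs ys) * thU ct g n h j ys)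
        (wRise (r n) (need g n) (cnt xs ys) * thR ct g n ys)
        (wStay (r n) (need g n) (cnt xs ys) * thS ct g n ys) (ct.e (n+1)) x y := by
  unfold st
  rw [mat_avg]
  by_cases hc : need g n ≤ cnt xs ys
  · have hc' : ¬ cnt xs ys < need g n := by omega
    congr 1
    · funext j
      simp only [wUp, hc, hc', if_true, and_false, if_false]
      ring
    · simp [wRise, hc]
    · simp [wStay, hc]
  · have hc' : cnt xs ys < need g n := by omega
    congr 1
    · funext j
      simp [wUp, hc, hc']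
    · simp [wRise, hc]
    · simp only [wStay, hc, if_false, and_false, one_mul]
      ring

/-! ## Weights of the paths of a vertex and its children -/

/-- initial weight -/
noncomputable def a0 (p0 p : ℝ) (b : Bool) : Lab → ℝ
  | .Z => 0
  | .C => 1 - (if b = true then p0 / p else 0)
  | .U j => if j = 0 then (if b = true then p0 / p else 0) else 0

/-- weight of the path of a vertex, given the paths of its children -/
noncomputable def AA (p : ℝ) (b : Bool) (ρ : ℕ → Bool) (g : Option ℕ) :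
    (m : ℕ) → Path m → (Fin 4 → Path m) → ℝ
  | 0, x, _ => a0 p0 p b x
  | m+1, l, k => AA p b ρ g m l.1 (fun i => (k i).1) *
      st ct g m (cls l.1) (last l.1) (fun i => last (k i).1) (fun i => (k i).2) l.2 (ρ m)

theorem AA_succ (p : ℝ) (b : Bool) (ρ : ℕ → Bool) (g : Option ℕ) (m : ℕ) (l : Path m) (y : Lab)
    (k : Fin 4 → Path m) (ys : Fin 4 → Lab) :
    AA ct p b ρ g (m+1) (l, y) (fun i => (k i, ys i)) =
      AA ct p b ρ g m l k * st ct g m (cls l) (last l) (fun i => last (k i)) ys y (ρ m) := rfl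

theorem a0_nonneg {p : ℝ} (h0 : 0 < p0) (hp : p0 ≤ p) (b : Bool) (x : Lab) : 0 ≤ a0 p0 p b x := by
  have h1 : p0 / p ≤ 1 := div_le_one_of_le₀ hp (h0.le.trans hp)
  have h2 : 0 ≤ p0 / p := div_nonneg h0.le (h0.le.trans hp)
  cases x with
  | Z => exact le_rfl
  | C => simp only [a0]; split_ifs <;> linarith
  | U j => simp only [a0]; split_ifs <;> first | exact h2 | exact le_rfl

theorem a0_sum (p : ℝ) (b : Bool) : ∑ x, a0 p0 p b x = 1 := by
  rw [sum_lab]
  simp [a0]

theorem AA_nonneg {p : ℝ} (h0 : 0 < p0) (hp : p0 ≤ p) (hr0 : ∀ n, 0 ≤ r n) (hr1 : ∀ n, r n ≤ 1)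
    (b : Bool) (ρ : ℕ → Bool) (g : Option ℕ) :
    ∀ (m : ℕ) (l : Path m) (k : Fin 4 → Path m), 0 ≤ AA ct p b ρ g m l k
  | 0, x, _ => a0_nonneg h0 hp b x
  | m+1, _, _ => mul_nonneg (AA_nonneg h0 hp hr0 hr1 b ρ g m _ _)
    (st_nonneg ct hr0 hr1 _ _ _ _ _ _ _ _)

theorem AA_pre (p : ℝ) (b : Bool) (ρ : ℕ → Bool) {b' : ℕ} :
    ∀ (m : ℕ), m ≤ b' → ∀ (l : Path m) (k : Fin 4 → Path m),
      AA ct p b ρ (some b') m l k = AA ct p b ρ none m l k
  | 0, _, _, _ => rfl
  | m+1, h, l, k => by
    show AA ct p b ρ (some b') m l.1 (fun i => (k i).1) *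
      st ct (some b') m (cls l.1) (last l.1) (fun i => last (k i).1) (fun i => (k i).2) l.2 (ρ m) =
      AA ct p b ρ none m l.1 (fun i => (k i).1) *
      st ct none m (cls l.1) (last l.1) (fun i => last (k i).1) (fun i => (k i).2) l.2 (ρ m)
    rw [AA_pre p b ρ m (by omega), st_pre ct (by omega)]

theorem AA_ok {p : ℝ} (o : Own S) (g : Option ℕ) :
    ∀ (m : ℕ) (l : Path m) (k : Fin 4 → Path m), AA ct p o.1 (rg o) g m l k ≠ 0 → okPath o g m l k
  | 0, x, _ => by
    intro h hx
    change a0 p0 p o.1 x ≠ 0 at h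
    cases x with
    | Z => simp [Lab.up] at hx
    | C => simp [Lab.up] at hx
    | U j =>
      simp only [a0] at h
      by_contra hcon
      apply h
      rw [if_neg hcon]
      split_ifs <;> rfl
  | m+1, l, k => by
    intro h
    change AA ct p o.1 (rg o) g m l.1 (fun i => (k i).1) *
      st ct g m (cls l.1) (last l.1) (fun i => last (k i).1) (fun i => (k i).2) l.2 (rg o m) ≠ 0 at h
    obtain ⟨h1, h2⟩ := mul_ne_zero_iff.1 h
    exact ⟨AA_ok o g m _ _ h1, st_ok ct _ _ _ _ _ _ _ o h2⟩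

theorem prod_ext (ψ : ℕ → Bool → ℝ) (χ : Bool → ℝ) (m : ℕ) (ρ : ℕ → Bool) :
    ∏ n ∈ Finset.range (m+1), Function.update ψ m χ n (ρ n) =
      (∏ n ∈ Finset.range m, ψ n (ρ n)) * χ (ρ m) := by
  rw [Finset.prod_range_succ, Function.update_self]
  congr 1
  refine Finset.prod_congr rfl fun n hn => ?_
  rw [Finset.mem_range] at hn
  rw [Function.update_of_ne (by omega)]

theorem AA_form (p : ℝ) (g : Option ℕ) : ∀ (m : ℕ) (l : Path m) (k : Fin 4 → Path m),
    ∃ (φ : Bool → ℝ) (ψ : ℕ → Bool → ℝ), ∀ (b : Bool) (ρ : ℕ → Bool),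
      AA ct p b ρ g m l k = φ b * ∏ n ∈ Finset.range m, ψ n (ρ n)
  | 0, x, _ => ⟨fun b => a0 p0 p b x, fun _ _ => 1, fun b ρ => by simp [AA]⟩
  | m+1, l, k => by
    obtain ⟨φ, ψ, h⟩ := AA_form p g m l.1 (fun i => (k i).1)
    refine ⟨φ, Function.update ψ m (fun b => st ct g m (cls l.1) (last l.1)
      (fun i => last (k i).1) (fun i => (k i).2) l.2 b), fun b ρ => ?_⟩
    rw [prod_ext, ← mul_assoc, ← h]
    rfl

theorem prod_split (f : ℕ → ℝ) {m : ℕ} (hm : m ≤ S + 1) :
    ∏ n ∈ Finset.range m, f n =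
      (∏ n : Fin S, (if (n : ℕ) < m then f n else 1)) * (if S < m then f S else 1) := by
  rw [← Finset.prod_range (fun n => if n < m then f n else 1)]
  by_cases h : S < m
  · have hm' : m = S + 1 := by omega
    subst hm'
    rw [if_pos h, Finset.prod_range_succ]
    congr 1
    refine Finset.prod_congr rfl fun n hn => ?_
    rw [Finset.mem_range] at hn
    rw [if_pos (by omega)]
  · rw [if_neg h, mul_one, ← Finset.prod_filter]
    refine Finset.prod_congr ?_ fun _ _ => rfl
    ext n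
    simp only [Finset.mem_range, Finset.mem_filter]
    omega

theorem avg_prod {p : ℝ} (hrS : r S = 1) (φ : Bool → ℝ) (ψ : ℕ → Bool → ℝ) {m : ℕ}
    (hm : m ≤ S + 1) :
    ∑ o : Own S, ownWt p r o * (φ o.1 * ∏ n ∈ Finset.range m, ψ n (rg o n)) =
      (p * φ true + (1 - p) * φ false) *
        ∏ n ∈ Finset.range m, (r n * ψ n true + (1 - r n) * ψ n false) := by
  rw [sum_pair (fun o : Own S => ownWt p r o * (φ o.1 * ∏ n ∈ Finset.range m, ψ n (rg o n)))]
  have h1 : ∀ (b : Bool) (ρ : Fin S → Bool),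
      ownWt p r ((b, ρ) : Own S) * (φ b * ∏ n ∈ Finset.range m, ψ n (rg ((b, ρ) : Own S) n)) =
      ((if b = true then p else 1 - p) * φ b) * (if S < m then ψ S true else 1) *
        ∏ n : Fin S, ((if ρ n = true then r n else 1 - r n) *
          (if (n : ℕ) < m then ψ n (ρ n) else 1)) := by
    intro b ρ
    rw [prod_split (fun n => ψ n (rg ((b, ρ) : Own S) n)) hm, Finset.prod_mul_distrib]
    have e1 : ∏ n : Fin S, (if (n : ℕ) < m then ψ n (rg ((b, ρ) : Own S) n) else 1) =
        ∏ n : Fin S, (if (n : ℕ) < m then ψ n (ρ n) else 1) := by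
      refine Finset.prod_congr rfl fun n _ => ?_
      have : rg ((b, ρ) : Own S) n = ρ n := by
        unfold rg
        rw [dif_pos n.2]
      rw [this]
    have e2 : rg ((b, ρ) : Own S) S = true := by
      unfold rg
      rw [dif_neg (lt_irrefl S)]
    rw [e1, e2]
    unfold ownWt
    ring
  rw [Finset.sum_congr rfl fun b _ => Finset.sum_congr rfl fun ρ _ => h1 b ρ]
  simp only [← Finset.mul_sum]
  rw [← prod_sum_pi (fun (n : Fin S) (b : Bool) => (if b = true then r n else 1 - r n) *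
    (if (n : ℕ) < m then ψ n b else 1))]
  rw [prod_split (fun n => r n * ψ n true + (1 - r n) * ψ n false) hm]
  have e3 : ∀ n : Fin S, ∑ b : Bool, (if b = true then r n else 1 - r n) *
      (if (n : ℕ) < m then ψ n b else 1) =
      if (n : ℕ) < m then r n * ψ n true + (1 - r n) * ψ n false else 1 := by
    intro n
    rw [Fintype.sum_bool]
    simp only [if_true, Bool.false_eq_true, if_false]
    split_ifs <;> ring
  rw [Finset.prod_congr rfl (fun n _ => e3 n), ← Finset.sum_mul, ← Finset.sum_mul,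
    Fintype.sum_bool, hrS]
  simp only [if_true, Bool.false_eq_true, if_false]
  by_cases h : S < m
  · simp only [h, if_true]; ring
  · simp only [h, if_false]; ring

/-- the averaged weight -/
noncomputable def AB (p : ℝ) (g : Option ℕ) (m : ℕ) (l : Path m) (k : Fin 4 → Path m) : ℝ :=
  ∑ o : Own S, ownWt p r o * AA ct p o.1 (rg o) g m l k

theorem AB_zero {p : ℝ} (h0 : 0 < p0) (hp : p0 ≤ p) (hrS : r S = 1) (g : Option ℕ) (x : Path 0)
    (k : Fin 4 → Path 0) : AB ct p g 0 x k = initW p0 x := by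
  unfold AB
  have h := avg_prod (r := r) (S := S) (p := p) hrS (fun b => a0 p0 p b x) (fun _ _ => 1) (m := 0)
    (Nat.zero_le _)
  simp only [Finset.range_zero, Finset.prod_empty, mul_one] at h
  refine h.trans ?_
  have hp0 : p ≠ 0 := (h0.trans_le hp).ne'
  cases x with
  | Z => simp [a0, initW]
  | C => simp only [a0, initW]; simp; field_simp; ring
  | U j =>
    by_cases hj : j = 0
    · simp only [a0, initW, hj]; simp; field_simp
    · simp [a0, initW, hj]

theorem AB_succ {p : ℝ} (hrS : r S = 1) (g : Option ℕ) {m : ℕ} (hm : m ≤ S) (l : Path m) (y : Lab)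
    (k : Fin 4 → Path m) (ys : Fin 4 → Lab) :
    AB ct p g (m+1) (l, y) (fun i => (k i, ys i)) = AB ct p g m l k *
      mat (fun j => wUp (r m) (need g m) (cnt (fun i => last (k i)) ys) * thU ct g m (cls l) j ys)
        (wRise (r m) (need g m) (cnt (fun i => last (k i)) ys) * thR ct g m ys)
        (wStay (r m) (need g m) (cnt (fun i => last (k i)) ys) * thS ct g m ys) (ct.e (m+1))
        (last l) y := by
  unfold AB
  obtain ⟨φ, ψ, h⟩ := AA_form ct p g m l k
  have e1 : ∀ o : Own S, ownWt p r o * AA ct p o.1 (rg o) g (m+1) (l, y)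
      (fun i => (k i, ys i)) =
      ownWt p r o * (φ o.1 * ∏ n ∈ Finset.range (m+1), Function.update ψ m
        (fun b => st ct g m (cls l) (last l) (fun i => last (k i)) ys y b) n (rg o n)) := by
    intro o
    rw [AA_succ, h, prod_ext, mul_assoc (φ o.1)]
  rw [Finset.sum_congr rfl (fun o _ => e1 o), avg_prod hrS φ _ (by omega)]
  have e2 : ∀ o : Own S, ownWt p r o * AA ct p o.1 (rg o) g m l k =
      ownWt p r o * (φ o.1 * ∏ n ∈ Finset.range m, ψ n (rg o n)) := by
    intro o
    rw [h]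
  rw [Finset.sum_congr rfl (fun o _ => e2 o), avg_prod hrS φ ψ (by omega),
    Finset.prod_range_succ, mul_assoc, Function.update_self, st_avg]
  congr 2
  refine Finset.prod_congr rfl fun n hn => ?_
  rw [Finset.mem_range] at hn
  rw [Function.update_of_ne (by omega)]

/-! ## The array identity -/

/-- sum over the children's paths with a test function of the last labels -/
noncomputable def GG (p : ℝ) (g : Option ℕ) (m : ℕ) (l : Path m) (φ : (Fin 4 → Lab) → ℝ) : ℝ :=
  ∑ k : Fin 4 → Path m, AB ct p g m l k * (∏ i, kern ct (cls l) m (k i)) *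
    φ (fun i => last (k i))

/-- the averaged step matrix -/
noncomputable def BB (g : Option ℕ) (m : ℕ) (h : Option ℕ) (x y : Lab) (xs ys : Fin 4 → Lab) : ℝ :=
  mat (fun j => wUp (r m) (need g m) (cnt xs ys) * thU ct g m h j ys)
    (wRise (r m) (need g m) (cnt xs ys) * thR ct g m ys)
    (wStay (r m) (need g m) (cnt xs ys) * thS ct g m ys) (ct.e (m+1)) x y

theorem BB_sum (g : Option ℕ) (m : ℕ) (h : Option ℕ) (x : Lab) (xs ys : Fin 4 → Lab) :
    ∑ y, BB ct g m h x y xs ys = 1 := mat_sum _ _ _ _ x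

theorem GG_succ {p : ℝ} (hrS : r S = 1) (g : Option ℕ) {m : ℕ} (hm : m ≤ S) (l : Path m) (y : Lab)
    (φ : (Fin 4 → Lab) → ℝ) :
    GG ct p g (m+1) (l, y) φ = GG ct p g m l (fun xs => ∑ ys : Fin 4 → Lab,
      BB ct g m (cls l) (last l) y xs ys * (∏ i, TT ct (cls l) m (xs i) (ys i)) * φ ys) := by
  unfold GG
  rw [sum_paths]
  refine Finset.sum_congr rfl fun k _ => ?_
  rw [Finset.mul_sum]
  refine Finset.sum_congr rfl fun ys _ => ?_
  rw [AB_succ ct hrS g hm]
  have e1 : ∀ i, kern ct (cls (m := m+1) (l, y)) (m+1) (k i, ys i) =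
      kern ct (cls l) m (k i) * TT ct (cls l) m (last (k i)) (ys i) := by
    intro i
    rw [cls_ind (fun h => kern ct h (m+1) (k i, ys i)) (kern_pre ct (m+1) le_rfl _) l y]
    rfl
  rw [Finset.prod_congr rfl fun i _ => e1 i, Finset.prod_mul_distrib]
  simp only [last_succ]
  unfold BB
  ring

theorem GG_zero_fun (p : ℝ) (g : Option ℕ) (m : ℕ) (l : Path m) :
    GG ct p g m l (fun _ => 0) = 0 := by
  unfold GG
  simp

theorem GG_sum_last {p : ℝ} (hrS : r S = 1) (g : Option ℕ) {m : ℕ} (hm : m ≤ S) (l : Path m) :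
    ∑ y, GG ct p g (m+1) (l, y) (fun _ => 1) = GG ct p g m l (fun _ => 1) := by
  simp only [GG_succ ct hrS g hm]
  unfold GG
  rw [Finset.sum_comm]
  refine Finset.sum_congr rfl fun k _ => ?_
  rw [← Finset.mul_sum]
  congr 1
  rw [Finset.sum_comm]
  have e1 : ∀ ys : Fin 4 → Lab, ∑ y, BB ct g m (cls l) (last l) y (fun i => last (k i)) ys *
      (∏ i, TT ct (cls l) m (last (k i)) (ys i)) * 1 =
      ∏ i, TT ct (cls l) m (last (k i)) (ys i) := by
    intro ys
    rw [← Finset.sum_mul, ← Finset.sum_mul, BB_sum]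
    ring
  rw [Finset.sum_congr rfl fun ys _ => e1 ys,
    ← prod_sum_pi (fun (i : Fin 4) (y : Lab) => TT ct (cls l) m (last (k i)) y)]
  simp only [TT_sum]
  simp

/-- the claim for alive labels -/
def Claim (p : ℝ) (g : Option ℕ) (m : ℕ) (l : Path m) : Prop :=
  (MM ct (cls l) g m = 0 → kern ct g m l = 0) ∧
    ∀ φ : (Fin 4 → Lab) → ℝ, GG ct p g m l φ =
      kern ct g m l * ∑ x, ct.Y (cls l) g m x / MM ct (cls l) g m * φ x

theorem Claim.tot {p : ℝ} {g : Option ℕ} {m : ℕ} {l : Path m} (h : Claim ct p g m l) :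
    GG ct p g m l (fun _ => 1) = kern ct g m l := by
  rw [h.2]
  simp only [mul_one]
  rw [← Finset.sum_div]
  change _ * (MM ct (cls l) g m / MM ct (cls l) g m) = _
  by_cases h0 : MM ct (cls l) g m = 0
  · rw [h.1 h0, zero_mul]
  · rw [div_self h0, mul_one]

theorem claim_of_zero {p : ℝ} {g : Option ℕ} {m : ℕ} {l : Path m}
    (h1 : kern ct g m l = 0) (h2 : ∀ φ, GG ct p g m l φ = 0) : Claim ct p g m l :=
  ⟨fun _ => h1, fun φ => by rw [h2, h1, zero_mul]⟩

/-- the general step -/
theorem step_gen {p : ℝ} (hrS : r S = 1) (g : Option ℕ) {m : ℕ} (hm : m ≤ S) (l : Path m) (y : Lab)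
    (hl : Claim ct p g m l) (w : ℕ → ℝ) (θ : (Fin 4 → Lab) → ℝ)
    (hB : ∀ xs ys, BB ct g m (cls l) (last l) y xs ys = w (cnt xs ys) * θ ys)
    (φ : (Fin 4 → Lab) → ℝ) :
    GG ct p g (m+1) (l, y) φ = ∑ ys, (kern ct g m l *
      (nat4 (TT ct (cls l) m) w (ct.Y (cls l) g m) ys / MM ct (cls l) g m)) * θ ys * φ ys := by
  rw [GG_succ ct hrS g hm, hl.2, Finset.mul_sum]
  simp only [hB]
  unfold nat4
  have e1 : ∀ x : Fin 4 → Lab, kern ct g m l * (ct.Y (cls l) g m x / MM ct (cls l) g m *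
      ∑ ys : Fin 4 → Lab, w (cnt x ys) * θ ys * (∏ i, TT ct (cls l) m (x i) (ys i)) * φ ys) =
      ∑ ys : Fin 4 → Lab, kern ct g m l * (ct.Y (cls l) g m x *
        (∏ i, TT ct (cls l) m (x i) (ys i)) * w (cnt x ys) / MM ct (cls l) g m) * θ ys * φ ys := by
    intro x
    rw [Finset.mul_sum, Finset.mul_sum]
    refine Finset.sum_congr rfl fun ys _ => ?_
    ring
  rw [Finset.sum_congr rfl fun x _ => e1 x, Finset.sum_comm]
  refine Finset.sum_congr rfl fun ys _ => ?_
  rw [← Finset.sum_mul, ← Finset.sum_mul, ← Finset.mul_sum, ← Finset.sum_div]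

theorem BB_U (g : Option ℕ) (m : ℕ) (h : Option ℕ) (j : Fin 6) (xs ys : Fin 4 → Lab) :
    BB ct g m h (.U j) (.U j) xs ys = wUp (r m) (need g m) (cnt xs ys) * thU ct g m h j ys := by
  simp [BB, mat]

/-- the claim is preserved in alive steps -/
theorem claim_step {p : ℝ} (hrS : r S = 1) (g : Option ℕ) {m : ℕ}
    (hm : m ≤ S) (l : Path m) (y : Lab) (hy : y ≠ .Z)
    (hl : last l ≠ .Z → Claim ct p g m l) :
    Claim ct p g (m+1) (l, y) := by
  have hdead : (∀ xs ys, BB ct g m (cls l) (last l) y xs ys = 0) →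
      TT ct g m (last l) y = 0 → Claim ct p g (m+1) (l, y) := by
    intro h1 h2
    refine claim_of_zero ct (by rw [kern_succ, h2, mul_zero]) fun φ => ?_
    rw [GG_succ ct hrS g hm]
    simp only [h1, zero_mul, Finset.sum_const_zero]
    exact GG_zero_fun ct p g m l
  cases hx : last l with
  | Z =>
    apply hdead
    · intro xs ys
      rw [hx]
      cases y with
      | Z => exact absurd rfl hy
      | C => rfl
      | U j => rfl
    · rw [hx, TT_eq]
      cases y with
      | Z => exact absurd rfl hy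
      | C => rfl
      | U j => rfl
  | C =>
    have hC := hl (by rw [hx]; simp)
    cases y with
    | Z => exact absurd rfl hy
    | C =>
      by_cases hK : kern ct g m l = 0
      · refine claim_of_zero ct (by rw [kern_succ, hK, zero_mul]) fun φ => ?_
        rw [GG_succ ct hrS g hm, hC.2, hK, zero_mul]
      have hcl : cls l = none := (kern_match ct g m l hK).1 hx
      have hcl' : cls (m := m+1) (l, Lab.C) = none := by simp [cls, hcl, Lab.up]
      by_cases hmS : m < S
      · have hks : kern ct g (m+1) (l, Lab.C) = kern ct g m l * ct.k g m := by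
          rw [kern_succ, hx, TT_eq]; rfl
        have hM0 : MM ct none g m = 0 → kern ct g m l = 0 := by
          have := hC.1
          rwa [hcl] at this
        constructor
        · intro h0
          rw [hcl'] at h0
          have h1 := stay_mass' ct hmS g
          rw [h0] at h1
          have h2 : ct.k g m * MM ct none g m = 0 :=
            le_antisymm h1 (mul_nonneg (ct.k_nonneg _ _) (MM_nonneg ct _ _ _))
          rw [hks]
          rcases mul_eq_zero.1 h2 with h3 | h3
          · rw [h3, mul_zero]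
          · rw [hM0 h3, zero_mul]
        · intro φ
          rw [step_gen ct hrS g hm l Lab.C hC (wStay (r m) (need g m)) (thS ct g m)
            (fun xs ys => by rw [hx]; rfl) φ, hcl', hks, Finset.mul_sum]
          refine Finset.sum_congr rfl fun ys _ => ?_
          rw [hcl]
          have h3 : nat4 (TT ct none m) (wStay (r m) (need g m)) (ct.Y none g m) ys =
            NS ct g m ys := rfl
          rw [h3]
          have h4 : thS ct g m ys = th (ct.k g m) (MM ct none g m) (MM ct none g (m+1))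
            (ct.Y none g (m+1) ys) (NS ct g m ys) := by
            unfold thS; rw [if_pos hmS]
          rw [h4, th_key hM0 (ct.Y_nonneg _ _ _ _) (stay_le' ct hmS ys g)]
          ring
      · have hmS' : m = S := by omega
        apply hdead
        · intro xs ys
          rw [hx]
          simp [BB, mat, thS, hmS]
        · rw [hx, TT_eq]
          simp [mat, hmS', ct.kS]
    | U j =>
      by_cases hj : j = ct.e (m+1)
      · by_cases hK : kern ct g m l = 0
        · refine claim_of_zero ct (by rw [kern_succ, hK, zero_mul]) fun φ => ?_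
          rw [GG_succ ct hrS g hm, hC.2, hK, zero_mul]
        have hcl : cls l = none := (kern_match ct g m l hK).1 hx
        have hcl' : cls (m := m+1) (l, Lab.U j) = some (m+1) := by simp [cls, hcl, Lab.up]
        by_cases hmS : m < S
        · have hks : kern ct g (m+1) (l, Lab.U j) = kern ct g m l * ct.u g m := by
            rw [kern_succ, hx, TT_eq]
            simp [mat, hj]
          have hM0 : MM ct none g m = 0 → kern ct g m l = 0 := by
            have := hC.1
            rwa [hcl] at this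
          have hc0 := ct.c_pos m
          constructor
          · intro h0
            rw [hcl'] at h0
            have h1 := rise_mass' ct hmS g
            rw [h0] at h1
            have h2 : ct.c m * ct.u g m * MM ct none g m = 0 :=
              le_antisymm h1 (mul_nonneg (mul_nonneg hc0.le (ct.u_nonneg _ _))
                (MM_nonneg ct _ _ _))
            rw [hks]
            rcases mul_eq_zero.1 h2 with h3 | h3
            · rcases mul_eq_zero.1 h3 with h4 | h4
              · exact absurd h4 hc0.ne'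
              · rw [h4, mul_zero]
            · rw [hM0 h3, zero_mul]
          · intro φ
            rw [step_gen ct hrS g hm l (Lab.U j) hC (wRise (r m) (need g m)) (thR ct g m)
              (fun xs ys => by rw [hx]; simp [BB, mat, hj]) φ, hcl', hks, Finset.mul_sum]
            refine Finset.sum_congr rfl fun ys _ => ?_
            rw [hcl]
            have h3 : nat4 (TT ct none m) (wRise (r m) (need g m)) (ct.Y none g m) ys =
              NR ct g m ys := rfl
            rw [h3]
            have h4 : thR ct g m ys = th (ct.c m * ct.u g m) (MM ct none g m)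
              (MM ct (some (m+1)) g (m+1)) (ct.Y (some (m+1)) g (m+1) ys)
              (ct.c m * NR ct g m ys) := by
              unfold thR; rw [if_pos hmS]
            have h5 := th_key (κ := ct.c m * ct.u g m) (M' := MM ct (some (m+1)) g (m+1)) hM0
              (ct.Y_nonneg (some (m+1)) g (m+1) ys) (rise_le' ct hmS ys g)
            rw [← h4] at h5
            have h6 : ct.c m * (kern ct g m l * (NR ct g m ys / MM ct none g m) *
              thR ct g m ys) = ct.c m * (kern ct g m l * ct.u g m *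
              (ct.Y (some (m+1)) g (m+1) ys / MM ct (some (m+1)) g (m+1))) := by
              have : kern ct g m l * (ct.c m * NR ct g m ys / MM ct none g m) * thR ct g m ys =
                ct.c m * (kern ct g m l * (NR ct g m ys / MM ct none g m) * thR ct g m ys) := by
                ring
              rw [← this, h5]
              ring
            have h7 := mul_left_cancel₀ hc0.ne' h6
            rw [h7]
            ring
        · have hmS' : m = S := by omega
          apply hdead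
          · intro xs ys
            rw [hx]
            simp [BB, mat, thR, hmS]
          · rw [hx, TT_eq]
            simp [mat, hmS', ct.uS]
      · apply hdead
        · intro xs ys
          rw [hx]
          simp [BB, mat, hj]
        · rw [hx, TT_eq]
          simp [mat, hj]
  | U i =>
    have hC := hl (by rw [hx]; simp)
    cases y with
    | Z => exact absurd rfl hy
    | C =>
      apply hdead
      · intro xs ys
        rw [hx]
        rfl
      · rw [hx, TT_eq]
        rfl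
    | U j =>
      by_cases hij : i = j
      · subst hij
        by_cases hK : kern ct g m l = 0
        · refine claim_of_zero ct (by rw [kern_succ, hK, zero_mul]) fun φ => ?_
          rw [GG_succ ct hrS g hm, hC.2, hK, zero_mul]
        obtain ⟨a, ha, hcl, hia⟩ := (kern_match ct g m l hK).2 i hx
        have hcl' : cls (m := m+1) (l, Lab.U i) = some a := by simp [cls, hcl]
        have hks : kern ct g (m+1) (l, Lab.U i) = kern ct g m l * ct.s g m i := by
          rw [kern_succ, hx, TT_eq]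
          simp [mat]
        have hM0 : MM ct (some a) g m = 0 → kern ct g m l = 0 := by
          have := hC.1
          rwa [hcl] at this
        constructor
        · intro h0
          rw [hcl'] at h0
          have h1 := up_mass' ct ha hm g
          rw [h0, ← hia] at h1
          have h2 : ct.s g m i * MM ct (some a) g m = 0 :=
            le_antisymm h1 (mul_nonneg (ct.s_nonneg _ _ _) (MM_nonneg ct _ _ _))
          rw [hks]
          rcases mul_eq_zero.1 h2 with h3 | h3
          · rw [h3, mul_zero]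
          · rw [hM0 h3, zero_mul]
        · intro φ
          rw [step_gen ct hrS g hm l (Lab.U i) hC (wUp (r m) (need g m))
            (fun ys => thU ct g m (some a) i ys)
            (fun xs ys => by rw [hx, BB_U, hcl]) φ, hcl', hks, Finset.mul_sum]
          refine Finset.sum_congr rfl fun ys _ => ?_
          rw [hcl]
          have h3 : nat4 (TT ct (some a) m) (wUp (r m) (need g m)) (ct.Y (some a) g m) ys =
            NU ct a g m ys := rfl
          rw [h3]
          have h4 : thU ct g m (some a) i ys = th (ct.s g m i) (MM ct (some a) g m)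
            (MM ct (some a) g (m+1)) (ct.Y (some a) g (m+1) ys) (NU ct a g m ys) := by
            simp only [thU]; rw [if_pos ⟨ha, hm, hia⟩]
          rw [h4, th_key hM0 (ct.Y_nonneg _ _ _ _) (up_le' ct ha hm ys g)]
          ring
      · apply hdead
        · intro xs ys
          rw [hx]
          simp [BB, mat, hij]
        · rw [hx, TT_eq]
          simp [mat, hij]

theorem claim_zero {p : ℝ} (h0 : 0 < p0) (hp : p0 ≤ p) (hrS : r S = 1) (g : Option ℕ)
    (x : Path 0) (hx : last x ≠ .Z) : Claim ct p g 0 x := by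
  change Lab at x
  change x ≠ Lab.Z at hx
  have hG : ∀ φ : (Fin 4 → Lab) → ℝ, GG ct p g 0 x φ =
      initW p0 x * ∑ k : Fin 4 → Lab, (∏ i, initW p0 (k i)) * φ k := by
    intro φ
    unfold GG
    rw [Finset.mul_sum]
    refine Finset.sum_congr rfl fun k _ => ?_
    exact (congrArg (fun t => t * (∏ i, initW p0 (k i)) * φ k)
      (AB_zero ct h0 hp hrS g x k)).trans (mul_assoc _ _ _)
  have key : ∀ h : Option ℕ, (∀ y, ct.Y h g 0 y = ct.c0 * ∏ i, initW p0 (y i)) →
      cls (m := 0) x = h → Claim ct p g 0 x := by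
    intro h hY hc
    have hM : MM ct h g 0 = ct.c0 := by
      unfold MM
      rw [Finset.sum_congr rfl fun y _ => hY y, ← Finset.mul_sum,
        ← prod_sum_pi (fun (_ : Fin 4) (y : Lab) => initW p0 y)]
      simp [initW_sum]
    have hc0 := ct.c0_pos
    constructor
    · intro h1
      rw [hc, hM] at h1
      exact absurd h1 hc0.ne'
    · intro φ
      rw [hG, hc, hM]
      change _ = initW p0 x * _
      congr 1
      refine Finset.sum_congr rfl fun k _ => ?_
      rw [hY, mul_div_cancel_left₀ _ hc0.ne']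
  cases x with
  | Z => exact absurd rfl hx
  | C => exact key none (ct.initC g) rfl
  | U j => exact key (some 0) (ct.initU g) rfl

/-- the array identity -/
theorem main_array {p : ℝ} (h0 : 0 < p0) (hp : p0 ≤ p) (hrS : r S = 1) (g : Option ℕ) :
    ∀ m : ℕ, m ≤ S + 1 → ∀ l : Path m, (last l ≠ .Z → Claim ct p g m l) ∧
      GG ct p g m l (fun _ => 1) = kern ct g m l := by
  intro m
  induction m with
  | zero =>
    intro _ x
    have h1 := claim_zero ct h0 hp hrS g x
    refine ⟨h1, ?_⟩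
    by_cases hx : last x = .Z
    · change Lab at x
      change x = Lab.Z at hx
      subst hx
      unfold GG
      have : ∀ k : Fin 4 → Path 0, AB ct p g 0 Lab.Z k = 0 := fun k =>
        AB_zero ct h0 hp hrS g Lab.Z k
      simp only [this, zero_mul, Finset.sum_const_zero]
      rfl
    · exact (h1 hx).tot ct
  | succ m ih =>
    intro hm l
    obtain ⟨l, y⟩ := l
    obtain ⟨ih1, ih2⟩ := ih (by omega) l
    have hst : ∀ y, y ≠ Lab.Z → Claim ct p g (m+1) (l, y) := fun y hy =>
      claim_step ct hrS g (by omega) l y hy ih1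
    refine ⟨fun hy => hst y hy, ?_⟩
    by_cases hy : y = .Z
    · subst hy
      have h1 := GG_sum_last ct (p := p) hrS g (m := m) (by omega) l
      have h2 := kern_sum ct g m l
      rw [ih2, ← h2] at h1
      rw [← Finset.add_sum_erase _ _ (Finset.mem_univ Lab.Z),
        ← Finset.add_sum_erase _ (fun y => kern ct g (m+1) (l, y)) (Finset.mem_univ Lab.Z)] at h1
      rw [Finset.sum_congr rfl (g := fun y => kern ct g (m+1) (l, y))
        (fun y hy => (hst y (Finset.ne_of_mem_erase hy)).tot ct)] at h1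
      exact add_right_cancel h1
    · exact (hst y hy).tot ct

/-! ## Families of weights -/

theorem ownWt_nonneg {p : ℝ} (hp0 : 0 ≤ p) (hp1 : p ≤ 1) (hr0 : ∀ n, 0 ≤ r n) (hr1 : ∀ n, r n ≤ 1)
    (o : Own S) : 0 ≤ ownWt p r o := by
  unfold ownWt
  refine mul_nonneg ?_ (Finset.prod_nonneg fun n _ => ?_)
  · split_ifs <;> linarith
  · split_ifs
    · exact hr0 n
    · linarith [hr1 n]

theorem wt_nonneg {p : ℝ} (hp0 : 0 ≤ p) (hp1 : p ≤ 1) (hr0 : ∀ n, 0 ≤ r n) (hr1 : ∀ n, r n ≤ 1) :
    ∀ (D : ℕ) (c : Cfg S D), 0 ≤ wt p r D c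
  | 0, _ => zero_le_one
  | D+1, c => mul_nonneg (ownWt_nonneg hp0 hp1 hr0 hr1 c.1)
    (Finset.prod_nonneg fun i _ => wt_nonneg hp0 hp1 hr0 hr1 D (c.2 i))

/-- the weights at depth `D` -/
structure Fam (p : ℝ) (D : ℕ) (Q : (m : ℕ) → Cfg S D → Option ℕ → Path m → ℝ) : Prop where
  nonneg : ∀ m c g l, 0 ≤ Q m c g l
  cons : ∀ m, m ≤ S → ∀ c g (l : Path m), ∑ y, Q (m+1) c g (l, y) = Q m c g l
  pre : ∀ m c b l, m ≤ b → Q m c (some b) l = Q m c none l
  tot0 : ∀ c g, ∑ x, Q 0 c g x = 1
  mean : ∀ m, m ≤ S + 1 → ∀ g l, ∑ c : Cfg S D, wt p r D c * Q m c g l = kern ct g m l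
  pos : ∀ c g l, Q (S+1) c g l ≠ 0 → VD S D c g l

theorem Fam.tot {p : ℝ} {D : ℕ} {Q : (m : ℕ) → Cfg S D → Option ℕ → Path m → ℝ}
    (h : Fam ct p D Q) : ∀ m, m ≤ S + 1 → ∀ c g, ∑ l, Q m c g l = 1
  | 0, _, c, g => h.tot0 c g
  | m+1, hm, c, g => by
    rw [sum_path]
    rw [Finset.sum_congr rfl fun l _ => h.cons m (by omega) c g l]
    exact Fam.tot h m (by omega) c g

theorem fam_zero {p : ℝ} (h0 : 0 ≤ p0) (h1 : p0 ≤ 1) :
    Fam ct p 0 (fun m _ g l => kern ct g m l) where
  nonneg m _ g l := kern_nonneg ct h0 h1 g m l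
  cons m _ _ g l := kern_sum ct g m l
  pre m _ b l hm := kern_pre ct m hm l
  tot0 _ g := initW_sum p0
  mean m _ g l := by
    have h : ∀ c : Cfg S 0, wt p r 0 c = 1 := fun _ => rfl
    simp only [h, one_mul]
    have hu : (Finset.univ : Finset (Cfg S 0)).card = 1 := rfl
    rw [Finset.sum_const, hu, one_smul]
  pos _ _ _ _ := trivial

/-- the recursion -/
noncomputable def QS (p : ℝ) (D : ℕ) (Q : (m : ℕ) → Cfg S D → Option ℕ → Path m → ℝ) :
    (m : ℕ) → Cfg S (D+1) → Option ℕ → Path m → ℝ := fun m c g l =>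
  ∑ k : Fin 4 → Path m, AA ct p c.1.1 (rg c.1) g m l k * ∏ i, Q m (c.2 i) (cls l) (k i)

theorem fam_succ {p : ℝ} (h0 : 0 < p0) (hp : p0 ≤ p) (hr0 : ∀ n, 0 ≤ r n)
    (hr1 : ∀ n, r n ≤ 1) (hrS : r S = 1) {D : ℕ}
    {Q : (m : ℕ) → Cfg S D → Option ℕ → Path m → ℝ} (h : Fam ct p D Q) :
    Fam ct p (D+1) (QS ct p D Q) where
  nonneg m c g l := Finset.sum_nonneg fun k _ => mul_nonneg
    (AA_nonneg ct h0 hp hr0 hr1 _ _ _ _ _ _) (Finset.prod_nonneg fun i _ => h.nonneg _ _ _ _)
  cons m hm c g l := by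
    unfold QS
    have e1 : ∀ (y : Lab), ∑ k : Fin 4 → Path (m+1), AA ct p c.1.1 (rg c.1) g (m+1) (l, y) k *
        ∏ i, Q (m+1) (c.2 i) (cls (m := m+1) (l, y)) (k i) =
        ∑ k : Fin 4 → Path m, ∑ ys : Fin 4 → Lab, AA ct p c.1.1 (rg c.1) g m l k *
          st ct g m (cls l) (last l) (fun i => last (k i)) ys y (rg c.1 m) *
          ∏ i, Q (m+1) (c.2 i) (cls l) (k i, ys i) := by
      intro y
      rw [sum_paths]
      refine Finset.sum_congr rfl fun k _ => Finset.sum_congr rfl fun ys _ => ?_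
      rw [AA_succ]
      congr 1
      refine Finset.prod_congr rfl fun i _ => ?_
      exact cls_ind (fun h => Q (m+1) (c.2 i) h (k i, ys i)) (h.pre (m+1) _ (m+1) _ le_rfl) l y
    rw [Finset.sum_congr rfl fun y _ => e1 y, Finset.sum_comm]
    refine Finset.sum_congr rfl fun k _ => ?_
    rw [Finset.sum_comm]
    have e2 : ∀ ys : Fin 4 → Lab, ∑ y, AA ct p c.1.1 (rg c.1) g m l k *
        st ct g m (cls l) (last l) (fun i => last (k i)) ys y (rg c.1 m) *
        ∏ i, Q (m+1) (c.2 i) (cls l) (k i, ys i) =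
        AA ct p c.1.1 (rg c.1) g m l k * ∏ i, Q (m+1) (c.2 i) (cls l) (k i, ys i) := by
      intro ys
      rw [← Finset.sum_mul, ← Finset.mul_sum, st_sum, mul_one]
    rw [Finset.sum_congr rfl fun ys _ => e2 ys, ← Finset.mul_sum,
      ← prod_sum_pi (fun (i : Fin 4) (y : Lab) => Q (m+1) (c.2 i) (cls l) (k i, y))]
    congr 1
    refine Finset.prod_congr rfl fun i _ => ?_
    exact h.cons m hm _ _ _
  pre m c b l hm := by
    unfold QS
    refine Finset.sum_congr rfl fun k _ => ?_
    rw [AA_pre ct p _ _ m hm]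
  tot0 c g := by
    unfold QS
    have e1 : ∀ x : Path 0, ∑ k : Fin 4 → Path 0, AA ct p c.1.1 (rg c.1) g 0 x k *
        ∏ i, Q 0 (c.2 i) (cls x) (k i) = a0 p0 p c.1.1 x := by
      intro x
      change ∑ k : Fin 4 → Path 0, a0 p0 p c.1.1 x * ∏ i, Q 0 (c.2 i) (cls x) (k i) = _
      rw [← Finset.mul_sum, ← prod_sum_pi (fun (i : Fin 4) (y : Path 0) =>
        Q 0 (c.2 i) (cls x) y), Finset.prod_congr rfl fun i _ => h.tot0 (c.2 i) (cls x)]
      simp
    rw [Finset.sum_congr rfl fun x _ => e1 x]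
    exact a0_sum p _
  mean m hm g l := by
    have hs : ∀ f : Cfg S (D+1) → ℝ, ∑ c : Cfg S (D+1), f c =
        ∑ o : Own S, ∑ cs : Fin 4 → Cfg S D, f (o, cs) := fun f => sum_pair f
    rw [hs]
    have e1 : ∀ (o : Own S) (cs : Fin 4 → Cfg S D), wt p r (D+1) (o, cs) *
        QS ct p D Q m (o, cs) g l = ∑ k : Fin 4 → Path m,
        ownWt p r o * AA ct p o.1 (rg o) g m l k *
          ∏ i, (wt p r D (cs i) * Q m (cs i) (cls l) (k i)) := by
      intro o cs
      change ownWt p r o * (∏ i, wt p r D (cs i)) * (∑ k : Fin 4 → Path m,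
        AA ct p o.1 (rg o) g m l k * ∏ i, Q m (cs i) (cls l) (k i)) = _
      rw [Finset.mul_sum]
      refine Finset.sum_congr rfl fun k _ => ?_
      rw [Finset.prod_mul_distrib]
      ring
    rw [Finset.sum_congr rfl fun o _ => Finset.sum_congr rfl fun cs _ => e1 o cs]
    have e2 : ∀ o : Own S, ∑ cs : Fin 4 → Cfg S D, ∑ k : Fin 4 → Path m,
        ownWt p r o * AA ct p o.1 (rg o) g m l k *
          ∏ i, (wt p r D (cs i) * Q m (cs i) (cls l) (k i)) = ∑ k : Fin 4 → Path m,
        ownWt p r o * AA ct p o.1 (rg o) g m l k * ∏ i, kern ct (cls l) m (k i) := by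
      intro o
      rw [Finset.sum_comm]
      refine Finset.sum_congr rfl fun k _ => ?_
      rw [← Finset.mul_sum, ← prod_sum_pi (fun (i : Fin 4) (c : Cfg S D) =>
        wt p r D c * Q m c (cls l) (k i)), Finset.prod_congr rfl fun i _ => h.mean m hm (cls l) (k i)]
    rw [Finset.sum_congr rfl fun o _ => e2 o, Finset.sum_comm]
    rw [← (main_array ct h0 hp hrS g m hm l).2]
    unfold GG AB
    refine Finset.sum_congr rfl fun k _ => ?_
    rw [← Finset.sum_mul, mul_one]
  pos c g l hne := by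
    unfold QS at hne
    obtain ⟨k, _, hk⟩ := Finset.exists_ne_zero_of_sum_ne_zero hne
    obtain ⟨h1, h2⟩ := mul_ne_zero_iff.1 hk
    refine ⟨k, AA_ok ct c.1 g _ _ _ h1, fun i => ?_⟩
    exact h.pos _ _ _ (Finset.prod_ne_zero_iff.1 h2 i (Finset.mem_univ i))

theorem exists_fam {p : ℝ} (h0 : 0 < p0) (hp : p0 ≤ p) (hp1 : p ≤ 1) (hr0 : ∀ n, 0 ≤ r n)
    (hr1 : ∀ n, r n ≤ 1) (hrS : r S = 1) (D : ℕ) : ∃ Q, Fam ct p D Q := by
  induction D with
  | zero => exact ⟨_, fam_zero ct h0.le (hp.trans hp1)⟩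
  | succ D ih =>
    obtain ⟨Q, hQ⟩ := ih
    exact ⟨_, fam_succ ct h0 hp hr0 hr1 hrS hQ⟩

end main

end closure_aux

open closure_aux in
/-- **The closure theorem.** -/
theorem t_closure : S_closure := by
  intro S p0 p r h0 hp hp1 hr0 hr1 hrS ct D
  obtain ⟨Q, hQ⟩ := exists_fam ct h0 hp hp1 hr0 hr1 hrS D
  rw [← kern_star ct (S+1), ← hQ.mean (S+1) le_rfl none (star (S+1))]
  unfold probV
  refine Finset.sum_le_sum fun c _ => ?_
  refine mul_le_mul_of_nonneg_left ?_ (wt_nonneg (h0.le.trans hp) hp1 hr0 hr1 D c)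
  by_cases hv : VD S D c none (star (S+1))
  · rw [if_pos hv, ← hQ.tot ct (S+1) le_rfl c none]
    exact Finset.single_le_sum (f := fun l => Q (S+1) c none l)
      (fun l _ => hQ.nonneg _ _ _ l) (Finset.mem_univ _)
  · rw [if_neg hv]
    by_contra hcon
    push Not at hcon
    exact hv (hQ.pos c none _ hcon.ne')

end Pool.Agent.helper237_G5
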