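import Pool.Agent.helper237_G5.Stmts2

/-!
# Almost surely all clusters of vertices ringing in short windows are finite
-/

namespace Pool.Agent.helper237_G5

open MeasureTheory ProbabilityTheory Filter Topology

namespace clusters_aux

section det
variable {V : Type} (G : SimpleGraph V) [G.LocallyFinite]

open Classical in
/-- supports of the walks of length `m` from `v` -/
noncomputable def W : ℕ → V → Finset (List V)
  | 0, v => {[v]}
  | m + 1, v => (G.neighborFinset v).biUnion (fun w => (W m w).image (fun l => v :: l))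

theorem card_W (h : ∀ v, G.degree v = 5) : ∀ (m : ℕ) (v : V), (W G m v).card ≤ 5 ^ m := by
  classical
  intro m
  induction m with
  | zero => intro v; simp [W]
  | succ m ih =>
    intro v
    unfold W
    refine Finset.card_biUnion_le.trans ?_
    refine (Finset.sum_le_card_nsmul _ _ (5 ^ m) ?_).trans ?_
    · intro w _
      exact Finset.card_image_le.trans (ih w)
    · rw [SimpleGraph.card_neighborFinset_eq_degree, h v, smul_eq_mul, pow_succ]
      exact le_of_eq (mul_comm _ _)

theorem length_W : ∀ (m : ℕ) (v : V) (l : List V), l ∈ W G m v → l.length = m + 1 := by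
  classical
  intro m
  induction m with
  | zero => intro v l hl; simp [W] at hl; simp [hl]
  | succ m ih =>
    intro v l hl
    unfold W at hl
    rw [Finset.mem_biUnion] at hl
    obtain ⟨w, _, hl⟩ := hl
    rw [Finset.mem_image] at hl
    obtain ⟨l', hl', rfl⟩ := hl
    rw [List.length_cons, ih w l' hl']

theorem support_mem_W {v w : V} (q : G.Walk v w) : q.support ∈ W G q.length v := by
  classical
  induction q with
  | nil => simp [W]
  | @cons u v w h q ih =>
    rw [SimpleGraph.Walk.length_cons]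
    unfold W
    rw [Finset.mem_biUnion]
    refine ⟨v, (SimpleGraph.mem_neighborFinset _ _ _).2 h, ?_⟩
    rw [Finset.mem_image]
    exact ⟨q.support, ih, by simp⟩

theorem sphere_finite (m : ℕ) (v : V) : {w | ∃ q : G.Walk v w, q.length = m}.Finite := by
  refine Set.Finite.subset
    ((W G m v).finite_toSet.biUnion (t := fun l => {x | x ∈ l}) (fun l _ => List.finite_toSet l)) ?_
  rintro w ⟨q, rfl⟩
  rw [Set.mem_iUnion₂]
  exact ⟨q.support, support_mem_W G q, q.end_mem_support⟩

theorem countable_of_connected (hG : G.Connected) : Countable V := by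
  obtain ⟨v0⟩ := hG.nonempty
  rw [← Set.countable_univ_iff]
  refine Set.Countable.mono (s₂ := ⋃ m : ℕ, {w | ∃ q : G.Walk v0 w, q.length = m}) ?_
    (Set.countable_iUnion fun m => (sphere_finite G m v0).countable)
  intro w _
  obtain ⟨q⟩ := hG.preconnected v0 w
  rw [Set.mem_iUnion]
  exact ⟨q.length, q, rfl⟩

theorem finite_of (Rg : V → Prop) (v : V) (m : ℕ)
    (h : ∀ l ∈ W G m v, l.Nodup → ∃ x ∈ l, ¬ Rg x) :
    {w | ∃ q : G.Walk v w, ∀ x ∈ q.support, Rg x}.Finite := by
  classical
  refine Set.Finite.subset ((Finset.range m).finite_toSet.biUnion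
    (t := fun j => {w | ∃ q : G.Walk v w, q.length = j}) (fun j _ => sphere_finite G j v)) ?_
  rintro w ⟨q, hq⟩
  rw [Set.mem_iUnion₂]
  by_cases hlen : q.bypass.length < m
  · exact ⟨q.bypass.length, by simpa using hlen, q.bypass, rfl⟩
  · exfalso
    have hp : q.bypass.IsPath := q.bypass_isPath
    have hl : (q.bypass.take m).length = m := by
      rw [SimpleGraph.Walk.take_length]
      omega
    have hmem := support_mem_W G (q.bypass.take m)
    rw [hl] at hmem
    obtain ⟨x, hx, hnx⟩ := h _ hmem (hp.take m).support_nodup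
    apply hnx
    apply hq
    apply q.support_bypass_subset_support
    rw [SimpleGraph.Walk.support_take] at hx
    exact List.mem_of_mem_take hx

end det

section prob
variable {Ω V : Type} [MeasurableSpace Ω] {G : SimpleGraph V} [G.LocallyFinite] {p : ℝ}
  {μ : Measure Ω} {init : V → Ω → Bool} {rings : V → Ω → Set ℝ} {σ : Ω → ℝ → V → Bool}

/-- the windows -/
noncomputable def tau (k : ℕ) : ℝ := (k : ℝ) / 10

theorem tau_zero : tau 0 = 0 := by simp [tau]

theorem tau_mono : StrictMono tau := by
  intro a b hab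
  unfold tau
  have : (a : ℝ) < b := by exact_mod_cast hab
  linarith

theorem tau_tendsto : Tendsto tau atTop atTop := by
  unfold tau
  exact Tendsto.atTop_div_const (by norm_num) tendsto_natCast_atTop_atTop

theorem tau_nonneg (k : ℕ) : 0 ≤ tau k := by
  unfold tau
  positivity

theorem tau_succ (k : ℕ) : tau (k + 1) - tau k = 1 / 10 := by
  unfold tau
  push_cast
  ring

theorem ring_prob (h : IsGlauber G p μ init rings σ) (v : V) (k : ℕ) :
    μ {ω | ringCount rings v (tau k) (tau (k + 1)) ω ≠ 0} ≤ ENNReal.ofReal (1 / 10) := by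
  have := h.prob
  have h0 := h.count_law v (tau k) (tau (k + 1)) (tau_nonneg k) (tau_mono (Nat.lt_succ_self k)) 0
  rw [tau_succ] at h0
  have hm : MeasurableSet {ω | ringCount rings v (tau k) (tau (k + 1)) ω = 0} :=
    (h.count_meas v _ _) (measurableSet_singleton 0)
  have hc : {ω | ringCount rings v (tau k) (tau (k + 1)) ω ≠ 0}
      = {ω | ringCount rings v (tau k) (tau (k + 1)) ω = 0}ᶜ := rfl
  rw [hc, prob_compl_eq_one_sub hm, h0, ← ENNReal.ofReal_one, ← ENNReal.ofReal_sub _ (by positivity)]
  apply ENNReal.ofReal_le_ofReal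
  have := Real.add_one_le_exp (-(1 / 10 : ℝ))
  simp only [pow_zero, mul_one, Nat.factorial_zero, Nat.cast_one, div_one]
  linarith

theorem list_prob (h : IsGlauber G p μ init rings σ) (k : ℕ) (l : List V) (hl : l.Nodup) :
    μ {ω | ∀ x ∈ l, ringCount rings x (tau k) (tau (k + 1)) ω ≠ 0}
      ≤ ENNReal.ofReal (1 / 10) ^ l.length := by
  classical
  have hi := (h.indep tau tau_zero tau_mono).measure_inter_preimage_eq_mul
    (l.toFinset.image (fun x => ((x, some k) : V × Option ℕ)))
    (sets := fun _ => {n : ℕ | n ≠ 0}) (fun i _ => trivial)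
  rw [Finset.prod_image (by intro a _ b _ hab; exact congrArg Prod.fst hab)] at hi
  refine le_trans (le_of_eq (Eq.trans (congrArg μ ?_) hi)) ?_
  · ext ω
    simp only [Set.mem_ofPred_eq, Set.mem_iInter, Set.mem_preimage, Finset.mem_image,
      List.mem_toFinset]
    constructor
    · rintro hω i ⟨x, hx, rfl⟩
      exact hω x hx
    · intro hω x hx
      exact hω (x, some k) ⟨x, hx, rfl⟩
  · have hcard : l.toFinset.card = l.length := List.toFinset_card_of_nodup hl
    rw [← hcard, ← Finset.prod_const]
    apply Finset.prod_le_prod'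
    intro x _
    exact ring_prob h x k

/-- some self-avoiding path of length `m` from `v` rings in window `k` -/
def B (G : SimpleGraph V) [G.LocallyFinite] (rings : V → Ω → Set ℝ) (k : ℕ) (v : V) (m : ℕ) : Set Ω :=
  {ω | ∃ l ∈ W G m v, l.Nodup ∧ ∀ x ∈ l, ringCount rings x (tau k) (tau (k + 1)) ω ≠ 0}

theorem B_prob (hd : ∀ v, G.degree v = 5) (h : IsGlauber G p μ init rings σ) (k : ℕ) (v : V) (m : ℕ) :
    μ (B G rings k v m) ≤ ENNReal.ofReal (1 / 2) ^ m := by
  classical
  have hsub : B G rings k v m ⊆ ⋃ l ∈ (W G m v).filter (fun l => l.Nodup),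
      {ω | ∀ x ∈ l, ringCount rings x (tau k) (tau (k + 1)) ω ≠ 0} := by
    rintro ω ⟨l, hl, hn, hω⟩
    rw [Set.mem_iUnion₂]
    exact ⟨l, Finset.mem_filter.2 ⟨hl, hn⟩, hω⟩
  refine (measure_mono hsub).trans ((measure_biUnion_finset_le _ _).trans ?_)
  have h1 : ∀ l ∈ (W G m v).filter (fun l => l.Nodup),
      μ {ω | ∀ x ∈ l, ringCount rings x (tau k) (tau (k + 1)) ω ≠ 0}
        ≤ ENNReal.ofReal (1 / 10) ^ (m + 1) := by
    intro l hl
    rw [Finset.mem_filter] at hl
    have := list_prob h k l hl.2
    rwa [length_W G m v l hl.1] at this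
  refine (Finset.sum_le_card_nsmul _ _ _ h1).trans ?_
  have h2 : (((W G m v).filter (fun l => l.Nodup)).card : ENNReal) ≤ 5 ^ m := by
    exact_mod_cast (Finset.card_filter_le _ _).trans (card_W G hd m v)
  rw [nsmul_eq_mul]
  calc (((W G m v).filter (fun l => l.Nodup)).card : ENNReal) * ENNReal.ofReal (1 / 10) ^ (m + 1)
      ≤ 5 ^ m * ENNReal.ofReal (1 / 10) ^ m := by
        refine mul_le_mul' h2 ?_
        rw [pow_succ]
        refine (mul_le_mul_right ?_ _).trans (le_of_eq (mul_one _))
        rw [← ENNReal.ofReal_one]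
        exact ENNReal.ofReal_le_ofReal (by norm_num)
    _ = ENNReal.ofReal (1 / 2) ^ m := by
        rw [← mul_pow]
        congr 1
        rw [show (5 : ENNReal) = ENNReal.ofReal 5 by simp, ← ENNReal.ofReal_mul (by norm_num)]
        norm_num

theorem ae_exists (hd : ∀ v, G.degree v = 5) (h : IsGlauber G p μ init rings σ) (k : ℕ) (v : V) :
    ∀ᵐ ω ∂μ, ∃ m, ω ∉ B G rings k v m := by
  have h0 : μ (⋂ m, B G rings k v m) = 0 := by
    have h1 : ∀ m, μ (⋂ m, B G rings k v m) ≤ ENNReal.ofReal (1 / 2) ^ m := fun m =>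
      (measure_mono (Set.iInter_subset _ m)).trans (B_prob hd h k v m)
    have h2 : Tendsto (fun m : ℕ => ENNReal.ofReal (1 / 2) ^ m) atTop (𝓝 0) := by
      apply ENNReal.tendsto_pow_atTop_nhds_zero_of_lt_one
      rw [ENNReal.ofReal_lt_one]
      norm_num
    exact le_antisymm (ge_of_tendsto' h2 h1) zero_le
  rw [ae_iff]
  convert h0 using 2
  ext ω
  simp

theorem ringCount_ne_zero_iff (h : IsGlauber G p μ init rings σ) (v : V) (a b : ℝ) (ω : Ω) :
    ringCount rings v a b ω ≠ 0 ↔ (rings v ω ∩ Set.Ioc a b).Nonempty := by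
  have hf : (rings v ω ∩ Set.Ioc a b).Finite :=
    (h.rings_fin v ω b).subset (Set.inter_subset_inter_right _ Set.Ioc_subset_Iic_self)
  unfold ringCount
  rw [← Nat.pos_iff_ne_zero, Set.ncard_pos hf]

end prob

end clusters_aux

open clusters_aux in
theorem t_clusters : S_clusters := by
  intro Ω V _ G _ hd hconn p μ init rings σ h
  have := countable_of_connected G hconn
  refine ⟨tau, tau_zero, tau_mono, tau_tendsto, ?_⟩
  rw [ae_all_iff]
  intro k
  have h1 : ∀ᵐ ω ∂μ, ∀ v, ∃ m, ω ∉ B G rings k v m := by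
    rw [ae_all_iff]
    intro v
    exact ae_exists hd h k v
  filter_upwards [h1] with ω hω v
  obtain ⟨m, hm⟩ := hω v
  refine finite_of G (fun x => (rings x ω ∩ Set.Ioc (tau k) (tau (k + 1))).Nonempty) v m ?_
  intro l hl hn
  by_contra hcon
  push Not at hcon
  apply hm
  refine ⟨l, hl, hn, ?_⟩
  intro x hx
  rw [ringCount_ne_zero_iff h]
  exact hcon x hx

end Pool.Agent.helper237_G5
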