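import Pool.Agent.helper237_G5.Stmts3
import Pool.Agent.helper237_G5.T_clusters

/-!
# Almost surely all clusters of vertices ringing in short windows are finite (clocks alone)
-/

namespace Pool.Agent.helper237_G5

open MeasureTheory ProbabilityTheory Filter Topology

namespace clustersP_aux

open clusters_aux (W card_W length_W B tau tau_zero tau_mono tau_nonneg tau_succ)

section prob
variable {Ω V : Type} [MeasurableSpace Ω] {p : ℝ}
  {μ : Measure Ω} {init : V → Ω → Bool} {rings : V → Ω → Set ℝ}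

theorem ring_prob (h : IsClocks p μ init rings) (v : V) (k : ℕ) :
    μ {ω | ringCount rings v (tau k) (tau (k + 1)) ω ≠ 0} ≤ ENNReal.ofReal (1 / 10) := by
  have := h.prob
  have h0 := h.count_law v (tau k) (tau (k + 1)) (tau_nonneg k) (tau_mono (Nat.lt_succ_self k)) 0
  rw [tau_succ] at h0
  have hm : MeasurableSet {ω | ringCount rings v (tau k) (tau (k + 1)) ω = 0} :=
    (h.count_meas v _ _) (measurableSet_singleton 0)
  have hc : {ω | ringCount rings v (tau k) (tau (k + 1)) ω ≠ 0}
      = {ω | ringCount rings v (tau k) (tau (k + 1)) ω = 0}ᶜ := rfl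
  rw [hc, prob_compl_eq_one_sub hm, h0, ← ENNReal.ofReal_one, ← ENNReal.ofReal_sub _ (by positivity)]
  apply ENNReal.ofReal_le_ofReal
  have := Real.add_one_le_exp (-(1 / 10 : ℝ))
  simp only [pow_zero, mul_one, Nat.factorial_zero, Nat.cast_one, div_one]
  linarith

theorem list_prob (h : IsClocks p μ init rings) (k : ℕ) (l : List V) (hl : l.Nodup) :
    μ {ω | ∀ x ∈ l, ringCount rings x (tau k) (tau (k + 1)) ω ≠ 0}
      ≤ ENNReal.ofReal (1 / 10) ^ l.length := by
  classical
  have hi := (h.indep tau tau_zero tau_mono).measure_inter_preimage_eq_mul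
    (l.toFinset.image (fun x => ((x, some k) : V × Option ℕ)))
    (sets := fun _ => {n : ℕ | n ≠ 0}) (fun i _ => trivial)
  rw [Finset.prod_image (by intro a _ b _ hab; exact congrArg Prod.fst hab)] at hi
  refine le_trans (le_of_eq (Eq.trans (congrArg μ ?_) hi)) ?_
  · ext ω
    simp only [Set.mem_ofPred_eq, Set.mem_iInter, Set.mem_preimage, Finset.mem_image,
      List.mem_toFinset]
    constructor
    · rintro hω i ⟨x, hx, rfl⟩
      exact hω x hx
    · intro hω x hx
      exact hω (x, some k) ⟨x, hx, rfl⟩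
  · have hcard : l.toFinset.card = l.length := List.toFinset_card_of_nodup hl
    rw [← hcard, ← Finset.prod_const]
    apply Finset.prod_le_prod'
    intro x _
    exact ring_prob h x k

theorem B_prob (G : SimpleGraph V) [G.LocallyFinite] (hd : ∀ v, G.degree v = 5) (h : IsClocks p μ init rings) (k : ℕ) (v : V) (m : ℕ) :
    μ (B G rings k v m) ≤ ENNReal.ofReal (1 / 2) ^ m := by
  classical
  have hsub : B G rings k v m ⊆ ⋃ l ∈ (W G m v).filter (fun l => l.Nodup),
      {ω | ∀ x ∈ l, ringCount rings x (tau k) (tau (k + 1)) ω ≠ 0} := by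
    rintro ω ⟨l, hl, hn, hω⟩
    rw [Set.mem_iUnion₂]
    exact ⟨l, Finset.mem_filter.2 ⟨hl, hn⟩, hω⟩
  refine (measure_mono hsub).trans ((measure_biUnion_finset_le _ _).trans ?_)
  have h1 : ∀ l ∈ (W G m v).filter (fun l => l.Nodup),
      μ {ω | ∀ x ∈ l, ringCount rings x (tau k) (tau (k + 1)) ω ≠ 0}
        ≤ ENNReal.ofReal (1 / 10) ^ (m + 1) := by
    intro l hl
    rw [Finset.mem_filter] at hl
    have := list_prob h k l hl.2
    rwa [length_W G m v l hl.1] at this
  refine (Finset.sum_le_card_nsmul _ _ _ h1).trans ?_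
  have h2 : (((W G m v).filter (fun l => l.Nodup)).card : ENNReal) ≤ 5 ^ m := by
    exact_mod_cast (Finset.card_filter_le _ _).trans (card_W G hd m v)
  rw [nsmul_eq_mul]
  calc (((W G m v).filter (fun l => l.Nodup)).card : ENNReal) * ENNReal.ofReal (1 / 10) ^ (m + 1)
      ≤ 5 ^ m * ENNReal.ofReal (1 / 10) ^ m := by
        refine mul_le_mul' h2 ?_
        rw [pow_succ]
        refine (mul_le_mul_right ?_ _).trans (le_of_eq (mul_one _))
        rw [← ENNReal.ofReal_one]
        exact ENNReal.ofReal_le_ofReal (by norm_num)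
    _ = ENNReal.ofReal (1 / 2) ^ m := by
        rw [← mul_pow]
        congr 1
        rw [show (5 : ENNReal) = ENNReal.ofReal 5 by simp, ← ENNReal.ofReal_mul (by norm_num)]
        norm_num

theorem ae_exists (G : SimpleGraph V) [G.LocallyFinite] (hd : ∀ v, G.degree v = 5) (h : IsClocks p μ init rings) (k : ℕ) (v : V) :
    ∀ᵐ ω ∂μ, ∃ m, ω ∉ B G rings k v m := by
  have h0 : μ (⋂ m, B G rings k v m) = 0 := by
    have h1 : ∀ m, μ (⋂ m, B G rings k v m) ≤ ENNReal.ofReal (1 / 2) ^ m := fun m =>
      (measure_mono (Set.iInter_subset _ m)).trans (B_prob G hd h k v m)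
    have h2 : Tendsto (fun m : ℕ => ENNReal.ofReal (1 / 2) ^ m) atTop (𝓝 0) := by
      apply ENNReal.tendsto_pow_atTop_nhds_zero_of_lt_one
      rw [ENNReal.ofReal_lt_one]
      norm_num
    exact le_antisymm (ge_of_tendsto' h2 h1) zero_le
  rw [ae_iff]
  convert h0 using 2
  ext ω
  simp

theorem ringCount_ne_zero_iff (h : IsClocks p μ init rings) (v : V) (a b : ℝ) (ω : Ω) :
    ringCount rings v a b ω ≠ 0 ↔ (rings v ω ∩ Set.Ioc a b).Nonempty := by
  have hf : (rings v ω ∩ Set.Ioc a b).Finite :=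
    (h.rings_fin v ω b).subset (Set.inter_subset_inter_right _ Set.Ioc_subset_Iic_self)
  unfold ringCount
  rw [← Nat.pos_iff_ne_zero, Set.ncard_pos hf]

end prob

end clustersP_aux

open clusters_aux in
theorem t_clustersP : S_clusters' := by
  intro Ω V _ G _ hd hconn p μ init rings h
  have := countable_of_connected G hconn
  refine ⟨tau, tau_zero, tau_mono, tau_tendsto, ?_⟩
  rw [ae_all_iff]
  intro k
  have h1 : ∀ᵐ ω ∂μ, ∀ v, ∃ m, ω ∉ B G rings k v m := by
    rw [ae_all_iff]
    intro v
    exact clustersP_aux.ae_exists G hd h k v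
  filter_upwards [h1] with ω hω v
  obtain ⟨m, hm⟩ := hω v
  refine finite_of G (fun x => (rings x ω ∩ Set.Ioc (tau k) (tau (k + 1))).Nonempty) v m ?_
  intro l hl hn
  by_contra hcon
  push Not at hcon
  apply hm
  refine ⟨l, hl, hn, ?_⟩
  intro x hx
  rw [clustersP_aux.ringCount_ne_zero_iff h]
  exact hcon x hx

end Pool.Agent.helper237_G5
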