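import Pool.Agent.helper237_G5.Stmts2

/-!
# Task cmp: the slot rule gives a lower bound of the dynamics (`S_cmp`)
-/

namespace Pool.Agent.helper237_G5

open MeasureTheory ProbabilityTheory Filter Topology

namespace cmp_aux

variable {V : Type} (G : SimpleGraph V) [G.LocallyFinite]

theorem maj_true (hd : ∀ v, G.degree v = 5) (W : V → Prop) (η : V → Bool) (v : V)
    (h3 : 3 ≤ znbrs G W v) (h : ∀ w, G.Adj v w → W w → η w = true) :
    majority G η v = true := by
  classical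
  have hle : znbrs G W v ≤ plusNbrs G η v := by
    unfold znbrs plusNbrs
    apply Finset.card_le_card
    intro w hw
    rw [Finset.mem_filter] at hw ⊢
    exact ⟨hw.1, h w ((G.mem_neighborFinset v w).1 hw.1) hw.2⟩
  unfold majority
  rw [decide_eq_true_eq, hd v]
  omega

theorem lt_ev {a s0 : ℝ} (h : a < s0) : ∀ᶠ s in 𝓝[<] s0, a ≤ s ∧ s < s0 := by
  filter_upwards [Ioo_mem_nhdsLT h] with s hs
  exact ⟨hs.1.le, hs.2⟩

/-- last ring before `s` -/
theorem last_ring (R : Set ℝ) (hR : ∀ s, (R ∩ Set.Iic s).Finite) (a s : ℝ)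
    (hne : (R ∩ Set.Ioc a s).Nonempty) :
    ∃ s' ∈ R, a < s' ∧ s' ≤ s ∧ R ∩ Set.Ioc s' s = ∅ := by
  have hfin : (R ∩ Set.Ioc a s).Finite :=
    (hR s).subset (fun x hx => ⟨hx.1, hx.2.2⟩)
  obtain ⟨m, hm, hmax⟩ := Set.exists_max_image _ id hfin hne
  refine ⟨m, hm.1, hm.2.1, hm.2.2, ?_⟩
  rw [Set.eq_empty_iff_forall_notMem]
  rintro x ⟨hxR, hx1, hx2⟩
  exact absurd (hmax x ⟨hxR, hm.2.1.trans hx1, hx2⟩) (not_le.2 hx1)

theorem window (hd : ∀ v, G.degree v = 5) (R : V → Set ℝ) (σ : ℝ → V → Bool)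
    (hRf : ∀ v s, (R v ∩ Set.Iic s).Finite)
    (hc : ∀ v s s', 0 ≤ s → s ≤ s' → R v ∩ Set.Ioc s s' = ∅ → σ s' v = σ s v)
    (hu : ∀ v s', s' ∈ R v → ∀ᶠ s in 𝓝[<] s', σ s' v = majority G (σ s) v)
    (W : V → Prop) (a b : ℝ) (ha : 0 ≤ a) (hF : FiniteClusters G R a b)
    (hW : ∀ w, W w → σ a w = true)
    (h3 : ∀ w, W w → (R w ∩ Set.Ioc a b).Nonempty → 3 ≤ znbrs G W w) :
    ∀ w, W w → ∀ s, a ≤ s → s ≤ b → σ s w = true := by
  intro w0 hw0 s has hsb
  by_cases hring : (R w0 ∩ Set.Ioc a b).Nonempty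
  swap
  · rw [hc w0 a s ha has (by
      rw [Set.not_nonempty_iff_eq_empty] at hring
      rw [Set.eq_empty_iff_forall_notMem] at hring ⊢
      rintro x ⟨hx1, hx2, hx3⟩
      exact hring x ⟨hx1, hx2, hx3.trans hsb⟩)]
    exact hW w0 hw0
  set C : Set V := {w | ∃ q : G.Walk w0 w, ∀ x ∈ q.support, (R x ∩ Set.Ioc a b).Nonempty} with hCdef
  have hCfin : C.Finite := hF w0
  have hw0C : w0 ∈ C := ⟨SimpleGraph.Walk.nil, by
    intro x hx
    rw [SimpleGraph.Walk.support_nil, List.mem_singleton] at hx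
    rw [hx]; exact hring⟩
  -- bad ring times
  set B : Set ℝ := {s | s ∈ Set.Ioc a b ∧ ∃ w ∈ C, W w ∧ s ∈ R w ∧ σ s w = false} with hBdef
  have hBfin : B.Finite := by
    refine (hCfin.biUnion (fun w _ => hRf w b)).subset ?_
    rintro x ⟨hx1, w, hwC, -, hxR, -⟩
    exact Set.mem_biUnion hwC ⟨hxR, hx1.2⟩
  -- good before the first bad time
  have key : ∀ s1, a ≤ s1 → s1 ≤ b → (∀ s2 ∈ B, s1 < s2) → ∀ w ∈ C, W w → σ s1 w = true := by
    intro s1 h1 h2 hB w hwC hwW
    by_cases hne : (R w ∩ Set.Ioc a s1).Nonempty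
    · obtain ⟨s', hs'R, has', hs's, hemp⟩ := last_ring (R w) (hRf w) a s1 hne
      rw [hc w s' s1 (ha.trans has'.le) hs's hemp]
      by_contra hbad
      have hmem : s' ∈ B := ⟨⟨has', hs's.trans h2⟩, w, hwC, hwW, hs'R, by
        cases h : σ s' w
        · rfl
        · exact absurd h hbad⟩
      exact absurd (hB s' hmem) (not_lt.2 hs's)
    · rw [Set.not_nonempty_iff_eq_empty] at hne
      rw [hc w a s1 ha h1 hne]
      exact hW w hwW
  have hBemp : B = ∅ := by
    by_contra hBne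
    obtain ⟨s0, hs0, hmin⟩ := Set.exists_min_image B id hBfin
      (Set.nonempty_iff_ne_empty.2 hBne)
    obtain ⟨⟨has0, hs0b⟩, w, hwC, hwW, hs0R, hfalse⟩ := hs0
    have hmaj : ∀ s1, a ≤ s1 → s1 < s0 → majority G (σ s1) w = true := by
      intro s1 h1 h2
      refine maj_true G hd W (σ s1) w (h3 w hwW ⟨s0, hs0R, has0, hs0b⟩) ?_
      intro w' hadj hw'
      by_cases hring' : (R w' ∩ Set.Ioc a b).Nonempty
      · refine key s1 h1 (h2.le.trans hs0b) (fun s2 hs2 => lt_of_lt_of_le h2 (hmin s2 hs2)) w' ?_ hw'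
        obtain ⟨q, hq⟩ := hwC
        refine ⟨q.concat hadj, ?_⟩
        intro x hx
        rw [SimpleGraph.Walk.support_concat, List.mem_append,
          List.mem_singleton] at hx
        rcases hx with hx | hx
        · exact hq x hx
        · rw [hx]; exact hring'
      · rw [hc w' a s1 ha h1 (by
          rw [Set.not_nonempty_iff_eq_empty] at hring'
          rw [Set.eq_empty_iff_forall_notMem] at hring' ⊢
          rintro x ⟨hx1, hx2, hx3⟩
          exact hring' x ⟨hx1, hx2, (hx3.trans h2.le).trans hs0b⟩)]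
        exact hW w' hw'
    obtain ⟨s1, hs1, hs1'⟩ := ((hu w s0 hs0R).and (lt_ev has0)).exists
    rw [hmaj s1 hs1'.1 hs1'.2] at hs1
    rw [hs1] at hfalse
    exact absurd hfalse (by simp)
  exact key s has hsb (by rw [hBemp]; simp) w0 hw0C hw0

theorem slotL (hd : ∀ v, G.degree v = 5) (R : V → Set ℝ) (σ : ℝ → V → Bool) (τ : ℕ → ℝ)
    (hRf : ∀ v s, (R v ∩ Set.Iic s).Finite)
    (hc : ∀ v s s', 0 ≤ s → s ≤ s' → R v ∩ Set.Ioc s s' = ∅ → σ s' v = σ s v)
    (hu : ∀ v s', s' ∈ R v → ∀ᶠ s in 𝓝[<] s', σ s' v = majority G (σ s) v)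
    (hτ0 : τ 0 = 0) (hτt : Tendsto τ atTop atTop)
    (hF : ∀ k, FiniteClusters G R (τ k) (τ (k+1)))
    (W : V → Prop) (a b : ℝ) (ha : 0 ≤ a)
    (hW : ∀ w, W w → σ a w = true)
    (h3 : ∀ w, W w → (R w ∩ Set.Ioc a b).Nonempty → 3 ≤ znbrs G W w) :
    ∀ w, W w → ∀ s, a ≤ s → s ≤ b → σ s w = true := by
  have main : ∀ k, ∀ s, a ≤ s → s ≤ b → s ≤ τ k → ∀ w, W w → σ s w = true := by
    intro k
    induction k with
    | zero =>
      intro s h1 h2 h3' w hw
      have : s = a := le_antisymm (h3'.trans (by rw [hτ0]; exact ha)) h1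
      rw [this]; exact hW w hw
    | succ k ih =>
      intro s h1 h2 h3' w hw
      rcases le_or_gt s (τ k) with hle | hgt
      · exact ih s h1 h2 hle w hw
      · have hmax : max a (τ k) ≤ s := max_le h1 hgt.le
        refine window G hd R σ hRf hc hu W (max a (τ k)) s (ha.trans (le_max_left _ _)) ?_ ?_ ?_
          w hw s hmax le_rfl
        · intro v
          refine (hF k v).subset ?_
          rintro w' ⟨q, hq⟩
          refine ⟨q, fun x hx => ?_⟩
          obtain ⟨y, hy1, hy2, hy3⟩ := hq x hx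
          exact ⟨y, hy1, lt_of_le_of_lt (le_max_right _ _) hy2, hy3.trans h3'⟩
        · intro w' hw'
          rcases le_total a (τ k) with h | h
          · rw [max_eq_right h]
            exact ih (τ k) h (hgt.le.trans h2) le_rfl w' hw'
          · rw [max_eq_left h]
            exact hW w' hw'
        · intro w' hw' hne
          refine h3 w' hw' ?_
          obtain ⟨y, hy1, hy2, hy3⟩ := hne
          exact ⟨y, hy1, lt_of_le_of_lt (le_max_left _ _) hy2, hy3.trans h2⟩
  intro w hw s h1 h2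
  obtain ⟨k, hk⟩ := (hτt.eventually_ge_atTop s).exists
  exact main k s h1 h2 hk w hw

end cmp_aux

open cmp_aux in
theorem t_cmp : S_cmp := by
  intro V G _ hd init R σ t τ S hR0 hRf hinit hc hu ht0 htm hτ0 hτm hτt hF z hz
  obtain ⟨hza, hzb, hzc, hzd⟩ := hz
  have htn : ∀ n, 0 ≤ t n := fun n => by rw [← ht0]; exact htm.monotone (Nat.zero_le n)
  have slotn : ∀ n, n < S → (∀ v, z v n → σ (t n) v = true) →
      ∀ v, z v n → ∀ s, t n ≤ s → s ≤ t (n+1) → σ s v = true := by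
    intro n hn hA
    exact slotL G hd R σ τ hRf hc hu hτ0 hτt hF (fun w => z w n) (t n) (t (n+1)) (htn n) hA
      (fun w hw hne => hzb w n hn hw hne)
  have hA : ∀ n, n ≤ S → ∀ v, z v n → σ (t n) v = true := by
    intro n
    induction n with
    | zero =>
      intro _ v hv
      rw [ht0, hinit]; exact hza v hv
    | succ n ih =>
      intro hn v hv
      have hnS : n < S := hn
      have hslot := slotn n hnS (ih hnS.le)
      by_cases hzn : z v n
      · exact hslot v hzn (t (n+1)) (htm (Nat.lt_succ_self n)).le le_rfl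
      · obtain ⟨hne, h3⟩ := hzd v n hnS hzn hv
        obtain ⟨s', hs'R, has', hs's, hemp⟩ := last_ring (R v) (hRf v) (t n) (t (n+1)) hne
        rw [hc v s' (t (n+1)) ((htn n).trans has'.le) hs's hemp]
        obtain ⟨s1, hs1, hs1'⟩ := ((hu v s' hs'R).and (lt_ev has')).exists
        rw [hs1]
        exact maj_true G hd (fun w => z w n) (σ s1) v h3
          (fun w _ hw => hslot w hw s1 hs1'.1 (hs1'.2.le.trans hs's))
  intro v hv s hs
  exact slotL G hd R σ τ hRf hc hu hτ0 hτt hF (fun w => z w S) (t S) s (htn S) (hA S le_rfl)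
    (fun w hw _ => hzc w hw) v hv s hs le_rfl

end Pool.Agent.helper237_G5
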