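import Pool.Agent.helper237_G5.Stmts2

/-!
# Compactness: labellings of all finite depths give an infinite labelling
-/

namespace Pool.Agent.helper237_G5

namespace compact_aux

/-- validity at depth `D + 1` implies validity at depth `D` -/
theorem VD_mono {S : ℕ} (own : List (Fin 4) → Own S) : ∀ (D : ℕ) (w : List (Fin 4)) (g : Option ℕ) (l : Path (S+1)),
    VD S (D+1) (cfgO own (D+1) w) g l → VD S D (cfgO own D w) g l
  | 0, _, _, _, _ => trivial
  | D+1, w, g, l, h => by
    obtain ⟨k, hk, hv⟩ := h
    exact ⟨k, hk, fun i => VD_mono own D (i :: w) (cls l) (k i) (hv i)⟩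

theorem VD_anti {S : ℕ} (own : List (Fin 4) → Own S) (w : List (Fin 4)) (g : Option ℕ) (l : Path (S+1))
    {D D' : ℕ} (hD : D ≤ D') (h : VD S D' (cfgO own D' w) g l) : VD S D (cfgO own D w) g l := by
  induction hD with
  | refl => exact h
  | step _ ih => exact ih (VD_mono own _ w g l h)

theorem exists_step {S : ℕ} (own : List (Fin 4) → Own S) (w : List (Fin 4)) (g : Option ℕ) (l : Path (S+1))
    (h : ∀ D, VD S D (cfgO own D w) g l) :
    ∃ k : Fin 4 → Path (S+1), okPath (own w) g (S+1) l k ∧ ∀ i, ∀ D, VD S D (cfgO own D (i :: w)) (cls l) (k i) := by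
  have h1 : ∀ D, ∃ k : Fin 4 → Path (S+1), okPath (own w) g (S+1) l k ∧
      ∀ i, VD S D (cfgO own D (i :: w)) (cls l) (k i) := fun D => h (D+1)
  choose k hk hv using h1
  obtain ⟨y, hy⟩ := Finite.exists_infinite_fiber k
  rw [Set.infinite_coe_iff] at hy
  obtain ⟨D0, hD0⟩ := hy.nonempty
  have hD0' : k D0 = y := hD0
  refine ⟨y, hD0' ▸ hk D0, fun i D => ?_⟩
  obtain ⟨D', hD', hlt⟩ := hy.exists_gt D
  have e : k D' = y := hD'
  have := hv D' i
  rw [e] at this
  exact VD_anti own (i :: w) (cls l) (y i) hlt.le this

/-- the labelling, together with the class of the parent and the proof that all depths stay valid -/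
noncomputable def build {S : ℕ} (own : List (Fin 4) → Own S) (h : ∀ D, VD S D (cfgO own D []) none (star (S+1))) :
    (w : List (Fin 4)) → {x : Option ℕ × Path (S+1) // ∀ D, VD S D (cfgO own D w) x.1 x.2}
  | [] => ⟨(none, star (S+1)), h⟩
  | i :: w =>
    ⟨(cls (build own h w).1.2,
      (exists_step own w (build own h w).1.1 (build own h w).1.2 (build own h w).2).choose i),
      (exists_step own w (build own h w).1.1 (build own h w).1.2 (build own h w).2).choose_spec.2 i⟩

end compact_aux

open compact_aux in
theorem t_compact : S_compact := by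
  intro S own h
  refine ⟨fun w => (build own h w).1.2, rfl, fun w => ?_⟩
  have h1 : (build own h w).1.1 = pcls (fun w => (build own h w).1.2) w := by
    cases w with
    | nil => rfl
    | cons i w => rfl
  rw [← h1]
  exact (exists_step own w (build own h w).1.1 (build own h w).1.2 (build own h w).2).choose_spec.1

end Pool.Agent.helper237_G5
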