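import Pool.Agent.helper237_G5.Stmts2

/-!
# The 4-ary tree inside a 5-regular tree
-/

namespace Pool.Agent.helper237_G5

open MeasureTheory ProbabilityTheory Filter Topology

namespace emb_aux

variable {V : Type} {G : SimpleGraph V}

/-- two neighbours of `u` which are nearer to `o` are equal -/
theorem near_unique (hG : G.IsTree) (o : V) {u a b : V} (ha : G.Adj a u) (hb : G.Adj b u)
    (da : G.dist o u = G.dist o a + 1) (db : G.dist o u = G.dist o b + 1) : a = b := by
  obtain ⟨p, hp⟩ := hG.connected.exists_walk_length_eq_dist o a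
  obtain ⟨q, hq⟩ := hG.connected.exists_walk_length_eq_dist o b
  have h1 : (p.concat ha).IsPath := by
    apply SimpleGraph.Walk.isPath_of_length_eq_dist
    rw [SimpleGraph.Walk.length_concat, hp, da]
  have h2 : (q.concat hb).IsPath := by
    apply SimpleGraph.Walk.isPath_of_length_eq_dist
    rw [SimpleGraph.Walk.length_concat, hq, db]
  have h3 := (hG.isAcyclic.subsingleton_path o u).elim ⟨_, h1⟩ ⟨_, h2⟩
  have h4 : p.concat ha = q.concat hb := congrArg Subtype.val h3
  obtain ⟨hv, _⟩ := SimpleGraph.Walk.concat_inj h4
  exact hv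

theorem four_children [G.LocallyFinite] (hG : G.IsTree) (hd : ∀ v, G.degree v = 5) (o v : V) :
    ∃ c : Fin 4 → V, Function.Injective c ∧ ∀ i, G.Adj v (c i) ∧ G.dist o (c i) = G.dist o v + 1 := by
  classical
  have h1 : ((G.neighborFinset v).filter (fun w => ¬ G.dist o w = G.dist o v + 1)).card ≤ 1 := by
    rw [Finset.card_le_one]
    intro a ha b hb
    rw [Finset.mem_filter, SimpleGraph.mem_neighborFinset] at ha hb
    have key : ∀ x, G.Adj v x → ¬ G.dist o x = G.dist o v + 1 → G.dist o v = G.dist o x + 1 := by
      intro x hx hn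
      have h1 := hx.diff_dist_adj (u := o)
      have h2 := hG.dist_ne_of_adj o hx
      rcases h1 with h1 | h1 | h1
      · exact absurd h1.symm h2
      · exact absurd h1 hn
      · omega
    exact near_unique hG o ha.1.symm hb.1.symm (key a ha.1 ha.2) (key b hb.1 hb.2)
  have h2 := Finset.card_filter_add_card_filter_not (s := G.neighborFinset v)
    (fun w => G.dist o w = G.dist o v + 1)
  rw [SimpleGraph.card_neighborFinset_eq_degree, hd v] at h2
  have h3 : 4 ≤ ((G.neighborFinset v).filter (fun w => G.dist o w = G.dist o v + 1)).card := by omega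
  obtain ⟨s, hs, hcard⟩ := Finset.exists_subset_card_eq h3
  have e := (s.equivFinOfCardEq hcard).symm
  refine ⟨fun i => (e i : V), fun i j hij => e.injective (Subtype.ext hij), ?_⟩
  intro i
  have := hs (e i).2
  rw [Finset.mem_filter, SimpleGraph.mem_neighborFinset] at this
  exact this

end emb_aux

open emb_aux in
theorem t_emb : S_emb := by
  intro V G _ hG hd o
  choose c hinj hadj using four_children hG hd o
  obtain ⟨φ, h0, h1⟩ : ∃ φ : List (Fin 4) → V, φ [] = o ∧ ∀ i w, φ (i :: w) = c (φ w) i :=
    ⟨fun w => w.rec o (fun i _ v => c v i), rfl, fun _ _ => rfl⟩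
  have hdist : ∀ w, G.dist o (φ w) = w.length := by
    intro w
    induction w with
    | nil => rw [h0]; simp
    | cons i w ih => rw [h1, (hadj _ _).2, ih, List.length_cons]
  refine ⟨φ, h0, ?_, fun w i => by rw [h1]; exact (hadj _ _).1⟩
  intro w
  induction w with
  | nil =>
    intro w' h
    have h2 := congrArg (G.dist o) h
    rw [hdist, hdist] at h2
    exact (List.eq_nil_of_length_eq_zero h2.symm).symm
  | cons i w ih =>
    intro w' h
    cases w' with
    | nil =>
      have h2 := congrArg (G.dist o) h
      rw [hdist, hdist] at h2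
      simp at h2
    | cons j w' =>
      have h2 := congrArg (G.dist o) h
      rw [hdist, hdist, List.length_cons, List.length_cons] at h2
      have h3 : φ w = φ w' := by
        refine near_unique hG o (u := φ (i :: w)) ?_ ?_ ?_ ?_
        · rw [h1]; exact (hadj _ _).1
        · rw [h, h1]; exact (hadj _ _).1
        · rw [hdist, hdist, List.length_cons]
        · rw [hdist, hdist, List.length_cons]; omega
      have h4 := ih h3
      subst h4
      rw [h1, h1] at h
      rw [hinj _ h]

end Pool.Agent.helper237_G5
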