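import Pool.Agent.helper237_G5.Stmts3

/-!
# Existence of the dynamics from the clocks and the deterministic flow
-/

namespace Pool.Agent.helper237_G5

open MeasureTheory ProbabilityTheory Filter Topology

namespace exists_aux

/-- the vertices reached by a walk of length `n` from `o` form a finite set -/
theorem finite_walk {V : Type} (G : SimpleGraph V) [G.LocallyFinite] (n : ℕ) :
    ∀ o : V, {v : V | ∃ w : G.Walk o v, w.length = n}.Finite := by
  induction n with
  | zero =>
    intro o
    refine (Set.finite_singleton o).subset ?_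
    rintro v ⟨w, hw⟩
    cases w with
    | nil => rfl
    | cons _ _ => simp at hw
  | succ n ih =>
    intro o
    refine ((G.neighborFinset o).finite_toSet.biUnion (fun u _ => ih u)).subset ?_
    rintro v ⟨w, hw⟩
    cases w with
    | nil => simp at hw
    | @cons _ u _ h p =>
      rw [Set.mem_iUnion₂]
      exact ⟨u, by simpa using h, p, by simpa using hw⟩

theorem countable_of_connected {V : Type} (G : SimpleGraph V) [G.LocallyFinite] (h : G.Connected) :
    Countable V := by
  obtain ⟨o⟩ := h.nonempty
  have h1 : (Set.univ : Set V) ⊆ ⋃ n : ℕ, {v : V | ∃ w : G.Walk o v, w.length = n} := by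
    intro v _
    obtain ⟨w⟩ := h.preconnected o v
    exact Set.mem_iUnion.2 ⟨w.length, w, rfl⟩
  have h2 : (Set.univ : Set V).Countable :=
    (Set.countable_iUnion (fun n => (finite_walk G n o).countable)).mono h1
  exact Set.countable_univ_iff.1 h2

end exists_aux

/-- the dynamics exists -/
theorem t_exists (hclocks : S_clocks) (hflow : S_flow) (hclusters : S_clusters') : S_exists := by
  classical
  intro V G _ hd hG p hp0 hp1
  have := exists_aux.countable_of_connected G hG
  obtain ⟨Ω, mΩ, μ, init, rings, hc⟩ := hclocks V p hp0 hp1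
  obtain ⟨τ, h0, hmono, hlim, hae⟩ := hclusters Ω V G hd hG p μ init rings hc
  have key : ∀ ω, (∀ k, FiniteClusters G (fun v => rings v ω) (τ k) (τ (k+1))) →
      ∃ σ : ℝ → V → Bool, (∀ v, σ 0 v = init v ω) ∧
      (∀ v s t, 0 ≤ s → s ≤ t → rings v ω ∩ Set.Ioc s t = ∅ → σ t v = σ s v) ∧
      (∀ v t, t ∈ rings v ω → ∀ᶠ s in 𝓝[<] t, σ t v = majority G (σ s) v) := by
    intro ω hω
    exact hflow V G (fun v => init v ω) (fun v => rings v ω) τ (fun v => hc.rings_pos v ω)
      (fun v s => hc.rings_fin v ω s) h0 hmono hlim hω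
  let σ : Ω → ℝ → V → Bool := fun ω =>
    if hω : (∀ k, FiniteClusters G (fun v => rings v ω) (τ k) (τ (k+1))) then (key ω hω).choose
    else fun _ _ => false
  have hσ : ∀ᵐ ω ∂μ, (∀ v, σ ω 0 v = init v ω) ∧
      (∀ v s t, 0 ≤ s → s ≤ t → rings v ω ∩ Set.Ioc s t = ∅ → σ ω t v = σ ω s v) ∧
      (∀ v t, t ∈ rings v ω → ∀ᶠ s in 𝓝[<] t, σ ω t v = majority G (σ ω s) v) := by
    filter_upwards [hae] with ω hω
    have e : σ ω = (key ω hω).choose := dif_pos hω
    rw [e]
    exact (key ω hω).choose_spec
  exact ⟨Ω, mΩ, μ, init, rings, σ,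
    { prob := hc.prob
      rings_pos := hc.rings_pos
      rings_fin := hc.rings_fin
      init_meas := hc.init_meas
      count_meas := hc.count_meas
      init_law := hc.init_law
      count_law := hc.count_law
      indep := hc.indep
      start := by filter_upwards [hσ] with ω h using h.1
      const := by filter_upwards [hσ] with ω h using h.2.1
      update := by filter_upwards [hσ] with ω h using h.2.2 }⟩

end Pool.Agent.helper237_G5
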