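import Pool.Agent.helper237_G5.Sem

/-!
# The substitution `v ↦ a v + b Z` on nested polynomials (`S_fail`)
-/

namespace Pool.Agent.helper237_G5

namespace fail_aux

open MvPolynomial sem_aux

/-- `add p q` with `q` of degree one less -/
lemma add_eq1 (p q : P) (vs : List Lab) (d : ℕ) (hp : wf vs (d+1) p) (hq : wf vs d q) :
    wf vs (d+1) (p.add q) ∧ pol vs (d+1) (p.add q) = pol vs (d+1) p + X Lab.Z * pol vs d q := by
  have := add_eq 1 p q vs d hp hq
  rwa [pow_one] at this

lemma failStep_le (A B : ℕ → ℕ) (a b : ℝ) (hA : ∀ x, (A x : ℝ) ≤ a * x)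
    (hB : ∀ x, (B x : ℝ) ≤ b * x) (v : Lab) (vs : List Lab) (d : ℕ) (p0 q : P)
    (hp : wf vs (d+1) p0) (hq : wf (v :: vs) d q) :
    wf (v :: vs) (d+1) (P.failStep A B p0 q) ∧
      cle (pol (v :: vs) (d+1) (P.failStep A B p0 q))
        (pol vs (d+1) p0 + (C a * X v + C b * X Lab.Z) * pol (v :: vs) d q) := by
  cases q with
  | lf x =>
    cases d with
    | succ d => exact absurd hq id
    | zero =>
      obtain ⟨h1, h2⟩ := addLeft_eq (B x) p0 vs (0+1) hp
      refine ⟨⟨h1, trivial⟩, ?_⟩
      show cle (pol vs (0+1) (p0.addLeft (B x)) + X v * C ((A x : ℕ) : ℝ))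
        (pol vs (0+1) p0 + (C a * X v + C b * X Lab.Z) * C (x : ℝ))
      rw [h2]
      have h3 : cle (C ((B x : ℕ) : ℝ) * X Lab.Z) (C (b * (x : ℝ)) * X Lab.Z) :=
        cle_C_mul (hB x) (cle_zero_X _)
      have h4 : cle (C ((A x : ℕ) : ℝ) * X v) (C (a * (x : ℝ)) * X v) :=
        cle_C_mul (hA x) (cle_zero_X _)
      have h5 := cle_add (cle_add (cle_refl (pol vs (0+1) p0)) h3) h4
      refine cle_trans (cle_of_eq ?_) (cle_trans h5 (cle_of_eq ?_))
      · ring
      · rw [C_mul, C_mul]; ring
  | nd q0 q1 =>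
    cases d with
    | zero => exact absurd hq id
    | succ d =>
      obtain ⟨hq0, hq1⟩ := hq
      obtain ⟨hB01, hB02⟩ := map_le B b hB q0 vs (d+1) hq0
      obtain ⟨hA01, hA02⟩ := map_le A a hA q0 vs (d+1) hq0
      obtain ⟨hB11, hB12⟩ := map_le B b hB q1 (v :: vs) d hq1
      obtain ⟨hA11, hA12⟩ := map_le A a hA q1 (v :: vs) d hq1
      obtain ⟨h1, h2⟩ := add_eq1 p0 (q0.map B) vs (d+1) hp hB01
      have hw : wf (v :: vs) (d+1) (P.nd (q0.map A) (q1.map A)) := ⟨hA01, hA11⟩
      obtain ⟨h3, h4⟩ := add_eq1 (P.nd (q0.map A) (q1.map A)) (q1.map B) (v :: vs) d hw hB11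
      refine ⟨⟨h1, h3⟩, ?_⟩
      show cle (pol vs (d+1+1) (p0.add (q0.map B)) +
          X v * pol (v :: vs) (d+1) ((P.nd (q0.map A) (q1.map A)).add (q1.map B)))
        (pol vs (d+1+1) p0 + (C a * X v + C b * X Lab.Z) *
          (pol vs (d+1) q0 + X v * pol (v :: vs) d q1))
      rw [h2, h4]
      have h5 : pol (v :: vs) (d+1) (P.nd (q0.map A) (q1.map A)) =
        pol vs (d+1) (q0.map A) + X v * pol (v :: vs) d (q1.map A) := rfl
      rw [h5]
      have e1 := cle_mul (cle_zero_X Lab.Z) hB02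
      have e2 := cle_mul (cle_zero_X v) hA02
      have e3 := cle_mul (cle_zero_X v) (cle_mul (cle_zero_X v) hA12)
      have e4 := cle_mul (cle_zero_X v) (cle_mul (cle_zero_X Lab.Z) hB12)
      have e5 := cle_add (cle_refl (pol vs (d+1+1) p0)) (cle_add (cle_add e1 e2) (cle_add e3 e4))
      refine cle_trans (cle_of_eq ?_) (cle_trans e5 (cle_of_eq ?_))
      · ring
      · ring

/-- the substitution -/
noncomputable def SF (v : Lab) (a b : ℝ) (x : Lab) : MP :=
  if x = v then C a * X v + C b * X Lab.Z else X x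

lemma SF_eq (v : Lab) (a b : ℝ) (hv : v ≠ Lab.Z) (x : Lab) :
    ∑ y, C (EF v a b x y) * X y = SF v a b x := by
  unfold EF SF
  by_cases h : x = v
  · simp only [if_pos h]
    have h1 : ∀ y : Lab, (C (if y = v then a else if y = Lab.Z then b else 0) : MP) * X y =
        (if y = v then C a * X y else 0) + (if y = Lab.Z then C b * X y else 0) := by
      intro y
      by_cases hy : y = v
      · subst hy
        rw [if_pos rfl, if_pos rfl, if_neg hv, add_zero]
      · rw [if_neg hy, if_neg hy, zero_add]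
        by_cases hy' : y = Lab.Z
        · rw [if_pos hy', if_pos hy']
        · rw [if_neg hy', if_neg hy']; simp
    rw [Finset.sum_congr rfl fun y _ => h1 y, Finset.sum_add_distrib, Finset.sum_ite_eq',
      Finset.sum_ite_eq']
    simp
  · simp only [if_neg h]
    have h1 : ∀ y : Lab, (C (if y = x then (1:ℝ) else 0) : MP) * X y = if y = x then X y else 0 := by
      intro y
      by_cases hy : y = x
      · rw [if_pos hy, if_pos hy]; simp
      · rw [if_neg hy, if_neg hy]; simp
    rw [Finset.sum_congr rfl fun y _ => h1 y, Finset.sum_ite_eq']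
    simp

lemma fail_le (A B : ℕ → ℕ) (a b : ℝ) (ha : 0 ≤ a) (hb : 0 ≤ b) (hA : ∀ x, (A x : ℝ) ≤ a * x)
    (hB : ∀ x, (B x : ℝ) ≤ b * x) (v : Lab) : ∀ (p : P) (vs : List Lab) (d t : ℕ), vs.Nodup →
    Lab.Z ∉ vs → vs[t]? = some v → wf vs d p →
    wf vs d (P.fail A B p t) ∧ cle (pol vs d (P.fail A B p t)) (bind₁ (SF v a b) (pol vs d p)) := by
  intro p
  induction p with
  | lf n =>
    intro vs d t hn hZ ht h
    cases vs with
    | nil => simp at ht
    | cons w vs =>
      cases d with
      | zero =>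
        refine ⟨trivial, ?_⟩
        show cle (C (n : ℝ)) (bind₁ (SF v a b) (C (n : ℝ)))
        rw [bind₁_C_right]
        exact cle_refl _
      | succ d => exact absurd h id
  | nd p0 p1 ih0 ih1 =>
    intro vs d t hn hZ ht h
    cases vs with
    | nil => simp at ht
    | cons w vs =>
      cases d with
      | zero => exact absurd h id
      | succ d =>
        obtain ⟨h0, h1⟩ := h
        have hn' : vs.Nodup := (List.nodup_cons.1 hn).2
        have hw : w ∉ vs := (List.nodup_cons.1 hn).1
        have hZ' : Lab.Z ∉ vs := fun h => hZ (by simp [h])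
        have hwZ : w ≠ Lab.Z := fun h => hZ (by simp [h])
        cases t with
        | zero =>
          have hwv : w = v := by simpa using ht
          subst hwv
          obtain ⟨g1, g2⟩ := ih1 (w :: vs) d 0 hn hZ ht h1
          obtain ⟨k1, k2⟩ := failStep_le A B a b hA hB w vs d p0 (P.fail A B p1 0) h0 g1
          refine ⟨k1, cle_trans k2 ?_⟩
          show cle _ (bind₁ (SF w a b) (pol vs (d+1) p0 + X w * pol (w :: vs) d p1))
          have hS : SF w a b w = C a * X w + C b * X Lab.Z := if_pos rfl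
          rw [map_add, map_mul, bind₁_X_right, hS, bind_pol (SF w a b) (if_neg hwZ.symm) p0 vs (d+1)
            (fun x hx => if_neg (fun h : x = w => hw (h ▸ hx)))]
          refine cle_add (cle_refl _) (cle_mul ?_ g2)
          exact cle_zero_add (cle_zero_mul (cle_zero_C ha) (cle_zero_X _))
            (cle_zero_mul (cle_zero_C hb) (cle_zero_X _))
        | succ t =>
          have ht' : vs[t]? = some v := by simpa using ht
          have hvs : v ∈ vs := List.mem_of_getElem? ht'
          have hwv : w ≠ v := fun h => hw (h ▸ hvs)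
          obtain ⟨g1, g2⟩ := ih0 vs (d+1) t hn' hZ' ht' h0
          obtain ⟨k1, k2⟩ := ih1 (w :: vs) d (t+1) hn hZ ht h1
          refine ⟨⟨g1, k1⟩, ?_⟩
          show cle (pol vs (d+1) (P.fail A B p0 t) + X w * pol (w :: vs) d (P.fail A B p1 (t+1)))
            (bind₁ (SF v a b) (pol vs (d+1) p0 + X w * pol (w :: vs) d p1))
          have hS : SF v a b w = X w := if_neg hwv
          rw [map_add, map_mul, bind₁_X_right, hS]
          exact cle_add g2 (cle_mul (cle_zero_X _) k2)

end fail_aux

open fail_aux sem_aux in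
theorem t_fail : S_fail := by
  intro vs p t v A B a b hn hZ ht hp ha hb hA hB
  obtain ⟨h1, h2⟩ := fail_le A B a b ha hb hA hB v p vs 4 t hn hZ ht hp
  have hv : v ≠ Lab.Z := fun h => hZ (h ▸ List.mem_of_getElem? ht)
  exact ⟨h1, le_push vs p _ _ (SF v a b) hn hZ (SF_eq v a b hv) h2⟩

end Pool.Agent.helper237_G5
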