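import Pool.Agent.helper237_G5.Stmts3

/-!
# Task flow: construction of the dynamics from the clocks (`S_flow`)
-/

namespace Pool.Agent.helper237_G5

open MeasureTheory ProbabilityTheory Filter Topology

namespace flow_aux

variable {V : Type} (G : SimpleGraph V) [G.LocallyFinite]

theorem maj_congr {η η' : V → Bool} {v : V} (h : ∀ w, G.Adj v w → η w = η' w) :
    majority G η v = majority G η' v := by
  have : plusNbrs G η v = plusNbrs G η' v := by
    unfold plusNbrs
    congr 1
    refine Finset.filter_congr fun w hw => ?_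
    rw [h w ((G.mem_neighborFinset v w).1 hw)]
  unfold majority
  rw [this]

/-- last ring before `s` -/
theorem last_ring {R : Set ℝ} (hR : ∀ s, (R ∩ Set.Iic s).Finite) {s : ℝ}
    (hne : (R ∩ Set.Iio s).Nonempty) : ∃ m, m ∈ R ∧ m < s ∧ R ∩ Set.Ioo m s = ∅ := by
  have hfin : (R ∩ Set.Iio s).Finite :=
    (hR s).subset (fun x hx => ⟨hx.1, le_of_lt (Set.mem_Iio.1 hx.2)⟩)
  obtain ⟨m, hm, hmax⟩ := Set.exists_max_image _ id hfin hne
  refine ⟨m, hm.1, hm.2, ?_⟩
  rw [Set.eq_empty_iff_forall_notMem]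
  rintro x ⟨hxR, hx1, hx2⟩
  exact absurd (hmax x ⟨hxR, hx2⟩) (not_le.2 hx1)

/-- the dependence relation between the values just before the times: `b` uses `a` -/
def Dep (R : V → Set ℝ) (a b : V × ℝ) : Prop :=
  G.Adj b.1 a.1 ∧ a.2 ∈ R b.1 ∧ a.2 < b.2

omit [G.LocallyFinite] in
theorem acc_window (R : V → Set ℝ) (a b : ℝ) (hRf : ∀ v s, (R v ∩ Set.Iic s).Finite)
    (hF : FiniteClusters G R a b) (ih : ∀ v s, s ≤ a → Acc (Dep G R) (v, s)) :
    ∀ v s, s ≤ b → Acc (Dep G R) (v, s) := by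
  -- vertices without rings in the window
  have quiet : ∀ v, ¬ (R v ∩ Set.Ioc a b).Nonempty → ∀ s, s ≤ b → Acc (Dep G R) (v, s) := by
    intro v hv s hs
    refine Acc.intro _ ?_
    rintro ⟨w, s'⟩ ⟨-, hs', hlt⟩
    refine ih w s' ?_
    by_contra hgt
    rw [not_le] at hgt
    exact hv ⟨s', hs', hgt, hlt.le.trans hs⟩
  intro v0
  by_cases hring : (R v0 ∩ Set.Ioc a b).Nonempty
  swap
  · exact quiet v0 hring
  set C : Set V := {w | ∃ q : G.Walk v0 w, ∀ x ∈ q.support, (R x ∩ Set.Ioc a b).Nonempty} with hCdef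
  have hCfin : C.Finite := hF v0
  have hv0C : v0 ∈ C := ⟨SimpleGraph.Walk.nil, by
    intro x hx
    rw [SimpleGraph.Walk.support_nil, List.mem_singleton] at hx
    rw [hx]; exact hring⟩
  set T : Set ℝ := {s | s ∈ Set.Ioc a b ∧ ∃ w ∈ C, s ∈ R w} with hTdef
  have hTfin : T.Finite := by
    refine (hCfin.biUnion (fun w _ => hRf w b)).subset ?_
    rintro x ⟨hx1, w, hwC, hxR⟩
    exact Set.mem_biUnion hwC ⟨hxR, hx1.2⟩
  have key : ∀ n : ℕ, ∀ w ∈ C, ∀ s, s ≤ b → (T ∩ Set.Iio s).ncard = n → Acc (Dep G R) (w, s) := by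
    intro n
    induction n using Nat.strong_induction_on with
    | _ n IH =>
      intro w hw s hs hn
      refine Acc.intro _ ?_
      rintro ⟨w', s'⟩ ⟨hadj, hs', hlt⟩
      change G.Adj w w' at hadj
      change s' ∈ R w at hs'
      change s' < s at hlt
      rcases le_or_gt s' a with hle | hgt
      · exact ih w' s' hle
      · have hs'b : s' ≤ b := hlt.le.trans hs
        by_cases hw' : (R w' ∩ Set.Ioc a b).Nonempty
        · have hw'C : w' ∈ C := by
            obtain ⟨q, hq⟩ := hw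
            refine ⟨q.concat hadj, ?_⟩
            intro x hx
            rw [SimpleGraph.Walk.support_concat, List.mem_append, List.mem_singleton] at hx
            rcases hx with hx | hx
            · exact hq x hx
            · rw [hx]; exact hw'
          refine IH _ ?_ w' hw'C s' hs'b rfl
          rw [← hn]
          refine Set.ncard_lt_ncard ?_ (hTfin.subset Set.inter_subset_left)
          refine ⟨fun x hx => ⟨hx.1, lt_trans hx.2 hlt⟩, ?_⟩
          intro hsub
          have : s' ∈ T ∩ Set.Iio s' := hsub ⟨⟨⟨hgt, hs'b⟩, w, hw, hs'⟩, hlt⟩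
          exact lt_irrefl _ (Set.mem_Iio.1 this.2)
        · exact quiet w' hw' s' hs'b
  intro s hs
  exact key _ v0 hv0C s hs rfl

omit [G.LocallyFinite] in
theorem wf_dep (R : V → Set ℝ) (τ : ℕ → ℝ) (hR0 : ∀ v, R v ⊆ Set.Ioi 0)
    (hRf : ∀ v s, (R v ∩ Set.Iic s).Finite) (hτ0 : τ 0 = 0) (hτt : Tendsto τ atTop atTop)
    (hF : ∀ k, FiniteClusters G R (τ k) (τ (k + 1))) : WellFounded (Dep G R) := by
  have main : ∀ k, ∀ v s, s ≤ τ k → Acc (Dep G R) (v, s) := by
    intro k
    induction k with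
    | zero =>
      intro v s hs
      refine Acc.intro _ ?_
      rintro ⟨w, s'⟩ ⟨-, hs', hlt⟩
      exfalso
      have h1 : (0 : ℝ) < s' := hR0 v hs'
      rw [hτ0] at hs
      exact absurd (h1.trans (lt_of_lt_of_le hlt hs)) (lt_irrefl _)
    | succ k ih => exact acc_window G R (τ k) (τ (k + 1)) hRf (hF k) ih
  refine ⟨?_⟩
  rintro ⟨v, s⟩
  obtain ⟨k, hk⟩ := (hτt.eventually (eventually_ge_atTop s)).exists
  exact main k v s hk

/-- the values just before the times -/
theorem exists_pre (init : V → Bool) (R : V → Set ℝ) (hRf : ∀ v s, (R v ∩ Set.Iic s).Finite)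
    (hwf : WellFounded (Dep G R)) :
    ∃ P : V → ℝ → Bool, (∀ v s, ¬ (R v ∩ Set.Iio s).Nonempty → P v s = init v) ∧
      ∀ v s m, m ∈ R v → m < s → R v ∩ Set.Ioo m s = ∅ →
        P v s = majority G (fun w => P w m) v := by
  classical
  have hmax : ∀ x : V × ℝ, (R x.1 ∩ Set.Iio x.2).Nonempty →
      ∃ m, m ∈ R x.1 ∧ m < x.2 ∧ R x.1 ∩ Set.Ioo m x.2 = ∅ :=
    fun x hx => last_ring (hRf x.1) hx
  choose! lr hlr using hmax
  let F : (x : V × ℝ) → ((y : V × ℝ) → Dep G R y x → Bool) → Bool := fun x rec =>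
    if h : (R x.1 ∩ Set.Iio x.2).Nonempty then
      majority G (fun w => if hw : G.Adj x.1 w then
        rec (w, lr x) ⟨hw, (hlr x h).1, (hlr x h).2.1⟩ else false) x.1
    else init x.1
  let P : V × ℝ → Bool := hwf.fix F
  have hP : ∀ x, P x = F x (fun y _ => P y) := fun x => hwf.fix_eq F x
  refine ⟨fun v s => P (v, s), ?_, ?_⟩
  · intro v s h
    show P (v, s) = init v
    rw [hP]
    exact dif_neg h
  · intro v s m hm hms hemp
    have hne : (R v ∩ Set.Iio s).Nonempty := ⟨m, hm, hms⟩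
    have hm' : lr (v, s) = m := by
      obtain ⟨h1, h2, h3⟩ := hlr (v, s) hne
      change lr (v, s) ∈ R v at h1
      change lr (v, s) < s at h2
      change R v ∩ Set.Ioo (lr (v, s)) s = ∅ at h3
      rcases lt_trichotomy (lr (v, s)) m with hlt | heq | hgt
      · exact absurd (show m ∈ R v ∩ Set.Ioo (lr (v, s)) s from ⟨hm, hlt, hms⟩) (by rw [h3]; simp)
      · exact heq
      · exact absurd (show lr (v, s) ∈ R v ∩ Set.Ioo m s from ⟨h1, hgt, h2⟩) (by rw [hemp]; simp)
    show P (v, s) = majority G (fun w => P (w, m)) v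
    rw [hP]
    have e : F (v, s) (fun y _ => P y) = majority G (fun w => if hw : G.Adj v w then
        P (w, lr (v, s)) else false) v := dif_pos hne
    rw [e, hm']
    refine maj_congr G fun w hw => ?_
    rw [dif_pos hw]

end flow_aux

open flow_aux in
theorem t_flow : S_flow := by
  intro V G _ init R τ hR0 hRf hτ0 _ hτt hF
  classical
  obtain ⟨P, hP0, hP1⟩ := exists_pre G init R hRf (wf_dep G R τ hR0 hRf hτ0 hτt hF)
  -- the value depends only on the rings before the time
  have hPc : ∀ v s t, R v ∩ Set.Iio s = R v ∩ Set.Iio t → P v s = P v t := by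
    intro v s t h
    by_cases hne : (R v ∩ Set.Iio s).Nonempty
    · obtain ⟨m, hm, hms, hemp⟩ := last_ring (hRf v) hne
      have hmt : m < t := by
        have : m ∈ R v ∩ Set.Iio t := h ▸ ⟨hm, hms⟩
        exact this.2
      have hempt : R v ∩ Set.Ioo m t = ∅ := by
        rw [Set.eq_empty_iff_forall_notMem] at hemp ⊢
        rintro x ⟨hx1, hx2, hx3⟩
        have : x ∈ R v ∩ Set.Iio s := h.symm ▸ ⟨hx1, hx3⟩
        exact hemp x ⟨hx1, hx2, this.2⟩
      rw [hP1 v s m hm hms hemp, hP1 v t m hm hmt hempt]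
    · rw [hP0 v s hne, hP0 v t (by rwa [← h])]
  refine ⟨fun t v => if t ∈ R v then majority G (fun w => P w t) v else P v t, ?_, ?_, ?_⟩
  · intro v
    have h0 : (0 : ℝ) ∉ R v := fun h => lt_irrefl _ (Set.mem_Ioi.1 (hR0 v h))
    show (if (0 : ℝ) ∈ R v then majority G (fun w => P w 0) v else P v 0) = init v
    rw [if_neg h0]
    refine hP0 v 0 ?_
    rintro ⟨x, hx1, hx2⟩
    exact absurd (Set.mem_Ioi.1 (hR0 v hx1)) (not_lt.2 (le_of_lt (Set.mem_Iio.1 hx2)))
  · intro v s t hs hst hemp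
    rcases eq_or_lt_of_le hst with rfl | hlt
    · rfl
    show (if t ∈ R v then majority G (fun w => P w t) v else P v t) =
      (if s ∈ R v then majority G (fun w => P w s) v else P v s)
    rw [Set.eq_empty_iff_forall_notMem] at hemp
    have ht : t ∉ R v := fun h => hemp t ⟨h, hlt, le_rfl⟩
    rw [if_neg ht]
    by_cases hsR : s ∈ R v
    · rw [if_pos hsR]
      refine hP1 v t s hsR hlt ?_
      rw [Set.eq_empty_iff_forall_notMem]
      rintro x ⟨hx1, hx2, hx3⟩
      exact hemp x ⟨hx1, hx2, hx3.le⟩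
    · rw [if_neg hsR]
      refine hPc v t s ?_
      ext x
      constructor
      · rintro ⟨hx1, hx2⟩
        refine ⟨hx1, ?_⟩
        rcases lt_trichotomy x s with h | h | h
        · exact h
        · exact absurd (h ▸ hx1) hsR
        · exact absurd ⟨hx1, h, le_of_lt hx2⟩ (hemp x)
      · rintro ⟨hx1, hx2⟩
        exact ⟨hx1, lt_trans hx2 hlt⟩
  · intro v t ht
    have hw : ∀ w, ∀ᶠ s in 𝓝[<] t,
        (if s ∈ R w then majority G (fun w => P w s) w else P w s) = P w t := by
      intro w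
      have hfin : (R w ∩ Set.Iio t).Finite := (hRf w t).subset fun x hx => ⟨hx.1, le_of_lt (Set.mem_Iio.1 hx.2)⟩
      have hev : ∀ᶠ s in 𝓝[<] t, ∀ x ∈ R w ∩ Set.Iio t, x < s := by
        rw [Filter.eventually_all_finite hfin]
        intro x hx
        filter_upwards [Ioo_mem_nhdsLT (Set.mem_Iio.1 hx.2)] with s hs
        exact hs.1
      filter_upwards [hev, self_mem_nhdsWithin] with s hs hst
      have hsR : s ∉ R w := fun h => lt_irrefl s (hs s ⟨h, hst⟩)
      rw [if_neg hsR]
      refine hPc w s t ?_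
      ext x
      constructor
      · rintro ⟨hx1, hx2⟩
        exact ⟨hx1, Set.mem_Iio.2 (lt_trans (Set.mem_Iio.1 hx2) (Set.mem_Iio.1 hst))⟩
      · rintro ⟨hx1, hx2⟩
        exact ⟨hx1, hs x ⟨hx1, hx2⟩⟩
    have hall : ∀ᶠ s in 𝓝[<] t, ∀ w ∈ G.neighborFinset v,
        (if s ∈ R w then majority G (fun w => P w s) w else P w s) = P w t := by
      rw [Filter.eventually_all_finset]
      exact fun w _ => hw w
    filter_upwards [hall] with s hs
    show (if t ∈ R v then majority G (fun w => P w t) v else P v t) = _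
    rw [if_pos ht]
    refine maj_congr G fun w hwv => ?_
    exact (hs w ((G.mem_neighborFinset v w).2 hwv)).symm

end Pool.Agent.helper237_G5
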