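import Pool.Agent.helper237_G5.Stmts2

/-!
# A labelling gives a `z` satisfying the slot rule
-/

namespace Pool.Agent.helper237_G5

namespace lab_aux

/-- the label at time `n` -/
def atp : {m : ℕ} → Path m → ℕ → Lab
  | 0, x, _ => x
  | m+1, l, n => if n ≤ m then atp (m := m) l.1 n else l.2

theorem atp_last : ∀ {m : ℕ} (l : Path m) {n : ℕ}, m ≤ n → atp l n = last l
  | 0, _, _, _ => rfl
  | m+1, l, n, h => by
    have : ¬ n ≤ m := by omega
    simp only [atp, last, if_neg this]

theorem atp_fst {m : ℕ} (l : Path (m+1)) {n : ℕ} (h : n ≤ m) : atp l n = atp (m := m) l.1 n := by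
  simp only [atp, if_pos h]

theorem atp_snd {m : ℕ} (l : Path (m+1)) : atp l (m+1) = l.2 := by
  simp [atp]

theorem okPath_zero {S : ℕ} {o : Own S} {g : Option ℕ} : ∀ {m : ℕ} {l : Path m} {k : Fin 4 → Path m},
    okPath o g m l k → (atp l 0).up = true → o.1 = true
  | 0, _, _, h, hu => h hu
  | m+1, l, k, h, hu => by
    have h1 := h.1
    rw [atp_fst l (Nat.zero_le m)] at hu
    exact okPath_zero h1 hu

theorem okPath_step {S : ℕ} {o : Own S} {g : Option ℕ} : ∀ {m : ℕ} {l : Path m} {k : Fin 4 → Path m},
    okPath o g m l k → ∀ n < m, stepOK o g n (atp l n) (atp l (n+1))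
      (cnt (fun i => atp (k i) n) (fun i => atp (k i) (n+1)))
  | 0, _, _, _, n, hn => absurd hn (Nat.not_lt_zero n)
  | m+1, l, k, h, n, hn => by
    rcases Nat.lt_succ_iff_lt_or_eq.1 hn with h2 | h2
    · have h3 := okPath_step h.1 n h2
      have e1 : atp l n = atp (m := m) l.1 n := atp_fst l (by omega)
      have e2 : atp l (n+1) = atp (m := m) l.1 (n+1) := atp_fst l (by omega)
      have e3 : ∀ i, atp (k i) n = atp (m := m) (k i).1 n := fun i => atp_fst (k i) (by omega)
      have e4 : ∀ i, atp (k i) (n+1) = atp (m := m) (k i).1 (n+1) := fun i => atp_fst (k i) (by omega)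
      simp only [e1, e2, e3, e4]
      exact h3
    · subst h2
      have h3 := h.2
      have e1 : atp l n = last (m := n) l.1 := by rw [atp_fst l le_rfl, atp_last _ le_rfl]
      have e2 : atp l (n+1) = l.2 := atp_snd l
      have e3 : ∀ i, atp (k i) n = last (m := n) (k i).1 := fun i => by rw [atp_fst (k i) le_rfl, atp_last _ le_rfl]
      have e4 : ∀ i, atp (k i) (n+1) = (k i).2 := fun i => atp_snd (k i)
      simp only [e1, e2, e3, e4]
      exact h3

theorem atp_star : ∀ (m n : ℕ), atp (star m) n = Lab.U 0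
  | 0, _ => rfl
  | m+1, n => by
    by_cases h : n ≤ m
    · rw [atp_fst (star (m+1)) h]; exact atp_star m n
    · have : atp (star (m+1)) n = last (star (m+1)) := atp_last _ (by omega)
      rw [this]; rfl

theorem cls_some : ∀ {m : ℕ} {l : Path m} {a : ℕ}, cls l = some a → a ≤ m ∧ (atp l a).up = true
  | 0, l, a, h => by
    simp only [cls] at h
    split at h
    · rename_i h2
      simp only [Option.some.injEq] at h
      subst h
      exact ⟨le_rfl, h2⟩
    · simp at h
  | m+1, l, a, h => by
    simp only [cls] at h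
    split at h
    · rename_i b hb
      simp only [Option.some.injEq] at h
      subst h
      obtain ⟨h1, h2⟩ := cls_some hb
      exact ⟨by omega, by rw [atp_fst l h1]; exact h2⟩
    · split at h
      · rename_i h2
        simp only [Option.some.injEq] at h
        subst h
        exact ⟨le_rfl, by rw [atp_snd]; exact h2⟩
      · simp at h

theorem up_ne_Z {x : Lab} (h : x.up = true) : x ≠ Lab.Z := by
  rintro rfl; simp [Lab.up] at h

section steps
variable {S : ℕ} {o : Own S} {g : Option ℕ} {n c : ℕ} {x y : Lab}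

theorem step_Z (h : stepOK o g n Lab.Z y c) : y = Lab.Z := by
  cases y <;> simp_all [stepOK]

theorem step_up (h : stepOK o g n x y c) (hx : x.up = true) : y = Lab.Z ∨ y.up = true := by
  cases x <;> cases y <;> simp_all [stepOK, Lab.up]

/-- up at both times and ringing: enough children -/
theorem step_need (h : stepOK o g n x y c) (hx : x.up = true) (hy : y.up = true) (hr : rg o n = true) :
    need g n ≤ c := by
  cases x <;> cases y <;> simp_all [stepOK, Lab.up]

/-- not up before, up afterwards: rings, and enough children -/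
theorem step_born (h : stepOK o g n x y c) (hx : ¬ x.up = true) (hy : y.up = true) :
    rg o n = true ∧ need g n ≤ c := by
  cases x <;> cases y <;> simp_all [stepOK, Lab.up]

end steps

section lab
variable {S : ℕ} {own : List (Fin 4) → Own S} {lab : List (Fin 4) → Path (S+1)}

/-- no proper ancestor is dead at time `n` -/
def alive (lab : List (Fin 4) → Path (S+1)) (n : ℕ) : List (Fin 4) → Prop
  | [] => True
  | _ :: w => atp (lab w) n ≠ Lab.Z ∧ alive lab n w

/-- the slot variable on the 4-ary tree -/
def zt (lab : List (Fin 4) → Path (S+1)) (w : List (Fin 4)) (n : ℕ) : Prop :=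
  (atp (lab w) n).up = true ∧ (atp (lab w) (n+1)).up = true ∧ alive lab (n+1) w

variable (hok : ∀ w, okPath (own w) (pcls lab w) (S+1) (lab w) (fun i => lab (i :: w)))
include hok

theorem Z_mono (w : List (Fin 4)) {n : ℕ} (hn : n < S + 1) (h : atp (lab w) n = Lab.Z) :
    atp (lab w) (n+1) = Lab.Z := by
  have h1 := okPath_step (hok w) n hn
  rw [h] at h1
  exact step_Z h1

theorem alive_mono {n : ℕ} (hn : n < S + 1) : ∀ w, alive lab (n+1) w → alive lab n w
  | [], _ => trivial
  | _ :: w, h => ⟨fun hz => h.1 (Z_mono hok w hn hz), alive_mono hn w h.2⟩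

/-- a path which is up at time `a` and not dead at time `n ≥ a` is up at time `n` -/
theorem up_mono (w : List (Fin 4)) {a n : ℕ} (han : a ≤ n) (hn : n ≤ S + 1) (ha : (atp (lab w) a).up = true)
    (h : atp (lab w) n ≠ Lab.Z) : (atp (lab w) n).up = true := by
  induction n, han using Nat.le_induction with
  | base => exact ha
  | succ n han ih =>
    have h0 : atp (lab w) n ≠ Lab.Z := fun hz => h (Z_mono hok w (by omega) hz)
    have h1 := ih (by omega) h0
    rcases step_up (okPath_step (hok w) n (by omega)) h1 with h2 | h2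
    · exact absurd h2 h
    · exact h2

/-- the class of the parent gives a parent with `zt` -/
theorem parent_zt {w : List (Fin 4)} {n a : ℕ} (hn : n ≤ S) (hal : alive lab (n+1) w)
    (hc : pcls lab w = some a) (han : a ≤ n) : ∃ i w', w = i :: w' ∧ zt lab w' n := by
  cases w with
  | nil => simp [pcls] at hc
  | cons i w' =>
    refine ⟨i, w', rfl, ?_⟩
    simp only [pcls] at hc
    obtain ⟨_, h2⟩ := cls_some hc
    obtain ⟨h3, h4⟩ := hal
    have h5 : atp (lab w') n ≠ Lab.Z := fun hz => h3 (Z_mono hok w' (by omega) hz)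
    exact ⟨up_mono hok w' han (by omega) h2 h5, up_mono hok w' (by omega) (by omega) h2 h3, h4⟩

end lab

theorem need_cases (g : Option ℕ) (n : ℕ) : need g n = 3 ∨ (need g n = 2 ∧ ∃ a, g = some a ∧ a ≤ n) := by
  cases g with
  | none => left; rfl
  | some a =>
    by_cases h : a ≤ n
    · right; exact ⟨by simp [need, h], a, rfl, h⟩
    · left; simp [need, h]

/-- counting the neighbours -/
theorem three_le {V : Type} (G : SimpleGraph V) [G.LocallyFinite] {o : V} {φ : List (Fin 4) → V} (he : IsEmb G o φ)
    {S : ℕ} {own : List (Fin 4) → Own S} {lab : List (Fin 4) → Path (S+1)}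
    (hok : ∀ w, okPath (own w) (pcls lab w) (S+1) (lab w) (fun i => lab (i :: w)))
    {w : List (Fin 4)} {n : ℕ} (hn : n ≤ S) (hal : alive lab (n+1) w) (hw : atp (lab w) (n+1) ≠ Lab.Z)
    (hc : need (pcls lab w) n ≤ cnt (fun i => atp (lab (i :: w)) n) (fun i => atp (lab (i :: w)) (n+1))) :
    3 ≤ znbrs G (fun v => ∃ w, φ w = v ∧ zt lab w n) (φ w) := by
  classical
  set A : Finset (Fin 4) := Finset.univ.filter
    (fun i => (atp (lab (i :: w)) n).up = true ∧ (atp (lab (i :: w)) (n+1)).up = true) with hA
  have hcA : need (pcls lab w) n ≤ A.card := hc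
  set B : Finset V := A.image (fun i => φ (i :: w)) with hB
  have hBcard : B.card = A.card := by
    rw [hB]
    apply Finset.card_image_of_injective
    intro i j hij
    have := he.inj hij
    simpa using this
  have hBsub : B ⊆ (G.neighborFinset (φ w)).filter (fun v => ∃ w, φ w = v ∧ zt lab w n) := by
    intro v hv
    rw [hB, Finset.mem_image] at hv
    obtain ⟨i, hi, rfl⟩ := hv
    rw [hA, Finset.mem_filter] at hi
    rw [Finset.mem_filter, SimpleGraph.mem_neighborFinset]
    exact ⟨he.adj w i, i :: w, rfl, hi.2.1, hi.2.2, hw, hal⟩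
  have hzn : znbrs G (fun v => ∃ w, φ w = v ∧ zt lab w n) (φ w) =
      ((G.neighborFinset (φ w)).filter (fun v => ∃ w, φ w = v ∧ zt lab w n)).card := by
    unfold znbrs
    congr!
  rw [hzn]
  rcases need_cases (pcls lab w) n with h3 | ⟨h2, a, ha, han⟩
  · calc 3 ≤ B.card := by rw [hBcard]; omega
      _ ≤ _ := Finset.card_le_card hBsub
  · obtain ⟨i, w', rfl, hw'⟩ := parent_zt hok hn hal ha han
    have hnot : φ w' ∉ B := by
      rw [hB, Finset.mem_image]
      rintro ⟨j, _, hj⟩
      have := he.inj hj
      have h5 := congrArg List.length this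
      simp only [List.length_cons] at h5
      omega
    calc 3 ≤ (insert (φ w') B).card := by rw [Finset.card_insert_of_notMem hnot, hBcard]; omega
      _ ≤ _ := by
        apply Finset.card_le_card
        apply Finset.insert_subset _ hBsub
        rw [Finset.mem_filter, SimpleGraph.mem_neighborFinset]
        exact ⟨(he.adj w' i).symm, w', rfl, hw'⟩

end lab_aux

open lab_aux in
theorem t_lab : S_lab := by
  intro V G _ o φ he init R t S own h1 h2 lab hroot hok
  refine ⟨fun v n => ∃ w, φ w = v ∧ zt lab w n, ⟨?_, ?_, ?_, ?_⟩, ?_⟩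
  · rintro v ⟨w, rfl, hz⟩
    rw [← h1 w]
    exact okPath_zero (hok w) hz.1
  · rintro v n hn ⟨w, rfl, hz⟩ hr
    have hr' : rg (own w) n = true := by
      simp only [rg, dif_pos hn]
      exact (h2 w ⟨n, hn⟩).2 hr
    exact three_le G he hok hn.le hz.2.2 (up_ne_Z hz.2.1)
      (step_need (okPath_step (hok w) n (by omega)) hz.1 hz.2.1 hr')
  · rintro v ⟨w, rfl, hz⟩
    have hr' : rg (own w) S = true := by
      simp [rg]
    exact three_le G he hok le_rfl hz.2.2 (up_ne_Z hz.2.1)
      (step_need (okPath_step (hok w) S (by omega)) hz.1 hz.2.1 hr')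
  · rintro v n hn hnz ⟨w, rfl, hz⟩
    have hal : alive lab (n+1) w := alive_mono hok (by omega) w hz.2.2
    have hnu : ¬ (atp (lab w) n).up = true := fun hu => hnz ⟨w, rfl, hu, hz.1, hal⟩
    obtain ⟨hr, hc⟩ := step_born (okPath_step (hok w) n (by omega)) hnu hz.1
    refine ⟨?_, three_le G he hok hn.le hal (up_ne_Z hz.1) hc⟩
    simp only [rg, dif_pos hn] at hr
    exact (h2 w ⟨n, hn⟩).1 hr
  · refine ⟨[], he.root, ?_, ?_, trivial⟩
    · rw [hroot, atp_star]; rfl
    · rw [hroot, atp_star]; rfl

end Pool.Agent.helper237_G5
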