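import Pool.Agent.helper237_G5.Stmts2

/-!
# Assembly: from a closure certificate to the critical density
-/

namespace Pool.Agent.helper237_G5

open MeasureTheory ProbabilityTheory Filter Topology

namespace main_aux

/-- the ring probabilities, with value `1` after `S` -/
noncomputable def cut (S : ℕ) (r : ℕ → ℝ) (n : ℕ) : ℝ := if n ≤ S then r n else 1

/-- the certificate only uses the ring probabilities up to `S` -/
noncomputable def cutCert {S : ℕ} {p : ℝ} {r : ℕ → ℝ} (ct : Cert S p r) : Cert S p (cut S r) where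
  e := ct.e
  s := ct.s
  u := ct.u
  k := ct.k
  Y := ct.Y
  e0 := ct.e0
  s_pre := ct.s_pre
  u_pre := ct.u_pre
  k_pre := ct.k_pre
  s_nonneg := ct.s_nonneg
  s_le := ct.s_le
  u_nonneg := ct.u_nonneg
  k_nonneg := ct.k_nonneg
  uk_le := ct.uk_le
  uS := ct.uS
  kS := ct.kS
  Y_nonneg := ct.Y_nonneg
  Y_pre := ct.Y_pre
  c0 := ct.c0
  c0_pos := ct.c0_pos
  initC := ct.initC
  initU := ct.initU
  up_le := fun a g n h1 h2 h3 y => by
    have e : cut S r n = r n := if_pos h2
    rw [e]; exact ct.up_le a g n h1 h2 h3 y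
  up_mass := ct.up_mass
  stay_le := fun g n h1 h2 y => by
    have e : cut S r n = r n := if_pos h1.le
    rw [e]; exact ct.stay_le g n h1 h2 y
  stay_mass := ct.stay_mass
  c := ct.c
  c_pos := ct.c_pos
  rise_le := fun g n h1 h2 y => by
    have e : cut S r n = r n := if_pos h1.le
    rw [e]; exact ct.rise_le g n h1 h2 y
  rise_mass := ct.rise_mass

/-- the times of the slots -/
noncomputable def tm (S : ℕ) (r : ℕ → ℝ) : ℕ → ℝ
  | 0 => 0
  | n+1 => tm S r n + (if n < S then - Real.log (1 - r n) else 1)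

theorem tm_strict {S : ℕ} {r : ℕ → ℝ} (h0 : ∀ n < S, 0 < r n) (h1 : ∀ n < S, r n < 1) : StrictMono (tm S r) := by
  apply strictMono_nat_of_lt_succ
  intro n
  simp only [tm]
  split_ifs with h
  · have := Real.log_neg (x := 1 - r n) (by linarith [h1 n h]) (by linarith [h0 n h])
    linarith
  · linarith

theorem tm_grid {S : ℕ} {r : ℕ → ℝ} (h0 : ∀ n < S, 0 < r n) (h1 : ∀ n < S, r n < 1) :
    IsGrid S (cut S r) (tm S r) := by
  refine ⟨rfl, tm_strict h0 h1, fun n hn => ?_⟩
  have e : cut S r n = r n := if_pos hn.le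
  rw [e]
  simp only [tm, if_pos hn]
  rw [show -(tm S r n + -Real.log (1 - r n) - tm S r n) = Real.log (1 - r n) by ring,
    Real.exp_log (by linarith [h1 n hn])]
  ring

end main_aux

open main_aux in
theorem t_main (hclosure : S_closure) (hprob : S_prob) (hcompact : S_compact) (hlab : S_lab) (hcmp : S_cmp)
    (hclusters : S_clusters) (hemb : S_emb) : S_main := by
  intro S p0 r hp0 hp01 hr0 hr1 hrS ct hct V G _ hT hdeg o
  have hQ : 0 < p0 * ∏ n ∈ Finset.range (S+1), ct.s none n 0 := by
    apply mul_pos hp0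
    apply Finset.prod_pos
    intro n hn
    exact hct n (by simpa [Nat.lt_succ_iff] using hn)
  have main : ∀ (Ω : Type) [MeasurableSpace Ω] (p : ℝ) (μ : Measure Ω) (init : V → Ω → Bool)
        (rings : V → Ω → Set ℝ) (σ : Ω → ℝ → V → Bool), p0 ≤ p → p ≤ 1 → IsGlauber G p μ init rings σ →
        0 < μ {ω | ∃ T, ∀ t ≥ T, σ ω t o = true} := by
    intro Ω _ p μ init rings σ hp hp1 hg
    obtain ⟨φ, hφ⟩ := hemb V G hT hdeg o
    have hcl := hclosure S p0 p (cut S r) hp0 hp hp1
      (fun n => by
        unfold cut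
        split_ifs with h
        · rcases Nat.lt_or_eq_of_le h with h2 | h2
          · exact (hr0 n h2).le
          · rw [h2, hrS]; norm_num
        · norm_num)
      (fun n => by
        unfold cut
        split_ifs with h
        · rcases Nat.lt_or_eq_of_le h with h2 | h2
          · exact (hr1 n h2).le
          · rw [h2, hrS]
        · norm_num)
      (by simp [cut, hrS]) (cutCert ct)
    have hgrid := tm_grid hr0 hr1
    have hpr := hprob Ω V G p μ init rings σ hg (hp0.le.trans hp) hp1 S (cut S r) (tm S r) hgrid o φ hφ _ hcl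
    obtain ⟨τ, hτ0, hτm, hτt, hτ⟩ := hclusters Ω V G hdeg hT.connected p μ init rings σ hg
    refine lt_of_lt_of_le (ENNReal.ofReal_pos.2 hQ) (hpr.trans (measure_mono_ae ?_))
    filter_upwards [hg.start, hg.const, hg.update, hτ] with ω h1 h2 h3 h4 h5
    obtain ⟨lab, hl1, hl2⟩ := hcompact S _ h5
    obtain ⟨z, hz1, hz2⟩ := hlab V G o φ hφ (fun v => init v ω) (fun v => rings v ω) (tm S r) S
      (fun w => ownOf init rings (tm S r) S (φ w) ω) (fun w => rfl)
      (fun w n => by
        have hfin : (rings (φ w) ω ∩ Set.Ioc (tm S r n) (tm S r (n+1))).Finite :=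
          (hg.rings_fin (φ w) ω (tm S r (n+1))).subset
            (Set.inter_subset_inter_right _ Set.Ioc_subset_Iic_self)
        have key : ringCount rings (φ w) (tm S r n) (tm S r (n+1)) ω ≠ 0 ↔
            (rings (φ w) ω ∩ Set.Ioc (tm S r n) (tm S r (n+1))).Nonempty := by
          unfold ringCount
          rw [ne_eq, Set.ncard_eq_zero hfin]
          exact Set.nonempty_iff_ne_empty.symm
        exact decide_eq_true_iff.trans key) lab hl1 hl2
    refine ⟨tm S r S, fun t ht => ?_⟩
    exact hcmp V G hdeg (fun v => init v ω) (fun v => rings v ω) (σ ω) (tm S r) τ S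
      (fun v => hg.rings_pos v ω) (fun v s => hg.rings_fin v ω s) h1 h2 h3 hgrid.1 hgrid.2.1 hτ0 hτm hτt h4 z hz1
      o hz2 t ht
  have hminus : ∀ p ∈ minusSet G o, p < p0 := by
    rintro p ⟨hp, hp1, Ω, mΩ, μ, init, rings, σ, hg, hae⟩
    by_contra hlt
    push Not at hlt
    have h1 := main Ω p μ init rings σ hlt hp1 hg
    apply h1.ne'
    have h2 : ∀ᵐ ω ∂μ, ¬ ∃ T, ∀ t ≥ T, σ ω t o = true := by
      filter_upwards [hae] with ω hω
      rintro ⟨T, hT2⟩
      obtain ⟨t, ht, ht2⟩ := ((show ∀ᶠ t in atTop, σ ω t o = false from hω).and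
        (eventually_ge_atTop T)).exists
      rw [hT2 t ht2] at ht
      exact absurd ht (by simp)
    exact (ae_iff.1 h2).symm ▸ (by simp only [not_not])
  exact ⟨main, hminus, Real.sSup_le (fun p hp => (hminus p hp).le) hp0.le⟩

end Pool.Agent.helper237_G5
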