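import Pool.Agent.helper237_G5.Stmts2

/-! # `S_mask`: multiplication of the coefficients by a function of the number of up variables -/

namespace Pool.Agent.helper237_G5

namespace mask_aux

/-- number of up labels in a multiset -/
def ups (m : Multiset Lab) : ℕ := (m.filter (fun v => v.up = true)).card

theorem ups_replicate_Z (d : ℕ) : ups (Multiset.replicate d Lab.Z) = 0 := by
  unfold ups
  rw [Multiset.card_eq_zero, Multiset.filter_eq_nil]
  intro a ha
  rw [Multiset.eq_of_mem_replicate ha]
  simp [Lab.up]

theorem ups_erase_up (m : Multiset Lab) (v : Lab) (hv : v ∈ m) (hu : v.up = true) :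
    ups m = ups (m.erase v) + 1 := by
  conv_lhs => rw [← Multiset.cons_erase hv]
  unfold ups
  rw [Multiset.filter_cons_of_pos (p := fun v : Lab => v.up = true) _ hu, Multiset.card_cons]

theorem ups_erase_not_up (m : Multiset Lab) (v : Lab) (hv : v ∈ m) (hu : ¬ v.up = true) :
    ups m = ups (m.erase v) := by
  conv_lhs => rw [← Multiset.cons_erase hv]
  unfold ups
  rw [Multiset.filter_cons_of_neg (p := fun v : Lab => v.up = true) _ hu]

theorem wf_maskU (f : ℕ → ℕ → ℕ) (p : P) : ∀ (vs : List Lab) (d u : ℕ), wf vs d p →
    wf vs d (P.maskU f p u) := by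
  induction p with
  | lf n =>
    intro vs d u h
    change wf vs d (P.lf (f u n))
    cases vs with
    | nil => simp only [wf]
    | cons w vs =>
      cases d with
      | zero => simp only [wf]
      | succ d => simp only [wf] at h
  | nd p q ihp ihq =>
    intro vs d u h
    change wf vs d (P.nd (P.maskU f p u) (P.maskU f q (Nat.succ u)))
    cases vs with
    | nil => simp only [wf] at h
    | cons v vs =>
      cases d with
      | zero => simp only [wf] at h
      | succ d =>
        simp only [wf] at h ⊢
        exact ⟨ihp _ _ _ h.1, ihq _ _ _ h.2⟩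

theorem val_maskU (f : ℕ → ℕ → ℕ) (hf : ∀ u, f u 0 = 0) (p : P) : ∀ (vs : List Lab) (d u : ℕ)
    (m : Multiset Lab), (∀ v ∈ vs, v.up = true) →
    val vs d (P.maskU f p u) m = f (u + ups m) (val vs d p m) := by
  induction p with
  | lf n =>
    intro vs d u m hvs
    change val vs d (P.lf (f u n)) m = _
    cases vs with
    | nil =>
      simp only [val]
      split_ifs with h
      · rw [h, ups_replicate_Z, add_zero]
      · rw [hf]
    | cons w vs =>
      cases d with
      | zero =>
        simp only [val]
        split_ifs with h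
        · rw [h]
          simp [ups]
        · rw [hf]
      | succ d =>
        simp only [val]
        rw [hf]
  | nd p q ihp ihq =>
    intro vs d u m hvs
    change val vs d (P.nd (P.maskU f p u) (P.maskU f q (Nat.succ u))) m = _
    cases vs with
    | nil =>
      simp only [val]
      rw [hf]
    | cons v vs =>
      cases d with
      | zero =>
        simp only [val]
        rw [hf]
      | succ d =>
        simp only [val]
        split_ifs with h
        · rw [ihq _ _ _ _ hvs, ups_erase_up m v h (hvs v (by simp))]
          congr 1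
          omega
        · exact ihp _ _ _ _ (fun w hw => hvs w (List.mem_cons_of_mem _ hw))

theorem wf_maskC (f : ℕ → ℕ → ℕ) (vs : List Lab) (p : P) : ∀ (d : ℕ), wf (Lab.C :: vs) d p →
    wf (Lab.C :: vs) d (P.maskC f p) := by
  induction p with
  | lf n =>
    intro d h
    change wf (Lab.C :: vs) d (P.lf (f 0 n))
    cases d with
    | zero => simp only [wf]
    | succ d => simp only [wf] at h
  | nd p q ihp ihq =>
    intro d h
    change wf (Lab.C :: vs) d (P.nd (P.maskU f p 0) (P.maskC f q))
    cases d with
    | zero => simp only [wf] at h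
    | succ d =>
      simp only [wf] at h ⊢
      exact ⟨wf_maskU f p _ _ _ h.1, ihq _ h.2⟩

theorem val_maskC (f : ℕ → ℕ → ℕ) (hf : ∀ u, f u 0 = 0) (vs : List Lab)
    (hvs : ∀ v ∈ vs, v.up = true) (p : P) : ∀ (d : ℕ) (m : Multiset Lab),
    val (Lab.C :: vs) d (P.maskC f p) m = f (ups m) (val (Lab.C :: vs) d p m) := by
  induction p with
  | lf n =>
    intro d m
    change val (Lab.C :: vs) d (P.lf (f 0 n)) m = _
    cases d with
    | zero =>
      simp only [val]
      split_ifs with h
      · rw [h]
        simp [ups]
      · rw [hf]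
    | succ d =>
      simp only [val]
      rw [hf]
  | nd p q ihp ihq =>
    intro d m
    change val (Lab.C :: vs) d (P.nd (P.maskU f p 0) (P.maskC f q)) m = _
    cases d with
    | zero =>
      simp only [val]
      rw [hf]
    | succ d =>
      simp only [val]
      split_ifs with h
      · rw [ihq, ups_erase_not_up m Lab.C h (by simp [Lab.up])]
      · rw [val_maskU f hf p _ _ _ _ hvs, zero_add]

theorem ups_typ (x : Fin 4 → Lab) :
    ups (typ x) = (Finset.univ.filter (fun i => (x i).up = true)).card := by
  unfold ups typ
  rw [Multiset.filter_map, Multiset.card_map]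
  rfl

end mask_aux

theorem t_mask : S_mask := by
  intro m p f w hm hwf hf
  have hf0 : ∀ u, f u 0 = 0 := by
    intro u
    have h := hf u 0
    simp only [Nat.cast_zero, mul_zero] at h
    have h2 : (f u 0 : ℝ) = 0 := le_antisymm h (Nat.cast_nonneg _)
    exact_mod_cast h2
  refine ⟨mask_aux.wf_maskC f _ p 4 hwf, fun x => ?_⟩
  have hvs : ∀ v ∈ (List.range (m+1)).reverse.map (fun j => Lab.U (Fin.ofNat 6 j)),
      v.up = true := by
    intro v hv
    rw [List.mem_map] at hv
    obtain ⟨j, -, rfl⟩ := hv
    rfl
  have e := mask_aux.val_maskC f hf0 _ hvs p 4 (typ x)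
  unfold Yof Vs
  rw [e, mask_aux.ups_typ]
  rw [← mul_div_assoc]
  exact div_le_div_of_nonneg_right (hf _ _) (Nat.cast_nonneg _)

end Pool.Agent.helper237_G5
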