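import Pool.Agent.helper237_G5.Stmts2

/-!
# The operations of the checker: unfolding lemmas and masses (task mass)
-/

namespace Pool.Agent.helper237_G5

namespace mass_aux

theorem sum_lf (n : ℕ) : (P.lf n).sum = n := rfl
theorem sum_nd (p q : P) : (P.nd p q).sum = p.sum + q.sum := rfl
theorem map_lf (f : ℕ → ℕ) (n : ℕ) : P.map f (P.lf n) = P.lf (f n) := rfl
theorem map_nd (f : ℕ → ℕ) (p q : P) : P.map f (P.nd p q) = P.nd (P.map f p) (P.map f q) := rfl
theorem addLeft_lf (n x : ℕ) : P.addLeft (P.lf n) x = P.lf (n + x) := rfl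
theorem addLeft_nd (p q : P) (x : ℕ) : P.addLeft (P.nd p q) x = P.nd (P.addLeft p x) q := rfl
theorem add_lf_lf (n m : ℕ) : P.add (P.lf n) (P.lf m) = P.lf (n + m) := rfl
theorem add_lf_nd (n : ℕ) (q1 q2 : P) : P.add (P.lf n) (P.nd q1 q2) = P.lf n := rfl
theorem add_nd_lf (p1 p2 : P) (m : ℕ) : P.add (P.nd p1 p2) (P.lf m) = P.nd (P.addLeft p1 m) p2 := rfl
theorem add_nd_nd (p1 p2 q1 q2 : P) :
    P.add (P.nd p1 p2) (P.nd q1 q2) = P.nd (P.add p1 q1) (P.add p2 q2) := rfl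
theorem failStep_lf (A B : ℕ → ℕ) (p0 : P) (x : ℕ) :
    P.failStep A B p0 (P.lf x) = P.nd (P.addLeft p0 (B x)) (P.lf (A x)) := rfl
theorem failStep_nd (A B : ℕ → ℕ) (p0 q0 q1 : P) :
    P.failStep A B p0 (P.nd q0 q1) =
      P.nd (P.add p0 (P.map B q0)) (P.add (P.nd (P.map A q0) (P.map A q1)) (P.map B q1)) := rfl
theorem fail_lf (A B : ℕ → ℕ) (n t : ℕ) : P.fail A B (P.lf n) t = P.lf n := rfl
theorem fail_nd_zero (A B : ℕ → ℕ) (p0 p1 : P) :
    P.fail A B (P.nd p0 p1) 0 = P.failStep A B p0 (P.fail A B p1 0) := rfl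
theorem fail_nd_succ (A B : ℕ → ℕ) (p0 p1 : P) (t : ℕ) :
    P.fail A B (P.nd p0 p1) (t + 1) = P.nd (P.fail A B p0 t) (P.fail A B p1 (t + 1)) := rfl
theorem addU_lf (n : ℕ) (z : P) : P.addU (P.lf n) z = P.lf n := rfl
theorem addU_nd (a0 a1 z : P) : P.addU (P.nd a0 a1) z = P.nd a0 (P.add a1 z) := rfl
theorem addUC_lf (n : ℕ) (z : P) : P.addUC (P.lf n) z = P.lf n := rfl
theorem addUC_nd_lf (p0 p1 : P) (x : ℕ) :
    P.addUC (P.nd p0 p1) (P.lf x) = P.nd (P.addU p0 (P.lf x)) p1 := rfl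
theorem addUC_nd_nd (p0 p1 z0 z1 : P) :
    P.addUC (P.nd p0 p1) (P.nd z0 z1) = P.nd (P.addU p0 z0) (P.addUC p1 z1) := rfl
theorem moveStep_lf (A B : ℕ → ℕ) (p0 : P) (x : ℕ) :
    P.moveStep A B p0 (P.lf x) = P.nd (P.addU p0 (P.lf (B x))) (P.lf (A x)) := rfl
theorem moveStep_nd (A B : ℕ → ℕ) (p0 q0 q1 : P) :
    P.moveStep A B p0 (P.nd q0 q1) =
      P.nd (P.addU p0 (P.map B q0)) (P.addUC (P.nd (P.map A q0) (P.map A q1)) (P.map B q1)) := rfl
theorem move_lf (A B : ℕ → ℕ) (n : ℕ) : P.move A B (P.lf n) = P.lf n := rfl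
theorem move_nd (A B : ℕ → ℕ) (p0 p1 : P) :
    P.move A B (P.nd p0 p1) = P.moveStep A B p0 (P.move A B p1) := rfl
theorem maskU_lf (f : ℕ → ℕ → ℕ) (n u : ℕ) : P.maskU f (P.lf n) u = P.lf (f u n) := rfl
theorem maskU_nd (f : ℕ → ℕ → ℕ) (p q : P) (u : ℕ) :
    P.maskU f (P.nd p q) u = P.nd (P.maskU f p u) (P.maskU f q (u + 1)) := rfl
theorem maskC_lf (f : ℕ → ℕ → ℕ) (n : ℕ) : P.maskC f (P.lf n) = P.lf (f 0 n) := rfl
theorem maskC_nd (f : ℕ → ℕ → ℕ) (p0 p1 : P) :
    P.maskC f (P.nd p0 p1) = P.nd (P.maskU f p0 0) (P.maskC f p1) := rfl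
theorem zero_zero (d : ℕ) : P.zero 0 d = P.lf 0 := rfl
theorem zero_succ_zero (k : ℕ) : P.zero (k + 1) 0 = P.lf 0 := rfl
theorem zero_succ_succ (k d : ℕ) :
    P.zero (k + 1) (d + 1) = P.nd (P.zero k (d + 1)) (P.zero (k + 1) d) := rfl
theorem ins_lf (k n d : ℕ) : P.ins k (P.lf n) d = P.lf n := rfl
theorem ins_nd (k : ℕ) (p0 p1 : P) (d : ℕ) :
    P.ins k (P.nd p0 p1) d = P.nd (P.nd p0 (P.zero k (d - 1))) (P.ins k p1 (d - 1)) := rfl

theorem sum_addLeft (p : P) (x : ℕ) : (P.addLeft p x).sum = p.sum + x := by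
  induction p with
  | lf n => rw [addLeft_lf, sum_lf, sum_lf]
  | nd p q ip _ => rw [addLeft_nd, sum_nd, sum_nd, ip]; omega

theorem sum_add (p q : P) : (P.add p q).sum ≤ p.sum + q.sum := by
  induction p generalizing q with
  | lf n =>
    cases q with
    | lf m => rw [add_lf_lf, sum_lf, sum_lf, sum_lf]
    | nd q1 q2 => rw [add_lf_nd]; omega
  | nd p1 p2 ip iq =>
    cases q with
    | lf m => rw [add_nd_lf, sum_nd, sum_nd, sum_addLeft, sum_lf]; omega
    | nd q1 q2 =>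
      rw [add_nd_nd, sum_nd, sum_nd, sum_nd]
      have h1 := ip q1
      have h2 := iq q2
      omega

theorem sum_map {A B : ℕ → ℕ} (h : ∀ x, A x + B x ≤ x) (p : P) :
    (P.map A p).sum + (P.map B p).sum ≤ p.sum := by
  induction p with
  | lf n => rw [map_lf, map_lf, sum_lf, sum_lf, sum_lf]; exact h n
  | nd p q ip iq => rw [map_nd, map_nd, sum_nd, sum_nd, sum_nd]; omega

theorem sum_failStep {A B : ℕ → ℕ} (h : ∀ x, A x + B x ≤ x) (p0 q : P) :
    (P.failStep A B p0 q).sum ≤ p0.sum + q.sum := by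
  cases q with
  | lf x =>
    rw [failStep_lf, sum_nd, sum_addLeft, sum_lf, sum_lf]
    have := h x
    omega
  | nd q0 q1 =>
    rw [failStep_nd, sum_nd, sum_nd]
    have h1 := sum_add p0 (P.map B q0)
    have h2 := sum_add (P.nd (P.map A q0) (P.map A q1)) (P.map B q1)
    rw [sum_nd] at h2
    have h3 := sum_map h q0
    have h4 := sum_map h q1
    omega

theorem sum_fail {A B : ℕ → ℕ} (h : ∀ x, A x + B x ≤ x) (p : P) (t : ℕ) :
    (P.fail A B p t).sum ≤ p.sum := by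
  induction p generalizing t with
  | lf n => rw [fail_lf]
  | nd p0 p1 ih0 ih1 =>
    cases t with
    | zero =>
      rw [fail_nd_zero, sum_nd]
      have h1 := sum_failStep h p0 (P.fail A B p1 0)
      have h2 := ih1 0
      omega
    | succ t =>
      rw [fail_nd_succ, sum_nd, sum_nd]
      have h1 := ih0 t
      have h2 := ih1 (t + 1)
      omega

theorem sum_addU (p z : P) : (P.addU p z).sum ≤ p.sum + z.sum := by
  cases p with
  | lf n => rw [addU_lf]; omega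
  | nd a0 a1 =>
    rw [addU_nd, sum_nd, sum_nd]
    have := sum_add a1 z
    omega

theorem sum_addUC (p z : P) : (P.addUC p z).sum ≤ p.sum + z.sum := by
  induction p generalizing z with
  | lf n => rw [addUC_lf]; omega
  | nd p0 p1 _ ih1 =>
    cases z with
    | lf x =>
      rw [addUC_nd_lf, sum_nd, sum_nd]
      have := sum_addU p0 (P.lf x)
      omega
    | nd z0 z1 =>
      rw [addUC_nd_nd, sum_nd, sum_nd, sum_nd]
      have h1 := sum_addU p0 z0
      have h2 := ih1 z1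
      omega

theorem sum_moveStep {A B : ℕ → ℕ} (h : ∀ x, A x + B x ≤ x) (p0 q : P) :
    (P.moveStep A B p0 q).sum ≤ p0.sum + q.sum := by
  cases q with
  | lf x =>
    rw [moveStep_lf, sum_nd, sum_lf, sum_lf]
    have h1 := sum_addU p0 (P.lf (B x))
    rw [sum_lf] at h1
    have := h x
    omega
  | nd q0 q1 =>
    rw [moveStep_nd, sum_nd, sum_nd]
    have h1 := sum_addU p0 (P.map B q0)
    have h2 := sum_addUC (P.nd (P.map A q0) (P.map A q1)) (P.map B q1)
    rw [sum_nd] at h2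
    have h3 := sum_map h q0
    have h4 := sum_map h q1
    omega

theorem sum_move {A B : ℕ → ℕ} (h : ∀ x, A x + B x ≤ x) (p : P) :
    (P.move A B p).sum ≤ p.sum := by
  induction p with
  | lf n => rw [move_lf]
  | nd p0 p1 _ ih1 =>
    rw [move_nd, sum_nd]
    have h1 := sum_moveStep h p0 (P.move A B p1)
    omega

theorem sum_maskU {f : ℕ → ℕ → ℕ} (h : ∀ u x, f u x ≤ x) (p : P) (u : ℕ) :
    (P.maskU f p u).sum ≤ p.sum := by
  induction p generalizing u with
  | lf n => rw [maskU_lf, sum_lf, sum_lf]; exact h u n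
  | nd p q ip iq =>
    rw [maskU_nd, sum_nd, sum_nd]
    exact Nat.add_le_add (ip u) (iq (u + 1))

theorem sum_maskC {f : ℕ → ℕ → ℕ} (h : ∀ u x, f u x ≤ x) (p : P) :
    (P.maskC f p).sum ≤ p.sum := by
  induction p with
  | lf n => rw [maskC_lf, sum_lf, sum_lf]; exact h 0 n
  | nd p q _ iq =>
    rw [maskC_nd, sum_nd, sum_nd]
    exact Nat.add_le_add (sum_maskU h p 0) iq

theorem sum_zero (k d : ℕ) : (P.zero k d).sum = 0 := by
  induction k generalizing d with
  | zero => rw [zero_zero, sum_lf]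
  | succ k ih =>
    induction d with
    | zero => rw [zero_succ_zero, sum_lf]
    | succ d ihd => rw [zero_succ_succ, sum_nd, ih, ihd]

theorem sum_ins (k d : ℕ) (p : P) : (P.ins k p d).sum = p.sum := by
  induction p generalizing d with
  | lf n => rw [ins_lf]
  | nd p0 p1 _ ih1 => rw [ins_nd, sum_nd, sum_nd, sum_nd, sum_zero, ih1, Nat.add_zero]

end mass_aux

open mass_aux in
theorem t_mass : S_mass :=
  ⟨fun _ _ h p t => sum_fail h p t, fun _ _ h p => sum_move h p, fun _ h p => sum_maskC h p,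
    fun k d p => (sum_ins k d p).le⟩

end Pool.Agent.helper237_G5
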