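import Pool.Agent.helper237_G5.Sem

/-!
# The substitution `C ↦ a C + b w` on nested polynomials (`S_move`)
-/

namespace Pool.Agent.helper237_G5

namespace move_aux

open MvPolynomial sem_aux

/-- `add p q` in the same degree -/
lemma add_eq0 (p q : P) (vs : List Lab) (d : ℕ) (hp : wf vs d p) (hq : wf vs d q) :
    wf vs d (p.add q) ∧ pol vs d (p.add q) = pol vs d p + pol vs d q := by
  have := add_eq 0 p q vs d hp hq
  rwa [pow_zero, one_mul] at this

lemma addU_eq (u : Lab) (vs : List Lab) (d : ℕ) (p z : P) (hp : wf (u :: vs) (d+1) p)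
    (hz : wf (u :: vs) d z) :
    wf (u :: vs) (d+1) (P.addU p z) ∧
      pol (u :: vs) (d+1) (P.addU p z) = pol (u :: vs) (d+1) p + X u * pol (u :: vs) d z := by
  cases p with
  | lf n => exact absurd hp id
  | nd a0 a1 =>
    obtain ⟨h0, h1⟩ := hp
    obtain ⟨k1, k2⟩ := add_eq0 a1 z (u :: vs) d h1 hz
    refine ⟨⟨h0, k1⟩, ?_⟩
    show pol vs (d+1) a0 + X u * pol (u :: vs) d (a1.add z) =
      pol vs (d+1) a0 + X u * pol (u :: vs) d a1 + X u * pol (u :: vs) d z
    rw [k2]; ring

lemma addUC_eq (c u : Lab) (vs : List Lab) : ∀ (p z : P) (d : ℕ), wf (c :: u :: vs) (d+1) p →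
    wf (c :: u :: vs) d z →
    wf (c :: u :: vs) (d+1) (P.addUC p z) ∧
      pol (c :: u :: vs) (d+1) (P.addUC p z) =
        pol (c :: u :: vs) (d+1) p + X u * pol (c :: u :: vs) d z := by
  intro p
  induction p with
  | lf n => intro z d hp; exact absurd hp id
  | nd p0 p1 ih0 ih1 =>
    intro z d hp hz
    obtain ⟨h0, h1⟩ := hp
    cases z with
    | lf x =>
      cases d with
      | succ d => exact absurd hz id
      | zero =>
        have hx : wf (u :: vs) 0 (P.lf x) := trivial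
        obtain ⟨k1, k2⟩ := addU_eq u vs 0 p0 (P.lf x) h0 hx
        refine ⟨⟨k1, h1⟩, ?_⟩
        show pol (u :: vs) (0+1) (P.addU p0 (P.lf x)) + X c * pol (c :: u :: vs) 0 p1 =
          pol (u :: vs) (0+1) p0 + X c * pol (c :: u :: vs) 0 p1 + X u * C (x : ℝ)
        rw [k2]
        show pol (u :: vs) (0+1) p0 + X u * C (x : ℝ) + _ = _
        ring
    | nd z0 z1 =>
      cases d with
      | zero => exact absurd hz id
      | succ d =>
        obtain ⟨g0, g1⟩ := hz
        obtain ⟨k1, k2⟩ := addU_eq u vs (d+1) p0 z0 h0 g0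
        obtain ⟨l1, l2⟩ := ih1 z1 d h1 g1
        refine ⟨⟨k1, l1⟩, ?_⟩
        show pol (u :: vs) (d+1+1) (P.addU p0 z0) + X c * pol (c :: u :: vs) (d+1) (P.addUC p1 z1) =
          pol (u :: vs) (d+1+1) p0 + X c * pol (c :: u :: vs) (d+1) p1 +
            X u * (pol (u :: vs) (d+1) z0 + X c * pol (c :: u :: vs) d z1)
        rw [k2, l2]; ring

lemma moveStep_le (A B : ℕ → ℕ) (a b : ℝ) (hA : ∀ x, (A x : ℝ) ≤ a * x)
    (hB : ∀ x, (B x : ℝ) ≤ b * x) (c u : Lab) (vs : List Lab) (d : ℕ) (p0 q : P)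
    (hp : wf (u :: vs) (d+1) p0) (hq : wf (c :: u :: vs) d q) :
    wf (c :: u :: vs) (d+1) (P.moveStep A B p0 q) ∧
      cle (pol (c :: u :: vs) (d+1) (P.moveStep A B p0 q))
        (pol (u :: vs) (d+1) p0 + (C a * X c + C b * X u) * pol (c :: u :: vs) d q) := by
  cases q with
  | lf x =>
    cases d with
    | succ d => exact absurd hq id
    | zero =>
      have hx : wf (u :: vs) 0 (P.lf (B x)) := trivial
      obtain ⟨h1, h2⟩ := addU_eq u vs 0 p0 (P.lf (B x)) hp hx
      refine ⟨⟨h1, trivial⟩, ?_⟩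
      show cle (pol (u :: vs) (0+1) (P.addU p0 (P.lf (B x))) + X c * C ((A x : ℕ) : ℝ))
        (pol (u :: vs) (0+1) p0 + (C a * X c + C b * X u) * C (x : ℝ))
      rw [h2]
      have h3 : cle (C ((B x : ℕ) : ℝ) * X u) (C (b * (x : ℝ)) * X u) :=
        cle_C_mul (hB x) (cle_zero_X _)
      have h4 : cle (C ((A x : ℕ) : ℝ) * X c) (C (a * (x : ℝ)) * X c) :=
        cle_C_mul (hA x) (cle_zero_X _)
      have h5 := cle_add (cle_add (cle_refl (pol (u :: vs) (0+1) p0)) h3) h4
      refine cle_trans (cle_of_eq ?_) (cle_trans h5 (cle_of_eq ?_))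
      · show pol (u :: vs) (0+1) p0 + X u * C ((B x : ℕ) : ℝ) + X c * C ((A x : ℕ) : ℝ) = _
        ring
      · rw [C_mul, C_mul]; ring
  | nd q0 q1 =>
    cases d with
    | zero => exact absurd hq id
    | succ d =>
      obtain ⟨hq0, hq1⟩ := hq
      obtain ⟨hB01, hB02⟩ := map_le B b hB q0 (u :: vs) (d+1) hq0
      obtain ⟨hA01, hA02⟩ := map_le A a hA q0 (u :: vs) (d+1) hq0
      obtain ⟨hB11, hB12⟩ := map_le B b hB q1 (c :: u :: vs) d hq1
      obtain ⟨hA11, hA12⟩ := map_le A a hA q1 (c :: u :: vs) d hq1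
      obtain ⟨h1, h2⟩ := addU_eq u vs (d+1) p0 (q0.map B) hp hB01
      have hw : wf (c :: u :: vs) (d+1) (P.nd (q0.map A) (q1.map A)) := ⟨hA01, hA11⟩
      obtain ⟨h3, h4⟩ := addUC_eq c u vs (P.nd (q0.map A) (q1.map A)) (q1.map B) d hw hB11
      refine ⟨⟨h1, h3⟩, ?_⟩
      show cle (pol (u :: vs) (d+1+1) (P.addU p0 (q0.map B)) +
          X c * pol (c :: u :: vs) (d+1) (P.addUC (P.nd (q0.map A) (q1.map A)) (q1.map B)))
        (pol (u :: vs) (d+1+1) p0 + (C a * X c + C b * X u) *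
          (pol (u :: vs) (d+1) q0 + X c * pol (c :: u :: vs) d q1))
      rw [h2, h4]
      have h5 : pol (c :: u :: vs) (d+1) (P.nd (q0.map A) (q1.map A)) =
        pol (u :: vs) (d+1) (q0.map A) + X c * pol (c :: u :: vs) d (q1.map A) := rfl
      rw [h5]
      have e1 := cle_mul (cle_zero_X u) hB02
      have e2 := cle_mul (cle_zero_X c) hA02
      have e3 := cle_mul (cle_zero_X c) (cle_mul (cle_zero_X c) hA12)
      have e4 := cle_mul (cle_zero_X c) (cle_mul (cle_zero_X u) hB12)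
      have e5 := cle_add (cle_refl (pol (u :: vs) (d+1+1) p0))
        (cle_add (cle_add e1 e2) (cle_add e3 e4))
      refine cle_trans (cle_of_eq ?_) (cle_trans e5 (cle_of_eq ?_))
      · ring
      · ring

/-- the substitution -/
noncomputable def SM (w : Lab) (a b : ℝ) (x : Lab) : MP :=
  if x = Lab.C then C a * X Lab.C + C b * X w else X x

lemma SM_eq (w : Lab) (a b : ℝ) (hw : w ≠ Lab.C) (x : Lab) :
    ∑ y, C (EM w a b x y) * X y = SM w a b x := by
  unfold EM SM
  by_cases h : x = Lab.C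
  · simp only [if_pos h]
    have h1 : ∀ y : Lab, (C (if y = Lab.C then a else if y = w then b else 0) : MP) * X y =
        (if y = Lab.C then C a * X y else 0) + (if y = w then C b * X y else 0) := by
      intro y
      by_cases hy : y = Lab.C
      · subst hy
        rw [if_pos rfl, if_pos rfl, if_neg hw.symm, add_zero]
      · rw [if_neg hy, if_neg hy, zero_add]
        by_cases hy' : y = w
        · rw [if_pos hy', if_pos hy']
        · rw [if_neg hy', if_neg hy']; simp
    rw [Finset.sum_congr rfl fun y _ => h1 y, Finset.sum_add_distrib, Finset.sum_ite_eq',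
      Finset.sum_ite_eq']
    simp
  · simp only [if_neg h]
    have h1 : ∀ y : Lab, (C (if y = x then (1:ℝ) else 0) : MP) * X y = if y = x then X y else 0 := by
      intro y
      by_cases hy : y = x
      · rw [if_pos hy, if_pos hy]; simp
      · rw [if_neg hy, if_neg hy]; simp
    rw [Finset.sum_congr rfl fun y _ => h1 y, Finset.sum_ite_eq']
    simp

lemma move_le (A B : ℕ → ℕ) (a b : ℝ) (ha : 0 ≤ a) (hb : 0 ≤ b) (hA : ∀ x, (A x : ℝ) ≤ a * x)
    (hB : ∀ x, (B x : ℝ) ≤ b * x) (w : Lab) (vs : List Lab) (hn : (Lab.C :: w :: vs).Nodup)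
    (hZ : Lab.Z ∉ (Lab.C :: w :: vs)) : ∀ (p : P) (d : ℕ), wf (Lab.C :: w :: vs) d p →
    wf (Lab.C :: w :: vs) d (P.move A B p) ∧
      cle (pol (Lab.C :: w :: vs) d (P.move A B p))
        (bind₁ (SM w a b) (pol (Lab.C :: w :: vs) d p)) := by
  intro p
  induction p with
  | lf n =>
    intro d h
    cases d with
    | zero =>
      refine ⟨trivial, ?_⟩
      show cle (C (n : ℝ)) (bind₁ (SM w a b) (C (n : ℝ)))
      rw [bind₁_C_right]
      exact cle_refl _
    | succ d => exact absurd h id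
  | nd p0 p1 ih0 ih1 =>
    intro d h
    cases d with
    | zero => exact absurd h id
    | succ d =>
      obtain ⟨h0, h1⟩ := h
      obtain ⟨g1, g2⟩ := ih1 d h1
      obtain ⟨k1, k2⟩ := moveStep_le A B a b hA hB Lab.C w vs d p0 (P.move A B p1) h0 g1
      refine ⟨k1, cle_trans k2 ?_⟩
      show cle _ (bind₁ (SM w a b) (pol (w :: vs) (d+1) p0 +
        X Lab.C * pol (Lab.C :: w :: vs) d p1))
      have hS : SM w a b Lab.C = C a * X Lab.C + C b * X w := if_pos rfl
      have hC : Lab.C ∉ w :: vs := (List.nodup_cons.1 hn).1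
      rw [map_add, map_mul, bind₁_X_right, hS, bind_pol (SM w a b) (if_neg (by decide)) p0
        (w :: vs) (d+1) (fun x hx => if_neg (fun h : x = Lab.C => hC (h ▸ hx)))]
      refine cle_add (cle_refl _) (cle_mul ?_ g2)
      exact cle_zero_add (cle_zero_mul (cle_zero_C ha) (cle_zero_X _))
        (cle_zero_mul (cle_zero_C hb) (cle_zero_X _))

end move_aux

open move_aux sem_aux in
theorem t_move : S_move := by
  intro w vs p A B a b hn hZ hp ha hb hA hB
  obtain ⟨h1, h2⟩ := move_le A B a b ha hb hA hB w vs hn hZ p 4 hp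
  have hw : w ≠ Lab.C := fun h => (List.nodup_cons.1 hn).1 (by simp [h])
  exact ⟨h1, le_push _ p _ _ (SM w a b) hn hZ (SM_eq w a b hw) h2⟩

end Pool.Agent.helper237_G5
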