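import Pool.Agent.helper237_G5.T_mass

/-!
# Packed lanes (tasks packIns, packSum, packMask, packFail, packMove)
-/

namespace Pool.Agent.helper237_G5

namespace pack_aux

open mass_aux

/-- the packed number -/
def pk (N : ℕ) (f : ℕ → ℕ) : ℕ := ∑ g ∈ Finset.range N, f g * 2 ^ (80 * g)

theorem pk_zero (f : ℕ → ℕ) : pk 0 f = 0 := by simp [pk]

theorem pk_succ (N : ℕ) (f : ℕ → ℕ) : pk (N + 1) f = pk N f + f N * 2 ^ (80 * N) := by
  simp [pk, Finset.sum_range_succ]

theorem pk_add (N : ℕ) (f f' : ℕ → ℕ) : pk N (fun g => f g + f' g) = pk N f + pk N f' := by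
  simp only [pk, add_mul, Finset.sum_add_distrib]

theorem pk_mul (N c : ℕ) (f : ℕ → ℕ) : pk N (fun g => c * f g) = c * pk N f := by
  simp only [pk, mul_assoc, Finset.mul_sum]

theorem pk_congr {N : ℕ} {f f' : ℕ → ℕ} (h : ∀ g < N, f g = f' g) : pk N f = pk N f' := by
  unfold pk
  exact Finset.sum_congr rfl fun g hg => by rw [h g (Finset.mem_range.1 hg)]

theorem pk_null (N : ℕ) : pk N (fun _ => 0) = 0 := by simp [pk]

theorem pk_lt {N : ℕ} {f : ℕ → ℕ} (h : ∀ g < N, f g < 2 ^ 80) : pk N f < 2 ^ (80 * N) := by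
  induction N with
  | zero => rw [pk_zero]; norm_num
  | succ N ih =>
    rw [pk_succ]
    have h1 := ih fun g hg => h g (Nat.lt_succ_of_lt hg)
    have h2 := h N (Nat.lt_succ_self N)
    have h3 : (2 : ℕ) ^ (80 * (N + 1)) = 2 ^ 80 * 2 ^ (80 * N) := by
      rw [← pow_add]; congr 1; ring
    rw [h3]
    calc pk N f + f N * 2 ^ (80 * N) < 2 ^ (80 * N) + f N * 2 ^ (80 * N) := by omega
      _ = (f N + 1) * 2 ^ (80 * N) := by ring
      _ ≤ 2 ^ 80 * 2 ^ (80 * N) := Nat.mul_le_mul_right _ h2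

/-- bits of a packed number -/
theorem testBit_pk {N : ℕ} {f : ℕ → ℕ} (h : ∀ g < N, f g < 2 ^ 80) (i : ℕ) :
    (pk N f).testBit i = (decide (i / 80 < N) && (f (i / 80)).testBit (i % 80)) := by
  induction N with
  | zero => rw [pk_zero]; simp
  | succ N ih =>
    rw [pk_succ]
    have h1 := pk_lt fun g hg => h g (Nat.lt_succ_of_lt hg)
    have h2 := h N (Nat.lt_succ_self N)
    have ih' := ih fun g hg => h g (Nat.lt_succ_of_lt hg)
    rw [add_comm, mul_comm, Nat.testBit_two_pow_mul_add _ h1]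
    by_cases hi : i < 80 * N
    · rw [if_pos hi, ih']
      have e1 : i / 80 < N := by omega
      have e2 : i / 80 < N + 1 := by omega
      simp [e1, e2]
    · rw [if_neg hi]
      rw [not_lt] at hi
      by_cases hi2 : i < 80 * (N + 1)
      · have e1 : i / 80 = N := by omega
        have e2 : i % 80 = i - 80 * N := by omega
        rw [e1, e2]
        simp
      · rw [not_lt] at hi2
        have e1 : ¬ (i / 80 < N + 1) := by omega
        rw [decide_eq_false e1, Bool.false_and]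
        refine Nat.testBit_lt_two_pow (h2.trans_le ?_)
        exact Nat.pow_le_pow_right (by norm_num) (by omega)

theorem mk_eq (N : ℕ) : mk N = pk N (fun _ => 2 ^ 48 - 1) := rfl

theorem testBit_mk (N i : ℕ) : (mk N).testBit i = (decide (i / 80 < N) && decide (i % 80 < 48)) := by
  rw [mk_eq, testBit_pk (fun _ _ => by norm_num), Nat.testBit_two_pow_sub_one]

/-- the packed operation `rnd` -/
theorem rnd_pk {N c : ℕ} {f : ℕ → ℕ} (hc : c ≤ 2 ^ 24) (h : ∀ g < N, f g ≤ 2 ^ 48) :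
    rnd (mk N) c (pk N f) = pk N (fun g => rl c (f g)) := by
  have hb : ∀ g < N, c * f g < 2 ^ 80 := by
    intro g hg
    calc c * f g ≤ 2 ^ 24 * 2 ^ 48 := Nat.mul_le_mul hc (h g hg)
      _ < 2 ^ 80 := by norm_num
  have hb2 : ∀ g < N, rl c (f g) < 2 ^ 80 := by
    intro g _
    exact (Nat.mod_lt _ (by norm_num)).trans (by norm_num)
  show Nat.land (Nat.shiftRight (Nat.mul c (pk N f)) 24) (mk N) = _
  have e : Nat.land (Nat.shiftRight (Nat.mul c (pk N f)) 24) (mk N)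
      = ((c * pk N f) >>> 24) &&& mk N := rfl
  rw [e, ← pk_mul]
  refine Nat.eq_of_testBit_eq fun i => ?_
  rw [Nat.testBit_and, Nat.testBit_shiftRight, testBit_pk hb, testBit_pk hb2, testBit_mk]
  unfold rl
  rw [Nat.testBit_mod_two_pow, Nat.testBit_div_two_pow]
  by_cases h1 : i / 80 < N
  · by_cases h2 : i % 80 < 48
    · have e1 : (24 + i) / 80 = i / 80 := by omega
      have e2 : (24 + i) % 80 = i % 80 + 24 := by omega
      rw [e1, e2]
      simp [h1, h2]
    · simp [h2]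
  · simp [h1]

/-- the lanes `g ≤ n` -/
theorem lo_pk {N n : ℕ} {f : ℕ → ℕ} (h : ∀ g < N, f g < 2 ^ 80) :
    lo n (pk N f) = pk N (fun g => if g ≤ n then f g else 0) := by
  have hb : ∀ g < N, (if g ≤ n then f g else 0) < 2 ^ 80 := by
    intro g hg
    split_ifs
    · exact h g hg
    · norm_num
  show (pk N f) &&& (2 ^ (80 * (n + 1)) - 1) = _
  refine Nat.eq_of_testBit_eq fun i => ?_
  rw [Nat.testBit_and, Nat.testBit_two_pow_sub_one, testBit_pk h, testBit_pk hb]
  by_cases h2 : i / 80 ≤ n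
  · have e1 : i < 80 * (n + 1) := by omega
    simp [h2, e1]
  · have e1 : ¬ i < 80 * (n + 1) := by omega
    simp [h2, e1]

theorem sub_lo_pk {N n : ℕ} {f : ℕ → ℕ} (h : ∀ g < N, f g < 2 ^ 80) :
    pk N f - lo n (pk N f) = pk N (fun g => if g ≤ n then 0 else f g) := by
  rw [lo_pk h]
  have e : pk N f = pk N (fun g => if g ≤ n then f g else 0) +
      pk N (fun g => if g ≤ n then 0 else f g) := by
    rw [← pk_add]
    refine pk_congr fun g _ => ?_
    split_ifs <;> simp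
  rw [e, Nat.add_sub_cancel_left]

theorem rl_zero (c : ℕ) : rl c 0 = 0 := by simp [rl]

theorem rl_le {c : ℕ} (hc : c ≤ 2 ^ 24) (x : ℕ) : rl c x ≤ x := by
  unfold rl
  refine (Nat.mod_le _ _).trans ?_
  refine Nat.div_le_of_le_mul ?_
  exact Nat.mul_le_mul_right _ hc

theorem rl_add_le {a b : ℕ} (hab : a + b ≤ 2 ^ 24) (x : ℕ) : rl a x + rl b x ≤ x := by
  unfold rl
  have h1 := Nat.mod_le (a * x / 2 ^ 24) (2 ^ 48)
  have h2 := Nat.mod_le (b * x / 2 ^ 24) (2 ^ 48)
  have h3 : a * x / 2 ^ 24 + b * x / 2 ^ 24 ≤ (a * x + b * x) / 2 ^ 24 :=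
    Nat.div_add_div_le_add_div
  have h4 : (a * x + b * x) / 2 ^ 24 ≤ x := by
    refine Nat.div_le_of_le_mul ?_
    rw [← add_mul]
    exact Nat.mul_le_mul_right _ hab
  omega

/-! ### relation -/

theorem Rel_lf {N x : ℕ} {q : ℕ → P} :
    Rel N (P.lf x) q ↔ ∃ f : ℕ → ℕ, (∀ g, q g = P.lf (f g)) ∧ x = pk N f := Iff.rfl

theorem Rel_nd {N : ℕ} {p1 p2 : P} {q : ℕ → P} :
    Rel N (P.nd p1 p2) q ↔
      ∃ q1 q2 : ℕ → P, (∀ g, q g = P.nd (q1 g) (q2 g)) ∧ Rel N p1 q1 ∧ Rel N p2 q2 := Iff.rfl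

theorem rel_lf {N : ℕ} (f : ℕ → ℕ) {x : ℕ} (h : x = pk N f) : Rel N (P.lf x) (fun g => P.lf (f g)) :=
  ⟨f, fun _ => rfl, h⟩

theorem rel_nd {N : ℕ} {p1 p2 : P} {q1 q2 : ℕ → P} (h1 : Rel N p1 q1) (h2 : Rel N p2 q2) :
    Rel N (P.nd p1 p2) (fun g => P.nd (q1 g) (q2 g)) :=
  ⟨q1, q2, fun _ => rfl, h1, h2⟩

theorem rel_sum {N : ℕ} {p : P} {q : ℕ → P} (h : Rel N p q) : p.sum = pk N (fun g => (q g).sum) := by
  induction p generalizing q with
  | lf x =>
    obtain ⟨f, hf, rfl⟩ := h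
    rw [sum_lf]
    exact pk_congr fun g _ => by rw [hf g, sum_lf]
  | nd p1 p2 ih1 ih2 =>
    obtain ⟨q1, q2, hq, h1, h2⟩ := h
    rw [sum_nd, ih1 h1, ih2 h2, ← pk_add]
    exact pk_congr fun g _ => by rw [hq g, sum_nd]

theorem rel_addLeft {N : ℕ} {p : P} {q : ℕ → P} (h : Rel N p q) {x : ℕ} {f : ℕ → ℕ}
    (hx : x = pk N f) : Rel N (P.addLeft p x) (fun g => P.addLeft (q g) (f g)) := by
  induction p generalizing q with
  | lf y =>
    obtain ⟨f', hf, rfl⟩ := h
    obtain rfl : q = fun g => P.lf (f' g) := funext hf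
    simp only [addLeft_lf]
    exact rel_lf (fun g => f' g + f g) (by rw [pk_add, hx]; rfl)
  | nd p1 p2 ih1 _ =>
    obtain ⟨q1, q2, hq, h1, h2⟩ := h
    obtain rfl : q = fun g => P.nd (q1 g) (q2 g) := funext hq
    simp only [addLeft_nd]
    exact rel_nd (ih1 h1) h2

theorem rel_add {N : ℕ} {p p' : P} {q q' : ℕ → P} (h : Rel N p q) (h' : Rel N p' q') :
    Rel N (P.add p p') (fun g => P.add (q g) (q' g)) := by
  induction p generalizing q p' q' with
  | lf y =>
    obtain ⟨f, hf, rfl⟩ := h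
    obtain rfl : q = fun g => P.lf (f g) := funext hf
    cases p' with
    | lf y' =>
      obtain ⟨f', hf', rfl⟩ := h'
      obtain rfl : q' = fun g => P.lf (f' g) := funext hf'
      simp only [add_lf_lf]
      exact rel_lf (fun g => f g + f' g) (by rw [pk_add]; rfl)
    | nd p1' p2' =>
      obtain ⟨q1', q2', hq', h1', h2'⟩ := h'
      obtain rfl : q' = fun g => P.nd (q1' g) (q2' g) := funext hq'
      simp only [add_lf_nd]
      exact rel_lf f rfl
  | nd p1 p2 ih1 ih2 =>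
    obtain ⟨q1, q2, hq, h1, h2⟩ := h
    obtain rfl : q = fun g => P.nd (q1 g) (q2 g) := funext hq
    cases p' with
    | lf y' =>
      obtain ⟨f', hf', rfl⟩ := h'
      obtain rfl : q' = fun g => P.lf (f' g) := funext hf'
      simp only [add_nd_lf]
      exact rel_nd (rel_addLeft h1 rfl) h2
    | nd p1' p2' =>
      obtain ⟨q1', q2', hq', h1', h2'⟩ := h'
      obtain rfl : q' = fun g => P.nd (q1' g) (q2' g) := funext hq'
      simp only [add_nd_nd]
      exact rel_nd (ih1 h1 h1') (ih2 h2 h2')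

/-- a leaf operation on packed numbers which acts lanewise on values `≤ 2^48` -/
def LaneOp (N : ℕ) (F : ℕ → ℕ) (f : ℕ → ℕ → ℕ) : Prop :=
  ∀ v : ℕ → ℕ, (∀ g, v g ≤ 2 ^ 48) → F (pk N v) = pk N (fun g => f g (v g))

theorem laneOp_rnd {N c : ℕ} (hc : c ≤ 2 ^ 24) : LaneOp N (rnd (mk N) c) (fun _ => rl c) :=
  fun _ hv => rnd_pk hc fun g _ => hv g

theorem rel_map {N : ℕ} {F : ℕ → ℕ} {f : ℕ → ℕ → ℕ} (hF : LaneOp N F f) {p : P} {q : ℕ → P}
    (h : Rel N p q) (hs : ∀ g, (q g).sum ≤ 2 ^ 48) :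
    Rel N (P.map F p) (fun g => P.map (f g) (q g)) := by
  induction p generalizing q with
  | lf x =>
    obtain ⟨v, hv, rfl⟩ := h
    obtain rfl : q = fun g => P.lf (v g) := funext hv
    simp only [map_lf]
    exact rel_lf (fun g => f g (v g)) (hF v hs)
  | nd p1 p2 ih1 ih2 =>
    obtain ⟨q1, q2, hq, h1, h2⟩ := h
    obtain rfl : q = fun g => P.nd (q1 g) (q2 g) := funext hq
    simp only [map_nd]
    simp only [sum_nd] at hs
    exact rel_nd (ih1 h1 fun g => (Nat.le_add_right _ _).trans (hs g))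
      (ih2 h2 fun g => (Nat.le_add_left _ _).trans (hs g))

theorem rel_failStep {N : ℕ} {FA FB fA fB : ℕ → ℕ} (hA : LaneOp N FA (fun _ => fA))
    (hB : LaneOp N FB (fun _ => fB)) {p0 q : P} {P0 Q : ℕ → P} (h0 : Rel N p0 P0)
    (hq : Rel N q Q) (hs : ∀ g, (Q g).sum ≤ 2 ^ 48) :
    Rel N (P.failStep FA FB p0 q) (fun g => P.failStep fA fB (P0 g) (Q g)) := by
  cases q with
  | lf x =>
    obtain ⟨v, hv, rfl⟩ := hq
    obtain rfl : Q = fun g => P.lf (v g) := funext hv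
    simp only [failStep_lf]
    exact rel_nd (rel_addLeft h0 (f := fun g => fB (v g)) (hB v hs))
      (rel_lf (fun g => fA (v g)) (hA v hs))
  | nd q0 q1 =>
    obtain ⟨Q0, Q1, hQ, h1, h2⟩ := hq
    obtain rfl : Q = fun g => P.nd (Q0 g) (Q1 g) := funext hQ
    simp only [failStep_nd]
    simp only [sum_nd] at hs
    have s0 : ∀ g, (Q0 g).sum ≤ 2 ^ 48 := fun g => (Nat.le_add_right _ _).trans (hs g)
    have s1 : ∀ g, (Q1 g).sum ≤ 2 ^ 48 := fun g => (Nat.le_add_left _ _).trans (hs g)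
    exact rel_nd (rel_add h0 (rel_map hB h1 s0))
      (rel_add (rel_nd (rel_map hA h1 s0) (rel_map hA h2 s1)) (rel_map hB h2 s1))

theorem rel_fail {N : ℕ} {FA FB fA fB : ℕ → ℕ} (hA : LaneOp N FA (fun _ => fA))
    (hB : LaneOp N FB (fun _ => fB)) (hAB : ∀ x, fA x + fB x ≤ x) {p : P} {q : ℕ → P} {t : ℕ}
    (h : Rel N p q) (hs : ∀ g, (q g).sum ≤ 2 ^ 48) :
    Rel N (P.fail FA FB p t) (fun g => P.fail fA fB (q g) t) := by
  induction p generalizing q t with
  | lf x =>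
    obtain ⟨v, hv, rfl⟩ := h
    obtain rfl : q = fun g => P.lf (v g) := funext hv
    simp only [fail_lf]
    exact rel_lf v rfl
  | nd p0 p1 ih0 ih1 =>
    obtain ⟨q0, q1, hq, h0, h1⟩ := h
    obtain rfl : q = fun g => P.nd (q0 g) (q1 g) := funext hq
    simp only [sum_nd] at hs
    have s0 : ∀ g, (q0 g).sum ≤ 2 ^ 48 := fun g => (Nat.le_add_right _ _).trans (hs g)
    have s1 : ∀ g, (q1 g).sum ≤ 2 ^ 48 := fun g => (Nat.le_add_left _ _).trans (hs g)
    cases t with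
    | zero =>
      simp only [fail_nd_zero]
      exact rel_failStep hA hB h0 (ih1 h1 s1) fun g => (sum_fail hAB _ _).trans (s1 g)
    | succ t =>
      simp only [fail_nd_succ]
      exact rel_nd (ih0 h0 s0) (ih1 h1 s1)

theorem rel_addU {N : ℕ} {p z : P} {q w : ℕ → P} (h : Rel N p q) (hz : Rel N z w) :
    Rel N (P.addU p z) (fun g => P.addU (q g) (w g)) := by
  cases p with
  | lf x =>
    obtain ⟨v, hv, rfl⟩ := h
    obtain rfl : q = fun g => P.lf (v g) := funext hv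
    simp only [addU_lf]
    exact rel_lf v rfl
  | nd a0 a1 =>
    obtain ⟨q0, q1, hq, h0, h1⟩ := h
    obtain rfl : q = fun g => P.nd (q0 g) (q1 g) := funext hq
    simp only [addU_nd]
    exact rel_nd h0 (rel_add h1 hz)

theorem rel_addUC {N : ℕ} {p z : P} {q w : ℕ → P} (h : Rel N p q) (hz : Rel N z w) :
    Rel N (P.addUC p z) (fun g => P.addUC (q g) (w g)) := by
  induction p generalizing q z w with
  | lf x =>
    obtain ⟨v, hv, rfl⟩ := h
    obtain rfl : q = fun g => P.lf (v g) := funext hv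
    simp only [addUC_lf]
    exact rel_lf v rfl
  | nd p0 p1 _ ih1 =>
    obtain ⟨q0, q1, hq, h0, h1⟩ := h
    obtain rfl : q = fun g => P.nd (q0 g) (q1 g) := funext hq
    cases z with
    | lf y =>
      obtain ⟨v, hv, rfl⟩ := hz
      obtain rfl : w = fun g => P.lf (v g) := funext hv
      simp only [addUC_nd_lf]
      exact rel_nd (rel_addU h0 (rel_lf v rfl)) h1
    | nd z0 z1 =>
      obtain ⟨w0, w1, hw, k0, k1⟩ := hz
      obtain rfl : w = fun g => P.nd (w0 g) (w1 g) := funext hw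
      simp only [addUC_nd_nd]
      exact rel_nd (rel_addU h0 k0) (ih1 h1 k1)

theorem rel_moveStep {N : ℕ} {FA FB fA fB : ℕ → ℕ} (hA : LaneOp N FA (fun _ => fA))
    (hB : LaneOp N FB (fun _ => fB)) {p0 q : P} {P0 Q : ℕ → P} (h0 : Rel N p0 P0)
    (hq : Rel N q Q) (hs : ∀ g, (Q g).sum ≤ 2 ^ 48) :
    Rel N (P.moveStep FA FB p0 q) (fun g => P.moveStep fA fB (P0 g) (Q g)) := by
  cases q with
  | lf x =>
    obtain ⟨v, hv, rfl⟩ := hq
    obtain rfl : Q = fun g => P.lf (v g) := funext hv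
    simp only [moveStep_lf]
    exact rel_nd (rel_addU h0 (rel_lf (fun g => fB (v g)) (hB v hs)))
      (rel_lf (fun g => fA (v g)) (hA v hs))
  | nd q0 q1 =>
    obtain ⟨Q0, Q1, hQ, h1, h2⟩ := hq
    obtain rfl : Q = fun g => P.nd (Q0 g) (Q1 g) := funext hQ
    simp only [moveStep_nd]
    simp only [sum_nd] at hs
    have s0 : ∀ g, (Q0 g).sum ≤ 2 ^ 48 := fun g => (Nat.le_add_right _ _).trans (hs g)
    have s1 : ∀ g, (Q1 g).sum ≤ 2 ^ 48 := fun g => (Nat.le_add_left _ _).trans (hs g)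
    exact rel_nd (rel_addU h0 (rel_map hB h1 s0))
      (rel_addUC (rel_nd (rel_map hA h1 s0) (rel_map hA h2 s1)) (rel_map hB h2 s1))

theorem rel_move {N : ℕ} {FA FB fA fB : ℕ → ℕ} (hA : LaneOp N FA (fun _ => fA))
    (hB : LaneOp N FB (fun _ => fB)) (hAB : ∀ x, fA x + fB x ≤ x) {p : P} {q : ℕ → P}
    (h : Rel N p q) (hs : ∀ g, (q g).sum ≤ 2 ^ 48) :
    Rel N (P.move FA FB p) (fun g => P.move fA fB (q g)) := by
  induction p generalizing q with
  | lf x =>
    obtain ⟨v, hv, rfl⟩ := h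
    obtain rfl : q = fun g => P.lf (v g) := funext hv
    simp only [move_lf]
    exact rel_lf v rfl
  | nd p0 p1 _ ih1 =>
    obtain ⟨q0, q1, hq, h0, h1⟩ := h
    obtain rfl : q = fun g => P.nd (q0 g) (q1 g) := funext hq
    simp only [sum_nd] at hs
    have s1 : ∀ g, (q1 g).sum ≤ 2 ^ 48 := fun g => (Nat.le_add_left _ _).trans (hs g)
    simp only [move_nd]
    exact rel_moveStep hA hB h0 (ih1 h1 s1) fun g => (sum_move hAB _).trans (s1 g)

theorem rel_maskU {N : ℕ} {F : ℕ → ℕ → ℕ} {f : ℕ → ℕ → ℕ → ℕ}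
    (hF : ∀ u, LaneOp N (F u) (fun g => f g u)) {p : P} {q : ℕ → P} {u : ℕ}
    (h : Rel N p q) (hs : ∀ g, (q g).sum ≤ 2 ^ 48) :
    Rel N (P.maskU F p u) (fun g => P.maskU (f g) (q g) u) := by
  induction p generalizing q u with
  | lf x =>
    obtain ⟨v, hv, rfl⟩ := h
    obtain rfl : q = fun g => P.lf (v g) := funext hv
    simp only [maskU_lf]
    exact rel_lf (fun g => f g u (v g)) (hF u v hs)
  | nd p1 p2 ih1 ih2 =>
    obtain ⟨q1, q2, hq, h1, h2⟩ := h
    obtain rfl : q = fun g => P.nd (q1 g) (q2 g) := funext hq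
    simp only [maskU_nd]
    simp only [sum_nd] at hs
    exact rel_nd (ih1 h1 fun g => (Nat.le_add_right _ _).trans (hs g))
      (ih2 h2 fun g => (Nat.le_add_left _ _).trans (hs g))

theorem rel_maskC {N : ℕ} {F : ℕ → ℕ → ℕ} {f : ℕ → ℕ → ℕ → ℕ}
    (hF : ∀ u, LaneOp N (F u) (fun g => f g u)) {p : P} {q : ℕ → P}
    (h : Rel N p q) (hs : ∀ g, (q g).sum ≤ 2 ^ 48) :
    Rel N (P.maskC F p) (fun g => P.maskC (f g) (q g)) := by
  induction p generalizing q with
  | lf x =>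
    obtain ⟨v, hv, rfl⟩ := h
    obtain rfl : q = fun g => P.lf (v g) := funext hv
    simp only [maskC_lf]
    exact rel_lf (fun g => f g 0 (v g)) (hF 0 v hs)
  | nd p1 p2 _ ih2 =>
    obtain ⟨q1, q2, hq, h1, h2⟩ := h
    obtain rfl : q = fun g => P.nd (q1 g) (q2 g) := funext hq
    simp only [maskC_nd]
    simp only [sum_nd] at hs
    exact rel_nd (rel_maskU hF h1 fun g => (Nat.le_add_right _ _).trans (hs g))
      (ih2 h2 fun g => (Nat.le_add_left _ _).trans (hs g))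

theorem rel_zero (N k d : ℕ) : Rel N (P.zero k d) (fun _ => P.zero k d) := by
  induction k generalizing d with
  | zero =>
    rw [zero_zero]
    exact rel_lf (fun _ => 0) (pk_null N).symm
  | succ k ih =>
    induction d with
    | zero =>
      rw [zero_succ_zero]
      exact rel_lf (fun _ => 0) (pk_null N).symm
    | succ d ihd =>
      rw [zero_succ_succ]
      exact rel_nd (ih _) ihd

theorem rel_ins {N k d : ℕ} {p : P} {q : ℕ → P} (h : Rel N p q) :
    Rel N (P.ins k p d) (fun g => P.ins k (q g) d) := by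
  induction p generalizing q d with
  | lf x =>
    obtain ⟨v, hv, rfl⟩ := h
    obtain rfl : q = fun g => P.lf (v g) := funext hv
    simp only [ins_lf]
    exact rel_lf v rfl
  | nd p0 p1 _ ih1 =>
    obtain ⟨q0, q1, hq, h0, h1⟩ := h
    obtain rfl : q = fun g => P.nd (q0 g) (q1 g) := funext hq
    simp only [ins_nd]
    exact rel_nd (rel_nd h0 (rel_zero N k _)) (ih1 h1)

theorem lane_pk {N : ℕ} {f : ℕ → ℕ} (h : ∀ g < N, f g < 2 ^ 80) {g : ℕ} (hg : g < N) :
    laneK g (pk N f) = f g := by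
  have e : laneK g (pk N f) = ((pk N f) >>> (80 * g)) &&& (2 ^ 80 - 1) := rfl
  rw [e]
  refine Nat.eq_of_testBit_eq fun i => ?_
  rw [Nat.testBit_and, Nat.testBit_shiftRight, Nat.testBit_two_pow_sub_one, testBit_pk h]
  by_cases hi : i < 80
  · have e1 : (80 * g + i) / 80 = g := by omega
    have e2 : (80 * g + i) % 80 = i := by omega
    rw [e1, e2]
    simp [hi, hg]
  · rw [decide_eq_false hi, Bool.and_false]
    symm
    refine Nat.testBit_lt_two_pow ((h g hg).trans_le ?_)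
    exact Nat.pow_le_pow_right (by norm_num) (by omega)

theorem msk_eq (S : ℕ) : msk S = mk (S + 2) := by
  have gen : ∀ c N : ℕ, (∑ g ∈ Finset.range N, (c + 1) ^ g) * c + 1 = (c + 1) ^ N := by
    intro c N
    induction N with
    | zero => simp
    | succ N ih =>
      rw [Finset.sum_range_succ, pow_succ, ← ih]
      ring
  unfold msk mk
  rw [← Finset.mul_sum]
  congr 1
  have e1 : ∑ g ∈ Finset.range (S + 2), (2 : ℕ) ^ (80 * g) = ∑ g ∈ Finset.range (S + 2), (2 ^ 80) ^ g :=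
    Finset.sum_congr rfl fun g _ => pow_mul 2 80 g
  rw [e1, pow_mul]
  obtain ⟨c, hc, hc0⟩ : ∃ c, (2 : ℕ) ^ 80 = c + 1 ∧ 0 < c := ⟨2 ^ 80 - 1, by norm_num, by norm_num⟩
  rw [hc]
  have h2 := gen c (S + 2)
  rw [← h2, Nat.add_sub_cancel, Nat.add_sub_cancel]
  exact Nat.mul_div_cancel _ hc0

theorem by3_cases (a b c u : ℕ) :
    (u ≤ 1 ∧ by3 a b c u = a) ∨ (u = 2 ∧ by3 a b c u = b) ∨ (3 ≤ u ∧ by3 a b c u = c) := by
  match u with
  | 0 => exact Or.inl ⟨by norm_num, rfl⟩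
  | 1 => exact Or.inl ⟨by norm_num, rfl⟩
  | 2 => exact Or.inr (Or.inl ⟨rfl, rfl⟩)
  | u + 3 => exact Or.inr (Or.inr ⟨by omega, rfl⟩)

theorem by3_le1 (a b c : ℕ) {u : ℕ} (h : u ≤ 1) : by3 a b c u = a := by
  interval_cases u <;> rfl

theorem by3_two (a b c : ℕ) : by3 a b c 2 = b := rfl

theorem by3_three (a b c : ℕ) {u : ℕ} (h : 3 ≤ u) : by3 a b c u = c := by
  obtain ⟨v, rfl⟩ := Nat.exists_eq_add_of_le' h
  rfl

theorem laneOp_by3 {N : ℕ} {A B C : ℕ → ℕ} {a b c : ℕ → ℕ → ℕ} (hA : LaneOp N A a)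
    (hB : LaneOp N B b) (hC : LaneOp N C c) (u : ℕ) :
    LaneOp N (fun x => by3 (A x) (B x) (C x) u) (fun g x => by3 (a g x) (b g x) (c g x) u) := by
  intro v hv
  rcases Nat.lt_or_ge u 2 with h | h
  · have h' : u ≤ 1 := by omega
    simp only [by3_le1 _ _ _ h']
    exact hA v hv
  rcases Nat.lt_or_ge u 3 with h2 | h2
  · obtain rfl : u = 2 := by omega
    simp only [by3_two]
    exact hB v hv
  · simp only [by3_three _ _ _ h2]
    exact hC v hv

theorem laneOp_id (N : ℕ) : LaneOp N (fun x => x) (fun _ x => x) := fun _ _ => rfl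

theorem laneOp_null (N : ℕ) : LaneOp N (fun _ => 0) (fun _ _ => 0) := fun _ _ => (pk_null N).symm

theorem lt80 {v : ℕ → ℕ} (hv : ∀ g, v g ≤ 2 ^ 48) (N : ℕ) : ∀ g < N, v g < 2 ^ 80 :=
  fun g _ => (hv g).trans_lt (by norm_num)

theorem laneOp_S {N c : ℕ} (hc : c ≤ 2 ^ 24) (n : ℕ) :
    LaneOp N (fun x => Nat.add (lo n x) (rnd (mk N) c (Nat.sub x (lo n x))))
      (fun g x => if g ≤ n then x else rl c x) := by
  intro v hv
  show lo n (pk N v) + rnd (mk N) c (pk N v - lo n (pk N v)) = _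
  rw [sub_lo_pk (lt80 hv N), lo_pk (lt80 hv N), rnd_pk hc, ← pk_add]
  · refine pk_congr fun g _ => ?_
    beta_reduce
    split_ifs with h
    · rw [rl_zero, Nat.add_zero]
    · rw [Nat.zero_add]
  · intro g _
    split_ifs
    · norm_num
    · exact hv g

theorem laneOp_T {N c : ℕ} (hc : c ≤ 2 ^ 24) (n : ℕ) :
    LaneOp N (fun x => Nat.add (rnd (mk N) c (lo n x)) (Nat.sub x (lo n x)))
      (fun g x => if g ≤ n then rl c x else x) := by
  intro v hv
  show rnd (mk N) c (lo n (pk N v)) + (pk N v - lo n (pk N v)) = _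
  rw [sub_lo_pk (lt80 hv N), lo_pk (lt80 hv N), rnd_pk hc, ← pk_add]
  · refine pk_congr fun g _ => ?_
    beta_reduce
    split_ifs with h
    · rw [Nat.add_zero]
    · rw [rl_zero, Nat.zero_add]
  · intro g _
    split_ifs
    · exact hv g
    · norm_num

theorem laneOp_R {N c : ℕ} (hc : c ≤ 2 ^ 24) (n : ℕ) :
    LaneOp N (fun x => rnd (mk N) c (lo n x)) (fun g x => if g ≤ n then rl c x else 0) := by
  intro v hv
  show rnd (mk N) c (lo n (pk N v)) = _
  rw [lo_pk (lt80 hv N), rnd_pk hc]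
  · refine pk_congr fun g _ => ?_
    beta_reduce
    split_ifs with h
    · rfl
    · exact rl_zero c
  · intro g _
    split_ifs
    · exact hv g
    · norm_num

end pack_aux

open pack_aux

theorem t_packFail : S_packFail := by
  intro N p q a b t h hs hab
  exact rel_fail (laneOp_rnd (by omega)) (laneOp_rnd (by omega)) (rl_add_le hab) h hs

theorem t_packMove : S_packMove := by
  intro N p q a b h hs hab
  exact rel_move (laneOp_rnd (by omega)) (laneOp_rnd (by omega)) (rl_add_le hab) h hs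

theorem t_packIns : S_packIns := fun _ _ _ _ _ h => rel_ins h

theorem t_packMask : S_packMask := by
  intro N p q R Rc n h hs _ hRc
  have hc : 2 ^ 24 - R ≤ 2 ^ 24 := Nat.sub_le _ _
  refine ⟨rel_maskC (fun u => ?_) h hs, rel_maskC (fun u => ?_) h hs, rel_maskC (fun u => ?_) h hs⟩
  · exact laneOp_by3 (laneOp_rnd hc) (laneOp_S hc n) (laneOp_id N) u
  · exact laneOp_by3 (laneOp_id N) (laneOp_T hc n) (laneOp_rnd hc) u
  · exact laneOp_by3 (laneOp_null N) (laneOp_R hRc n) (laneOp_rnd hRc) u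

theorem t_packSum : S_packSum := by
  refine ⟨msk_eq, fun N p q h hs g hg => ?_⟩
  rw [rel_sum h]
  exact lane_pk (fun g _ => (hs g).trans_lt (by norm_num)) hg

end Pool.Agent.helper237_G5
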