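import Pool.Agent.helper237_G5.Stmts2

/-!
# S_prob: the probability that the depth-`D` tree has a valid labelling, and the passage to all depths
(helper701)
-/

set_option autoImplicit false

namespace Pool.Agent.helper237_G5

open MeasureTheory ProbabilityTheory Filter Topology

namespace prob_aux

/-! ### The words of the subtree -/

/-- the inner vertices of the subtree of depth `D` at `w` -/
def T : ℕ → List (Fin 4) → Finset (List (Fin 4))
  | 0, _ => ∅
  | D+1, w => insert w (Finset.univ.biUnion fun i => T D (i :: w))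

theorem mem_T {D : ℕ} {w v : List (Fin 4)} (h : v ∈ T D w) : ∃ u, v = u ++ w := by
  induction D generalizing w with
  | zero => simp [T] at h
  | succ D ih =>
    rw [T, Finset.mem_insert, Finset.mem_biUnion] at h
    rcases h with rfl | ⟨i, -, h⟩
    · exact ⟨[], rfl⟩
    · obtain ⟨u, hu⟩ := ih h
      exact ⟨u ++ [i], by rw [hu]; simp⟩

theorem notMem_T {D : ℕ} {w : List (Fin 4)} (i : Fin 4) : w ∉ T D (i :: w) := by
  intro h
  obtain ⟨u, hu⟩ := mem_T h
  have := congrArg List.length hu
  simp at this
  omega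

theorem T_unique {D : ℕ} {w v : List (Fin 4)} {i j : Fin 4} (hi : v ∈ T D (i :: w))
    (hj : v ∈ T D (j :: w)) : i = j := by
  obtain ⟨u, hu⟩ := mem_T hi
  obtain ⟨u', hu'⟩ := mem_T hj
  have h := List.append_inj_right' (hu.symm.trans hu') (by simp)
  exact (List.cons.inj h).1

theorem T_disj {D : ℕ} {w : List (Fin 4)} :
    Set.PairwiseDisjoint ((Finset.univ : Finset (Fin 4)) : Set (Fin 4)) (fun i => T D (i :: w)) := by
  intro i _ j _ hij
  refine Finset.disjoint_left.2 fun v hi hj => hij (T_unique hi hj)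

/-! ### Configurations as conditions on the words -/

theorem rep {S : ℕ} (p : ℝ) (r : ℕ → ℝ) (D : ℕ) (w : List (Fin 4)) (c : Cfg S D) :
    ∃ f : List (Fin 4) → Own S,
      (∀ own : List (Fin 4) → Own S, cfgO own D w = c ↔ ∀ v ∈ T D w, own v = f v) ∧
      wt p r D c = ∏ v ∈ T D w, ownWt p r (f v) := by
  classical
  induction D generalizing w with
  | zero =>
    refine ⟨fun _ => (true, fun _ => true), fun own => ⟨fun _ v hv => ?_, fun _ => rfl⟩, ?_⟩
    · simp [T] at hv
    · simp [T, wt]
  | succ D ih =>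
    choose f hf hw using fun i => ih (i :: w) (c.2 i)
    obtain ⟨F, hF⟩ : ∃ F : List (Fin 4) → Own S, F = fun v =>
      if v = w then c.1 else if h : ∃ i, v ∈ T D (i :: w) then f h.choose v else c.1 := ⟨_, rfl⟩
    have hF0 : F w = c.1 := by rw [hF]; simp
    have hFi : ∀ i, ∀ v ∈ T D (i :: w), F v = f i v := by
      intro i v hv
      have h1 : v ≠ w := by
        rintro rfl
        exact notMem_T i hv
      have h2 : ∃ i, v ∈ T D (i :: w) := ⟨i, hv⟩
      rw [hF]
      simp only [if_neg h1, dif_pos h2]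
      rw [T_unique h2.choose_spec hv]
    refine ⟨F, fun own => ?_, ?_⟩
    · constructor
      · intro h v hv
        rw [T, Finset.mem_insert, Finset.mem_biUnion] at hv
        rcases hv with rfl | ⟨i, -, hv⟩
        · rw [hF0, ← h]
          rfl
        · rw [hFi i v hv]
          refine (hf i own).1 ?_ v hv
          rw [← h]
          rfl
      · intro h
        refine Prod.ext ?_ (funext fun i => ?_)
        · have := h w (by rw [T]; exact Finset.mem_insert_self _ _)
          rw [hF0] at this
          exact this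
        · refine (hf i own).2 fun v hv => ?_
          rw [← hFi i v hv]
          refine h v ?_
          rw [T]
          exact Finset.mem_insert_of_mem (Finset.mem_biUnion.2 ⟨i, Finset.mem_univ i, hv⟩)
    · rw [T, Finset.prod_insert, Finset.prod_biUnion T_disj, hF0]
      · show ownWt p r c.1 * ∏ i, wt p r D (c.2 i) = _
        congr 1
        refine Finset.prod_congr rfl fun i _ => ?_
        rw [hw i]
        exact Finset.prod_congr rfl fun v hv => by rw [hFi i v hv]
      · rw [Finset.mem_biUnion]
        rintro ⟨i, -, h⟩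
        exact notMem_T i h

/-! ### Monotonicity in the depth -/

theorem VD_succ {S : ℕ} (own : List (Fin 4) → Own S) (D : ℕ) (w : List (Fin 4)) (g : Option ℕ)
    (l : Path (S+1)) (h : VD S (D+1) (cfgO own (D+1) w) g l) : VD S D (cfgO own D w) g l := by
  induction D generalizing w g l with
  | zero => trivial
  | succ D ih =>
    obtain ⟨k, h1, h2⟩ := h
    exact ⟨k, h1, fun i => ih _ _ _ (h2 i)⟩

/-! ### The law of the local randomness -/

section law

variable {Ω V : Type} [MeasurableSpace Ω] {G : SimpleGraph V} [G.LocallyFinite] {p : ℝ}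
  {μ : Measure Ω} {init : V → Ω → Bool} {rings : V → Ω → Set ℝ} {σ : Ω → ℝ → V → Bool}

theorem own_eq {t : ℕ → ℝ} {S : ℕ} {v : V} {ω : Ω} {o : Own S} :
    ownOf init rings t S v ω = o ↔ init v ω = o.1 ∧
      ∀ n : Fin S, decide (ringCount rings v (t n) (t (n+1)) ω ≠ 0) = o.2 n := by
  constructor
  · rintro rfl
    exact ⟨rfl, fun n => rfl⟩
  · rintro ⟨h1, h2⟩
    exact Prod.ext h1 (funext h2)

theorem meas_own (hG : IsGlauber G p μ init rings σ) (t : ℕ → ℝ) (S : ℕ) (v : V) (o : Own S) :
    MeasurableSet {ω | ownOf init rings t S v ω = o} := by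
  have e : {ω | ownOf init rings t S v ω = o} = {ω | init v ω = o.1} ∩
      ⋂ n : Fin S, {ω | decide (ringCount rings v (t n) (t (n+1)) ω ≠ 0) = o.2 n} := by
    ext ω
    simp only [Set.mem_setOf_eq, Set.mem_inter_iff, Set.mem_iInter]
    exact own_eq
  rw [e]
  refine MeasurableSet.inter ?_ (MeasurableSet.iInter fun n => ?_)
  · exact hG.init_meas v (measurableSet_singleton o.1)
  · exact hG.count_meas v (t n) (t (n+1))
      (DiscreteMeasurableSpace.forall_measurableSet {k : ℕ | decide (k ≠ 0) = o.2 n})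

theorem law_init (hG : IsGlauber G p μ init rings σ) (hp1 : p ≤ 1) (hp0 : 0 ≤ p) (v : V) (b : Bool) :
    μ {ω | init v ω = b} = ENNReal.ofReal (if b = true then p else 1 - p) := by
  haveI := hG.prob
  cases b with
  | true => rw [if_pos rfl]; exact hG.init_law v
  | false =>
    rw [if_neg (by simp)]
    have e : {ω | init v ω = false} = {ω | init v ω = true}ᶜ := by
      ext ω
      simp
    have hm : MeasurableSet {ω | init v ω = true} := hG.init_meas v (measurableSet_singleton true)
    rw [e, prob_compl_eq_one_sub hm, hG.init_law v, ENNReal.ofReal_sub _ hp0, ENNReal.ofReal_one]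

theorem law_count (hG : IsGlauber G p μ init rings σ) {a b : ℝ} (ha : 0 ≤ a) (hab : a < b) (v : V)
    (c : Bool) :
    μ {ω | decide (ringCount rings v a b ω ≠ 0) = c} =
      ENNReal.ofReal (if c = true then 1 - Real.exp (-(b - a)) else 1 - (1 - Real.exp (-(b - a)))) := by
  haveI := hG.prob
  have h0 : μ {ω | ringCount rings v a b ω = 0} = ENNReal.ofReal (Real.exp (-(b - a))) := by
    rw [hG.count_law v a b ha hab 0]
    simp
  have hm : MeasurableSet {ω | ringCount rings v a b ω = 0} :=
    hG.count_meas v a b (measurableSet_singleton 0)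
  cases c with
  | true =>
    rw [if_pos rfl]
    have e : {ω | decide (ringCount rings v a b ω ≠ 0) = true} =
        {ω | ringCount rings v a b ω = 0}ᶜ := by
      ext ω
      simp
    rw [e, prob_compl_eq_one_sub hm, h0, ENNReal.ofReal_sub _ (Real.exp_pos _).le,
      ENNReal.ofReal_one]
  | false =>
    rw [if_neg (by simp)]
    have e : {ω | decide (ringCount rings v a b ω ≠ 0) = false} =
        {ω | ringCount rings v a b ω = 0} := by
      ext ω
      simp
    rw [e, h0]
    congr 1
    ring

theorem ownWt_nonneg {S : ℕ} {r : ℕ → ℝ} (hp0 : 0 ≤ p) (hp1 : p ≤ 1)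
    (hr : ∀ n : Fin S, 0 ≤ r n ∧ r n ≤ 1) (o : Own S) : 0 ≤ ownWt p r o := by
  unfold ownWt
  refine mul_nonneg ?_ (Finset.prod_nonneg fun n _ => ?_)
  · split_ifs <;> linarith
  · have := hr n
    split_ifs <;> linarith

/-- the joint law of the local randomness of finitely many vertices of the tree -/
theorem law_fin (hG : IsGlauber G p μ init rings σ) (hp0 : 0 ≤ p) (hp1 : p ≤ 1) {S : ℕ}
    {r t : ℕ → ℝ} (hg : IsGrid S r t) {φ : List (Fin 4) → V} (hφ : Function.Injective φ)
    (A : Finset (List (Fin 4))) (f : List (Fin 4) → Own S) :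
    μ {ω | ∀ v ∈ A, ownOf init rings t S (φ v) ω = f v} =
      ∏ v ∈ A, ENNReal.ofReal (ownWt p r (f v)) := by
  classical
  obtain ⟨ht0, htm, htr⟩ := hg
  have htn : ∀ n, 0 ≤ t n := fun n => by rw [← ht0]; exact htm.monotone (Nat.zero_le n)
  obtain ⟨X, hX⟩ : ∃ X : V × Option ℕ → Ω → ℕ, X = fun (i : V × Option ℕ) (ω : Ω) =>
    (match i.2 with
      | none => if init i.1 ω = true then 1 else 0
      | some n => ringCount rings i.1 (t n) (t (n+1)) ω : ℕ) := ⟨_, rfl⟩
  have hX0 : ∀ v ω, X (v, none) ω = if init v ω = true then 1 else 0 := by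
    intro v ω
    rw [hX]
  have hX1 : ∀ v n ω, X (v, some n) ω = ringCount rings v (t n) (t (n+1)) ω := by
    intro v n ω
    rw [hX]
  have hind : iIndepFun X μ := by
    rw [hX]
    exact hG.indep t ht0 htm
  obtain ⟨ι, hι⟩ : ∃ ι : List (Fin 4) × Option (Fin S) → V × Option ℕ,
    ι = fun x => (φ x.1, x.2.map Fin.val) := ⟨_, rfl⟩
  have hι0 : ∀ w, ι (w, none) = (φ w, none) := by
    intro w
    rw [hι]
    rfl
  have hι1 : ∀ w n, ι (w, some n) = (φ w, some n.1) := by
    intro w n
    rw [hι]
    rfl
  have hιinj : Function.Injective ι := by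
    rintro ⟨w, j⟩ ⟨w', j'⟩ h
    rw [hι] at h
    simp only [Prod.mk.injEq] at h
    have h1 := hφ h.1
    have h2 := Option.map_injective Fin.val_injective h.2
    rw [h1, h2]
  have hind2 := hind.precomp hιinj
  obtain ⟨sets, hsets⟩ : ∃ sets : List (Fin 4) × Option (Fin S) → Set ℕ, sets = fun x =>
    match x.2 with
    | none => {k | k = if (f x.1).1 = true then 1 else 0}
    | some n => {k | decide (k ≠ 0) = (f x.1).2 n} := ⟨_, rfl⟩
  have hs0 : ∀ w k, k ∈ sets (w, none) ↔ k = if (f w).1 = true then 1 else 0 := by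
    intro w k
    rw [hsets]
    rfl
  have hs1 : ∀ w n k, k ∈ sets (w, some n) ↔ decide (k ≠ 0) = (f w).2 n := by
    intro w n k
    rw [hsets]
    rfl
  have hmul := hind2.measure_inter_preimage_eq_mul (A ×ˢ (Finset.univ : Finset (Option (Fin S))))
    (sets := sets) (fun _ _ => DiscreteMeasurableSpace.forall_measurableSet _)
  -- the preimages
  have hnone : ∀ w : List (Fin 4), X (ι (w, none)) ⁻¹' sets (w, none) =
      {ω | init (φ w) ω = (f w).1} := by
    intro w
    ext ω
    rw [Set.mem_preimage, hι0, hs0, hX0]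
    show _ ↔ init (φ w) ω = (f w).1
    cases init (φ w) ω <;> cases (f w).1 <;> simp
  have hsome : ∀ (w : List (Fin 4)) (n : Fin S), X (ι (w, some n)) ⁻¹' sets (w, some n) =
      {ω | decide (ringCount rings (φ w) (t n) (t (n+1)) ω ≠ 0) = (f w).2 n} := by
    intro w n
    ext ω
    rw [Set.mem_preimage, hι1, hs1, hX1]
    rfl
  have hev : {ω | ∀ v ∈ A, ownOf init rings t S (φ v) ω = f v} =
      ⋂ x ∈ A ×ˢ (Finset.univ : Finset (Option (Fin S))), X (ι x) ⁻¹' sets x := by
    ext ω
    rw [Set.mem_iInter₂]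
    constructor
    · rintro h ⟨w, j⟩ hx
      rw [Finset.mem_product] at hx
      have h1 := own_eq.1 (h w hx.1)
      cases j with
      | none =>
        rw [hnone w]
        exact h1.1
      | some n =>
        rw [hsome w n]
        exact h1.2 n
    · intro h w hw
      refine own_eq.2 ⟨?_, fun n => ?_⟩
      · have h2 := h (w, none) (Finset.mem_product.2 ⟨hw, Finset.mem_univ _⟩)
        rw [hnone w] at h2
        exact h2
      · have h2 := h (w, some n) (Finset.mem_product.2 ⟨hw, Finset.mem_univ _⟩)
        rw [hsome w n] at h2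
        exact h2
  rw [hev, hmul, Finset.prod_product]
  refine Finset.prod_congr rfl fun w _ => ?_
  rw [Fintype.prod_option, hnone w, law_init hG hp1 hp0]
  have h3 : ∀ n : Fin S, μ (X (ι (w, some n)) ⁻¹' sets (w, some n)) =
      ENNReal.ofReal (if (f w).2 n = true then r n else 1 - r n) := by
    intro n
    rw [hsome w n, law_count hG (htn n) (htm (Nat.lt_succ_self n)), htr n n.2]
  have hr : ∀ n : Fin S, 0 ≤ r n ∧ r n ≤ 1 := by
    intro n
    rw [htr n n.2]
    have h4 : 0 ≤ t (n+1) - t n := sub_nonneg.2 (htm.monotone (Nat.le_succ n))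
    have h5 : Real.exp (-(t (n+1) - t n)) ≤ 1 := Real.exp_le_one_iff.2 (by linarith)
    have h6 := Real.exp_pos (-(t (n+1) - t n))
    constructor <;> linarith
  unfold ownWt
  rw [ENNReal.ofReal_mul (by split_ifs <;> linarith), ENNReal.ofReal_prod_of_nonneg]
  · congr 1
    exact Finset.prod_congr rfl fun n _ => h3 n
  · intro n _
    have := hr n
    split_ifs <;> linarith

end law

end prob_aux

open prob_aux in
theorem t_prob : S_prob := by
  classical
  intro Ω V _ G _ p μ init rings σ hG hp0 hp1 S r t hg o φ hφ Q hQ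
  haveI := hG.prob
  obtain ⟨ht0, htm, htr⟩ := hg
  have hr : ∀ n : Fin S, 0 ≤ r n ∧ r n ≤ 1 := by
    intro n
    rw [htr n n.2]
    have h4 : 0 ≤ t (n+1) - t n := sub_nonneg.2 (htm.monotone (Nat.le_succ n))
    have h5 : Real.exp (-(t (n+1) - t n)) ≤ 1 := Real.exp_le_one_iff.2 (by linarith)
    have h6 := Real.exp_pos (-(t (n+1) - t n))
    constructor <;> linarith
  obtain ⟨E, hE⟩ : ∃ E : ℕ → Set Ω, E = fun D => {ω | VD S D
    (cfgO (fun w => ownOf init rings t S (φ w) ω) D []) none (star (S+1))} := ⟨_, rfl⟩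
  -- the law of the configuration
  have hcm : ∀ (D : ℕ) (c : Cfg S D),
      MeasurableSet {ω | cfgO (fun w => ownOf init rings t S (φ w) ω) D [] = c} := by
    intro D c
    obtain ⟨f, hf, -⟩ := rep p r D [] c
    have e : {ω | cfgO (fun w => ownOf init rings t S (φ w) ω) D [] = c} =
        ⋂ v ∈ T D [], {ω | ownOf init rings t S (φ v) ω = f v} := by
      ext ω
      simp only [Set.mem_setOf_eq, Set.mem_iInter]
      exact hf _
    rw [e]
    exact Finset.measurableSet_biInter _ fun v _ => meas_own hG t S (φ v) (f v)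
  have hclaw : ∀ (D : ℕ) (c : Cfg S D), 0 ≤ wt p r D c ∧
      μ {ω | cfgO (fun w => ownOf init rings t S (φ w) ω) D [] = c} =
        ENNReal.ofReal (wt p r D c) := by
    intro D c
    obtain ⟨f, hf, hw⟩ := rep p r D [] c
    have hnn : ∀ v ∈ T D ([] : List (Fin 4)), 0 ≤ ownWt p r (f v) :=
      fun v _ => ownWt_nonneg hp0 hp1 hr _
    refine ⟨by rw [hw]; exact Finset.prod_nonneg hnn, ?_⟩
    have e : {ω | cfgO (fun w => ownOf init rings t S (φ w) ω) D [] = c} =
        {ω | ∀ v ∈ T D [], ownOf init rings t S (φ v) ω = f v} := by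
      ext ω
      simp only [Set.mem_setOf_eq]
      exact hf _
    rw [e, law_fin hG hp0 hp1 ⟨ht0, htm, htr⟩ hφ.inj, hw, ENNReal.ofReal_prod_of_nonneg hnn]
  -- the events
  have hEu : ∀ D, E D = ⋃ c ∈ (Finset.univ.filter fun c : Cfg S D => VD S D c none (star (S+1))),
      {ω | cfgO (fun w => ownOf init rings t S (φ w) ω) D [] = c} := by
    intro D
    rw [hE]
    ext ω
    simp only [Set.mem_setOf_eq, Set.mem_iUnion, Finset.mem_filter, Finset.mem_univ, true_and,
      exists_prop, exists_eq_right']
  have hEm : ∀ D, MeasurableSet (E D) := by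
    intro D
    rw [hEu]
    exact Finset.measurableSet_biUnion _ fun c _ => hcm D c
  have hEP : ∀ D, ENNReal.ofReal Q ≤ μ (E D) := by
    intro D
    rw [hEu, measure_biUnion_finset]
    · have e : ∑ c ∈ (Finset.univ.filter fun c : Cfg S D => VD S D c none (star (S+1))),
          μ {ω | cfgO (fun w => ownOf init rings t S (φ w) ω) D [] = c} =
          ENNReal.ofReal (probV S p r D) := by
        unfold probV
        rw [ENNReal.ofReal_sum_of_nonneg, Finset.sum_filter]
        · refine Finset.sum_congr rfl fun c _ => ?_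
          by_cases hc : VD S D c none (star (S+1))
          · rw [if_pos hc, if_pos hc, mul_one, (hclaw D c).2]
          · rw [if_neg hc, if_neg hc, mul_zero, ENNReal.ofReal_zero]
        · intro c _
          refine mul_nonneg (hclaw D c).1 ?_
          split_ifs <;> norm_num
      rw [e]
      exact ENNReal.ofReal_le_ofReal (hQ D)
    · intro c _ c' _ hcc
      refine Set.disjoint_left.2 fun ω h1 h2 => hcc ?_
      exact Eq.trans (Eq.symm h1) h2
    · exact fun c _ => hcm D c
  have hEa : Antitone E := by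
    refine antitone_nat_of_succ_le fun D => ?_
    intro ω hω
    rw [hE] at hω ⊢
    exact VD_succ _ D [] none _ hω
  have hlim := tendsto_measure_iInter_atTop (μ := μ) (fun D => (hEm D).nullMeasurableSet) hEa
    ⟨0, measure_ne_top μ _⟩
  have hEi : {ω | ∀ D, VD S D (cfgO (fun w => ownOf init rings t S (φ w) ω) D []) none
      (star (S+1))} = ⋂ D, E D := by
    ext ω
    rw [hE]
    simp only [Set.mem_setOf_eq, Set.mem_iInter]
  rw [hEi]
  exact ge_of_tendsto' hlim hEP

end Pool.Agent.helper237_G5
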