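import Pool.Agent.helper237_G5.Stmts2

/-!
# Soundness of the checker
-/

namespace Pool.Agent.helper237_G5

namespace sound_aux

/-! ## Semantics of one slot -/

theorem push_mono {E : Lab → Lab → ℝ} (hE : ∀ x y, 0 ≤ E x y) {Y Y' : (Fin 4 → Lab) → ℝ}
    (h : ∀ x, Y x ≤ Y' x) (y : Fin 4 → Lab) : push E Y y ≤ push E Y' y := by
  unfold push
  refine Finset.sum_le_sum fun x _ => ?_
  exact mul_le_mul_of_nonneg_right (h x) (Finset.prod_nonneg fun i _ => hE _ _)

theorem push_push (E E' : Lab → Lab → ℝ) (Y : (Fin 4 → Lab) → ℝ) :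
    push E (push E' Y) = push (fun x y => ∑ z, E' x z * E z y) Y := by
  funext y
  unfold push
  simp only [Finset.sum_mul]
  rw [Finset.sum_comm]
  refine Finset.sum_congr rfl fun x _ => ?_
  have h1 : ∏ i, ∑ z, E' (x i) z * E z (y i) =
      ∑ z : Fin 4 → Lab, ∏ i, (E' (x i) (z i) * E (z i) (y i)) := by
    rw [Finset.prod_univ_sum, Fintype.piFinset_univ]
  rw [h1, Finset.mul_sum]
  refine Finset.sum_congr rfl fun z _ => ?_
  rw [Finset.prod_mul_distrib]
  ring

theorem EF_nonneg {v : Lab} {a b : ℝ} (ha : 0 ≤ a) (hb : 0 ≤ b) (x y : Lab) :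
    0 ≤ EF v a b x y := by
  unfold EF
  split_ifs <;> first | exact ha | exact hb | norm_num

theorem EM_nonneg {w : Lab} {a b : ℝ} (ha : 0 ≤ a) (hb : 0 ≤ b) (x y : Lab) :
    0 ≤ EM w a b x y := by
  unfold EM
  split_ifs <;> first | exact ha | exact hb | norm_num

theorem EF_comp (v : Lab) (hv : v ≠ Lab.Z) (a b : ℝ) (F : Lab → Lab → ℝ) (x y : Lab) :
    ∑ z, EF v a b x z * F z y = if x = v then a * F v y + b * F Lab.Z y else F x y := by
  by_cases hx : x = v
  · rw [if_pos hx]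
    subst hx
    have h1 : ∀ z, EF x a b x z * F z y =
        (if z = x then a * F z y else 0) + (if z = Lab.Z then b * F z y else 0) := by
      intro z
      unfold EF
      rw [if_pos rfl]
      by_cases h1 : z = x
      · have h2 : z ≠ Lab.Z := by
          rw [h1]; exact hv
        rw [if_pos h1, if_pos h1, if_neg h2, add_zero]
      · rw [if_neg h1, if_neg h1, zero_add]
        by_cases h2 : z = Lab.Z
        · rw [if_pos h2, if_pos h2]
        · rw [if_neg h2, if_neg h2, zero_mul]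
    simp only [h1]
    rw [Finset.sum_add_distrib, Finset.sum_ite_eq', Finset.sum_ite_eq']
    simp only [Finset.mem_univ, if_true]
  · rw [if_neg hx]
    have h1 : ∀ z, EF v a b x z * F z y = if z = x then F z y else 0 := by
      intro z
      unfold EF
      rw [if_neg hx]
      split_ifs
      · rw [one_mul]
      · rw [zero_mul]
    simp only [h1]
    rw [Finset.sum_ite_eq']
    simp only [Finset.mem_univ, if_true]

theorem EF_comm {v v' : Lab} (hv : v ≠ Lab.Z) (hv' : v' ≠ Lab.Z) (h : v ≠ v') (a b a' b' : ℝ)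
    (Y : (Fin 4 → Lab) → ℝ) :
    push (EF v a b) (push (EF v' a' b') Y) = push (EF v' a' b') (push (EF v a b) Y) := by
  rw [push_push, push_push]
  congr 1
  funext x y
  rw [EF_comp v' hv', EF_comp v hv]
  by_cases h1 : x = v'
  · rw [if_pos h1, if_neg (fun h2 => h (h2.symm.trans h1))]
    subst h1
    unfold EF
    rw [if_pos rfl, if_neg (Ne.symm h), if_neg (Ne.symm hv)]
    by_cases h2 : y = x
    · rw [if_pos h2, if_pos h2, if_neg (fun h3 => hv' (h2.symm.trans h3))]
      ring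
    · rw [if_neg h2, if_neg h2]
      by_cases h3 : y = Lab.Z
      · rw [if_pos h3, if_pos h3]
        ring
      · rw [if_neg h3, if_neg h3]
        ring
  · rw [if_neg h1]
    by_cases h2 : x = v
    · rw [if_pos h2]
      subst h2
      unfold EF
      rw [if_pos rfl, if_neg h, if_neg (Ne.symm hv')]
      by_cases h3 : y = x
      · rw [if_pos h3, if_pos h3, if_neg (fun h4 => hv (h3.symm.trans h4))]
        ring
      · rw [if_neg h3, if_neg h3]
        by_cases h4 : y = Lab.Z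
        · rw [if_pos h4, if_pos h4]
          ring
        · rw [if_neg h4, if_neg h4]
          ring
    · rw [if_neg h2]
      unfold EF
      rw [if_neg h2, if_neg h1]

theorem push_id {v : Lab} (a b : ℝ) {Y : (Fin 4 → Lab) → ℝ} (h : ∀ x, Y x ≠ 0 → ∀ i, x i ≠ v) :
    push (EF v a b) Y = Y := by
  funext y
  unfold push
  rw [Finset.sum_eq_single y]
  · by_cases h0 : Y y = 0
    · rw [h0, zero_mul]
    · have h1 : ∀ i, EF v a b (y i) (y i) = 1 := by
        intro i
        unfold EF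
        rw [if_neg (h y h0 i), if_pos rfl]
      simp only [h1, Finset.prod_const_one, mul_one]
  · intro x _ hx
    by_cases h0 : Y x = 0
    · rw [h0, zero_mul]
    · obtain ⟨i, hi⟩ := Function.ne_iff.1 hx
      have h1 : EF v a b (x i) (y i) = 0 := by
        unfold EF
        rw [if_neg (h x h0 i), if_neg (Ne.symm hi)]
      rw [Finset.prod_eq_zero (Finset.mem_univ i) h1, mul_zero]
  · intro hy
    exact absurd (Finset.mem_univ y) hy

/-- support of the arrays -/
theorem val_supp : ∀ (vs : List Lab) (d : ℕ) (p : P) (m : Multiset Lab), val vs d p m ≠ 0 →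
    ∀ l ∈ m, l ∈ vs ∨ l = Lab.Z := by
  intro vs
  induction vs with
  | nil =>
    intro d p m h l hl
    cases p with
    | lf n =>
      unfold val at h
      by_cases h1 : m = Multiset.replicate d Lab.Z
      · right
        rw [h1] at hl
        exact Multiset.eq_of_mem_replicate hl
      · rw [if_neg h1] at h
        exact absurd rfl h
    | nd p q =>
      unfold val at h
      exact absurd rfl h
  | cons v vs ih =>
    intro d
    induction d with
    | zero =>
      intro p m h l hl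
      cases p with
      | lf n =>
        unfold val at h
        by_cases h1 : m = 0
        · rw [h1] at hl
          exact absurd hl (Multiset.notMem_zero l)
        · rw [if_neg h1] at h
          exact absurd rfl h
      | nd p q =>
        unfold val at h
        exact absurd rfl h
    | succ d ihd =>
      intro p m h l hl
      cases p with
      | lf n =>
        unfold val at h
        exact absurd rfl h
      | nd p q =>
        unfold val at h
        by_cases h1 : v ∈ m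
        · rw [if_pos h1] at h
          by_cases h2 : l = v
          · left
            rw [h2]
            exact List.mem_cons_self
          · exact ihd q (m.erase v) h l ((Multiset.mem_erase_of_ne h2).2 hl)
        · rw [if_neg h1] at h
          rcases ih (d + 1) p m h l hl with h2 | h2
          · left
            exact List.mem_cons_of_mem _ h2
          · right
            exact h2

theorem Yof_nonneg (vs : List Lab) (p : P) (x : Fin 4 → Lab) : 0 ≤ Yof vs p x := by
  unfold Yof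
  positivity

theorem Yof_supp (vs : List Lab) (p : P) (x : Fin 4 → Lab) (h : Yof vs p x ≠ 0) (i : Fin 4) :
    x i ∈ vs ∨ x i = Lab.Z := by
  unfold Yof at h
  have h1 : val vs 4 p (typ x) ≠ 0 := by
    intro h2
    rw [h2] at h
    simp at h
  refine val_supp vs 4 p (typ x) h1 (x i) ?_
  unfold typ
  exact Multiset.mem_map_of_mem _ (Finset.mem_univ i)

theorem mem_Vs {m : ℕ} {l : Lab} (h : l ∈ Vs m) : l = Lab.C ∨ ∃ j ≤ m, l = Lab.U (Fin.ofNat 6 j) := by
  unfold Vs at h
  rcases List.mem_cons.1 h with h | h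
  · exact Or.inl h
  · right
    obtain ⟨j, hj, rfl⟩ := List.mem_map.1 h
    rw [List.mem_reverse, List.mem_range] at hj
    exact ⟨j, by omega, rfl⟩

theorem ofNat_inj {i j : ℕ} (hi : i ≤ 5) (hj : j ≤ 5) (h : Fin.ofNat 6 i = Fin.ofNat 6 j) : i = j := by
  have h1 := congrArg Fin.val h
  simp only [Fin.ofNat] at h1
  omega

theorem Yof_supp_U {m j : ℕ} (hj : m < j) (hj5 : j ≤ 5) (p : P) (x : Fin 4 → Lab)
    (h : Yof (Vs m) p x ≠ 0) (i : Fin 4) : x i ≠ Lab.U (Fin.ofNat 6 j) := by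
  intro hx
  rcases Yof_supp (Vs m) p x h i with h1 | h1
  · rcases mem_Vs h1 with h2 | ⟨j', hj', h2⟩
    · rw [hx] at h2
      exact Lab.noConfusion h2
    · rw [hx] at h2
      have h3 := ofNat_inj hj5 (by omega) (Lab.U.inj h2)
      omega
  · rw [hx] at h1
    exact Lab.noConfusion h1

/-- failing of `U_j` -/
noncomputable def PU (s : ℕ → ℝ) (j : ℕ) (Y : (Fin 4 → Lab) → ℝ) : (Fin 4 → Lab) → ℝ :=
  push (EF (Lab.U (Fin.ofNat 6 j)) (s j) (1 - s j)) Y

/-- the order of the checker -/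
noncomputable def ch (s : ℕ → ℝ) : ℕ → ((Fin 4 → Lab) → ℝ) → (Fin 4 → Lab) → ℝ
  | 0, Y => PU s 0 Y
  | i + 1, Y => ch s i (PU s (i + 1) Y)

/-- the order of `S_three` -/
noncomputable def rch (s : ℕ → ℝ) : ℕ → ((Fin 4 → Lab) → ℝ) → (Fin 4 → Lab) → ℝ
  | 0, Y => PU s 0 Y
  | i + 1, Y => PU s (i + 1) (rch s i Y)

theorem PU_comm (s : ℕ → ℝ) {i j : ℕ} (hi : i ≤ 5) (hj : j ≤ 5) (h : i ≠ j)
    (Y : (Fin 4 → Lab) → ℝ) : PU s i (PU s j Y) = PU s j (PU s i Y) := by
  unfold PU
  refine EF_comm (fun h => Lab.noConfusion h) (fun h => Lab.noConfusion h) (fun h2 => h ?_) _ _ _ _ Y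
  exact ofNat_inj hi hj (Lab.U.inj h2)

theorem rch_comm (s : ℕ → ℝ) (j : ℕ) (hj : j ≤ 5) (Y : (Fin 4 → Lab) → ℝ) :
    ∀ i < j, PU s j (rch s i Y) = rch s i (PU s j Y) := by
  intro i
  induction i with
  | zero =>
    intro hi
    exact PU_comm s hj (by omega) (by omega) Y
  | succ i ih =>
    intro hi
    have h1 := ih (by omega)
    unfold rch
    rw [PU_comm s hj (by omega) (by omega), h1]

theorem ch_eq_rch (s : ℕ → ℝ) : ∀ i ≤ 5, ∀ Y : (Fin 4 → Lab) → ℝ, ch s i Y = rch s i Y := by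
  intro i
  induction i with
  | zero =>
    intro _ Y
    rfl
  | succ i ih =>
    intro hi Y
    unfold ch rch
    rw [ih (by omega), rch_comm s (i + 1) hi Y i (by omega)]

theorem PU_mono {s : ℕ → ℝ} {j : ℕ} (h0 : 0 ≤ s j) (h1 : s j ≤ 1)
    {Y Y' : (Fin 4 → Lab) → ℝ} (h : ∀ x, Y x ≤ Y' x) (y : Fin 4 → Lab) : PU s j Y y ≤ PU s j Y' y :=
  push_mono (EF_nonneg h0 (by linarith)) h y

theorem ch_mono {s : ℕ → ℝ} (h0 : ∀ j ≤ 5, 0 ≤ s j) (h1 : ∀ j ≤ 5, s j ≤ 1) : ∀ i ≤ 5,
    ∀ {Y Y' : (Fin 4 → Lab) → ℝ}, (∀ x, Y x ≤ Y' x) → ∀ y, ch s i Y y ≤ ch s i Y' y := by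
  intro i
  induction i with
  | zero =>
    intro _ Y Y' h y
    exact PU_mono (h0 0 (by omega)) (h1 0 (by omega)) h y
  | succ i ih =>
    intro hi Y Y' h y
    exact ih (by omega) (fun x => PU_mono (h0 _ hi) (h1 _ hi) h x) y

theorem ch_stop (s : ℕ → ℝ) (m : ℕ) (p : P) : ∀ i, m ≤ i → i ≤ 5 →
    ch s i (Yof (Vs m) p) = ch s m (Yof (Vs m) p) := by
  intro i
  induction i with
  | zero =>
    intro h1 _
    have : m = 0 := by omega
    rw [this]
  | succ i ih =>
    intro h1 h2
    by_cases h3 : m = i + 1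
    · rw [h3]
    · have e : ch s (i + 1) (Yof (Vs m) p) = ch s i (PU s (i + 1) (Yof (Vs m) p)) := rfl
      rw [e, ← ih (by omega) (by omega)]
      congr 1
      exact push_id _ _ fun x hx k => Yof_supp_U (by omega) h2 p x hx k

/-! ## One slot in one lane -/

/-- `failAll` in one lane -/
noncomputable def failL (row cur : ℕ) : ℕ → P → P
  | 0, p => P.fail (rl (fld row 0)) (rl (16777216 - fld row 0)) p (cur + 1)
  | i + 1, p => failL row cur i (P.fail (rl (fld row (i + 1))) (rl (16777216 - fld row (i + 1))) p (cur - i))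

/-- `riseStep` in one lane -/
noncomputable def riseL (row : ℕ) (p : P) : P :=
  P.move (rl (16777216 - fld row 7)) (rl (fld row 7))
    (P.fail (rl (fld row 6)) (rl (16777216 - fld row 6)) p 0)

/-- `slot` in one lane -/
noncomputable def slotL (row cur nxt : ℕ) (f : ℕ → ℕ → ℕ) (p : P) : P :=
  riseL row (extend cur nxt (P.maskC f (failL row cur cur p)))

theorem rl_le (c x : ℕ) : (rl c x : ℝ) ≤ (c : ℝ) / 2^24 * x := by
  unfold rl
  have h1 : c * x / 2^24 % 2^48 ≤ c * x / 2^24 := Nat.mod_le _ _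
  have h2 : ((c * x / 2^24 : ℕ) : ℝ) ≤ ((c * x : ℕ) : ℝ) / ((2^24 : ℕ) : ℝ) := Nat.cast_div_le
  have h3 : ((c * x / 2^24 % 2^48 : ℕ) : ℝ) ≤ ((c * x / 2^24 : ℕ) : ℝ) := by exact_mod_cast h1
  refine h3.trans (h2.trans (le_of_eq ?_))
  push_cast
  ring

theorem rl_add_le {a b : ℕ} (h : a + b ≤ 2^24) (x : ℕ) : rl a x + rl b x ≤ x := by
  unfold rl
  have h1 : a * x / 2^24 % 2^48 ≤ a * x / 2^24 := Nat.mod_le _ _
  have h2 : b * x / 2^24 % 2^48 ≤ b * x / 2^24 := Nat.mod_le _ _
  have h3 : a * x / 2^24 + b * x / 2^24 ≤ (a * x + b * x) / 2^24 := Nat.div_add_div_le_add_div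
  have h4 : (a * x + b * x) / 2^24 ≤ x := by
    rw [← Nat.add_mul]
    refine Nat.div_le_of_le_mul ?_
    exact Nat.mul_le_mul_right x h
  omega

theorem rl_le_self {a : ℕ} (h : a ≤ 2^24) (x : ℕ) : rl a x ≤ x := by
  have := rl_add_le (a := a) (b := 0) (by omega) x
  omega

theorem p24 : (2 : ℕ)^24 = 16777216 := by norm_num

theorem sub_cast {c : ℕ} (h : c ≤ 2^24) : (((16777216 - c : ℕ)) : ℝ) / 2^24 = 1 - (c : ℝ) / 2^24 := by
  rw [p24] at h
  rw [Nat.cast_sub h, sub_div]
  congr 1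
  norm_num

theorem Vs_get {m i : ℕ} (hi : i < m + 1) : (Vs m)[m + 1 - i]? = some (Lab.U (Fin.ofNat 6 i)) := by
  unfold Vs
  have e : m + 1 - i = (m - i) + 1 := by omega
  rw [e, List.getElem?_cons_succ, List.getElem?_map, List.getElem?_reverse (by
    rw [List.length_range]; omega), List.length_range, List.getElem?_range (by omega)]
  simp only [Option.map_some]
  congr 3
  omega

theorem Vs_zero (m : ℕ) : (Vs m)[0]? = some Lab.C := rfl

theorem Vs_cons (m : ℕ) : ∃ vs, Vs m = Lab.C :: Lab.U (Fin.ofNat 6 m) :: vs := by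
  refine ⟨(List.range m).reverse.map (fun j => Lab.U (Fin.ofNat 6 j)), ?_⟩
  show Lab.C :: (List.range (m + 1)).reverse.map (fun j => Lab.U (Fin.ofNat 6 j)) = _
  rw [List.range_succ, List.reverse_append]
  rfl

theorem Z_notMem_Vs (m : ℕ) : Lab.Z ∉ Vs m := by
  intro h
  rcases mem_Vs h with h1 | ⟨j, _, h1⟩
  · exact Lab.noConfusion h1
  · exact Lab.noConfusion h1

theorem nodup_Vs {m : ℕ} (hm : m ≤ 5) : (Vs m).Nodup := by
  unfold Vs
  rw [List.nodup_cons]
  constructor
  · intro h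
    obtain ⟨j, _, hj⟩ := List.mem_map.1 h
    exact Lab.noConfusion hj
  · refine List.Nodup.map_on ?_ (List.nodup_reverse.2 List.nodup_range)
    intro a ha b hb hab
    rw [List.mem_reverse, List.mem_range] at ha hb
    exact ofNat_inj (by omega) (by omega) (Lab.U.inj hab)

/-- the survival probabilities of a row -/
noncomputable def sR (row j : ℕ) : ℝ := (fld row j : ℝ) / 2^24

theorem sR_nonneg (row j : ℕ) : 0 ≤ sR row j := by
  unfold sR
  positivity

theorem sR_le {row j : ℕ} (h : fld row j ≤ 2^24) : sR row j ≤ 1 := by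
  unfold sR
  rw [div_le_one (by positivity)]
  exact_mod_cast h

theorem sem_fail1 (hF : S_fail) {m : ℕ} (hm : m ≤ 5) {c t : ℕ} (hc : c ≤ 2^24) {v : Lab}
    (ht : (Vs m)[t]? = some v) {p : P} (hp : wf (Vs m) 4 p) :
    wf (Vs m) 4 (P.fail (rl c) (rl (16777216 - c)) p t) ∧
      ∀ x, Yof (Vs m) (P.fail (rl c) (rl (16777216 - c)) p t) x ≤
        push (EF v ((c : ℝ) / 2^24) (1 - (c : ℝ) / 2^24)) (Yof (Vs m) p) x := by
  have h0 : (0 : ℝ) ≤ (c : ℝ) / 2^24 := by positivity
  have h1 : (c : ℝ) / 2^24 ≤ 1 := by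
    rw [div_le_one (by positivity)]
    exact_mod_cast hc
  refine hF (Vs m) p t v (rl c) (rl (16777216 - c)) _ _ (nodup_Vs hm) (Z_notMem_Vs m) ht hp h0
    (by linarith) (rl_le c) fun x => ?_
  rw [← sub_cast hc]
  exact rl_le _ x

theorem sem_fail (hF : S_fail) {m row : ℕ} (hm : m ≤ 5) (hrow : ∀ j ≤ 5, fld row j ≤ 2^24) :
    ∀ i ≤ m, ∀ p : P, wf (Vs m) 4 p → wf (Vs m) 4 (failL row m i p) ∧
      ∀ x, Yof (Vs m) (failL row m i p) x ≤ ch (sR row) i (Yof (Vs m) p) x := by
  intro i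
  induction i with
  | zero =>
    intro _ p hp
    have h1 := sem_fail1 hF hm (hrow 0 (by omega)) (Vs_get (m := m) (i := 0) (by omega)) hp
    exact h1
  | succ i ih =>
    intro hi p hp
    have e : m + 1 - (i + 1) = m - i := by omega
    have h0 := Vs_get (m := m) (i := i + 1) (by omega)
    rw [e] at h0
    have h1 := sem_fail1 hF hm (hrow (i + 1) (by omega)) h0 hp
    have h2 := ih (by omega) _ h1.1
    refine ⟨h2.1, fun x => (h2.2 x).trans ?_⟩
    exact ch_mono (fun j _ => sR_nonneg row j) (fun j hj => sR_le (hrow j hj)) i (by omega)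
      (fun x => h1.2 x) x

theorem sem_rise (hF : S_fail) (hM : S_move) {m row : ℕ} (hm : m ≤ 5)
    (hrow : ∀ j < 8, fld row j ≤ 2^24) {p : P} (hp : wf (Vs m) 4 p) :
    wf (Vs m) 4 (riseL row p) ∧ ∀ x, Yof (Vs m) (riseL row p) x ≤
      push (EM (Lab.U (Fin.ofNat 6 m)) (1 - (fld row 7 : ℝ) / 2^24) ((fld row 7 : ℝ) / 2^24))
        (push (EF Lab.C ((fld row 6 : ℝ) / 2^24) (1 - (fld row 6 : ℝ) / 2^24)) (Yof (Vs m) p)) x := by
  have h1 := sem_fail1 hF hm (hrow 6 (by omega)) (Vs_zero m) hp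
  have h7 := hrow 7 (by omega)
  have h0 : (0 : ℝ) ≤ (fld row 7 : ℝ) / 2^24 := by positivity
  have h0' : (fld row 7 : ℝ) / 2^24 ≤ 1 := by
    rw [div_le_one (by positivity)]
    exact_mod_cast h7
  obtain ⟨vs, hvs⟩ := Vs_cons m
  have hnd := nodup_Vs hm
  have hZ := Z_notMem_Vs m
  rw [hvs] at hnd hZ
  have h2 := hM (Lab.U (Fin.ofNat 6 m)) vs
    (P.fail (rl (fld row 6)) (rl (16777216 - fld row 6)) p 0) (rl (16777216 - fld row 7)) (rl (fld row 7))
    (1 - (fld row 7 : ℝ) / 2^24) ((fld row 7 : ℝ) / 2^24) hnd hZ (by rw [← hvs]; exact h1.1)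
    (by linarith) h0 (fun x => by rw [← sub_cast h7]; exact rl_le _ x) (rl_le _)
  rw [← hvs] at h2
  refine ⟨h2.1, fun x => (h2.2 x).trans ?_⟩
  exact push_mono (EM_nonneg (by linarith) h0) h1.2 x

theorem sem_extend (hI : S_ins) {m m' : ℕ} (h1 : m ≤ m') (h2 : m' ≤ m + 1) (h3 : m' ≤ 5) {p : P}
    (hp : wf (Vs m) 4 p) : wf (Vs m') 4 (extend m m' p) ∧
      Yof (Vs m') (extend m m' p) = Yof (Vs m) p := by
  by_cases h : m < m'
  · have e : m' = m + 1 := by omega
    subst e
    have hb : Nat.blt m (m + 1) = true := Nat.blt_eq.mpr (Nat.lt_succ_self m)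
    have e2 : extend m (m + 1) p = P.ins (m + 2) p 4 := by
      unfold extend
      rw [hb]
    rw [e2]
    exact hI m p (by omega) hp
  · have e : m' = m := by omega
    subst e
    have hb : Nat.blt m' m' = false := by
      rw [← Bool.not_eq_true, Nat.blt_eq]
      exact lt_irrefl m'
    have e2 : extend m' m' p = p := by
      unfold extend
      rw [hb]
    rw [e2]
    exact ⟨hp, rfl⟩

theorem sem_slot (hF : S_fail) (hM : S_move) (hK : S_mask) (hI : S_ins) (h3 : S_three)
    {m m' row : ℕ} (h1 : m ≤ m') (h2 : m' ≤ m + 1) (hm' : m' ≤ 5)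
    (hrow : ∀ j < 8, fld row j ≤ 2^24) {f : ℕ → ℕ → ℕ} {w : ℕ → ℝ} (hw : ∀ c, 0 ≤ w c)
    (hf : ∀ u x, (f u x : ℝ) ≤ w u * x) {p : P} (hp : wf (Vs m) 4 p)
    (e : ℕ → Fin 6) (s : Option ℕ → ℕ → Fin 6 → ℝ) (u k : Option ℕ → ℕ → ℝ) (g : Option ℕ) (n : ℕ)
    (hs : ∀ j ≤ 5, s g n (Fin.ofNat 6 j) = sR row j)
    (hk : k g n = sR row 6 * (1 - sR row 7)) (hu : u g n = sR row 6 * sR row 7)
    (he : e (n + 1) = Fin.ofNat 6 m') :
    wf (Vs m') 4 (slotL row m m' f p) ∧ ∀ y, Yof (Vs m') (slotL row m m' f p) y ≤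
      nat4 (Tm e s u k g n) w (Yof (Vs m) p) y := by
  have hm : m ≤ 5 := by omega
  have a1 := sem_fail hF hm (fun j hj => hrow j (by omega)) m le_rfl p hp
  have a2 := hK m (failL row m m p) f w (by omega) a1.1 hf
  have a3 := sem_extend hI h1 h2 hm' a2.1
  have a4 := sem_rise hF hM hm' hrow a3.1
  refine ⟨a4.1, fun y => (a4.2 y).trans ?_⟩
  rw [h3 e s u k g n w (Yof (Vs m) p) (sR row 6) (sR row 7) hk hu, he]
  have c6 : 0 ≤ sR row 6 := sR_nonneg row 6
  have c6' : sR row 6 ≤ 1 := sR_le (hrow 6 (by omega))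
  have c7 : 0 ≤ sR row 7 := sR_nonneg row 7
  have c7' : sR row 7 ≤ 1 := sR_le (hrow 7 (by omega))
  refine push_mono (EM_nonneg (sub_nonneg.2 c7') c7) (fun x => ?_) y
  refine push_mono (EF_nonneg c6 (sub_nonneg.2 c6')) (fun x => ?_) x
  rw [a3.2]
  refine (a2.2 x).trans (mul_le_mul_of_nonneg_left ?_ (hw _))
  refine (a1.2 x).trans (le_of_eq ?_)
  rw [← ch_stop (sR row) m p 5 hm le_rfl, ch_eq_rch (sR row) 5 le_rfl]
  have hs0 := hs 0 (by omega)
  have hs1 := hs 1 (by omega)
  have hs2 := hs 2 (by omega)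
  have hs3 := hs 3 (by omega)
  have hs4 := hs 4 (by omega)
  have hs5 := hs 5 (by omega)
  have e0 : (Fin.ofNat 6 0 : Fin 6) = 0 := rfl
  have e1 : (Fin.ofNat 6 1 : Fin 6) = 1 := rfl
  have e2 : (Fin.ofNat 6 2 : Fin 6) = 2 := rfl
  have e3 : (Fin.ofNat 6 3 : Fin 6) = 3 := rfl
  have e4 : (Fin.ofNat 6 4 : Fin 6) = 4 := rfl
  have e5 : (Fin.ofNat 6 5 : Fin 6) = 5 := rfl
  unfold rch rch rch rch rch rch PU
  rw [e0] at hs0
  rw [e1] at hs1
  rw [e2] at hs2
  rw [e3] at hs3
  rw [e4] at hs4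
  rw [e5] at hs5
  rw [hs0, hs1, hs2, hs3, hs4, hs5]
  rfl

/-! ## One slot in all lanes -/

/-- polynomials of bounded total mass -/
def Sm (q : ℕ → P) : Prop := ∀ g, (q g).sum ≤ 2^48

theorem failAll_zero (M row cur : ℕ) (p : P) : failAll M row cur 0 p =
    P.fail (rnd M (fld row 0)) (rnd M (16777216 - fld row 0)) p (cur + 1) := rfl

theorem failAll_succ (M row cur i : ℕ) (p : P) : failAll M row cur (i + 1) p =
    failAll M row cur i
      (P.fail (rnd M (fld row (i + 1))) (rnd M (16777216 - fld row (i + 1))) p (cur - i)) := rfl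

theorem riseStep_eq (M row : ℕ) (p : P) : riseStep M row p =
    P.move (rnd M (16777216 - fld row 7)) (rnd M (fld row 7))
      (P.fail (rnd M (fld row 6)) (rnd M (16777216 - fld row 6)) p 0) := rfl

theorem rel_fail (hP : S_packFail) (hS : S_mass) {N row cur : ℕ}
    (hrow : ∀ j ≤ 5, fld row j ≤ 2^24) : ∀ i ≤ 5, ∀ (p : P) (q : ℕ → P), Rel N p q → Sm q →
      Rel N (failAll (mk N) row cur i p) (fun g => failL row cur i (q g)) ∧
        ∀ g, (failL row cur i (q g)).sum ≤ (q g).sum := by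
  intro i
  induction i with
  | zero =>
    intro _ p q hr hs
    have h0 := hrow 0 (by omega)
    have hle : fld row 0 + (16777216 - fld row 0) ≤ 2^24 := by
      rw [p24] at h0 ⊢
      omega
    rw [failAll_zero]
    refine ⟨hP N p q (fld row 0) (16777216 - fld row 0) (cur + 1) hr hs hle, fun g => ?_⟩
    exact hS.1 _ _ (rl_add_le hle) (q g) (cur + 1)
  | succ i ih =>
    intro hi p q hr hs
    have h0 := hrow (i + 1) hi
    have hle : fld row (i + 1) + (16777216 - fld row (i + 1)) ≤ 2^24 := by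
      rw [p24] at h0 ⊢
      omega
    have h1 := hP N p q (fld row (i + 1)) (16777216 - fld row (i + 1)) (cur - i) hr hs hle
    have h2 : ∀ g, (P.fail (rl (fld row (i + 1))) (rl (16777216 - fld row (i + 1))) (q g)
        (cur - i)).sum ≤ (q g).sum := fun g => hS.1 _ _ (rl_add_le hle) (q g) (cur - i)
    have h3 := ih (by omega) _ _ h1 (fun g => (h2 g).trans (hs g))
    rw [failAll_succ]
    exact ⟨h3.1, fun g => (h3.2 g).trans (h2 g)⟩

theorem rel_rise (hP : S_packFail) (hQ : S_packMove) (hS : S_mass) {N row : ℕ}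
    (hrow : ∀ j < 8, fld row j ≤ 2^24) (p : P) (q : ℕ → P) (hr : Rel N p q) (hs : Sm q) :
    Rel N (riseStep (mk N) row p) (fun g => riseL row (q g)) ∧
      ∀ g, (riseL row (q g)).sum ≤ (q g).sum := by
  have h6 := hrow 6 (by omega)
  have h7 := hrow 7 (by omega)
  have hle6 : fld row 6 + (16777216 - fld row 6) ≤ 2^24 := by
    rw [p24] at h6 ⊢
    omega
  have hle7 : 16777216 - fld row 7 + fld row 7 ≤ 2^24 := by
    rw [p24] at h7 ⊢
    omega
  have h1 := hP N p q (fld row 6) (16777216 - fld row 6) 0 hr hs hle6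
  have h2 : ∀ g, (P.fail (rl (fld row 6)) (rl (16777216 - fld row 6)) (q g) 0).sum ≤ (q g).sum :=
    fun g => hS.1 _ _ (rl_add_le hle6) (q g) 0
  have h3 := hQ N _ _ (16777216 - fld row 7) (fld row 7) h1 (fun g => (h2 g).trans (hs g)) hle7
  rw [riseStep_eq]
  refine ⟨h3, fun g => le_trans ?_ (h2 g)⟩
  exact hS.2.1 _ _ (rl_add_le hle7) _

theorem rel_extend (hI : S_packIns) (hS : S_mass) {N cur nxt : ℕ} (p : P) (q : ℕ → P)
    (hr : Rel N p q) : Rel N (extend cur nxt p) (fun g => extend cur nxt (q g)) ∧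
      ∀ g, (extend cur nxt (q g)).sum ≤ (q g).sum := by
  unfold extend
  cases Nat.blt cur nxt
  · exact ⟨hr, fun g => le_rfl⟩
  · exact ⟨hI N p q (cur + 2) 4 hr, fun g => hS.2.2.2 (cur + 2) 4 (q g)⟩

theorem rel_slot (hP : S_packFail) (hQ : S_packMove) (hI : S_packIns) (hS : S_mass)
    {N row cur nxt : ℕ} (hcur : cur ≤ 5) (hrow : ∀ j < 8, fld row j ≤ 2^24) {F : ℕ → ℕ → ℕ}
    {fl : ℕ → ℕ → ℕ → ℕ} (hle : ∀ g u x, fl g u x ≤ x)
    (hmask : ∀ (p : P) (q : ℕ → P), Rel N p q → Sm q →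
      Rel N (P.maskC F p) (fun g => P.maskC (fl g) (q g)))
    (p : P) (q : ℕ → P) (hr : Rel N p q) (hs : Sm q) :
    Rel N (slot (mk N) row cur nxt F p) (fun g => slotL row cur nxt (fl g) (q g)) ∧
      ∀ g, (slotL row cur nxt (fl g) (q g)).sum ≤ (q g).sum := by
  obtain ⟨h1, h1'⟩ := rel_fail hP hS (cur := cur) (fun j hj => hrow j (by omega)) cur hcur p q hr hs
  have s1 : Sm (fun g => failL row cur cur (q g)) := fun g => (h1' g).trans (hs g)
  have h2 := hmask _ _ h1 s1
  have h2' : ∀ g, (P.maskC (fl g) (failL row cur cur (q g))).sum ≤ (q g).sum := fun g =>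
    (hS.2.2.1 (fl g) (hle g) _).trans (h1' g)
  obtain ⟨h3, h3'⟩ := rel_extend hI hS (cur := cur) (nxt := nxt) _ _ h2
  have s3 : Sm (fun g => extend cur nxt (P.maskC (fl g) (failL row cur cur (q g)))) := fun g =>
    ((h3' g).trans (h2' g)).trans (hs g)
  obtain ⟨h4, h4'⟩ := rel_rise hP hQ hS hrow _ _ h3 s3
  exact ⟨h4, fun g => ((h4' g).trans (h3' g)).trans (h2' g)⟩

/-! ### the leaf functions -/

theorem by3_le {a b c x : ℕ} (ha : a ≤ x) (hb : b ≤ x) (hc : c ≤ x) (u : ℕ) : by3 a b c u ≤ x := by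
  rcases u with _ | _ | _ | u
  · exact ha
  · exact ha
  · exact hb
  · exact hc

theorem lS_le {R : ℕ} (n g u x : ℕ) : lS R n g u x ≤ x := by
  unfold lS
  have h1 : rl (2^24 - R) x ≤ x := rl_le_self (Nat.sub_le _ _) x
  refine by3_le h1 ?_ le_rfl u
  split_ifs
  · exact le_rfl
  · exact h1

theorem lT_le {R : ℕ} (n g u x : ℕ) : lT R n g u x ≤ x := by
  unfold lT
  have h1 : rl (2^24 - R) x ≤ x := rl_le_self (Nat.sub_le _ _) x
  refine by3_le le_rfl ?_ h1 u
  split_ifs
  · exact h1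
  · exact le_rfl

theorem lR_le {Rc : ℕ} (hR : Rc ≤ 2^24) (n g u x : ℕ) : lR Rc n g u x ≤ x := by
  unfold lR
  have h1 : rl Rc x ≤ x := rl_le_self hR x
  refine by3_le (Nat.zero_le _) ?_ h1 u
  split_ifs
  · exact h1
  · exact Nat.zero_le _

/-! ## The sequences of arrays -/

/-- the initial array in one lane -/
noncomputable def initL (D : Dat) : P :=
  (fun (A B : ℕ) =>
    P.nd (P.nd (P.lf 0) (P.nd (P.lf 0) (P.nd (P.lf 0) (P.nd (P.lf 0) (P.lf (A*A*A*A))))))
      (P.nd (P.nd (P.lf 0) (P.nd (P.lf 0) (P.nd (P.lf 0) (P.lf (4*(A*A*A*B))))))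
        (P.nd (P.nd (P.lf 0) (P.nd (P.lf 0) (P.lf (6*(A*A*B*B)))))
          (P.nd (P.nd (P.lf 0) (P.lf (4*(A*B*B*B))))
            (P.lf (B*B*B*B))))))
  D.A0 (4096 - D.A0)

/-- the `C` arrays in lane `g` -/
noncomputable def qC (D : Dat) (g : ℕ) : ℕ → P
  | 0 => initL D
  | n + 1 => slotL (D.nrow n) (D.ep n) (D.ep (n + 1)) (lT (D.R n) n g) (qC D g n)

/-- the array of a vertex up since time `a`, at time `a` -/
noncomputable def qU0 (D : Dat) (g : ℕ) : ℕ → P
  | 0 => initL D
  | n + 1 => slotL (D.nrow n) (D.ep n) (D.ep (n + 1)) (lR (D.R n * D.cs n) n g) (qC D g n)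

/-- the array of a vertex up since time `a`, at time `a + i` -/
noncomputable def qU (D : Dat) (a g : ℕ) : ℕ → P
  | 0 => qU0 D g a
  | i + 1 => slotL (rowOf D a (a + i)) (D.ep (a + i)) (D.ep (a + i + 1)) (lS (D.R (a + i)) (a + i) g)
      (qU D a g i)

/-- the packed versions -/
noncomputable def pC (D : Dat) : ℕ → P
  | 0 => initP D
  | n + 1 => stepC D (msk D.S) n (pC D n)

noncomputable def pU0 (D : Dat) : ℕ → P
  | 0 => initP D
  | n + 1 => stepR D (msk D.S) n (pC D n)

noncomputable def pU (D : Dat) (a : ℕ) : ℕ → P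
  | 0 => pU0 D a
  | i + 1 => slot (msk D.S) (rowOf D a (a + i)) (D.ep (a + i)) (D.ep (a + i + 1))
      (fS (msk D.S) (D.R (a + i)) (a + i)) (pU D a i)

theorem rowOf_high (D : Dat) {g n : ℕ} (h : n < g) : rowOf D g n = D.nrow n := by
  have hb : Nat.ble g n = false := by
    rw [← Bool.not_eq_true, Nat.ble_eq]
    omega
  unfold rowOf
  rw [hb]

section Inv

variable {D : Dat} (hD : Good D)

include hD

theorem nrow_le {n : ℕ} (hn : n ≤ D.S) : ∀ j < 8, fld (D.nrow n) j ≤ 2^24 := by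
  intro j hj
  have h := hD.fld_le (D.S + 1) n j hn le_rfl hj
  rwa [rowOf_high D (by omega)] at h

theorem row_le {a n : ℕ} (hn : n ≤ D.S) (ha : a ≤ D.S + 1) : ∀ j < 8, fld (rowOf D a n) j ≤ 2^24 :=
  fun j hj => hD.fld_le a n j hn ha hj

theorem R_le' {n : ℕ} (hn : n ≤ D.S) : D.R n ≤ 2^24 := by
  rcases Nat.lt_or_ge n D.S with h | h
  · exact hD.R_le n h
  · have : n = D.S := by omega
    rw [this, hD.R_S]

theorem init_sum : (initL D).sum = 2^48 := by
  obtain ⟨A, hA⟩ : ∃ A, A = D.A0 := ⟨_, rfl⟩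
  obtain ⟨B, hB⟩ : ∃ B, B = 4096 - D.A0 := ⟨_, rfl⟩
  have hAB : A + B = 4096 := by
    have := hD.A0_le
    omega
  have e : (initL D).sum = (0 + (0 + (0 + (0 + A*A*A*A)))) + ((0 + (0 + (0 + 4*(A*A*A*B)))) +
      ((0 + (0 + 6*(A*A*B*B))) + ((0 + 4*(A*B*B*B)) + B*B*B*B))) := by
    rw [hA, hB]
    rfl
  rw [e]
  have e2 : (0 + (0 + (0 + (0 + A*A*A*A)))) + ((0 + (0 + (0 + 4*(A*A*A*B)))) +
      ((0 + (0 + 6*(A*A*B*B))) + ((0 + 4*(A*B*B*B)) + B*B*B*B))) = (A + B)^4 := by ring
  rw [e2, hAB]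
  norm_num

omit hD in
theorem one_eq (N : ℕ) : (2^(80*N) - 1) / (2^80 - 1) = ∑ g ∈ Finset.range N, 2^(80*g) := by
  have h1 : ∑ g ∈ Finset.range N, 2^(80*g) = ∑ g ∈ Finset.range N, (2^80)^g := by
    refine Finset.sum_congr rfl fun g _ => ?_
    rw [pow_mul]
  rw [h1, Nat.geomSum_eq (by norm_num), pow_mul]

omit hD in
theorem rel_leaf (N c : ℕ) : Rel N (P.lf ((∑ g ∈ Finset.range N, 2^(80*g)) * c)) (fun _ => P.lf c) := by
  refine ⟨fun _ => c, fun _ => rfl, ?_⟩
  rw [Finset.sum_mul]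
  exact Finset.sum_congr rfl fun g _ => mul_comm _ _

omit hD in
theorem rel_leaf0 (N : ℕ) : Rel N (P.lf 0) (fun _ => P.lf 0) := by
  refine ⟨fun _ => 0, fun _ => rfl, ?_⟩
  simp

omit hD in
theorem rel_nd {N : ℕ} {p1 p2 : P} {q1 q2 : ℕ → P} (h1 : Rel N p1 q1) (h2 : Rel N p2 q2) :
    Rel N (P.nd p1 p2) (fun g => P.nd (q1 g) (q2 g)) := ⟨q1, q2, fun _ => rfl, h1, h2⟩

omit hD in
theorem rel_init (D : Dat) : Rel (D.S + 2) (initP D) (fun _ => initL D) := by
  obtain ⟨o, ho⟩ : ∃ o, o = (2^(80*(D.S+2)) - 1) / (2^80 - 1) := ⟨_, rfl⟩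
  have ho' := ho
  rw [one_eq] at ho'
  have e : initP D = (fun (one A B : Nat) =>
    P.nd (P.nd (P.lf 0) (P.nd (P.lf 0) (P.nd (P.lf 0) (P.nd (P.lf 0) (P.lf (one * (A*A*A*A)))))))
      (P.nd (P.nd (P.lf 0) (P.nd (P.lf 0) (P.nd (P.lf 0) (P.lf (one * (4*(A*A*A*B)))))))
        (P.nd (P.nd (P.lf 0) (P.nd (P.lf 0) (P.lf (one * (6*(A*A*B*B))))))
          (P.nd (P.nd (P.lf 0) (P.lf (one * (4*(A*B*B*B)))))
            (P.lf (one * (B*B*B*B))))))) o D.A0 (4096 - D.A0) := by
    rw [ho]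
    rfl
  rw [e, ho']
  have z := rel_leaf0 (D.S + 2)
  have l := rel_leaf (D.S + 2)
  exact rel_nd (rel_nd z (rel_nd z (rel_nd z (rel_nd z (l _)))))
    (rel_nd (rel_nd z (rel_nd z (rel_nd z (l _))))
      (rel_nd (rel_nd z (rel_nd z (l _))) (rel_nd (rel_nd z (l _)) (l _))))

variable (hP : S_packFail) (hQ : S_packMove) (hI : S_packIns) (hK : S_packMask) (hS : S_mass)
  (hU : S_packSum)

include hP hQ hI hK hS hU

theorem rel_C : ∀ n ≤ D.S, Rel (D.S + 2) (pC D n) (fun g => qC D g n) ∧ Sm (fun g => qC D g n) := by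
  intro n
  induction n with
  | zero =>
    intro _
    exact ⟨rel_init D, fun _ => (init_sum hD).le⟩
  | succ n ih =>
    intro hn
    obtain ⟨h1, h2⟩ := ih (by omega)
    have hm := hU.1 D.S
    have h3 := rel_slot hP hQ hI hS (N := D.S + 2) (row := D.nrow n) (cur := D.ep n)
      (nxt := D.ep (n + 1)) (hD.ep_le n) (nrow_le hD (by omega)) (F := fT (mk (D.S + 2)) (D.R n) n)
      (fl := lT (D.R n) n) (fun g u x => lT_le n g u x)
      (fun p q hr hs => (hK (D.S + 2) p q (D.R n) 0 n hr hs (R_le' hD (by omega))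
        (Nat.zero_le _)).2.1) (pC D n) (fun g => qC D g n) h1 h2
    rw [← hm] at h3
    exact ⟨h3.1, fun g => (h3.2 g).trans (h2 g)⟩

theorem rel_U0 : ∀ a ≤ D.S, Rel (D.S + 2) (pU0 D a) (fun g => qU0 D g a) ∧
    Sm (fun g => qU0 D g a) := by
  intro a
  cases a with
  | zero =>
    intro _
    exact ⟨rel_init D, fun _ => (init_sum hD).le⟩
  | succ n =>
    intro hn
    obtain ⟨h1, h2⟩ := rel_C hD hP hQ hI hK hS hU n (by omega)
    have hm := hU.1 D.S
    have h3 := rel_slot hP hQ hI hS (N := D.S + 2) (row := D.nrow n) (cur := D.ep n)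
      (nxt := D.ep (n + 1)) (hD.ep_le n) (nrow_le hD (by omega))
      (F := fR (mk (D.S + 2)) (D.R n * D.cs n) n)
      (fl := lR (D.R n * D.cs n) n) (fun g u x => lR_le (hD.Rcs n (by omega)) n g u x)
      (fun p q hr hs => (hK (D.S + 2) p q 0 (D.R n * D.cs n) n hr hs (Nat.zero_le _)
        (hD.Rcs n (by omega))).2.2) (pC D n) (fun g => qC D g n) h1 h2
    rw [← hm] at h3
    exact ⟨h3.1, fun g => (h3.2 g).trans (h2 g)⟩

theorem rel_U (a : ℕ) (ha : a ≤ D.S) : ∀ i, a + i ≤ D.S + 1 →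
    Rel (D.S + 2) (pU D a i) (fun g => qU D a g i) ∧ Sm (fun g => qU D a g i) := by
  intro i
  induction i with
  | zero =>
    intro _
    exact rel_U0 hD hP hQ hI hK hS hU a ha
  | succ i ih =>
    intro hi
    obtain ⟨h1, h2⟩ := ih (by omega)
    have hm := hU.1 D.S
    have h3 := rel_slot hP hQ hI hS (N := D.S + 2) (row := rowOf D a (a + i)) (cur := D.ep (a + i))
      (nxt := D.ep (a + i + 1)) (hD.ep_le _) (row_le hD (by omega) (by omega))
      (F := fS (mk (D.S + 2)) (D.R (a + i)) (a + i))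
      (fl := lS (D.R (a + i)) (a + i)) (fun g u x => lS_le (a + i) g u x)
      (fun p q hr hs => (hK (D.S + 2) p q (D.R (a + i)) 0 (a + i) hr hs (R_le' hD (by omega))
        (Nat.zero_le _)).1) (pU D a i) (fun g => qU D a g i) h1 h2
    rw [← hm] at h3
    exact ⟨h3.1, fun g => (h3.2 g).trans (h2 g)⟩

end Inv

/-! ## Reading off the checks -/

/-- iteration of steps `st n`, `st (n+1)`, … -/
noncomputable def itr (st : ℕ → P → P) : ℕ → ℕ → P → P
  | 0, _, p => p
  | i + 1, n, p => itr st i (n + 1) (st n p)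

theorem itr_succ (st : ℕ → P → P) : ∀ (i n : ℕ) (p : P),
    itr st (i + 1) n p = st (n + i) (itr st i n p) := by
  intro i
  induction i with
  | zero => intro n p; rfl
  | succ i ih =>
    intro n p
    have h := ih (n + 1) (st n p)
    have e : itr st (i + 1 + 1) n p = itr st (i + 1) (n + 1) (st n p) := rfl
    rw [e, h]
    have e2 : n + 1 + i = n + (i + 1) := by omega
    rw [e2]
    rfl

theorem test1_spec {num : ℕ → ℕ} {g tot tot' : ℕ} (h : test1 num g tot tot' = true) :
    num g * laneK g tot ≤ 281474976710656 * laneK g tot' := Nat.ble_eq.mp h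

theorem tests_spec {S : ℕ} {num : ℕ → ℕ} {n tot tot' : ℕ} (h : tests S num n tot tot' = true) :
    (∀ g ≤ n, num g * laneK g tot ≤ 281474976710656 * laneK g tot') ∧
      num (S + 1) * laneK (S + 1) tot ≤ 281474976710656 * laneK (S + 1) tot' := by
  have h1 : test1 num (S + 1) tot tot' = true := by
    by_contra hcon
    rw [Bool.not_eq_true] at hcon
    unfold tests at h
    rw [show test1 num (Nat.succ S) tot tot' = false from hcon] at h
    exact Bool.false_ne_true h
  have h2 : Nat.rec (motive := fun _ => Bool) (test1 num 0 tot tot')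
      (fun g ih => Bool.rec false ih (test1 num (Nat.succ g) tot tot')) n = true := by
    unfold tests at h
    rw [show test1 num (Nat.succ S) tot tot' = true from h1] at h
    exact h
  refine ⟨?_, test1_spec h1⟩
  clear h
  induction n with
  | zero =>
    intro g hg
    have : g = 0 := by omega
    rw [this]
    exact test1_spec h2
  | succ n ih =>
    have h3 : test1 num (n + 1) tot tot' = true := by
      by_contra hcon
      rw [Bool.not_eq_true] at hcon
      have h4 : Bool.rec false (Nat.rec (motive := fun _ => Bool) (test1 num 0 tot tot')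
        (fun g ih => Bool.rec false ih (test1 num (Nat.succ g) tot tot')) n)
        (test1 num (n + 1) tot tot') = true := h2
      rw [hcon] at h4
      exact Bool.false_ne_true h4
    have h5 : Nat.rec (motive := fun _ => Bool) (test1 num 0 tot tot')
        (fun g ih => Bool.rec false ih (test1 num (Nat.succ g) tot tot')) n = true := by
      have h4 : Bool.rec false (Nat.rec (motive := fun _ => Bool) (test1 num 0 tot tot')
        (fun g ih => Bool.rec false ih (test1 num (Nat.succ g) tot tot')) n)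
        (test1 num (n + 1) tot tot') = true := h2
      rw [h3] at h4
      exact h4
    intro g hg
    by_cases hgn : g = n + 1
    · rw [hgn]
      exact test1_spec h3
    · exact ih h5 g (by omega)

/-- step of an up run -/
noncomputable def stU (D : Dat) (M a n : ℕ) (p : P) : P :=
  slot M (rowOf D a n) (D.ep n) (D.ep (n + 1)) (fS M (D.R n) n) p

theorem rec_and {a b : Bool} (h : (Bool.rec false a b : Bool) = true) : b = true ∧ a = true := by
  cases b
  · exact absurd h Bool.false_ne_true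
  · exact ⟨rfl, h⟩

theorem rec_imp {a b : Bool} (h : (Bool.rec true a b : Bool) = true) (hb : b = true) : a = true := by
  cases b
  · exact absurd hb Bool.false_ne_true
  · exact h

theorem runUp_spec (D : Dat) (M a j : ℕ) : ∀ (fuel n : ℕ) (p : P),
    runUp D M a j fuel n p (P.sum p) = true → ∀ i < fuel,
      tests D.S (numUp D j (n + i)) (n + i) (P.sum (itr (stU D M a) i n p))
        (P.sum (itr (stU D M a) (i + 1) n p)) = true := by
  intro fuel
  induction fuel with
  | zero =>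
    intro n p _ i hi
    exact absurd hi (Nat.not_lt_zero i)
  | succ fuel ih =>
    intro n p h i hi
    have h' : (Bool.rec false (runUp D M a j fuel (n + 1) (stU D M a n p)
        (P.sum (stU D M a n p))) (tests D.S (numUp D j n) n (P.sum p)
        (P.sum (stU D M a n p))) : Bool) = true := h
    obtain ⟨h1, h2⟩ := rec_and h'
    cases i with
    | zero => exact h1
    | succ i =>
      have h3 := ih (n + 1) (stU D M a n p) h2 i (by omega)
      have e : n + 1 + i = n + (i + 1) := by omega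
      rw [e] at h3
      exact h3

theorem runC_spec (D : Dat) (M : ℕ) (sel : ℕ → Bool) (chk : Bool) : ∀ (fuel n : ℕ) (p : P),
    runC D M sel chk fuel n p (P.sum p) = true → ∀ i < fuel,
      (chk = true → tests D.S (numStay D (n + i)) (n + i) (P.sum (itr (stepC D M) i n p))
        (P.sum (itr (stepC D M) (i + 1) n p)) = true) ∧
      (sel (n + i + 1) = true →
        tests D.S (numRise D (n + i)) (n + i) (P.sum (itr (stepC D M) i n p))
          (P.sum (stepR D M (n + i) (itr (stepC D M) i n p))) = true ∧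
        runUp D M (n + i + 1) (D.ep (n + i + 1)) (D.S - (n + i)) (n + i + 1)
          (stepR D M (n + i) (itr (stepC D M) i n p))
          (P.sum (stepR D M (n + i) (itr (stepC D M) i n p))) = true) := by
  intro fuel
  induction fuel with
  | zero =>
    intro n p _ i hi
    exact absurd hi (Nat.not_lt_zero i)
  | succ fuel ih =>
    intro n p h i hi
    have h' : (Bool.rec false
          (Bool.rec false (runC D M sel chk fuel (n + 1) (stepC D M n p) (P.sum (stepC D M n p)))
            (Bool.rec true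
              (Bool.rec false (runUp D M (n + 1) (D.ep (n + 1)) (D.S - n) (n + 1)
                (stepR D M n p) (P.sum (stepR D M n p)))
                (tests D.S (numRise D n) n (P.sum p) (P.sum (stepR D M n p))))
              (sel (n + 1))))
          (Bool.rec true (tests D.S (numStay D n) n (P.sum p) (P.sum (stepC D M n p))) chk) : Bool)
        = true := h
    obtain ⟨h1, h2⟩ := rec_and h'
    obtain ⟨h3, h4⟩ := rec_and h2
    cases i with
    | zero =>
      refine ⟨fun hc => rec_imp h1 hc, fun hs => ?_⟩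
      have h5 := rec_and (rec_imp h3 hs)
      exact ⟨h5.1, h5.2⟩
    | succ i =>
      have h5 := ih (n + 1) (stepC D M n p) h4 i (by omega)
      have e : n + 1 + i = n + (i + 1) := by omega
      rw [e] at h5
      exact h5

/-! ## Masses in the lanes -/

theorem pC_itr (D : Dat) : ∀ n, pC D n = itr (stepC D (msk D.S)) n 0 (initP D) := by
  intro n
  induction n with
  | zero => rfl
  | succ n ih =>
    rw [itr_succ, ← ih, Nat.zero_add]
    rfl

theorem pU_itr (D : Dat) (a : ℕ) : ∀ i, pU D a i = itr (stU D (msk D.S) a) i a (pU0 D a) := by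
  intro i
  induction i with
  | zero => rfl
  | succ i ih =>
    rw [itr_succ, ← ih]
    rfl

theorem T_stay {D : Dat} (hc : checkC D = true) {n : ℕ} (hn : n < D.S) :
    tests D.S (numStay D n) n (P.sum (pC D n)) (P.sum (pC D (n + 1))) = true := by
  have h := (runC_spec D (msk D.S) (fun _ => false) true D.S 0 (initP D) hc n hn).1 rfl
  rw [Nat.zero_add] at h
  rw [pC_itr, pC_itr]
  exact h

theorem selA {a1 a2 a : ℕ} (h1 : a1 ≤ a) (h2 : a < a2) :
    Bool.rec (motive := fun _ => Bool) false (Nat.blt a a2) (Nat.ble a1 a) = true := by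
  have e1 : Nat.ble a1 a = true := Nat.ble_eq.mpr h1
  have e2 : Nat.blt a a2 = true := Nat.blt_eq.mpr h2
  rw [e1, e2]

theorem T_rise {D : Dat}
    (hA : ∀ a, 1 ≤ a → a ≤ D.S → ∃ a1 a2, a1 ≤ a ∧ a < a2 ∧ checkA D a1 a2 = true)
    {n : ℕ} (hn : n < D.S) :
    tests D.S (numRise D n) n (P.sum (pC D n)) (P.sum (pU0 D (n + 1))) = true ∧
    runUp D (msk D.S) (n + 1) (D.ep (n + 1)) (D.S - n) (n + 1) (pU0 D (n + 1))
      (P.sum (pU0 D (n + 1))) = true := by
  obtain ⟨a1, a2, h1, h2, h3⟩ := hA (n + 1) (by omega) (by omega)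
  have hlt : n < Nat.pred a2 := by
    rw [Nat.pred_eq_sub_one]
    omega
  have h := (runC_spec D (msk D.S)
    (fun a => Bool.rec (motive := fun _ => Bool) false (Nat.blt a a2) (Nat.ble a1 a)) false
    (Nat.pred a2) 0 (initP D) h3 n hlt).2
  rw [Nat.zero_add] at h
  have h' := h (selA h1 h2)
  rw [← pC_itr] at h'
  exact h'

theorem T_up {D : Dat} (hep : D.ep 0 = 0) (h0 : check0 D = true)
    (hA : ∀ a, 1 ≤ a → a ≤ D.S → ∃ a1 a2, a1 ≤ a ∧ a < a2 ∧ checkA D a1 a2 = true)
    {a i : ℕ} (ha : a + i ≤ D.S) :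
    tests D.S (numUp D (D.ep a) (a + i)) (a + i) (P.sum (pU D a i)) (P.sum (pU D a (i + 1))) =
      true := by
  rw [pU_itr, pU_itr]
  cases a with
  | zero =>
    have h := runUp_spec D (msk D.S) 0 0 (D.S + 1) 0 (initP D) h0 i (by omega)
    rw [hep]
    exact h
  | succ n =>
    exact runUp_spec D (msk D.S) (n + 1) (D.ep (n + 1)) (D.S - n) (n + 1) (pU0 D (n + 1))
      (T_rise hA (by omega)).2 i (by omega)

/-! ### Lanes above the time agree -/

theorem lS_eq {R n g g' : ℕ} (h : n < g) (h' : n < g') : lS R n g = lS R n g' := by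
  funext u x
  unfold lS
  rw [if_neg (by omega), if_neg (by omega)]

theorem lT_eq {R n g g' : ℕ} (h : n < g) (h' : n < g') : lT R n g = lT R n g' := by
  funext u x
  unfold lT
  rw [if_neg (by omega), if_neg (by omega)]

theorem lR_eq {R n g g' : ℕ} (h : n < g) (h' : n < g') : lR R n g = lR R n g' := by
  funext u x
  unfold lR
  rw [if_neg (by omega), if_neg (by omega)]

theorem qC_eq (D : Dat) {g g' : ℕ} : ∀ n, n ≤ g → n ≤ g' → qC D g n = qC D g' n := by
  intro n
  induction n with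
  | zero =>
    intro _ _
    rfl
  | succ n ih =>
    intro h h'
    unfold qC
    rw [ih (by omega) (by omega), lT_eq (g := g) (g' := g') (by omega) (by omega)]

theorem qU0_eq (D : Dat) {g g' : ℕ} (n : ℕ) (h : n ≤ g) (h' : n ≤ g') :
    qU0 D g n = qU0 D g' n := by
  cases n with
  | zero => rfl
  | succ n =>
    show slotL (D.nrow n) (D.ep n) (D.ep (n + 1)) (lR (D.R n * D.cs n) n g) (qC D g n) =
      slotL (D.nrow n) (D.ep n) (D.ep (n + 1)) (lR (D.R n * D.cs n) n g') (qC D g' n)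
    rw [qC_eq D (g := g) (g' := g') n (by omega) (by omega),
      lR_eq (g := g) (g' := g') (by omega) (by omega)]

theorem qU_eq (D : Dat) (a : ℕ) {g g' : ℕ} : ∀ i, a + i ≤ g → a + i ≤ g' →
    qU D a g i = qU D a g' i := by
  intro i
  induction i with
  | zero =>
    intro h h'
    exact qU0_eq D a h h'
  | succ i ih =>
    intro h h'
    unfold qU
    rw [ih (by omega) (by omega), lS_eq (g := g) (g' := g') (by omega) (by omega)]

theorem lane_test {S n tot tot' : ℕ} {num F F' : ℕ → ℕ} (h : tests S num n tot tot' = true)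
    (hF : ∀ g < S + 2, laneK g tot = F g) (hF' : ∀ g < S + 2, laneK g tot' = F' g)
    (e1 : ∀ g, n < g → g ≤ S → num g = num (S + 1)) (e2 : ∀ g, n < g → g ≤ S → F g = F (S + 1))
    (e3 : ∀ g, n < g → g ≤ S → F' g = F' (S + 1)) (g : ℕ) (hg : g ≤ S + 1) :
    num g * F g ≤ 281474976710656 * F' g := by
  obtain ⟨h1, h2⟩ := tests_spec h
  rw [hF _ (by omega), hF' _ (by omega)] at h2
  rcases Nat.lt_or_ge n g with hng | hng
  · rcases Nat.lt_or_ge S g with hS | hS
    · have : g = S + 1 := by omega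
      rw [this]
      exact h2
    · rw [e1 g hng hS, e2 g hng hS, e3 g hng hS]
      exact h2
  · have h3 := h1 g hng
    rw [hF _ (by omega), hF' _ (by omega)] at h3
    exact h3

section Mass

variable {D : Dat} (hD : Good D) (hP : S_packFail) (hQ : S_packMove) (hI : S_packIns)
  (hK : S_packMask) (hS : S_mass) (hU : S_packSum)

include hD hP hQ hI hK hS hU

theorem M_stay (hc : checkC D = true) {n g : ℕ} (hn : n < D.S) (hg : g ≤ D.S + 1) :
    numStay D n g * (qC D g n).sum ≤ 281474976710656 * (qC D g (n + 1)).sum := by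
  obtain ⟨r1, s1⟩ := rel_C hD hP hQ hI hK hS hU n (by omega)
  obtain ⟨r2, s2⟩ := rel_C hD hP hQ hI hK hS hU (n + 1) (by omega)
  refine lane_test (F := fun g => (qC D g n).sum) (F' := fun g => (qC D g (n + 1)).sum)
    (T_stay hc hn) (fun g hg => hU.2 _ _ _ r1 s1 g hg)
    (fun g hg => hU.2 _ _ _ r2 s2 g hg) (fun g h1 h2 => ?_) (fun g h1 h2 => ?_)
    (fun g h1 h2 => ?_) g hg
  · unfold numStay
    rw [rowOf_high D h1, rowOf_high D (show n < D.S + 1 by omega)]
  · exact congrArg P.sum (qC_eq D n (by omega) (by omega))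
  · exact congrArg P.sum (qC_eq D (n + 1) (by omega) (by omega))

theorem M_rise (hA : ∀ a, 1 ≤ a → a ≤ D.S → ∃ a1 a2, a1 ≤ a ∧ a < a2 ∧ checkA D a1 a2 = true)
    {n g : ℕ} (hn : n < D.S) (hg : g ≤ D.S + 1) :
    numRise D n g * (qC D g n).sum ≤ 281474976710656 * (qU0 D g (n + 1)).sum := by
  obtain ⟨r1, s1⟩ := rel_C hD hP hQ hI hK hS hU n (by omega)
  obtain ⟨r2, s2⟩ := rel_U0 hD hP hQ hI hK hS hU (n + 1) (by omega)
  refine lane_test (F := fun g => (qC D g n).sum) (F' := fun g => (qU0 D g (n + 1)).sum)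
    (T_rise hA hn).1 (fun g hg => hU.2 _ _ _ r1 s1 g hg)
    (fun g hg => hU.2 _ _ _ r2 s2 g hg) (fun g h1 h2 => ?_) (fun g h1 h2 => ?_)
    (fun g h1 h2 => ?_) g hg
  · unfold numRise
    rw [rowOf_high D h1, rowOf_high D (show n < D.S + 1 by omega)]
  · exact congrArg P.sum (qC_eq D n (by omega) (by omega))
  · exact congrArg P.sum (qU0_eq D (n + 1) (by omega) (by omega))

theorem M_up (h0 : check0 D = true)
    (hA : ∀ a, 1 ≤ a → a ≤ D.S → ∃ a1 a2, a1 ≤ a ∧ a < a2 ∧ checkA D a1 a2 = true)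
    {a i g : ℕ} (ha : a + i ≤ D.S) (hg : g ≤ D.S + 1) :
    numUp D (D.ep a) (a + i) g * (qU D a g i).sum ≤
      281474976710656 * (qU D a g (i + 1)).sum := by
  obtain ⟨r1, s1⟩ := rel_U hD hP hQ hI hK hS hU a (by omega) i (by omega)
  obtain ⟨r2, s2⟩ := rel_U hD hP hQ hI hK hS hU a (by omega) (i + 1) (by omega)
  refine lane_test (F := fun g => (qU D a g i).sum) (F' := fun g => (qU D a g (i + 1)).sum)
    (T_up hD.ep0 h0 hA ha) (fun g hg => hU.2 _ _ _ r1 s1 g hg)
    (fun g hg => hU.2 _ _ _ r2 s2 g hg) (fun g h1 h2 => ?_) (fun g h1 h2 => ?_)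
    (fun g h1 h2 => ?_) g hg
  · unfold numUp
    rw [rowOf_high D h1, rowOf_high D (show a + i < D.S + 1 by omega)]
  · exact congrArg P.sum (qU_eq D a i (by omega) (by omega))
  · exact congrArg P.sum (qU_eq D a (i + 1) (by omega) (by omega))

end Mass

/-! ## The initial array -/

/-- tuples over `C`, `U 0` -/
def lb (b : Fin 4 → Bool) (i : Fin 4) : Lab := if b i = true then Lab.C else Lab.U 0

/-- number of `C`'s -/
def cb (b : Fin 4 → Bool) : ℕ := (Finset.univ.filter (fun i => b i = true)).card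

theorem cb_le (b : Fin 4 → Bool) : cb b ≤ 4 := by
  revert b
  decide

theorem cb_compl (b : Fin 4 → Bool) :
    (Finset.univ.filter (fun i => ¬ b i = true)).card = 4 - cb b := by
  revert b
  decide

theorem typ_lb (b : Fin 4 → Bool) : typ (lb b) =
    Multiset.replicate (cb b) Lab.C + Multiset.replicate (4 - cb b) (Lab.U 0) := by
  revert b
  decide

theorem card_cb (b : Fin 4 → Bool) :
    (Finset.univ.filter (fun b' : Fin 4 → Bool => cb b' = cb b)).card = Nat.choose 4 (cb b) := by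
  revert b
  decide

theorem lb_inj : Function.Injective lb := by
  intro b b' h
  funext i
  have h1 := congrFun h i
  unfold lb at h1
  by_cases h2 : b i = true
  · by_cases h3 : b' i = true
    · rw [h2, h3]
    · rw [if_pos h2, if_neg h3] at h1
      exact Lab.noConfusion h1
  · by_cases h3 : b' i = true
    · rw [if_neg h2, if_pos h3] at h1
      exact Lab.noConfusion h1
    · rw [Bool.not_eq_true] at h2 h3
      rw [h2, h3]

theorem cb_of_typ {b b' : Fin 4 → Bool} (h : typ (lb b) = typ (lb b')) : cb b = cb b' := by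
  have h1 := congrArg (Multiset.count Lab.C) h
  rw [typ_lb, typ_lb, Multiset.count_add, Multiset.count_add, Multiset.count_replicate_self,
    Multiset.count_replicate_self, Multiset.count_replicate, Multiset.count_replicate,
    if_neg (fun h => Lab.noConfusion h), if_neg (fun h => Lab.noConfusion h)] at h1
  exact h1

theorem lb_of {y : Fin 4 → Lab} (h : ∀ i, y i = Lab.C ∨ y i = Lab.U 0) :
    lb (fun i => decide (y i = Lab.C)) = y := by
  funext i
  show (if decide (y i = Lab.C) = true then Lab.C else Lab.U 0) = y i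
  by_cases h1 : y i = Lab.C
  · rw [if_pos (decide_eq_true h1), h1]
  · rw [if_neg (by rw [decide_eq_false h1]; exact Bool.false_ne_true)]
    exact ((h i).resolve_left h1).symm

theorem mult_lb (b : Fin 4 → Bool) : mult (lb b) = Nat.choose 4 (cb b) := by
  classical
  have e : (Finset.univ.filter (fun y : Fin 4 → Lab => typ y = typ (lb b))) =
      (Finset.univ.filter (fun b' : Fin 4 → Bool => cb b' = cb b)).image lb := by
    ext y
    rw [Finset.mem_filter, Finset.mem_image]
    constructor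
    · rintro ⟨_, hy⟩
      have h1 : ∀ i, y i = Lab.C ∨ y i = Lab.U 0 := by
        intro i
        have h2 : y i ∈ typ y := Multiset.mem_map_of_mem _ (Finset.mem_univ i)
        rw [hy, typ_lb, Multiset.mem_add] at h2
        rcases h2 with h2 | h2
        · exact Or.inl (Multiset.eq_of_mem_replicate h2)
        · exact Or.inr (Multiset.eq_of_mem_replicate h2)
      have h3 : lb (fun i => decide (y i = Lab.C)) = y := lb_of h1
      refine ⟨fun i => decide (y i = Lab.C), ?_, h3⟩
      rw [Finset.mem_filter]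
      refine ⟨Finset.mem_univ _, cb_of_typ ?_⟩
      rw [h3, hy]
    · rintro ⟨b', hb', rfl⟩
      rw [Finset.mem_filter] at hb'
      refine ⟨Finset.mem_univ _, ?_⟩
      rw [typ_lb, typ_lb, hb'.2]
  unfold mult
  rw [← card_cb b, ← Finset.card_image_of_injective _ lb_inj, ← e]

theorem val_pos {v : Lab} {vs : List Lab} {d : ℕ} {p q : P} {m : Multiset Lab} (h : v ∈ m) :
    val (v :: vs) (d + 1) (P.nd p q) m = val (v :: vs) d q (m.erase v) := by
  rw [val, if_pos h]

theorem val_neg {v : Lab} {vs : List Lab} {d : ℕ} {p q : P} {m : Multiset Lab} (h : v ∉ m) :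
    val (v :: vs) (d + 1) (P.nd p q) m = val vs (d + 1) p m := by
  rw [val, if_neg h]

theorem val_0 {v : Lab} {vs : List Lab} {n : ℕ} :
    val (v :: vs) 0 (P.lf n) 0 = n := by
  rw [val, if_pos rfl]

theorem Vs0 : Vs 0 = [Lab.C, Lab.U 0] := rfl

theorem wf_init (D : Dat) : wf (Vs 0) 4 (initL D) := by
  rw [Vs0]
  unfold initL
  simp [wf]

theorem val_init (D : Dat) (b : Fin 4 → Bool) : val (Vs 0) 4 (initL D) (typ (lb b)) =
    Nat.choose 4 (cb b) * (D.A0^(4 - cb b) * (4096 - D.A0)^(cb b)) := by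
  rw [typ_lb]
  obtain ⟨c, hc⟩ : ∃ c, c = cb b := ⟨_, rfl⟩
  have hc4 := cb_le b
  rw [← hc] at hc4 ⊢
  rw [Vs0]
  unfold initL
  interval_cases c
  · rw [show Multiset.replicate 0 Lab.C + Multiset.replicate (4 - 0) (Lab.U 0) =
      {Lab.U 0, Lab.U 0, Lab.U 0, Lab.U 0} by decide]
    rw [val_neg (by decide), val_pos (by decide),
      show ({Lab.U 0, Lab.U 0, Lab.U 0, Lab.U 0} : Multiset Lab).erase (Lab.U 0) =
        {Lab.U 0, Lab.U 0, Lab.U 0} by decide, val_pos (by decide),
      show ({Lab.U 0, Lab.U 0, Lab.U 0} : Multiset Lab).erase (Lab.U 0) =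
        {Lab.U 0, Lab.U 0} by decide, val_pos (by decide),
      show ({Lab.U 0, Lab.U 0} : Multiset Lab).erase (Lab.U 0) =
        {Lab.U 0} by decide, val_pos (by decide),
      show ({Lab.U 0} : Multiset Lab).erase (Lab.U 0) = 0 by decide, val_0]
    rw [show Nat.choose 4 0 = 1 from rfl]
    ring
  · rw [show Multiset.replicate 1 Lab.C + Multiset.replicate (4 - 1) (Lab.U 0) =
      {Lab.C, Lab.U 0, Lab.U 0, Lab.U 0} by decide]
    rw [val_pos (by decide),
      show ({Lab.C, Lab.U 0, Lab.U 0, Lab.U 0} : Multiset Lab).erase Lab.C =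
        {Lab.U 0, Lab.U 0, Lab.U 0} by decide, val_neg (by decide), val_pos (by decide),
      show ({Lab.U 0, Lab.U 0, Lab.U 0} : Multiset Lab).erase (Lab.U 0) =
        {Lab.U 0, Lab.U 0} by decide, val_pos (by decide),
      show ({Lab.U 0, Lab.U 0} : Multiset Lab).erase (Lab.U 0) =
        {Lab.U 0} by decide, val_pos (by decide),
      show ({Lab.U 0} : Multiset Lab).erase (Lab.U 0) = 0 by decide, val_0]
    rw [show Nat.choose 4 1 = 4 from rfl]
    ring
  · rw [show Multiset.replicate 2 Lab.C + Multiset.replicate (4 - 2) (Lab.U 0) =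
      {Lab.C, Lab.C, Lab.U 0, Lab.U 0} by decide]
    rw [val_pos (by decide),
      show ({Lab.C, Lab.C, Lab.U 0, Lab.U 0} : Multiset Lab).erase Lab.C =
        {Lab.C, Lab.U 0, Lab.U 0} by decide, val_pos (by decide),
      show ({Lab.C, Lab.U 0, Lab.U 0} : Multiset Lab).erase Lab.C =
        {Lab.U 0, Lab.U 0} by decide, val_neg (by decide), val_pos (by decide),
      show ({Lab.U 0, Lab.U 0} : Multiset Lab).erase (Lab.U 0) =
        {Lab.U 0} by decide, val_pos (by decide),
      show ({Lab.U 0} : Multiset Lab).erase (Lab.U 0) = 0 by decide, val_0]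
    rw [show Nat.choose 4 2 = 6 from rfl]
    ring
  · rw [show Multiset.replicate 3 Lab.C + Multiset.replicate (4 - 3) (Lab.U 0) =
      {Lab.C, Lab.C, Lab.C, Lab.U 0} by decide]
    rw [val_pos (by decide),
      show ({Lab.C, Lab.C, Lab.C, Lab.U 0} : Multiset Lab).erase Lab.C =
        {Lab.C, Lab.C, Lab.U 0} by decide, val_pos (by decide),
      show ({Lab.C, Lab.C, Lab.U 0} : Multiset Lab).erase Lab.C =
        {Lab.C, Lab.U 0} by decide, val_pos (by decide),
      show ({Lab.C, Lab.U 0} : Multiset Lab).erase Lab.C =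
        {Lab.U 0} by decide, val_neg (by decide), val_pos (by decide),
      show ({Lab.U 0} : Multiset Lab).erase (Lab.U 0) = 0 by decide, val_0]
    rw [show Nat.choose 4 3 = 4 from rfl]
    ring
  · rw [show Multiset.replicate 4 Lab.C + Multiset.replicate (4 - 4) (Lab.U 0) =
      {Lab.C, Lab.C, Lab.C, Lab.C} by decide]
    rw [val_pos (by decide),
      show ({Lab.C, Lab.C, Lab.C, Lab.C} : Multiset Lab).erase Lab.C =
        {Lab.C, Lab.C, Lab.C} by decide, val_pos (by decide),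
      show ({Lab.C, Lab.C, Lab.C} : Multiset Lab).erase Lab.C =
        {Lab.C, Lab.C} by decide, val_pos (by decide),
      show ({Lab.C, Lab.C} : Multiset Lab).erase Lab.C =
        {Lab.C} by decide, val_pos (by decide),
      show ({Lab.C} : Multiset Lab).erase Lab.C = 0 by decide, val_0]
    rw [show Nat.choose 4 4 = 1 from rfl]
    ring

theorem Yof_lb (D : Dat) (b : Fin 4 → Bool) : Yof (Vs 0) (initL D) (lb b) =
    (D.A0 : ℝ)^(4 - cb b) * ((4096 - D.A0 : ℕ) : ℝ)^(cb b) := by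
  unfold Yof
  rw [val_init, mult_lb, Nat.cast_mul, Nat.cast_mul, Nat.cast_pow, Nat.cast_pow]
  have h : ((Nat.choose 4 (cb b) : ℕ) : ℝ) ≠ 0 := by
    have := Nat.choose_pos (cb_le b)
    positivity
  field_simp

theorem prod_lb (x y : ℝ) (b : Fin 4 → Bool) :
    ∏ i, (if b i = true then x else y) = y^(4 - cb b) * x^(cb b) := by
  rw [Finset.prod_ite, Finset.prod_const, Finset.prod_const, cb_compl, mul_comm]
  rfl

theorem sum_lb (D : Dat) (hD : D.A0 ≤ 4096) : ∑ b, Yof (Vs 0) (initL D) (lb b) = 2^48 := by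
  have h1 : ∀ b : Fin 4 → Bool, Yof (Vs 0) (initL D) (lb b) =
      ∏ i, (if b i = true then ((4096 - D.A0 : ℕ) : ℝ) else (D.A0 : ℝ)) := by
    intro b
    rw [Yof_lb, prod_lb]
  simp only [h1]
  have h2 : ∑ b : Fin 4 → Bool, ∏ i, (if b i = true then ((4096 - D.A0 : ℕ) : ℝ) else (D.A0 : ℝ)) =
      ∏ _i : Fin 4, ∑ t : Bool, (if t = true then ((4096 - D.A0 : ℕ) : ℝ) else (D.A0 : ℝ)) := by
    rw [Finset.prod_univ_sum, Fintype.piFinset_univ]
  rw [h2, Fintype.sum_bool, Finset.prod_const, Finset.card_univ, Fintype.card_fin]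
  simp only [if_true, Bool.false_eq_true, if_false]
  rw [Nat.cast_sub hD]
  norm_num

theorem init_Yof (hSum : S_sum) {D : Dat} (hD : Good D) (y : Fin 4 → Lab) :
    Yof (Vs 0) (initL D) y = 2^48 * ∏ i, initW ((D.A0 : ℝ)/4096) (y i) := by
  classical
  by_cases hy : ∃ b, lb b = y
  · obtain ⟨b, rfl⟩ := hy
    rw [Yof_lb]
    have h1 : ∏ i, initW ((D.A0 : ℝ)/4096) (lb b i) =
        ∏ i, (if b i = true then 1 - (D.A0 : ℝ)/4096 else (D.A0 : ℝ)/4096) := by
      refine Finset.prod_congr rfl fun i _ => ?_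
      unfold lb
      split_ifs
      · rfl
      · simp [initW]
    rw [h1, prod_lb]
    have h2 : (1 : ℝ) - (D.A0 : ℝ)/4096 = ((4096 - D.A0 : ℕ) : ℝ)/4096 := by
      rw [Nat.cast_sub hD.A0_le, sub_div]
      norm_num
    rw [h2, div_pow, div_pow]
    have h3 : (2 : ℝ)^48 = 4096^(4 - cb b) * 4096^(cb b) := by
      rw [← pow_add, Nat.sub_add_cancel (cb_le b)]
      norm_num
    rw [h3]
    field_simp
  · have h1 := hSum (Vs 0) (initL D) (nodup_Vs (by omega)) (Z_notMem_Vs 0) (wf_init D)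
    rw [init_sum hD] at h1
    have h2 : ∑ x ∈ Finset.univ.image lb, Yof (Vs 0) (initL D) x = 2^48 := by
      rw [Finset.sum_image (fun a _ b _ h => lb_inj h)]
      exact sum_lb D hD.A0_le
    have h3 := Finset.sum_add_sum_compl (Finset.univ.image lb) (fun x => Yof (Vs 0) (initL D) x)
    rw [h1, h2] at h3
    have h4 : ∑ x ∈ (Finset.univ.image lb)ᶜ, Yof (Vs 0) (initL D) x = 0 := by
      push_cast at h3
      linarith
    rw [Finset.sum_eq_zero_iff_of_nonneg (fun x _ => Yof_nonneg _ _ x)] at h4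
    have h5 : y ∈ (Finset.univ.image lb)ᶜ := by
      rw [Finset.mem_compl, Finset.mem_image]
      rintro ⟨b, _, hb⟩
      exact hy ⟨b, hb⟩
    rw [h4 y h5]
    have h6 : ∃ i, y i ≠ Lab.C ∧ y i ≠ Lab.U 0 := by
      by_contra hcon
      refine hy ⟨fun i => decide (y i = Lab.C), lb_of fun i => ?_⟩
      by_cases h7 : y i = Lab.C
      · exact Or.inl h7
      · right
        by_contra h8
        exact hcon ⟨i, h7, h8⟩
    obtain ⟨i, h7, h8⟩ := h6
    have h9 : initW ((D.A0 : ℝ)/4096) (y i) = 0 := by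
      cases hyi : y i with
      | Z => rfl
      | C => exact absurd hyi h7
      | U j =>
        show (if j = 0 then (D.A0 : ℝ)/4096 else 0) = 0
        rw [if_neg]
        intro hj
        rw [hj] at hyi
        exact h8 hyi
    rw [Finset.prod_eq_zero (Finset.mem_univ i) h9, mul_zero]

/-! ## The weights -/

theorem rl_sub {R : ℕ} (hR : R ≤ 2^24) (x : ℕ) :
    (rl (2^24 - R) x : ℝ) ≤ (1 - (R : ℝ)/2^24) * x := by
  refine (rl_le (2^24 - R) x).trans (le_of_eq ?_)
  rw [Nat.cast_sub hR, sub_div]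
  congr 2
  norm_num

theorem wUp_bd {R : ℕ} (hR : R ≤ 2^24) (n g u x : ℕ) :
    (lS R n g u x : ℝ) ≤ wUp ((R : ℝ)/2^24) (if g ≤ n then 2 else 3) u * x := by
  have key := rl_sub hR x
  unfold lS wUp
  rcases u with _ | _ | _ | u
  · show (rl (2^24 - R) x : ℝ) ≤ _
    rw [if_neg (by split_ifs <;> omega)]
    exact key
  · show (rl (2^24 - R) x : ℝ) ≤ _
    rw [if_neg (by split_ifs <;> omega)]
    exact key
  · show ((if g ≤ n then x else rl (2^24 - R) x : ℕ) : ℝ) ≤ _
    by_cases h : g ≤ n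
    · rw [if_pos h, if_pos h, if_pos (by omega), one_mul]
    · rw [if_neg h, if_neg h, if_neg (by omega)]
      exact key
  · show (x : ℝ) ≤ _
    rw [if_pos (by split_ifs <;> omega), one_mul]

theorem wStay_bd {R : ℕ} (hR : R ≤ 2^24) (n g u x : ℕ) :
    (lT R n g u x : ℝ) ≤ wStay ((R : ℝ)/2^24) (if g ≤ n then 2 else 3) u * x := by
  have key := rl_sub hR x
  unfold lT wStay
  rcases u with _ | _ | _ | u
  · show (x : ℝ) ≤ _
    rw [if_neg (by split_ifs <;> omega), one_mul]
  · show (x : ℝ) ≤ _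
    rw [if_neg (by split_ifs <;> omega), one_mul]
  · show ((if g ≤ n then rl (2^24 - R) x else x : ℕ) : ℝ) ≤ _
    by_cases h : g ≤ n
    · rw [if_pos h, if_pos h, if_pos (by omega)]
      exact key
    · rw [if_neg h, if_neg h, if_neg (by omega), one_mul]
  · show (rl (2^24 - R) x : ℝ) ≤ _
    rw [if_pos (by split_ifs <;> omega)]
    exact key

theorem wRise_bd (R c n g u x : ℕ) :
    (lR (R * c) n g u x : ℝ) ≤ (c * wRise ((R : ℝ)/2^24) (if g ≤ n then 2 else 3) u) * x := by
  have key : (rl (R * c) x : ℝ) ≤ (c * ((R : ℝ)/2^24)) * x := by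
    refine (rl_le (R * c) x).trans (le_of_eq ?_)
    rw [Nat.cast_mul]
    ring
  unfold lR wRise
  rcases u with _ | _ | _ | u
  · show ((0 : ℕ) : ℝ) ≤ _
    rw [if_neg (by split_ifs <;> omega), mul_zero, zero_mul, Nat.cast_zero]
  · show ((0 : ℕ) : ℝ) ≤ _
    rw [if_neg (by split_ifs <;> omega), mul_zero, zero_mul, Nat.cast_zero]
  · show ((if g ≤ n then rl (R * c) x else 0 : ℕ) : ℝ) ≤ _
    by_cases h : g ≤ n
    · rw [if_pos h, if_pos h, if_pos (by omega)]
      exact key
    · rw [if_neg h, if_neg h, if_neg (by omega), mul_zero, zero_mul, Nat.cast_zero]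
  · show (rl (R * c) x : ℝ) ≤ _
    rw [if_pos (by split_ifs <;> omega)]
    exact key

theorem ratio_nonneg (R : ℕ) : (0 : ℝ) ≤ (R : ℝ)/2^24 := by positivity

theorem ratio_le {R : ℕ} (hR : R ≤ 2^24) : (R : ℝ)/2^24 ≤ 1 := by
  rw [div_le_one (by positivity)]
  exact_mod_cast hR

theorem wUp_nonneg {R : ℕ} (hR : R ≤ 2^24) (d c : ℕ) : 0 ≤ wUp ((R : ℝ)/2^24) d c := by
  unfold wUp
  have := ratio_le hR
  split_ifs <;> linarith

theorem wStay_nonneg {R : ℕ} (hR : R ≤ 2^24) (d c : ℕ) : 0 ≤ wStay ((R : ℝ)/2^24) d c := by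
  unfold wStay
  have := ratio_le hR
  split_ifs <;> linarith

theorem wRise_nonneg (R d c : ℕ) : 0 ≤ wRise ((R : ℝ)/2^24) d c := by
  unfold wRise
  have := ratio_nonneg R
  split_ifs <;> linarith

theorem nat4_smul (T : Lab → Lab → ℝ) (a : ℝ) (w : ℕ → ℝ) (Y : (Fin 4 → Lab) → ℝ)
    (y : Fin 4 → Lab) : nat4 T (fun c => a * w c) Y y = a * nat4 T w Y y := by
  unfold nat4
  rw [Finset.mul_sum]
  refine Finset.sum_congr rfl fun x _ => ?_
  ring

/-! ## The certificate -/

/-- lane of a class -/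
def ln (D : Dat) : Option ℕ → ℕ
  | none => D.S + 1
  | some b => if b ≤ D.S then b else D.S + 1

theorem ln_none (D : Dat) : ln D none = D.S + 1 := rfl

theorem ln_some {D : Dat} {b : ℕ} (h : b ≤ D.S) : ln D (some b) = b := if_pos h

theorem ln_high {D : Dat} {b : ℕ} (h : D.S < b) : ln D (some b) = D.S + 1 :=
  if_neg (by omega)

theorem ln_le (D : Dat) (g : Option ℕ) : ln D g ≤ D.S + 1 := by
  cases g with
  | none => exact le_rfl
  | some b =>
    rcases Nat.lt_or_ge D.S b with h | h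
    · rw [ln_high h]
    · rw [ln_some h]
      omega

theorem le_ln {D : Dat} {n b : ℕ} (h : n ≤ b) (hn : n ≤ D.S + 1) : n ≤ ln D (some b) := by
  rcases Nat.lt_or_ge D.S b with h1 | h1
  · rw [ln_high h1]
    exact hn
  · rw [ln_some h1]
    exact h

theorem need_eq (D : Dat) (g : Option ℕ) {n : ℕ} (hn : n ≤ D.S) :
    need g n = if ln D g ≤ n then 2 else 3 := by
  cases g with
  | none =>
    rw [ln_none, if_neg (by omega)]
    rfl
  | some b =>
    show (if b ≤ n then 2 else 3) = _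
    by_cases h : b ≤ n
    · rw [if_pos h, ln_some (by omega), if_pos h]
    · have h1 := le_ln (D := D) (n := n + 1) (b := b) (by omega) (by omega)
      rw [if_neg h, if_neg (by omega)]

/-- epochs -/
def cE (D : Dat) (n : ℕ) : Fin 6 := Fin.ofNat 6 (D.ep n)

/-- the row of a class -/
noncomputable def rw' (D : Dat) (g : Option ℕ) (n : ℕ) : ℕ := rowOf D (ln D g) n

noncomputable def cS (D : Dat) (g : Option ℕ) (n : ℕ) (j : Fin 6) : ℝ :=
  if n ≤ D.S then sR (rw' D g n) j.val else 0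

noncomputable def cU (D : Dat) (g : Option ℕ) (n : ℕ) : ℝ :=
  if n ≤ D.S then sR (rw' D g n) 6 * sR (rw' D g n) 7 else 0

noncomputable def cK (D : Dat) (g : Option ℕ) (n : ℕ) : ℝ :=
  if n ≤ D.S then sR (rw' D g n) 6 * (1 - sR (rw' D g n) 7) else 0

noncomputable def cY (D : Dat) : Option ℕ → Option ℕ → ℕ → (Fin 4 → Lab) → ℝ
  | none, g, n, y => if n ≤ D.S then Yof (Vs (D.ep n)) (qC D (ln D g) n) y else 0
  | some a, g, n, y => if a ≤ n ∧ n ≤ D.S + 1 then
      Yof (Vs (D.ep n)) (qU D a (ln D g) (n - a)) y else 0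

theorem rw'_pre (D : Dat) {b n : ℕ} (h : n < b) (hn : n ≤ D.S) :
    rw' D (some b) n = rw' D none n := by
  unfold rw'
  have h1 := le_ln (D := D) (n := n + 1) (b := b) (by omega) (by omega)
  rw [rowOf_high D (show n < ln D (some b) by omega), ln_none,
    rowOf_high D (show n < D.S + 1 by omega)]

theorem rw'_none (D : Dat) {n : ℕ} (hn : n ≤ D.S) : rw' D none n = D.nrow n := by
  unfold rw'
  rw [ln_none, rowOf_high D (show n < D.S + 1 by omega)]

theorem rw'_some (D : Dat) {a n : ℕ} (ha : a ≤ D.S) : rw' D (some a) n = rowOf D a n := by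
  unfold rw'
  rw [ln_some ha]

theorem ofNat_val {j : ℕ} (h : j ≤ 5) : (Fin.ofNat 6 j).val = j := by
  simp only [Fin.ofNat]
  omega

section Cer

variable {D : Dat} (hD : Good D)

include hD

theorem rw'_le {g : Option ℕ} {n : ℕ} (hn : n ≤ D.S) : ∀ j < 8, fld (rw' D g n) j ≤ 2^24 :=
  fun j hj => hD.fld_le (ln D g) n j hn (ln_le D g) hj

theorem wf_C (hF : S_fail) (hM : S_move) (hK : S_mask) (hI : S_ins) (h3 : S_three)
    (g : Option ℕ) : ∀ n ≤ D.S, wf (Vs (D.ep n)) 4 (qC D (ln D g) n) ∧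
      (n < D.S → ∀ y, Yof (Vs (D.ep (n + 1))) (qC D (ln D g) (n + 1)) y ≤
        nat4 (Tm (cE D) (cS D) (cU D) (cK D) none n) (wStay ((D.R n : ℝ)/2^24) (need g n))
          (Yof (Vs (D.ep n)) (qC D (ln D g) n)) y) := by
  have step : ∀ n < D.S, wf (Vs (D.ep n)) 4 (qC D (ln D g) n) →
      wf (Vs (D.ep (n + 1))) 4 (qC D (ln D g) (n + 1)) ∧
      ∀ y, Yof (Vs (D.ep (n + 1))) (qC D (ln D g) (n + 1)) y ≤
        nat4 (Tm (cE D) (cS D) (cU D) (cK D) none n) (wStay ((D.R n : ℝ)/2^24) (need g n))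
          (Yof (Vs (D.ep n)) (qC D (ln D g) n)) y := by
    intro n hn hw
    have hR := R_le' hD (show n ≤ D.S by omega)
    have hr := rw'_none D (show n ≤ D.S by omega)
    refine sem_slot hF hM hK hI h3 (hD.ep_mono n) (hD.ep_step n) (hD.ep_le (n + 1))
      (nrow_le hD (by omega)) (fun c => wStay_nonneg hR _ c) (fun u x => ?_) hw
      (cE D) (cS D) (cU D) (cK D) none n (fun j hj => ?_) ?_ ?_ rfl
    · rw [need_eq D g (by omega)]
      exact wStay_bd hR n (ln D g) u x
    · unfold cS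
      rw [if_pos (by omega), hr, ofNat_val hj]
    · unfold cK
      rw [if_pos (by omega), hr]
    · unfold cU
      rw [if_pos (by omega), hr]
  have hw : ∀ n ≤ D.S, wf (Vs (D.ep n)) 4 (qC D (ln D g) n) := by
    intro n
    induction n with
    | zero =>
      intro _
      rw [hD.ep0]
      exact wf_init D
    | succ n ih =>
      intro hn
      exact (step n (by omega) (ih (by omega))).1
  exact fun n hn => ⟨hw n hn, fun hn' => (step n hn' (hw n hn)).2⟩

theorem wf_U0 (hF : S_fail) (hM : S_move) (hK : S_mask) (hI : S_ins) (h3 : S_three)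
    (g : Option ℕ) {n : ℕ} (hn : n < D.S) :
    wf (Vs (D.ep (n + 1))) 4 (qU0 D (ln D g) (n + 1)) ∧
      ∀ y, Yof (Vs (D.ep (n + 1))) (qU0 D (ln D g) (n + 1)) y ≤
        D.cs n * nat4 (Tm (cE D) (cS D) (cU D) (cK D) none n) (wRise ((D.R n : ℝ)/2^24) (need g n))
          (Yof (Vs (D.ep n)) (qC D (ln D g) n)) y := by
  have hw := (wf_C hD hF hM hK hI h3 g n (by omega)).1
  have hr := rw'_none D (show n ≤ D.S by omega)
  have h := sem_slot hF hM hK hI h3 (hD.ep_mono n) (hD.ep_step n) (hD.ep_le (n + 1))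
    (nrow_le hD (n := n) (by omega)) (f := lR (D.R n * D.cs n) n (ln D g))
    (w := fun c => (D.cs n : ℝ) * wRise ((D.R n : ℝ)/2^24) (need g n) c)
    (fun c => mul_nonneg (Nat.cast_nonneg _) (wRise_nonneg _ _ c)) (fun u x => by
      rw [need_eq D g (by omega)]
      exact wRise_bd (D.R n) (D.cs n) n (ln D g) u x) hw
    (cE D) (cS D) (cU D) (cK D) none n (fun j hj => by
      unfold cS
      rw [if_pos (by omega), hr, ofNat_val hj]) (by
      unfold cK
      rw [if_pos (by omega), hr]) (by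
      unfold cU
      rw [if_pos (by omega), hr]) rfl
  refine ⟨h.1, fun y => (h.2 y).trans (le_of_eq ?_)⟩
  rw [nat4_smul]

theorem wf_U0' (hF : S_fail) (hM : S_move) (hK : S_mask) (hI : S_ins) (h3 : S_three)
    (g : Option ℕ) {a : ℕ} (ha : a ≤ D.S) : wf (Vs (D.ep a)) 4 (qU0 D (ln D g) a) := by
  cases a with
  | zero =>
    rw [hD.ep0]
    exact wf_init D
  | succ n => exact (wf_U0 hD hF hM hK hI h3 g (by omega)).1

theorem wf_U (hF : S_fail) (hM : S_move) (hK : S_mask) (hI : S_ins) (h3 : S_three)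
    (g : Option ℕ) {a : ℕ} (ha : a ≤ D.S) : ∀ i, a + i ≤ D.S + 1 →
      wf (Vs (D.ep (a + i))) 4 (qU D a (ln D g) i) ∧
      (a + i ≤ D.S → ∀ y, Yof (Vs (D.ep (a + i + 1))) (qU D a (ln D g) (i + 1)) y ≤
        nat4 (Tm (cE D) (cS D) (cU D) (cK D) (some a) (a + i))
          (wUp ((D.R (a + i) : ℝ)/2^24) (need g (a + i)))
          (Yof (Vs (D.ep (a + i))) (qU D a (ln D g) i)) y) := by
  have step : ∀ i, a + i ≤ D.S → wf (Vs (D.ep (a + i))) 4 (qU D a (ln D g) i) →
      wf (Vs (D.ep (a + i + 1))) 4 (qU D a (ln D g) (i + 1)) ∧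
      ∀ y, Yof (Vs (D.ep (a + i + 1))) (qU D a (ln D g) (i + 1)) y ≤
        nat4 (Tm (cE D) (cS D) (cU D) (cK D) (some a) (a + i))
          (wUp ((D.R (a + i) : ℝ)/2^24) (need g (a + i)))
          (Yof (Vs (D.ep (a + i))) (qU D a (ln D g) i)) y := by
    intro i hi hw
    have hR := R_le' hD hi
    have hr := rw'_some D (a := a) (n := a + i) ha
    refine sem_slot hF hM hK hI h3 (hD.ep_mono (a + i)) (hD.ep_step (a + i))
      (hD.ep_le (a + i + 1)) (row_le hD hi (by omega)) (fun c => wUp_nonneg hR _ c)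
      (fun u x => ?_) hw (cE D) (cS D) (cU D) (cK D) (some a) (a + i) (fun j hj => ?_) ?_ ?_ rfl
    · rw [need_eq D g hi]
      exact wUp_bd hR (a + i) (ln D g) u x
    · unfold cS
      rw [if_pos hi, hr, ofNat_val hj]
    · unfold cK
      rw [if_pos hi, hr]
    · unfold cU
      rw [if_pos hi, hr]
  have hw : ∀ i, a + i ≤ D.S + 1 → wf (Vs (D.ep (a + i))) 4 (qU D a (ln D g) i) := by
    intro i
    induction i with
    | zero =>
      intro _
      exact wf_U0' hD hF hM hK hI h3 g ha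
    | succ i ih =>
      intro hi
      exact (step i (by omega) (ih (by omega))).1
  exact fun i hi => ⟨hw i hi, fun hi' => (step i hi' (hw i hi)).2⟩

omit hD in
theorem cYC {g : Option ℕ} {n : ℕ} (hn : n ≤ D.S) :
    cY D none g n = Yof (Vs (D.ep n)) (qC D (ln D g) n) := by
  funext y
  show (if n ≤ D.S then Yof (Vs (D.ep n)) (qC D (ln D g) n) y else 0) = _
  rw [if_pos hn]

omit hD in
theorem cYU {g : Option ℕ} {a i : ℕ} (hi : a + i ≤ D.S + 1) :
    cY D (some a) g (a + i) = Yof (Vs (D.ep (a + i))) (qU D a (ln D g) i) := by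
  funext y
  show (if a ≤ a + i ∧ a + i ≤ D.S + 1 then
    Yof (Vs (D.ep (a + i))) (qU D a (ln D g) (a + i - a)) y else 0) = _
  rw [if_pos ⟨Nat.le_add_right a i, hi⟩, Nat.add_sub_cancel_left]

theorem sum_cYC (hF : S_fail) (hM : S_move) (hK : S_mask) (hI : S_ins) (h3 : S_three)
    (hSum : S_sum) {g : Option ℕ} {n : ℕ} (hn : n ≤ D.S) :
    ∑ x, cY D none g n x = ((qC D (ln D g) n).sum : ℝ) := by
  rw [cYC hn]
  exact hSum _ _ (nodup_Vs (hD.ep_le n)) (Z_notMem_Vs _) (wf_C hD hF hM hK hI h3 g n hn).1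

theorem sum_cYU (hF : S_fail) (hM : S_move) (hK : S_mask) (hI : S_ins) (h3 : S_three)
    (hSum : S_sum) {g : Option ℕ} {a i : ℕ} (ha : a ≤ D.S) (hi : a + i ≤ D.S + 1) :
    ∑ x, cY D (some a) g (a + i) x = ((qU D a (ln D g) i).sum : ℝ) := by
  rw [cYU hi]
  exact hSum _ _ (nodup_Vs (hD.ep_le _)) (Z_notMem_Vs _) (wf_U hD hF hM hK hI h3 g ha i hi).1

end Cer

theorem mass1 {f T T' : ℕ} (h : 16777216 * f * T ≤ 281474976710656 * T') :
    (f : ℝ)/2^24 * T ≤ T' := by
  have h' : (16777216 : ℝ) * f * T ≤ 281474976710656 * T' := by exact_mod_cast h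
  have e : (f : ℝ)/2^24 * T = (16777216 * f * T) / 281474976710656 := by
    ring
  rw [e, div_le_iff₀ (by norm_num)]
  linarith

theorem mass2 {f b T T' : ℕ} (hb : b ≤ 2^24)
    (h : f * (16777216 - b) * T ≤ 281474976710656 * T') :
    (f : ℝ)/2^24 * (1 - (b : ℝ)/2^24) * T ≤ T' := by
  have h' : ((f * (16777216 - b) * T : ℕ) : ℝ) ≤ ((281474976710656 * T' : ℕ) : ℝ) := by
    exact_mod_cast h
  rw [p24] at hb
  rw [Nat.cast_mul, Nat.cast_mul, Nat.cast_sub hb, Nat.cast_mul] at h'
  have e : (f : ℝ)/2^24 * (1 - (b : ℝ)/2^24) * T =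
      (f * (16777216 - b) * T) / 281474976710656 := by
    ring
  rw [e, div_le_iff₀ (by norm_num)]
  push_cast at h'
  linarith

theorem mass3 {c f b T T' : ℕ} (h : c * (f * b) * T ≤ 281474976710656 * T') :
    (c : ℝ) * ((f : ℝ)/2^24 * ((b : ℝ)/2^24)) * T ≤ T' := by
  have h' : (c : ℝ) * (f * b) * T ≤ 281474976710656 * T' := by exact_mod_cast h
  have e : (c : ℝ) * ((f : ℝ)/2^24 * ((b : ℝ)/2^24)) * T =
      (c * (f * b) * T) / 281474976710656 := by
    ring
  rw [e, div_le_iff₀ (by norm_num)]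
  linarith

end sound_aux

open sound_aux in
/-- soundness of the checker -/
theorem t_sound (hF : S_fail) (hM : S_move) (hK : S_mask) (hI : S_ins) (hSum : S_sum)
    (h3 : S_three) (hS : S_mass) (hpI : S_packIns) (hpS : S_packSum) (hpK : S_packMask)
    (hpF : S_packFail) (hpM : S_packMove) : S_sound := by
  intro D hD h0 hc hA
  refine ⟨⟨cE D, cS D, cU D, cK D, cY D, ?_, ?_, ?_, ?_, ?_, ?_, ?_, ?_, ?_, ?_, ?_, ?_, ?_,
    2^48, by positivity, ?_, ?_, ?_, ?_, ?_, ?_, fun n => (D.cs n : ℝ), ?_, ?_, ?_⟩, ?_⟩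
  · -- e0
    unfold cE
    rw [hD.ep0]
    rfl
  · -- s_pre
    intro b n j h
    unfold cS
    by_cases hn : n ≤ D.S
    · rw [if_pos hn, if_pos hn, rw'_pre D h hn]
    · rw [if_neg hn, if_neg hn]
  · -- u_pre
    intro b n h
    unfold cU
    by_cases hn : n ≤ D.S
    · rw [if_pos hn, if_pos hn, rw'_pre D h hn]
    · rw [if_neg hn, if_neg hn]
  · -- k_pre
    intro b n h
    unfold cK
    by_cases hn : n ≤ D.S
    · rw [if_pos hn, if_pos hn, rw'_pre D h hn]
    · rw [if_neg hn, if_neg hn]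
  · -- s_nonneg
    intro g n j
    unfold cS
    split_ifs
    · exact sR_nonneg _ _
    · exact le_rfl
  · -- s_le
    intro g n j
    unfold cS
    split_ifs with hn
    · exact sR_le (rw'_le hD hn _ (by omega))
    · exact zero_le_one
  · -- u_nonneg
    intro g n
    unfold cU
    split_ifs
    · exact mul_nonneg (sR_nonneg _ _) (sR_nonneg _ _)
    · exact le_rfl
  · -- k_nonneg
    intro g n
    unfold cK
    split_ifs with hn
    · exact mul_nonneg (sR_nonneg _ _) (sub_nonneg.2 (sR_le (rw'_le hD hn _ (by omega))))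
    · exact le_rfl
  · -- uk_le
    intro g n
    unfold cU cK
    by_cases hn : n ≤ D.S
    · rw [if_pos hn, if_pos hn]
      have h6 := sR_le (rw'_le hD (g := g) hn 6 (by omega))
      linarith
    · rw [if_neg hn, if_neg hn, add_zero]
      exact zero_le_one
  · -- uS
    intro g
    unfold cU
    have h6 : sR (rw' D g D.S) 6 = 0 := by
      unfold sR rw'
      rw [hD.G_S _ (ln_le D g), Nat.cast_zero, zero_div]
    rw [if_pos le_rfl, h6, zero_mul]
  · -- kS
    intro g
    unfold cK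
    have h6 : sR (rw' D g D.S) 6 = 0 := by
      unfold sR rw'
      rw [hD.G_S _ (ln_le D g), Nat.cast_zero, zero_div]
    rw [if_pos le_rfl, h6, zero_mul]
  · -- Y_nonneg
    intro h g n y
    cases h with
    | none =>
      show 0 ≤ (if n ≤ D.S then Yof (Vs (D.ep n)) (qC D (ln D g) n) y else 0)
      split_ifs
      · exact Yof_nonneg _ _ _
      · exact le_rfl
    | some a =>
      show 0 ≤ (if a ≤ n ∧ n ≤ D.S + 1 then
        Yof (Vs (D.ep n)) (qU D a (ln D g) (n - a)) y else 0)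
      split_ifs
      · exact Yof_nonneg _ _ _
      · exact le_rfl
  · -- Y_pre
    intro h b n y hnb
    cases h with
    | none =>
      show (if n ≤ D.S then Yof (Vs (D.ep n)) (qC D (ln D (some b)) n) y else 0) =
        (if n ≤ D.S then Yof (Vs (D.ep n)) (qC D (ln D none) n) y else 0)
      by_cases hn : n ≤ D.S
      · rw [if_pos hn, if_pos hn, qC_eq D n (le_ln hnb (by omega))
          (show n ≤ ln D none by rw [ln_none]; omega)]
      · rw [if_neg hn, if_neg hn]
    | some a =>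
      show (if a ≤ n ∧ n ≤ D.S + 1 then
          Yof (Vs (D.ep n)) (qU D a (ln D (some b)) (n - a)) y else 0) =
        (if a ≤ n ∧ n ≤ D.S + 1 then
          Yof (Vs (D.ep n)) (qU D a (ln D none) (n - a)) y else 0)
      by_cases hn : a ≤ n ∧ n ≤ D.S + 1
      · have h1 : a + (n - a) = n := Nat.add_sub_cancel' hn.1
        rw [if_pos hn, if_pos hn, qU_eq D a (n - a) (by rw [h1]; exact le_ln hnb hn.2)
          (show a + (n - a) ≤ ln D none by rw [h1, ln_none]; exact hn.2)]
      · rw [if_neg hn, if_neg hn]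
  · -- initC
    intro g y
    rw [cYC (Nat.zero_le _), hD.ep0]
    exact init_Yof hSum hD y
  · -- initU
    intro g y
    have h := cYU (D := D) (g := g) (a := 0) (i := 0) (Nat.zero_le _)
    rw [Nat.add_zero] at h
    rw [h, hD.ep0]
    exact init_Yof hSum hD y
  · -- up_le
    intro a g n han hn _ y
    obtain ⟨i, rfl⟩ := Nat.exists_eq_add_of_le han
    have h := cYU (D := D) (g := g) (a := a) (i := i + 1) (by omega)
    rw [cYU (by omega), show a + i + 1 = a + (i + 1) from rfl, h]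
    exact (wf_U hD hF hM hK hI h3 g (by omega) i (by omega)).2 hn y
  · -- up_mass
    intro a g n han hn _
    obtain ⟨i, rfl⟩ := Nat.exists_eq_add_of_le han
    have e1 := sum_cYU hD hF hM hK hI h3 hSum (g := g) (a := a) (i := i) (by omega) (by omega)
    have e2 := sum_cYU hD hF hM hK hI h3 hSum (g := g) (a := a) (i := i + 1) (by omega) (by omega)
    rw [e1, show a + i + 1 = a + (i + 1) from rfl, e2]
    have h := M_up hD hpF hpM hpI hpK hS hpS h0 hA hn (ln_le D g)
    unfold cS cE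
    rw [if_pos hn, ofNat_val (hD.ep_le a)]
    exact mass1 h
  · -- stay_le
    intro g n hn _ y
    rw [cYC (by omega), cYC (by omega)]
    exact (wf_C hD hF hM hK hI h3 g n (by omega)).2 hn y
  · -- stay_mass
    intro g n hn _
    rw [sum_cYC hD hF hM hK hI h3 hSum (by omega), sum_cYC hD hF hM hK hI h3 hSum (by omega)]
    have h := M_stay hD hpF hpM hpI hpK hS hpS hc hn (ln_le D g)
    unfold cK
    rw [if_pos (by omega)]
    exact mass2 (rw'_le hD (by omega) 7 (by omega)) h
  · -- c_pos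
    intro n
    exact Nat.cast_pos.2 (hD.cs_pos n)
  · -- rise_le
    intro g n hn _ y
    have h := cYU (D := D) (g := g) (a := n + 1) (i := 0) (by omega)
    rw [Nat.add_zero] at h
    rw [h, cYC (by omega)]
    exact (wf_U0 hD hF hM hK hI h3 g hn).2 y
  · -- rise_mass
    intro g n hn _
    have e1 := sum_cYU hD hF hM hK hI h3 hSum (g := g) (a := n + 1) (i := 0) (by omega) (by omega)
    rw [Nat.add_zero] at e1
    rw [sum_cYC hD hF hM hK hI h3 hSum (by omega), e1]
    have h := M_rise hD hpF hpM hpI hpK hS hpS hA hn (ln_le D g)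
    unfold cU
    rw [if_pos (by omega)]
    exact mass3 h
  · -- final
    intro n hn
    show cS D none n 0 = _
    unfold cS
    rw [if_pos hn, rw'_none D hn]
    rfl

end Pool.Agent.helper237_G5
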