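import Pool.Agent.helper237_G5.Stmts2

/-! # `S_sum`: the total mass of an array is the sum of the coefficients -/

namespace Pool.Agent.helper237_G5

namespace sum_aux

/-- the coefficients vanish on multisets which contain a label outside `vs ∪ {Z}` -/
theorem val_eq_zero (p : P) : ∀ (vs : List Lab) (d : ℕ) (m : Multiset Lab) (v : Lab),
    v ∈ m → v ∉ vs → v ≠ Lab.Z → val vs d p m = 0 := by
  induction p with
  | lf n =>
    intro vs d m v hv hvs hz
    cases vs with
    | nil =>
      simp only [val]
      rw [if_neg]
      rintro rfl
      exact hz (Multiset.eq_of_mem_replicate hv)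
    | cons w vs =>
      cases d with
      | zero =>
        simp only [val]
        rw [if_neg]
        rintro rfl
        simp at hv
      | succ d => simp only [val]
  | nd p q ihp ihq =>
    intro vs d m v hv hvs hz
    cases vs with
    | nil => simp only [val]
    | cons w vs =>
      cases d with
      | zero => simp only [val]
      | succ d =>
        simp only [val]
        split_ifs with hw
        · refine ihq (w :: vs) d _ v ?_ hvs hz
          have hne : v ≠ w := fun h => hvs (by simp [h])
          exact (Multiset.mem_erase_of_ne hne).2 hv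
        · exact ihp vs (d + 1) m v hv (fun h => hvs (List.mem_cons_of_mem _ h)) hz

/-- multisets of labels of cardinality `d` -/
noncomputable def Ms (d : ℕ) : Finset (Multiset Lab) :=
  (Finset.univ : Finset (Sym Lab d)).map ⟨Sym.toMultiset, Sym.coe_injective⟩

theorem mem_Ms (d : ℕ) (m : Multiset Lab) : m ∈ Ms d ↔ m.card = d := by
  unfold Ms
  simp only [Finset.mem_map, Finset.mem_univ, true_and, Function.Embedding.coeFn_mk]
  constructor
  · rintro ⟨a, rfl⟩
    exact a.2
  · intro h
    exact ⟨Sym.mk m h, rfl⟩

theorem sum_val (p : P) : ∀ (vs : List Lab) (d : ℕ), vs.Nodup → Lab.Z ∉ vs → wf vs d p →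
    ∑ m ∈ Ms d, val vs d p m = P.sum p := by
  induction p with
  | lf n =>
    intro vs d hnd hz hwf
    cases vs with
    | nil =>
      simp only [val, P.sum]
      rw [Finset.sum_ite_eq']
      rw [if_pos]
      rw [mem_Ms]
      simp
    | cons w vs =>
      cases d with
      | zero =>
        simp only [val, P.sum]
        rw [Finset.sum_ite_eq']
        rw [if_pos]
        rw [mem_Ms]
        simp
      | succ d => simp only [wf] at hwf
  | nd p q ihp ihq =>
    intro vs d hnd hz hwf
    cases vs with
    | nil => simp only [wf] at hwf
    | cons v vs =>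
      cases d with
      | zero => simp only [wf] at hwf
      | succ d =>
        simp only [wf] at hwf
        obtain ⟨h1, h2⟩ := hwf
        have hv : v ∉ vs := (List.nodup_cons.1 hnd).1
        have hvZ : v ≠ Lab.Z := fun h => hz (by simp [h])
        have e1 := ihp vs (d + 1) (List.nodup_cons.1 hnd).2
          (fun h => hz (List.mem_cons_of_mem _ h)) h1
        have e2 := ihq (v :: vs) d hnd hz h2
        have e3 : P.sum (P.nd p q) = P.sum p + P.sum q := rfl
        rw [e3, ← e1, ← e2]
        simp only [val]
        rw [Finset.sum_ite, add_comm]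
        congr 1
        · rw [Finset.sum_filter]
          refine Finset.sum_congr rfl (fun m hm => ?_)
          split_ifs with h
          · exact (val_eq_zero p vs (d + 1) m v h hv hvZ).symm
          · rfl
        · refine Finset.sum_bij' (fun m _ => m.erase v) (fun m _ => v ::ₘ m) ?_ ?_ ?_ ?_ ?_
          · intro m hm
            rw [Finset.mem_filter, mem_Ms] at hm
            rw [mem_Ms, Multiset.card_erase_of_mem hm.2, hm.1]
            rfl
          · intro m hm
            rw [mem_Ms] at hm
            rw [Finset.mem_filter, mem_Ms, Multiset.card_cons, hm]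
            exact ⟨rfl, Multiset.mem_cons_self _ _⟩
          · intro m hm
            rw [Finset.mem_filter] at hm
            exact Multiset.cons_erase hm.2
          · intro m hm
            exact Multiset.erase_cons_head _ _
          · intro m hm
            rfl

theorem card_typ (x : Fin 4 → Lab) : (typ x).card = 4 := by
  simp [typ]

theorem exists_typ (m : Multiset Lab) (hm : m.card = 4) : ∃ x, typ x = m := by
  induction m using Quotient.inductionOn with
  | h l =>
    have hl : l.length = 4 := by simpa using hm
    refine ⟨fun i => l.get (Fin.cast hl.symm i), ?_⟩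
    unfold typ
    rw [Fin.univ_val_map]
    change ((List.ofFn fun i => l.get (Fin.cast hl.symm i) : List Lab) : Multiset Lab) = (l : Multiset Lab)
    congr 1
    apply List.ext_getElem
    · rw [List.length_ofFn, hl]
    · intro n h1 h2
      rw [List.getElem_ofFn]
      rfl

open Classical in
theorem sum_typ (F : Multiset Lab → ℝ) :
    ∑ x : Fin 4 → Lab, F (typ x) / (mult x : ℝ) = ∑ m ∈ Ms 4, F m := by
  have h : ∀ x ∈ (Finset.univ : Finset (Fin 4 → Lab)), typ x ∈ Ms 4 := by
    intro x _
    rw [mem_Ms]
    exact card_typ x
  rw [← Finset.sum_fiberwise_of_maps_to h]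
  refine Finset.sum_congr rfl (fun m hm => ?_)
  rw [mem_Ms] at hm
  obtain ⟨x0, hx0⟩ := exists_typ m hm
  have e : ∀ x ∈ Finset.univ.filter (fun x : Fin 4 → Lab => typ x = m),
      F (typ x) / (mult x : ℝ) = F m / ((Finset.univ.filter
        (fun y : Fin 4 → Lab => typ y = m)).card : ℝ) := by
    intro x hx
    rw [Finset.mem_filter] at hx
    have : mult x = (Finset.univ.filter (fun y : Fin 4 → Lab => typ y = m)).card := by
      unfold mult
      rw [hx.2]
    rw [this, hx.2]
  rw [Finset.sum_congr rfl e, Finset.sum_const, nsmul_eq_mul]
  have hpos : (0 : ℝ) < ((Finset.univ.filter (fun y : Fin 4 → Lab => typ y = m)).card : ℝ) := by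
    have : 0 < (Finset.univ.filter (fun y : Fin 4 → Lab => typ y = m)).card :=
      Finset.card_pos.2 ⟨x0, by simp [hx0]⟩
    exact_mod_cast this
  field_simp

end sum_aux

theorem t_sum : S_sum := by
  intro vs p hnd hz hwf
  unfold Yof
  rw [sum_aux.sum_typ (fun m => (val vs 4 p m : ℝ)), ← sum_aux.sum_val p vs 4 hnd hz hwf]
  push_cast
  rfl

end Pool.Agent.helper237_G5
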