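import Pool.Agent.helper237_G5.Stmts2

/-! # `S_three`: the one-slot operator in three steps -/

namespace Pool.Agent.helper237_G5

namespace three_aux

/-- product of two transition matrices -/
noncomputable def cmp (E F : Lab → Lab → ℝ) (x y : Lab) : ℝ := ∑ z, E x z * F z y

theorem sum_prod (E F : Lab → Lab → ℝ) (x y : Fin 4 → Lab) :
    ∑ z : Fin 4 → Lab, (∏ i, E (x i) (z i)) * ∏ i, F (z i) (y i) = ∏ i, cmp E F (x i) (y i) := by
  unfold cmp
  rw [Finset.prod_univ_sum, Fintype.piFinset_univ]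
  refine Finset.sum_congr rfl (fun z _ => ?_)
  rw [Finset.prod_mul_distrib]

theorem push_push (E F : Lab → Lab → ℝ) (Y : (Fin 4 → Lab) → ℝ) :
    push F (push E Y) = push (cmp E F) Y := by
  funext y
  unfold push
  calc ∑ z : Fin 4 → Lab, (∑ x : Fin 4 → Lab, Y x * ∏ i, E (x i) (z i)) * ∏ i, F (z i) (y i)
      = ∑ z : Fin 4 → Lab, ∑ x : Fin 4 → Lab,
          Y x * ((∏ i, E (x i) (z i)) * ∏ i, F (z i) (y i)) := by
        refine Finset.sum_congr rfl (fun z _ => ?_)
        rw [Finset.sum_mul]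
        exact Finset.sum_congr rfl (fun x _ => by ring)
    _ = ∑ x : Fin 4 → Lab, ∑ z : Fin 4 → Lab,
          Y x * ((∏ i, E (x i) (z i)) * ∏ i, F (z i) (y i)) := Finset.sum_comm
    _ = ∑ x, Y x * ∏ i, cmp E F (x i) (y i) := by
        refine Finset.sum_congr rfl (fun x _ => ?_)
        rw [← Finset.mul_sum, sum_prod]

/-- sums over the labels -/
theorem sum_lab (f : Lab → ℝ) : ∑ z, f z = f Lab.Z + f Lab.C + ∑ j : Fin 6, f (Lab.U j) := by
  have h : (Finset.univ : Finset Lab) = {Lab.Z, Lab.C} ∪ (Finset.univ : Finset (Fin 6)).map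
      ⟨Lab.U, fun a b h => by injection h⟩ := by
    ext z
    cases z with
    | Z => simp
    | C => simp
    | U j =>
      simp only [Finset.mem_univ, Finset.mem_union, Finset.mem_map, true_and, true_iff]
      exact Or.inr ⟨j, rfl⟩
  rw [h, Finset.sum_union, Finset.sum_map]
  · rw [Finset.sum_pair (by simp)]
    rfl
  · rw [Finset.disjoint_left]
    intro z hz
    simp only [Finset.mem_insert, Finset.mem_singleton] at hz
    rcases hz with rfl | rfl <;> simp

/-- the matrix in which `Z`, `C` are fixed and `U j ↦ s j U j + (1 - s j) Z` for `j < J`, the other `U j` fixed -/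
noncomputable def FU (s : Fin 6 → ℝ) (J : ℕ) : Lab → Lab → ℝ
  | .Z, y => if y = Lab.Z then 1 else 0
  | .C, y => if y = Lab.C then 1 else 0
  | .U i, .Z => if (i : ℕ) < J then 1 - s i else 0
  | .U _, .C => 0
  | .U i, .U j => if i = j then (if (i : ℕ) < J then s i else 1) else 0

theorem cmp_FU (s : Fin 6 → ℝ) (J : ℕ) (hJ : J < 6) :
    cmp (FU s J) (EF (Lab.U ⟨J, hJ⟩) (s ⟨J, hJ⟩) (1 - s ⟨J, hJ⟩)) = FU s (J + 1) := by
  funext x y
  unfold cmp
  rw [sum_lab]
  cases x with
  | Z =>
    simp only [FU, EF]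
    cases y <;> simp
  | C =>
    simp only [FU, EF]
    cases y <;> simp
  | U i =>
    have h1 : ∀ z, ∑ j : Fin 6, FU s J (Lab.U i) (Lab.U j) * EF (Lab.U ⟨J, hJ⟩) (s ⟨J, hJ⟩)
        (1 - s ⟨J, hJ⟩) (Lab.U j) z = (if (i : ℕ) < J then s i else 1) *
          EF (Lab.U ⟨J, hJ⟩) (s ⟨J, hJ⟩) (1 - s ⟨J, hJ⟩) (Lab.U i) z := by
      intro z
      rw [Finset.sum_eq_single i]
      · simp only [FU, if_true]
      · intro b _ hb
        simp only [FU]
        rw [if_neg (Ne.symm hb), zero_mul]
      · intro h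
        exact absurd (Finset.mem_univ _) h
    rw [h1]
    rcases lt_trichotomy (i : ℕ) J with h | h | h
    · have hne : i ≠ ⟨J, hJ⟩ := fun e => by rw [e] at h; simp at h
      have h' : (i : ℕ) < J + 1 := by omega
      cases y with
      | Z => simp [FU, EF, h, h', hne]
      | C => simp [FU, EF, h, hne]
      | U j =>
        by_cases hij : i = j
        · subst hij
          simp [FU, EF, h, h', hne]
        · simp [FU, EF, h, hne, hij, Ne.symm hij]
    · have he : i = ⟨J, hJ⟩ := Fin.ext h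
      subst he
      cases y with
      | Z => simp [FU, EF]
      | C => simp [FU, EF]
      | U j =>
        by_cases hij : (⟨J, hJ⟩ : Fin 6) = j
        · subst hij
          simp [FU, EF]
        · simp [FU, EF, hij, Ne.symm hij]
    · have hne : i ≠ ⟨J, hJ⟩ := fun e => by rw [e] at h; simp at h
      have h2 : ¬ (i : ℕ) < J := by omega
      have h' : ¬ (i : ℕ) < J + 1 := by omega
      cases y with
      | Z => simp [FU, EF, h2, h', hne]
      | C => simp [FU, EF, hne]
      | U j =>
        by_cases hij : i = j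
        · subst hij
          simp [FU, EF, h2, h', hne]
        · simp [FU, EF, h2, hne, hij, Ne.symm hij]

theorem push_FU_zero (s : Fin 6 → ℝ) (Y : (Fin 4 → Lab) → ℝ) : push (FU s 0) Y = Y := by
  have hd : ∀ x y : Lab, FU s 0 x y = if x = y then 1 else 0 := by
    intro x y
    cases x <;> cases y <;> simp [FU]
  funext y
  unfold push
  rw [Finset.sum_eq_single y]
  · have : ∏ i, FU s 0 (y i) (y i) = 1 := Finset.prod_eq_one (fun i _ => by rw [hd, if_pos rfl])
    rw [this, mul_one]
  · intro x _ hx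
    obtain ⟨i, hi⟩ := Function.ne_iff.1 hx
    have : ∏ i, FU s 0 (x i) (y i) = 0 :=
      Finset.prod_eq_zero (Finset.mem_univ i) (by rw [hd, if_neg hi])
    rw [this, mul_zero]
  · intro h
    exact absurd (Finset.mem_univ _) h

theorem six (s : Fin 6 → ℝ) (Y : (Fin 4 → Lab) → ℝ) :
    push (EF (Lab.U 5) (s 5) (1 - s 5)) (push (EF (Lab.U 4) (s 4) (1 - s 4))
          (push (EF (Lab.U 3) (s 3) (1 - s 3)) (push (EF (Lab.U 2) (s 2) (1 - s 2))
          (push (EF (Lab.U 1) (s 1) (1 - s 1)) (push (EF (Lab.U 0) (s 0) (1 - s 0)) Y)))))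
      = push (FU s 6) Y := by
  have h0 := cmp_FU s 0 (by norm_num)
  have h1 := cmp_FU s 1 (by norm_num)
  have h2 := cmp_FU s 2 (by norm_num)
  have h3 := cmp_FU s 3 (by norm_num)
  have h4 := cmp_FU s 4 (by norm_num)
  have h5 := cmp_FU s 5 (by norm_num)
  have e0 : push (EF (Lab.U 0) (s 0) (1 - s 0)) Y = push (FU s 1) Y := by
    conv_lhs => rw [← push_FU_zero s Y]
    rw [push_push]
    exact congrArg (fun E => push E Y) h0
  have e1 : push (EF (Lab.U 1) (s 1) (1 - s 1)) (push (FU s 1) Y) = push (FU s 2) Y := by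
    rw [push_push]
    exact congrArg (fun E => push E Y) h1
  have e2 : push (EF (Lab.U 2) (s 2) (1 - s 2)) (push (FU s 2) Y) = push (FU s 3) Y := by
    rw [push_push]
    exact congrArg (fun E => push E Y) h2
  have e3 : push (EF (Lab.U 3) (s 3) (1 - s 3)) (push (FU s 3) Y) = push (FU s 4) Y := by
    rw [push_push]
    exact congrArg (fun E => push E Y) h3
  have e4 : push (EF (Lab.U 4) (s 4) (1 - s 4)) (push (FU s 4) Y) = push (FU s 5) Y := by
    rw [push_push]
    exact congrArg (fun E => push E Y) h4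
  have e5 : push (EF (Lab.U 5) (s 5) (1 - s 5)) (push (FU s 5) Y) = push (FU s 6) Y := by
    rw [push_push]
    exact congrArg (fun E => push E Y) h5
  rw [e0, e1, e2, e3, e4, e5]

/-- the matrix of the rise step -/
noncomputable def MM (w : Lab) (γ β : ℝ) : Lab → Lab → ℝ := cmp (EF Lab.C γ (1 - γ)) (EM w (1 - β) β)

theorem MM_Z (w : Lab) (γ β : ℝ) (y : Lab) : MM w γ β Lab.Z y = if y = Lab.Z then 1 else 0 := by
  unfold MM cmp
  rw [sum_lab]
  simp [EF, EM]

theorem MM_U (w : Lab) (γ β : ℝ) (j : Fin 6) (y : Lab) :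
    MM w γ β (Lab.U j) y = if y = Lab.U j then 1 else 0 := by
  unfold MM cmp
  rw [Finset.sum_eq_single (Lab.U j)]
  · simp [EF, EM]
  · intro z _ hz
    have : EF Lab.C γ (1 - γ) (Lab.U j) z = 0 := by simp [EF, hz]
    rw [this, zero_mul]
  · intro h
    exact absurd (Finset.mem_univ _) h

theorem MM_C (w : Lab) (γ β : ℝ) (y : Lab) :
    MM w γ β Lab.C y = (1 - γ) * (if y = Lab.Z then 1 else 0) +
      γ * (if y = Lab.C then 1 - β else if y = w then β else 0) := by
  unfold MM cmp
  rw [sum_lab]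
  simp [EF, EM]

/-- composition of the two matrices -/
theorem cmp_Tm (e : ℕ → Fin 6) (s : Option ℕ → ℕ → Fin 6 → ℝ) (u k : Option ℕ → ℕ → ℝ) (g : Option ℕ)
    (n : ℕ) (γ β : ℝ) (hk : k g n = γ * (1 - β)) (hu : u g n = γ * β) :
    cmp (FU (s g n) 6) (MM (Lab.U (e (n+1))) γ β) = Tm e s u k g n := by
  funext x y
  unfold cmp
  rw [sum_lab]
  cases x with
  | Z =>
    simp only [FU, MM_Z]
    cases y <;> simp [Tm]
  | C =>
    simp only [FU, MM_C]
    cases y with
    | Z =>
      simp only [Tm]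
      rw [hk, hu]
      simp
      ring
    | C =>
      simp only [Tm]
      rw [hk]
      simp
    | U j =>
      simp only [Tm]
      by_cases hj : j = e (n + 1)
      · rw [if_pos hj, hu]
        simp [hj]
      · rw [if_neg hj]
        simp [hj]
  | U i =>
    have h1 : ∀ z, ∑ j : Fin 6, FU (s g n) 6 (Lab.U i) (Lab.U j) * MM (Lab.U (e (n+1))) γ β (Lab.U j) z
        = s g n i * MM (Lab.U (e (n+1))) γ β (Lab.U i) z := by
      intro z
      rw [Finset.sum_eq_single i]
      · simp only [FU, if_true]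
        rw [if_pos i.2]
      · intro b _ hb
        simp only [FU]
        rw [if_neg (Ne.symm hb), zero_mul]
      · intro h
        exact absurd (Finset.mem_univ _) h
    rw [h1, MM_U, MM_Z, MM_C]
    cases y with
    | Z => simp [FU, Tm]
    | C => simp [FU, Tm]
    | U j =>
      by_cases hij : i = j
      · subst hij
        simp [FU, Tm]
      · simp [FU, Tm, hij, Ne.symm hij]

/-- in a nonzero product the middle tuple has as many up entries as there are children up at both times -/
theorem ups_eq_cnt (s : Fin 6 → ℝ) (w : Lab) (γ β : ℝ) (x z y : Fin 4 → Lab)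
    (h : (∏ i, FU s 6 (x i) (z i)) * ∏ i, MM w γ β (z i) (y i) ≠ 0) :
    (Finset.univ.filter (fun i => (z i).up = true)).card = cnt x y := by
  unfold cnt
  congr 1
  ext i
  simp only [Finset.mem_filter, Finset.mem_univ, true_and]
  have h1 : FU s 6 (x i) (z i) ≠ 0 := by
    intro e
    have e' : ∏ i, FU s 6 (x i) (z i) = 0 := Finset.prod_eq_zero (Finset.mem_univ i) e
    exact h (by rw [e', zero_mul])
  have h2 : MM w γ β (z i) (y i) ≠ 0 := by
    intro e
    have e' : ∏ i, MM w γ β (z i) (y i) = 0 := Finset.prod_eq_zero (Finset.mem_univ i) e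
    exact h (by rw [e', mul_zero])
  cases hz : z i with
  | Z =>
    rw [hz, MM_Z] at h2
    have hy : y i = Lab.Z := by
      by_contra hne
      exact h2 (if_neg hne)
    simp [hy, Lab.up]
  | C =>
    rw [hz] at h1
    cases hx : x i with
    | Z =>
      rw [hx] at h1
      simp [FU] at h1
    | C => simp [Lab.up]
    | U j =>
      rw [hx] at h1
      simp [FU] at h1
  | U j =>
    rw [hz, MM_U] at h2
    have hy : y i = Lab.U j := by
      by_contra hne
      exact h2 (if_neg hne)
    rw [hz] at h1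
    cases hx : x i with
    | Z =>
      rw [hx] at h1
      simp [FU] at h1
    | C =>
      rw [hx] at h1
      simp [FU] at h1
    | U l => simp [hy, Lab.up]

end three_aux

open three_aux in
theorem t_three : S_three := by
  intro e s u k g n w Y γ β hk hu
  rw [six, push_push]
  funext y
  unfold nat4
  rw [← cmp_Tm e s u k g n γ β hk hu]
  have hM : cmp (EF Lab.C γ (1 - γ)) (EM (Lab.U (e (n+1))) (1 - β) β) = MM (Lab.U (e (n+1))) γ β := rfl
  rw [hM]
  unfold push
  calc ∑ x : Fin 4 → Lab, Y x * (∏ i, cmp (FU (s g n) 6) (MM (Lab.U (e (n+1))) γ β) (x i) (y i))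
        * w (cnt x y)
      = ∑ x : Fin 4 → Lab, ∑ z : Fin 4 → Lab, Y x * ((∏ i, FU (s g n) 6 (x i) (z i)) *
          ∏ i, MM (Lab.U (e (n+1))) γ β (z i) (y i)) * w (cnt x y) := by
        refine Finset.sum_congr rfl (fun x _ => ?_)
        rw [← sum_prod, Finset.mul_sum, Finset.sum_mul]
    _ = ∑ x : Fin 4 → Lab, ∑ z : Fin 4 → Lab, Y x * ((∏ i, FU (s g n) 6 (x i) (z i)) *
          ∏ i, MM (Lab.U (e (n+1))) γ β (z i) (y i)) *
            w ((Finset.univ.filter (fun i => (z i).up = true)).card) := by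
        refine Finset.sum_congr rfl (fun x _ => Finset.sum_congr rfl (fun z _ => ?_))
        by_cases h0 : (∏ i, FU (s g n) 6 (x i) (z i)) *
          ∏ i, MM (Lab.U (e (n+1))) γ β (z i) (y i) = 0
        · rw [h0]
          simp
        · rw [ups_eq_cnt _ _ _ _ x z y h0]
    _ = ∑ z : Fin 4 → Lab, ∑ x : Fin 4 → Lab, Y x * ((∏ i, FU (s g n) 6 (x i) (z i)) *
          ∏ i, MM (Lab.U (e (n+1))) γ β (z i) (y i)) *
            w ((Finset.univ.filter (fun i => (z i).up = true)).card) := Finset.sum_comm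
    _ = _ := by
        refine Finset.sum_congr rfl (fun z _ => ?_)
        beta_reduce
        rw [Finset.mul_sum, Finset.sum_mul]
        exact Finset.sum_congr rfl (fun x _ => by ring)

end Pool.Agent.helper237_G5
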