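import Pool.Agent.helper237_G5.Stmts3

/-!
# A 5-regular tree
-/

namespace Pool.Agent.helper237_G5

namespace tree_aux

/-- vertices: the root and five copies of the 4-ary tree -/
abbrev V5 := Option (Fin 5 × List (Fin 4))

def parent : V5 → V5
  | none => none
  | some (_, []) => none
  | some (i, _ :: w) => some (i, w)

def depth : V5 → ℕ
  | none => 0
  | some (_, w) => w.length + 1

theorem depth_parent (v : V5) (h : v ≠ none) : depth (parent v) + 1 = depth v := by
  rcases v with _ | ⟨i, w⟩
  · exact absurd rfl h
  · cases w with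
    | nil => rfl
    | cons j w => rfl

/-- the graph -/
def G5 : SimpleGraph V5 where
  Adj v w := (v ≠ none ∧ w = parent v) ∨ (w ≠ none ∧ v = parent w)
  symm := ⟨fun v w h => h.symm⟩
  loopless := ⟨fun v h => by
    rcases h with ⟨h1, h2⟩ | ⟨h1, h2⟩ <;>
    · have := depth_parent v h1
      rw [← h2] at this
      omega⟩

theorem reach (n : ℕ) : ∀ v : V5, depth v = n → G5.Reachable v none := by
  induction n with
  | zero =>
    intro v hv
    rcases v with _ | ⟨i, w⟩
    · exact SimpleGraph.Reachable.refl _
    · simp [depth] at hv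
  | succ n ih =>
    intro v hv
    have hne : v ≠ none := by rintro rfl; simp [depth] at hv
    have h1 := depth_parent v hne
    have h2 : G5.Adj v (parent v) := Or.inl ⟨hne, rfl⟩
    exact h2.reachable.trans (ih _ (by omega))

theorem conn : G5.Connected := by
  have : Nonempty V5 := ⟨none⟩
  exact ⟨fun v w => (reach _ v rfl).trans (reach _ w rfl).symm⟩

theorem acyclic : G5.IsAcyclic := by
  classical
  intro v c hc
  -- a vertex of maximal depth
  obtain ⟨x, hx, hmax⟩ : ∃ x ∈ c.support, ∀ y ∈ c.support, depth y ≤ depth x := by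
    have hne : c.support.toFinset.Nonempty := ⟨v, by simp⟩
    obtain ⟨x, hx, h⟩ := Finset.exists_max_image c.support.toFinset depth hne
    exact ⟨x, by simpa using hx, fun y hy => h y (by simpa using hy)⟩
  have hc' := hc.rotate hx
  set d := c.rotate x hx with hd
  have hsup : ∀ y ∈ d.support, depth y ≤ depth x := fun y hy =>
    hmax y ((SimpleGraph.Walk.mem_support_rotate_iff c x hx).mp hy)
  have h1 : G5.Adj x d.snd := d.adj_snd hc'.not_nil
  have h2 : G5.Adj d.penultimate x := d.adj_penultimate hc'.not_nil
  have key : ∀ y ∈ d.support, G5.Adj x y → y = parent x := by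
    intro y hy hadj
    rcases hadj with ⟨_, h⟩ | ⟨hne, h⟩
    · exact h
    · have := depth_parent y hne
      have h3 := hsup y hy
      rw [← h] at this
      omega
  have e1 := key _ (d.getVert_mem_support 1) h1
  have e2 := key _ ((d.getVert_mem_support (d.length - 1))) h2.symm
  exact hc'.snd_ne_penultimate (e1.trans e2.symm)

/-- neighbours of the root -/
theorem nbr_none (w : V5) : G5.Adj none w ↔ ∃ i : Fin 5, w = some (i, []) := by
  constructor
  · rintro (⟨h, _⟩ | ⟨h, h2⟩)
    · exact absurd rfl h
    · rcases w with _ | ⟨i, w⟩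
      · exact absurd rfl h
      · cases w with
        | nil => exact ⟨i, rfl⟩
        | cons j w => exact absurd h2 (by simp [parent])
  · rintro ⟨i, rfl⟩
    exact Or.inr ⟨by simp, rfl⟩

/-- neighbours of the other vertices -/
theorem nbr_some (i : Fin 5) (u : List (Fin 4)) (w : V5) :
    G5.Adj (some (i, u)) w ↔ w = parent (some (i, u)) ∨ ∃ j : Fin 4, w = some (i, j :: u) := by
  constructor
  · rintro (⟨_, h⟩ | ⟨h, h2⟩)
    · exact Or.inl h
    · rcases w with _ | ⟨k, w⟩
      · exact absurd rfl h
      · cases w with
        | nil => exact absurd h2 (by simp [parent])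
        | cons j w =>
          simp only [parent, Option.some.injEq, Prod.mk.injEq] at h2
          obtain ⟨rfl, rfl⟩ := h2
          exact Or.inr ⟨j, rfl⟩
  · rintro (h | ⟨j, rfl⟩)
    · exact Or.inl ⟨by simp, h⟩
    · exact Or.inr ⟨by simp, rfl⟩

def nb : V5 → Finset V5
  | none => Finset.univ.image (fun i : Fin 5 => some (i, []))
  | some (i, u) => insert (parent (some (i, u))) (Finset.univ.image (fun j : Fin 4 => some (i, j :: u)))

theorem mem_nb (v w : V5) : w ∈ nb v ↔ G5.Adj v w := by
  rcases v with _ | ⟨i, u⟩
  · rw [nbr_none]; simp [nb, eq_comm]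
  · rw [nbr_some]; simp [nb, eq_comm]

theorem card_nb (v : V5) : (nb v).card = 5 := by
  rcases v with _ | ⟨i, u⟩
  · rw [nb, Finset.card_image_of_injective]
    · simp
    · intro a b h; simpa using h
  · rw [nb, Finset.card_insert_of_notMem, Finset.card_image_of_injective]
    · simp
    · intro a b h; simpa using h
    · simp only [Finset.mem_image, Finset.mem_univ, true_and, not_exists]
      intro j h
      have h1 := congrArg depth h
      have h2 := depth_parent (some (i, u)) (by simp)
      simp only [depth, List.length_cons] at h1 h2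
      omega

noncomputable instance lf : G5.LocallyFinite := fun v => Fintype.ofFinset (nb v) (fun w => mem_nb v w)

theorem deg (v : V5) : G5.degree v = 5 := by
  have h : G5.neighborFinset v = nb v := by
    ext w
    rw [SimpleGraph.mem_neighborFinset, mem_nb]
  rw [← SimpleGraph.card_neighborFinset_eq_degree, h, card_nb]

end tree_aux

open tree_aux in
theorem t_tree : S_tree := ⟨V5, G5, lf, ⟨conn, acyclic⟩, deg⟩

end Pool.Agent.helper237_G5
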