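import Pool.Agent.helper237_G5.Stmts3
import Pool.Agent.helper237_G5.T_clusters

/-!
# The law of the event `F_-` does not depend on the realisation of the dynamics
-/

namespace Pool.Agent.helper237_G5

open MeasureTheory ProbabilityTheory Filter Topology

namespace unique_aux

open clusters_aux (tau tau_zero tau_mono tau_nonneg tau_succ)

/-! ## 1. Discretisation (deterministic) -/

/-- grid of level `m` -/
noncomputable def gr (m n : ℕ) : ℝ := (n : ℝ) / (10 * 2 ^ m)

theorem gr_zero (m : ℕ) : gr m 0 = 0 := by simp [gr]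

theorem gr_strictMono (m : ℕ) : StrictMono (gr m) := by
  intro a b h
  unfold gr
  apply div_lt_div_of_pos_right _ (by positivity)
  exact_mod_cast h

theorem gr_nonneg (m n : ℕ) : 0 ≤ gr m n := by
  unfold gr
  positivity

theorem gr_mul (m K : ℕ) : gr m (K * 2 ^ m) = tau K := by
  unfold gr tau
  push_cast
  field_simp

theorem gr_succ_sub (m n : ℕ) : gr m (n + 1) - gr m n = 1 / (10 * 2 ^ m) := by
  unfold gr
  push_cast
  ring

theorem gr_even (m n : ℕ) : gr (m + 1) (2 * n) = gr m n := by
  unfold gr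
  push_cast
  rw [pow_succ]
  field_simp

theorem mesh_tendsto : Tendsto (fun m : ℕ => (1 : ℝ) / (10 * 2 ^ m)) atTop (𝓝 0) := by
  have h : Tendsto (fun m : ℕ => (1 / 10 : ℝ) * (1 / 2) ^ m) atTop (𝓝 ((1 / 10 : ℝ) * 0)) :=
    (tendsto_pow_atTop_nhds_zero_of_lt_one (by norm_num) (by norm_num)).const_mul _
  rw [mul_zero] at h
  refine h.congr (fun m => ?_)
  rw [one_div_pow]
  field_simp

section det
variable {V : Type} (G : SimpleGraph V) [G.LocallyFinite]

/-- the discrete dynamics driven by the array `x` -/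
def sig (x : V × Option ℕ → ℕ) : ℕ → V → Bool
  | 0, v => decide (x (v, none) = 1)
  | n + 1, v => if x (v, some n) = 0 then sig x n v else majority G (sig x n) v

theorem majority_congr {η η' : V → Bool} {v : V} (h : ∀ w, G.Adj v w → η w = η' w) :
    majority G η v = majority G η' v := by
  unfold majority plusNbrs
  have e : (G.neighborFinset v).filter (fun w => η w = true)
      = (G.neighborFinset v).filter (fun w => η' w = true) := by
    apply Finset.filter_congr
    intro w hw
    rw [h w ((SimpleGraph.mem_neighborFinset _ _ _).1 hw)]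
  rw [e]

/-- the array of a realisation -/
noncomputable def arr (init : V → Bool) (R : V → Set ℝ) (m : ℕ) (i : V × Option ℕ) : ℕ :=
  match i.2 with
  | none => if init i.1 = true then 1 else 0
  | some n => (R i.1 ∩ Set.Ioc (gr m n) (gr m (n + 1))).ncard

theorem finite_separated (P : Set ℝ) (hP : P.Finite) :
    ∃ δ > 0, ∀ x ∈ P, ∀ y ∈ P, |x - y| < δ → x = y := by
  by_cases h : (P ×ˢ P ∩ {z : ℝ × ℝ | z.1 ≠ z.2}).Nonempty
  · obtain ⟨z0, hz0, hmin⟩ := Set.exists_min_image _ (fun z : ℝ × ℝ => |z.1 - z.2|)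
      ((hP.prod hP).subset Set.inter_subset_left) h
    refine ⟨|z0.1 - z0.2|, abs_pos.2 (sub_ne_zero.2 hz0.2), ?_⟩
    intro x hx y hy hxy
    by_contra hne
    exact absurd (hmin (x, y) ⟨⟨hx, hy⟩, hne⟩) (not_le.2 hxy)
  · refine ⟨1, one_pos, ?_⟩
    intro x hx y hy _
    by_contra hne
    exact h ⟨(x, y), ⟨hx, hy⟩, hne⟩

theorem lt_ev' {a s0 : ℝ} (h : a < s0) : ∀ᶠ s in 𝓝[<] s0, a ≤ s ∧ s < s0 := by
  filter_upwards [Ioo_mem_nhdsLT h] with s hs
  exact ⟨hs.1.le, hs.2⟩

/-- the discrete dynamics converges to the dynamics -/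
theorem approx (init : V → Bool) (R : V → Set ℝ) (σ : ℝ → V → Bool)
    (hRf : ∀ v s, (R v ∩ Set.Iic s).Finite)
    (h0 : ∀ v, σ 0 v = init v)
    (hc : ∀ v s s', 0 ≤ s → s ≤ s' → R v ∩ Set.Ioc s s' = ∅ → σ s' v = σ s v)
    (hu : ∀ v s', s' ∈ R v → ∀ᶠ s in 𝓝[<] s', σ s' v = majority G (σ s) v)
    (hF : ∀ k, FiniteClusters G R (tau k) (tau (k + 1))) (K : ℕ) :
    ∀ u, ∀ᶠ m in atTop, ∀ n ≤ K * 2 ^ m, sig G (arr init R m) n u = σ (gr m n) u := by
  induction K with
  | zero =>
    intro u
    refine Eventually.of_forall (fun m n hn => ?_)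
    have hn0 : n = 0 := by simpa using hn
    subst hn0
    rw [gr_zero, h0]
    simp only [sig, arr]
    by_cases h : init u = true <;> simp [h]
  | succ K ih =>
    intro u
    set C : Set V := {w | ∃ q : G.Walk u w, ∀ x ∈ q.support,
      (R x ∩ Set.Ioc (tau K) (tau (K + 1))).Nonempty} with hCdef
    have hCfin : C.Finite := hF K u
    set F : Set V := insert u (C ∪ ⋃ w ∈ C, {z | G.Adj w z}) with hFdef
    have hFfin : F.Finite := by
      refine Set.Finite.insert u (hCfin.union (hCfin.biUnion (fun w _ => ?_)))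
      refine (G.neighborFinset w).finite_toSet.subset ?_
      intro z hz
      simpa using hz
    have huF : u ∈ F := Set.mem_insert _ _
    -- a ringing vertex of `F` is in `C`
    have hring : ∀ w ∈ F, (R w ∩ Set.Ioc (tau K) (tau (K + 1))).Nonempty → w ∈ C := by
      intro w hw hr
      rcases hw with rfl | hw | hw
      · refine ⟨SimpleGraph.Walk.nil, ?_⟩
        intro x hx
        rw [SimpleGraph.Walk.support_nil, List.mem_singleton] at hx
        rw [hx]; exact hr
      · exact hw
      · rw [Set.mem_iUnion₂] at hw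
        obtain ⟨w', ⟨q, hq⟩, hadj⟩ := hw
        refine ⟨q.concat hadj, ?_⟩
        intro x hx
        rw [SimpleGraph.Walk.support_concat, List.mem_append, List.mem_singleton] at hx
        rcases hx with hx | hx
        · exact hq x hx
        · rw [hx]; exact hr
    have hnb : ∀ w ∈ C, ∀ z, G.Adj w z → z ∈ F := by
      intro w hw z hz
      exact Or.inr (Or.inr (Set.mem_iUnion₂.2 ⟨w, hw, hz⟩))
    have hPfin : (⋃ w ∈ F, (R w ∩ Set.Iic (tau (K + 1)))).Finite := hFfin.biUnion (fun w _ => hRf w _)
    obtain ⟨δ, hδ, hsep⟩ := finite_separated _ hPfin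
    have hev1 : ∀ᶠ m in atTop, ∀ w ∈ F, ∀ n ≤ K * 2 ^ m, sig G (arr init R m) n w = σ (gr m n) w :=
      (eventually_all_finite hFfin).2 (fun w _ => ih w)
    have hev2 : ∀ᶠ m : ℕ in atTop, (1 : ℝ) / (10 * 2 ^ m) < δ :=
      mesh_tendsto.eventually (gt_mem_nhds hδ)
    filter_upwards [hev1, hev2] with m hm1 hm2
    have key : ∀ j, j ≤ 2 ^ m → ∀ w ∈ F,
        sig G (arr init R m) (K * 2 ^ m + j) w = σ (gr m (K * 2 ^ m + j)) w := by
      intro j
      induction j with
      | zero => intro _ w hw; exact hm1 w hw _ le_rfl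
      | succ j ihj =>
        intro hj w hw
        have ihj' := ihj (by omega)
        set n := K * 2 ^ m + j with hn
        have hlo : tau K ≤ gr m n := by
          rw [← gr_mul m K]
          exact (gr_strictMono m).monotone (by omega)
        have hhi : gr m (n + 1) ≤ tau (K + 1) := by
          rw [← gr_mul m (K + 1)]
          apply (gr_strictMono m).monotone
          rw [Nat.add_mul, one_mul]
          omega
        have hlt : gr m n < gr m (n + 1) := gr_strictMono m (Nat.lt_succ_self n)
        have hcell : ∀ z ∈ F, ∀ z' ∈ F, ∀ s ∈ R z ∩ Set.Ioc (gr m n) (gr m (n + 1)),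
            ∀ s' ∈ R z' ∩ Set.Ioc (gr m n) (gr m (n + 1)), s = s' := by
          rintro z hz z' hz' s ⟨hs, hs1, hs2⟩ s' ⟨hs', hs1', hs2'⟩
          apply hsep s (Set.mem_biUnion hz ⟨hs, hs2.trans hhi⟩) s'
            (Set.mem_biUnion hz' ⟨hs', hs2'.trans hhi⟩)
          have := gr_succ_sub m n
          rw [abs_lt]
          constructor <;> linarith
        have hfin : (R w ∩ Set.Ioc (gr m n) (gr m (n + 1))).Finite :=
          (hRf w (gr m (n + 1))).subset (Set.inter_subset_inter_right _ Set.Ioc_subset_Iic_self)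
        change (if arr init R m (w, some n) = 0 then sig G (arr init R m) n w
          else majority G (sig G (arr init R m) n) w) = σ (gr m (n + 1)) w
        by_cases hne : (R w ∩ Set.Ioc (gr m n) (gr m (n + 1))).Nonempty
        · have harr : arr init R m (w, some n) ≠ 0 := by
            change (R w ∩ Set.Ioc (gr m n) (gr m (n + 1))).ncard ≠ 0
            rw [← Nat.pos_iff_ne_zero, Set.ncard_pos hfin]
            exact hne
          rw [if_neg harr]
          obtain ⟨s, hs⟩ := hne
          have hwC : w ∈ C := by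
            refine hring w hw ⟨s, hs.1, lt_of_le_of_lt hlo hs.2.1, hs.2.2.trans hhi⟩
          have h1 : σ (gr m (n + 1)) w = σ s w := by
            refine hc w s (gr m (n + 1)) ((gr_nonneg m n).trans hs.2.1.le) hs.2.2 ?_
            rw [Set.eq_empty_iff_forall_notMem]
            rintro x ⟨hx, hx1, hx2⟩
            have := hcell w hw w hw s hs x ⟨hx, hs.2.1.trans hx1, hx2⟩
            exact absurd hx1 (by rw [this]; exact lt_irrefl _)
          rw [h1]
          obtain ⟨s', hs', hs'1, hs'2⟩ := ((hu w s hs.1).and (lt_ev' hs.2.1)).exists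
          rw [hs']
          apply majority_congr
          intro z hz
          rw [ihj' z (hnb w hwC z hz)]
          symm
          refine hc z (gr m n) s' (gr_nonneg m n) hs'1 ?_
          rw [Set.eq_empty_iff_forall_notMem]
          rintro x ⟨hx, hx1, hx2⟩
          have := hcell z (hnb w hwC z hz) w hw x ⟨hx, hx1, (hx2.trans hs'2.le).trans hs.2.2⟩ s hs
          rw [this] at hx2
          exact absurd hs'2 (not_lt.2 hx2)
        · rw [Set.not_nonempty_iff_eq_empty] at hne
          have harr : arr init R m (w, some n) = 0 := by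
            change (R w ∩ Set.Ioc (gr m n) (gr m (n + 1))).ncard = 0
            rw [hne, Set.ncard_empty]
          rw [if_pos harr, ihj' w hw]
          exact (hc w _ _ (gr_nonneg m n) hlt.le hne).symm
    intro n hn
    by_cases hle : n ≤ K * 2 ^ m
    · exact hm1 u huF n hle
    · have hj : n = K * 2 ^ m + (n - K * 2 ^ m) := by omega
      rw [hj]
      refine key _ ?_ u huF
      rw [Nat.add_mul, one_mul] at hn
      omega

theorem fminus_iff (init : V → Bool) (R : V → Set ℝ) (σ : ℝ → V → Bool)
    (hRf : ∀ v s, (R v ∩ Set.Iic s).Finite)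
    (h0 : ∀ v, σ 0 v = init v)
    (hc : ∀ v s s', 0 ≤ s → s ≤ s' → R v ∩ Set.Ioc s s' = ∅ → σ s' v = σ s v)
    (hu : ∀ v s', s' ∈ R v → ∀ᶠ s in 𝓝[<] s', σ s' v = majority G (σ s) v)
    (hF : ∀ k, FiniteClusters G R (tau k) (tau (k + 1))) (o : V) :
    (∀ᶠ t in atTop, σ t o = false) ↔ ∃ T, ∀ K, ∃ M, ∀ N m, M ≤ m → m ≤ N →
      ∀ n, T * 2 ^ m ≤ n → n ≤ K * 2 ^ m → sig G (arr init R m) n o = false := by
  have happ := approx G init R σ hRf h0 hc hu hF
  constructor
  · intro h
    obtain ⟨T0, hT0⟩ := eventually_atTop.1 h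
    refine ⟨⌈10 * T0⌉₊, fun K => ?_⟩
    obtain ⟨M, hM⟩ := eventually_atTop.1 (happ K o)
    refine ⟨M, fun N m hm _ n hn1 hn2 => ?_⟩
    rw [hM m hm n hn2]
    apply hT0
    have h1 : 10 * T0 ≤ (⌈10 * T0⌉₊ : ℝ) := Nat.le_ceil _
    have h2 : tau ⌈10 * T0⌉₊ ≤ gr m n := by
      rw [← gr_mul m]
      exact (gr_strictMono m).monotone hn1
    unfold tau at h2
    linarith
  · rintro ⟨T, hT⟩
    rw [eventually_atTop]
    refine ⟨tau T, fun t ht => ?_⟩
    have ht0 : 0 ≤ t := (tau_nonneg T).trans ht
    obtain ⟨M, hM⟩ := hT ⌈10 * (t + 1)⌉₊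
    have hev := happ ⌈10 * (t + 1)⌉₊ o
    -- no ring of `o` just after `t`
    have hfin : (R o ∩ Set.Ioc t (t + 1)).Finite :=
      (hRf o (t + 1)).subset (Set.inter_subset_inter_right _ Set.Ioc_subset_Iic_self)
    have hnot : t ∉ R o ∩ Set.Ioc t (t + 1) := fun h => lt_irrefl _ h.2.1
    obtain ⟨δ, hδ, hball⟩ := Metric.isOpen_iff.1 hfin.isClosed.isOpen_compl t hnot
    have hev2 : ∀ᶠ m : ℕ in atTop, (1 : ℝ) / (10 * 2 ^ m) < min δ 1 :=
      mesh_tendsto.eventually (gt_mem_nhds (lt_min hδ one_pos))
    obtain ⟨m, hm1, hm2, hm3⟩ := (hev.and (hev2.and (eventually_ge_atTop M))).exists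
    have hpos : (0 : ℝ) < 10 * 2 ^ m := by positivity
    set n := ⌊t * (10 * 2 ^ m)⌋₊ + 1 with hn
    have hfl1 : (⌊t * (10 * 2 ^ m)⌋₊ : ℝ) ≤ t * (10 * 2 ^ m) := Nat.floor_le (by positivity)
    have hfl2 : t * (10 * 2 ^ m) < (⌊t * (10 * 2 ^ m)⌋₊ : ℝ) + 1 := Nat.lt_floor_add_one _
    have hg1 : t < gr m n := by
      unfold gr
      rw [lt_div_iff₀ hpos, hn]
      push_cast
      exact hfl2
    have hg2 : gr m n ≤ t + 1 / (10 * 2 ^ m) := by
      unfold gr
      rw [div_le_iff₀ hpos, hn, add_mul, one_div_mul_cancel hpos.ne']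
      push_cast
      linarith
    have hg3 : gr m n < t + δ := by
      have := lt_of_lt_of_le hm2 (min_le_left _ _)
      linarith
    have hg4 : gr m n ≤ t + 1 := by
      have := lt_of_lt_of_le hm2 (min_le_right _ _)
      linarith
    have hnT : T * 2 ^ m ≤ n := by
      have h1 : tau T < gr m n := lt_of_le_of_lt ht hg1
      rw [← gr_mul m T] at h1
      exact ((gr_strictMono m).lt_iff_lt.1 h1).le
    have hnK : n ≤ ⌈10 * (t + 1)⌉₊ * 2 ^ m := by
      have h1 : gr m n ≤ tau ⌈10 * (t + 1)⌉₊ := by
        have := Nat.le_ceil (10 * (t + 1))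
        unfold tau
        linarith
      rw [← gr_mul m] at h1
      exact (gr_strictMono m).le_iff_le.1 h1
    have h1 := hM m m hm3 le_rfl n hnT hnK
    rw [hm1 n hnK] at h1
    rw [← h1]
    symm
    refine hc o t (gr m n) ht0 hg1.le ?_
    rw [Set.eq_empty_iff_forall_notMem]
    rintro x ⟨hx, hx1, hx2⟩
    have hxb : x ∈ Metric.ball t δ := by
      rw [Metric.mem_ball, Real.dist_eq, abs_lt]
      constructor <;> linarith
    exact hball hxb ⟨hx, hx1, hx2.trans hg4⟩

end det

/-! ## 2. The law of the array -/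

/-- pass from level `m+1` to level `m` -/
def coarse {V : Type} (y : V × Option ℕ → ℕ) (i : V × Option ℕ) : ℕ :=
  match i.2 with
  | none => y (i.1, none)
  | some n => y (i.1, some (2 * n)) + y (i.1, some (2 * n + 1))

theorem coarse_measurable {V : Type} : Measurable (coarse (V := V)) := by
  rw [measurable_pi_iff]
  rintro ⟨v, _ | n⟩
  · exact measurable_pi_apply _
  · exact (measurable_pi_apply _).add (measurable_pi_apply _)

theorem arr_coarse {V : Type} (init : V → Bool) (R : V → Set ℝ)
    (hRf : ∀ v s, (R v ∩ Set.Iic s).Finite) (m : ℕ) :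
    arr init R m = coarse (arr init R (m + 1)) := by
  funext i
  obtain ⟨v, _ | n⟩ := i
  · rfl
  · change (R v ∩ Set.Ioc (gr m n) (gr m (n + 1))).ncard
      = (R v ∩ Set.Ioc (gr (m + 1) (2 * n)) (gr (m + 1) (2 * n + 1))).ncard
        + (R v ∩ Set.Ioc (gr (m + 1) (2 * n + 1)) (gr (m + 1) (2 * n + 1 + 1))).ncard
    have hfin : ∀ a b, (R v ∩ Set.Ioc a b).Finite := fun a b =>
      (hRf v b).subset (Set.inter_subset_inter_right _ Set.Ioc_subset_Iic_self)
    have h1 : gr (m + 1) (2 * n) ≤ gr (m + 1) (2 * n + 1) := (gr_strictMono _).monotone (by omega)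
    have h2 : gr (m + 1) (2 * n + 1) ≤ gr (m + 1) (2 * n + 1 + 1) := (gr_strictMono _).monotone (by omega)
    rw [← Set.ncard_union_eq ?_ (hfin _ _) (hfin _ _), ← Set.inter_union_distrib_left,
      Set.Ioc_union_Ioc_eq_Ioc h1 h2, gr_even, show 2 * n + 1 + 1 = 2 * (n + 1) by ring, gr_even]
    rw [Set.disjoint_left]
    rintro x ⟨_, hx1⟩ ⟨_, hx2⟩
    exact absurd hx2.1 (not_lt.2 hx1.2)

theorem arr_coarse_iter {V : Type} (init : V → Bool) (R : V → Set ℝ)
    (hRf : ∀ v s, (R v ∩ Set.Iic s).Finite) (m k : ℕ) :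
    arr init R m = coarse^[k] (arr init R (m + k)) := by
  induction k with
  | zero => rfl
  | succ k ih =>
    rw [ih, arr_coarse init R hRf (m + k), ← Function.iterate_succ_apply, Nat.add_assoc]

section meas
variable {V : Type} (G : SimpleGraph V) [G.LocallyFinite]

theorem majority_measurable (v : V) : Measurable (fun η : V → Bool => majority G η v) := by
  have h : Measurable (fun η : V → Bool => plusNbrs G η v) := by
    have e : (fun η : V → Bool => plusNbrs G η v)
        = fun η => ∑ w ∈ G.neighborFinset v, if η w = true then 1 else 0 := by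
      funext η
      rw [plusNbrs, Finset.card_filter]
    rw [e]
    refine Finset.measurable_sum _ (fun w _ => ?_)
    have hm : MeasurableSet {η : V → Bool | η w = true} :=
      (measurable_pi_apply (X := fun _ : V => Bool) w) (measurableSet_singleton true)
    exact Measurable.ite hm measurable_const measurable_const
  have h2 : Measurable (fun k : ℕ => decide (G.degree v < 2 * k)) := measurable_of_countable _
  exact h2.comp h

theorem sig_measurable (n : ℕ) : Measurable (fun x : V × Option ℕ → ℕ => sig G x n) := by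
  induction n with
  | zero =>
    rw [measurable_pi_iff]
    intro v
    have h2 : Measurable (fun k : ℕ => decide (k = 1)) := measurable_of_countable _
    exact h2.comp (measurable_pi_apply (v, none))
  | succ n ih =>
    rw [measurable_pi_iff]
    intro v
    exact Measurable.ite (measurable_pi_apply (v, some n) (measurableSet_singleton 0))
      ((measurable_pi_apply v).comp ih) ((majority_measurable G v).comp ih)

/-- the set of arrays of level `N` -/
def DD (o : V) (T K M N : ℕ) : Set (V × Option ℕ → ℕ) :=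
  {y | ∀ m, M ≤ m → m ≤ N → ∀ n, T * 2 ^ m ≤ n → n ≤ K * 2 ^ m → sig G (coarse^[N - m] y) n o = false}

theorem coarse_iter_measurable (k : ℕ) : Measurable (coarse (V := V))^[k] :=
  coarse_measurable.iterate k

theorem DD_measurable (o : V) (T K M N : ℕ) : MeasurableSet (DD G o T K M N) := by
  have e : DD G o T K M N = ⋂ m, ⋂ (_ : M ≤ m), ⋂ (_ : m ≤ N), ⋂ n, ⋂ (_ : T * 2 ^ m ≤ n),
      ⋂ (_ : n ≤ K * 2 ^ m), (fun y => sig G (coarse^[N - m] y) n o) ⁻¹' {false} := by
    ext y
    simp [DD]
  rw [e]
  refine MeasurableSet.iInter fun m => MeasurableSet.iInter fun _ => MeasurableSet.iInter fun _ =>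
    MeasurableSet.iInter fun n => MeasurableSet.iInter fun _ => MeasurableSet.iInter fun _ => ?_
  exact ((measurable_pi_apply o).comp ((sig_measurable G n).comp (coarse_iter_measurable (N - m))))
    (measurableSet_singleton false)

end meas

section law
variable {V : Type} {p : ℝ} (G : SimpleGraph V) [G.LocallyFinite]
  {Ω : Type} [MeasurableSpace Ω] {μ : Measure Ω} {init : V → Ω → Bool} {rings : V → Ω → Set ℝ}
  {σ : Ω → ℝ → V → Bool}
  {Ω' : Type} [MeasurableSpace Ω'] {μ' : Measure Ω'} {init' : V → Ω' → Bool} {rings' : V → Ω' → Set ℝ}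
  {σ' : Ω' → ℝ → V → Bool}

/-- the random array -/
noncomputable def XX (init : V → Ω → Bool) (rings : V → Ω → Set ℝ) (m : ℕ) (i : V × Option ℕ) (ω : Ω) : ℕ :=
  match i.2 with
  | none => if init i.1 ω = true then 1 else 0
  | some n => ringCount rings i.1 (gr m n) (gr m (n + 1)) ω

omit [MeasurableSpace Ω] in
theorem XX_eq_arr (m : ℕ) (ω : Ω) :
    (fun i => XX init rings m i ω) = arr (fun v => init v ω) (fun v => rings v ω) m := by
  funext i
  obtain ⟨v, _ | n⟩ := i <;> rfl

theorem XX_measurable (h : IsGlauber G p μ init rings σ) (m : ℕ) (i : V × Option ℕ) :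
    Measurable (XX init rings m i) := by
  obtain ⟨v, _ | n⟩ := i
  · exact Measurable.ite (h.init_meas v (measurableSet_singleton true)) measurable_const measurable_const
  · exact h.count_meas v _ _

theorem XX_indep (h : IsGlauber G p μ init rings σ) (m : ℕ) : iIndepFun (XX init rings m) μ :=
  h.indep (gr m) (gr_zero m) (gr_strictMono m)

theorem XX_law (h : IsGlauber G p μ init rings σ) (h' : IsGlauber G p μ' init' rings' σ') (m : ℕ)
    (i : V × Option ℕ) : μ.map (XX init rings m i) = μ'.map (XX init' rings' m i) := by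
  have := h.prob
  have := h'.prob
  apply Measure.ext_of_singleton
  intro k
  rw [Measure.map_apply (XX_measurable G h m i) (measurableSet_singleton k),
    Measure.map_apply (XX_measurable G h' m i) (measurableSet_singleton k)]
  obtain ⟨v, _ | n⟩ := i
  · have e1 : (XX init rings m (v, none)) ⁻¹' {1} = {ω | init v ω = true} := by
      ext ω
      by_cases hω : init v ω = true <;> simp [XX, hω]
    have e1' : (XX init' rings' m (v, none)) ⁻¹' {1} = {ω | init' v ω = true} := by
      ext ω
      by_cases hω : init' v ω = true <;> simp [XX, hω]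
    have hm : MeasurableSet {ω | init v ω = true} := h.init_meas v (measurableSet_singleton true)
    have hm' : MeasurableSet {ω | init' v ω = true} := h'.init_meas v (measurableSet_singleton true)
    rcases k with _ | _ | k
    · have e0 : (XX init rings m (v, none)) ⁻¹' {0} = {ω | init v ω = true}ᶜ := by
        ext ω
        by_cases hω : init v ω = true <;> simp [XX, hω]
      have e0' : (XX init' rings' m (v, none)) ⁻¹' {0} = {ω | init' v ω = true}ᶜ := by
        ext ω
        by_cases hω : init' v ω = true <;> simp [XX, hω]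
      rw [e0, e0', prob_compl_eq_one_sub hm, prob_compl_eq_one_sub hm', h.init_law, h'.init_law]
    · rw [zero_add, e1, e1', h.init_law, h'.init_law]
    · have e0 : (XX init rings m (v, none)) ⁻¹' {k + 1 + 1} = ∅ := by
        ext ω
        by_cases hω : init v ω = true <;> simp [XX, hω]
      have e0' : (XX init' rings' m (v, none)) ⁻¹' {k + 1 + 1} = ∅ := by
        ext ω
        by_cases hω : init' v ω = true <;> simp [XX, hω]
      rw [e0, e0', measure_empty, measure_empty]
  · have h1 := h.count_law v (gr m n) (gr m (n + 1)) (gr_nonneg m n) (gr_strictMono m (Nat.lt_succ_self n)) k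
    have h2 := h'.count_law v (gr m n) (gr m (n + 1)) (gr_nonneg m n) (gr_strictMono m (Nat.lt_succ_self n)) k
    exact h1.trans h2.symm

theorem joint_law (h : IsGlauber G p μ init rings σ) (h' : IsGlauber G p μ' init' rings' σ') (m : ℕ) :
    μ.map (fun ω i => XX init rings m i ω) = μ'.map (fun ω i => XX init' rings' m i ω) := by
  rw [(XX_indep G h m).map_fun_eq_infinitePi_map (XX_measurable G h m),
    (XX_indep G h' m).map_fun_eq_infinitePi_map (XX_measurable G h' m)]
  congr 1
  funext i
  exact XX_law G h h' m i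

/-- the approximating events -/
def EE (init : V → Ω → Bool) (rings : V → Ω → Set ℝ) (o : V) (T K M N : ℕ) : Set Ω :=
  {ω | ∀ m, M ≤ m → m ≤ N → ∀ n, T * 2 ^ m ≤ n → n ≤ K * 2 ^ m →
    sig G (arr (fun v => init v ω) (fun v => rings v ω) m) n o = false}

theorem EE_eq (h : IsGlauber G p μ init rings σ) (o : V) (T K M N : ℕ) :
    EE G init rings o T K M N = (fun ω i => XX init rings N i ω) ⁻¹' (DD G o T K M N) := by
  ext ω
  have key : ∀ m, m ≤ N → arr (fun v => init v ω) (fun v => rings v ω) m
      = coarse^[N - m] (fun i => XX init rings N i ω) := by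
    intro m hm
    rw [XX_eq_arr, arr_coarse_iter (fun v => init v ω) (fun v => rings v ω)
      (fun v s => h.rings_fin v ω s) m (N - m), Nat.add_sub_cancel' hm]
  constructor
  · intro hω m hM hN n hn1 hn2
    rw [← key m hN]
    exact hω m hM hN n hn1 hn2
  · intro hω m hM hN n hn1 hn2
    rw [key m hN]
    exact hω m hM hN n hn1 hn2

theorem EE_measurable (h : IsGlauber G p μ init rings σ) (o : V) (T K M N : ℕ) :
    MeasurableSet (EE G init rings o T K M N) := by
  rw [EE_eq G h]
  exact (measurable_pi_iff.2 (XX_measurable G h N)) (DD_measurable G o T K M N)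

theorem EE_measure (h : IsGlauber G p μ init rings σ) (h' : IsGlauber G p μ' init' rings' σ') (o : V)
    (T K M N : ℕ) : μ (EE G init rings o T K M N) = μ' (EE G init' rings' o T K M N) := by
  rw [EE_eq G h, EE_eq G h', ← Measure.map_apply (measurable_pi_iff.2 (XX_measurable G h N)) (DD_measurable G o T K M N),
    ← Measure.map_apply (measurable_pi_iff.2 (XX_measurable G h' N)) (DD_measurable G o T K M N), joint_law G h h' N]

theorem measure_nested (h : IsGlauber G p μ init rings σ) (o : V) :
    μ (⋃ T, ⋂ K, ⋃ M, ⋂ N, EE G init rings o T K M N) = ⨆ T, ⨅ K, ⨆ M, ⨅ N, μ (EE G init rings o T K M N) := by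
  have := h.prob
  have hN : ∀ T K M, Antitone (fun N => EE G init rings o T K M N) := by
    intro T K M N N' hNN ω hω m hM hN n hn1 hn2
    exact hω m hM (hN.trans hNN) n hn1 hn2
  have hM : ∀ T K, Monotone (fun M => ⋂ N, EE G init rings o T K M N) := by
    intro T K M M' hMM
    refine Set.iInter_mono fun N ω hω m hM hN n hn1 hn2 => ?_
    exact hω m (hMM.trans hM) hN n hn1 hn2
  have hK : ∀ T, Antitone (fun K => ⋃ M, ⋂ N, EE G init rings o T K M N) := by
    intro T K K' hKK
    refine Set.iUnion_mono fun M => Set.iInter_mono fun N ω hω m hM hN n hn1 hn2 => ?_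
    exact hω m hM hN n hn1 (hn2.trans (Nat.mul_le_mul_right _ hKK))
  have hT : Monotone (fun T => ⋂ K, ⋃ M, ⋂ N, EE G init rings o T K M N) := by
    intro T T' hTT
    refine Set.iInter_mono fun K => Set.iUnion_mono fun M => Set.iInter_mono fun N ω hω m hM hN n hn1 hn2 => ?_
    exact hω m hM hN n ((Nat.mul_le_mul_right _ hTT).trans hn1) hn2
  have m1 : ∀ T K M, MeasurableSet (⋂ N, EE G init rings o T K M N) := fun T K M =>
    MeasurableSet.iInter fun N => EE_measurable G h o T K M N
  have m2 : ∀ T K, MeasurableSet (⋃ M, ⋂ N, EE G init rings o T K M N) := fun T K =>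
    MeasurableSet.iUnion fun M => m1 T K M
  rw [hT.measure_iUnion]
  refine iSup_congr fun T => ?_
  rw [(hK T).measure_iInter (fun K => (m2 T K).nullMeasurableSet) ⟨0, measure_ne_top _ _⟩]
  refine iInf_congr fun K => ?_
  rw [(hM T K).measure_iUnion]
  refine iSup_congr fun M => ?_
  rw [(hN T K M).measure_iInter (fun N => (EE_measurable G h o T K M N).nullMeasurableSet) ⟨0, measure_ne_top _ _⟩]

theorem nested_measurable (h : IsGlauber G p μ init rings σ) (o : V) :
    MeasurableSet (⋃ T, ⋂ K, ⋃ M, ⋂ N, EE G init rings o T K M N) :=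
  MeasurableSet.iUnion fun T => MeasurableSet.iInter fun K => MeasurableSet.iUnion fun M =>
    MeasurableSet.iInter fun N => EE_measurable G h o T K M N

theorem ae_clusters (hd : ∀ v, G.degree v = 5) (hconn : G.Connected) (h : IsGlauber G p μ init rings σ) :
    ∀ᵐ ω ∂μ, ∀ k, FiniteClusters G (fun v => rings v ω) (tau k) (tau (k+1)) := by
  have := clusters_aux.countable_of_connected G hconn
  rw [ae_all_iff]
  intro k
  have h1 : ∀ᵐ ω ∂μ, ∀ v, ∃ m, ω ∉ clusters_aux.B G rings k v m := by
    rw [ae_all_iff]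
    intro v
    exact clusters_aux.ae_exists hd h k v
  filter_upwards [h1] with ω hω v
  obtain ⟨m, hm⟩ := hω v
  refine clusters_aux.finite_of G (fun x => (rings x ω ∩ Set.Ioc (tau k) (tau (k + 1))).Nonempty) v m ?_
  intro l hl hn
  by_contra hcon
  push Not at hcon
  apply hm
  refine ⟨l, hl, hn, ?_⟩
  intro x hx
  rw [clusters_aux.ringCount_ne_zero_iff h]
  exact hcon x hx

theorem fminus_ae (hd : ∀ v, G.degree v = 5) (hconn : G.Connected) (h : IsGlauber G p μ init rings σ) (o : V) :
    ∀ᵐ ω ∂μ, (ω ∈ Fminus σ o ↔ ω ∈ ⋃ T, ⋂ K, ⋃ M, ⋂ N, EE G init rings o T K M N) := by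
  filter_upwards [ae_clusters G hd hconn h, h.start, h.const, h.update] with ω h1 h2 h3 h4
  rw [Fminus, Set.mem_ofPred_eq, fminus_iff G (fun v => init v ω) (fun v => rings v ω) (σ ω)
    (fun v s => h.rings_fin v ω s) h2 h3 h4 h1 o]
  simp only [Set.mem_iUnion, Set.mem_iInter]
  rfl

end law

end unique_aux

/-- the probability of `F_-` is the same in all realisations -/
theorem t_unique_measure {V : Type} (G : SimpleGraph V) [G.LocallyFinite] (hd : ∀ v, G.degree v = 5)
    (hconn : G.Connected) (o : V) (p : ℝ) {Ω Ω' : Type} [MeasurableSpace Ω] [MeasurableSpace Ω'] {μ : Measure Ω}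
    {μ' : Measure Ω'} {init : V → Ω → Bool} {rings : V → Ω → Set ℝ} {σ : Ω → ℝ → V → Bool}
    {init' : V → Ω' → Bool} {rings' : V → Ω' → Set ℝ} {σ' : Ω' → ℝ → V → Bool}
    (h : IsGlauber G p μ init rings σ) (h' : IsGlauber G p μ' init' rings' σ') :
    μ (Fminus σ o) = μ' (Fminus σ' o) := by
  have e1 : μ (Fminus σ o) = μ (⋃ T, ⋂ K, ⋃ M, ⋂ N, unique_aux.EE G init rings o T K M N) := by
    apply measure_congr
    filter_upwards [unique_aux.fminus_ae G hd hconn h o] with ω hω
    exact propext hω
  have e2 : μ' (Fminus σ' o) = μ' (⋃ T, ⋂ K, ⋃ M, ⋂ N, unique_aux.EE G init' rings' o T K M N) := by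
    apply measure_congr
    filter_upwards [unique_aux.fminus_ae G hd hconn h' o] with ω hω
    exact propext hω
  rw [e1, e2, unique_aux.measure_nested G h o, unique_aux.measure_nested G h' o]
  simp only [unique_aux.EE_measure G h h' o]

theorem t_unique : S_unique := by
  intro V G _ hd hconn o p Ω Ω' _ _ μ μ' init rings σ init' rings' σ' h h' hμ
  have := h.prob
  have := h'.prob
  have e := t_unique_measure G hd hconn o p h h'
  have e2 : μ' (Fminus σ' o) = μ' (⋃ T, ⋂ K, ⋃ M, ⋂ N, unique_aux.EE G init' rings' o T K M N) := by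
    apply measure_congr
    filter_upwards [unique_aux.fminus_ae G hd hconn h' o] with ω hω
    exact propext hω
  have h1 : μ (Fminus σ o) = 1 := by
    have : Fminus σ o =ᵐ[μ] Set.univ := by
      filter_upwards [hμ] with ω hω
      exact propext ⟨fun _ => trivial, fun _ => hω⟩
    rw [measure_congr this, measure_univ]
  rw [e, e2] at h1
  have h2 : ∀ᵐ ω ∂μ', ω ∈ ⋃ T, ⋂ K, ⋃ M, ⋂ N, unique_aux.EE G init' rings' o T K M N := by
    rw [← mem_ae_iff_prob_eq_one (unique_aux.nested_measurable G h' o)] at h1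
    exact h1
  filter_upwards [h2, unique_aux.fminus_ae G hd hconn h' o] with ω hω1 hω2
  exact hω2.2 hω1

end Pool.Agent.helper237_G5
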