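import Pool.Agent.helper237_G5.Stmts2
import Pool.Agent.helper237_G5.Data

/-!
# The side conditions on the data
-/

namespace Pool.Agent.helper237_G5

/-- `f i = true` for all `i < n` -/
def allB (n : ℕ) (f : ℕ → Bool) : Bool :=
  Nat.rec (motive := fun _ => Bool) true (fun i ih => Bool.rec false ih (f i)) n

theorem allB_spec (n : ℕ) (f : ℕ → Bool) (h : allB n f = true) : ∀ i < n, f i = true := by
  induction n with
  | zero => intro i hi; omega
  | succ n ih =>
    intro i hi
    have h' : (Bool.rec false (allB n f) (f n) : Bool) = true := h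
    cases hf : f n with
    | false => rw [hf] at h'; simp at h'
    | true =>
      rw [hf] at h'
      rcases Nat.lt_succ_iff_lt_or_eq.mp hi with h1 | h1
      · exact ih h' i h1
      · rw [h1]; exact hf

noncomputable def goodRow (row : ℕ) : Bool := allB 8 (fun i => Nat.ble (fld row i) 16777216)

noncomputable def goodRows (D : Dat) : Bool :=
  allB (Nat.succ D.S) (fun n => Bool.rec false
    (allB (Nat.succ n) (fun g => goodRow (Nat.land (Nat.shiftRight (D.rows n) (Nat.mul 256 g)) (2^256 - 1))))
    (goodRow (D.nrow n)))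

noncomputable def goodG (D : Dat) : Bool :=
  Bool.rec false (allB (Nat.succ D.S) (fun g => Nat.beq (fld (rowOf D g D.S) 6) 0))
    (Nat.beq (fld (D.nrow D.S) 6) 0)

theorem goodRows_spec (D : Dat) (h : goodRows D = true) (g n i : ℕ) (hn : n ≤ D.S) (hi : i < 8) :
    fld (rowOf D g n) i ≤ 2^24 := by
  have h1 := allB_spec _ _ h n (by omega)
  have h2 : goodRow (D.nrow n) = true ∧
      allB (Nat.succ n) (fun g => goodRow (Nat.land (Nat.shiftRight (D.rows n) (Nat.mul 256 g)) (2^256 - 1))) = true := by
    cases hh : goodRow (D.nrow n) with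
    | false => simp only [hh] at h1; exact absurd h1 Bool.false_ne_true
    | true => simp only [hh] at h1; exact ⟨rfl, h1⟩
  unfold rowOf
  cases hg : Nat.ble g n with
  | false =>
    have := allB_spec _ _ h2.1 i hi
    have := Nat.le_of_ble_eq_true this
    simpa using this
  | true =>
    have hgn := Nat.le_of_ble_eq_true hg
    have h3 := allB_spec _ _ h2.2 g (by omega)
    have := allB_spec _ _ h3 i hi
    have := Nat.le_of_ble_eq_true this
    simpa using this

theorem nthD_ge (d : ℕ) (l : List ℕ) (n : ℕ) (h : l.length ≤ n) : nthD d l n = d := by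
  induction l generalizing n with
  | nil => rfl
  | cons x l ih =>
    cases n with
    | zero => simp at h
    | succ n => exact ih n (by simpa using h)

theorem goodRowsDD : goodRows DD = true := by decide +kernel

theorem goodGDD : goodG DD = true := by decide +kernel

theorem ep_checkDD : allB 141 (fun n => Bool.rec false (Bool.rec false (Nat.ble (DD.ep n) 5)
    (Nat.ble (DD.ep (n+1)) (DD.ep n + 1))) (Nat.ble (DD.ep n) (DD.ep (n+1)))) = true := by decide +kernel

theorem R_checkDD : allB 140 (fun n => Bool.rec false (Bool.rec false (Nat.ble 1 (DD.R n)) (Nat.blt (DD.R n) (2^24)))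
    (Nat.ble (DD.R n * DD.cs n) (2^24))) = true := by decide +kernel

theorem s0_checkDD : allB 141 (fun n => Nat.ble 1 (fld (DD.nrow n) 0)) = true := by decide +kernel

theorem bool_rec_and {a b : Bool} (h : (Bool.rec false a b : Bool) = true) : a = true ∧ b = true := by
  cases b with
  | false => exact absurd h Bool.false_ne_true
  | true => exact ⟨h, rfl⟩

theorem goodG_spec (D : Dat) (h : goodG D = true) (g : ℕ) (hg : g ≤ D.S + 1) : fld (rowOf D g D.S) 6 = 0 := by
  have h0 : (Bool.rec false (allB (Nat.succ D.S) (fun g => Nat.beq (fld (rowOf D g D.S) 6) 0))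
    (Nat.beq (fld (D.nrow D.S) 6) 0) : Bool) = true := h
  obtain ⟨h1, h2⟩ := bool_rec_and h0
  rcases Nat.lt_or_ge g (D.S + 1) with h3 | h3
  · exact Nat.eq_of_beq_eq_true (allB_spec _ _ h1 g h3)
  · have h4 : g = D.S + 1 := le_antisymm hg h3
    subst h4
    have h5 : rowOf D (D.S + 1) D.S = D.nrow D.S := by
      unfold rowOf
      have : Nat.ble (D.S + 1) D.S = false := by
        cases hh : Nat.ble (D.S + 1) D.S with
        | false => rfl
        | true => have := Nat.le_of_ble_eq_true hh; omega
      rw [this]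
    rw [h5]
    exact Nat.eq_of_beq_eq_true h2

theorem R_DD (n : ℕ) (hn : n < 140) : 1 ≤ DD.R n ∧ DD.R n < 2^24 ∧ DD.R n * DD.cs n ≤ 2^24 := by
  have h := allB_spec _ _ R_checkDD n hn
  obtain ⟨h1, h2⟩ := bool_rec_and h
  obtain ⟨h3, h4⟩ := bool_rec_and h1
  refine ⟨Nat.le_of_ble_eq_true h3, ?_, Nat.le_of_ble_eq_true h2⟩
  have : Nat.ble (Nat.succ (DD.R n)) (2^24) = true := h4
  exact Nat.le_of_ble_eq_true this

theorem ep_DD (n : ℕ) : DD.ep n ≤ 5 ∧ DD.ep (n+1) ≤ DD.ep n + 1 ∧ DD.ep n ≤ DD.ep (n+1) := by
  rcases lt_or_ge n 141 with hn | hn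
  · have h := allB_spec _ _ ep_checkDD n hn
    obtain ⟨h1, h2⟩ := bool_rec_and h
    obtain ⟨h3, h4⟩ := bool_rec_and h1
    exact ⟨Nat.le_of_ble_eq_true h3, Nat.le_of_ble_eq_true h4, Nat.le_of_ble_eq_true h2⟩
  · have e1 : ∀ m, 142 ≤ m → DD.ep m = 5 := fun m hm =>
      nthD_ge 5 dep m (le_trans (by decide +kernel : dep.length ≤ 142) hm)
    have e2 : DD.ep 141 = 5 := by decide +kernel
    have e3 : ∀ m, 141 ≤ m → DD.ep m = 5 := fun m hm => by
      rcases Nat.lt_or_ge m 142 with h | h
      · have : m = 141 := by omega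
        rw [this]; exact e2
      · exact e1 m h
    rw [e3 n hn, e3 (n+1) (by omega)]
    omega

theorem good_DD : Good DD where
  R_le := fun n hn => (R_DD n hn).2.1.le
  R_S := by decide +kernel
  cs_pos := fun n => Nat.succ_pos _
  Rcs := fun n hn => (R_DD n hn).2.2
  ep0 := by decide +kernel
  ep_mono := fun n => (ep_DD n).2.2
  ep_step := fun n => (ep_DD n).2.1
  ep_le := fun n => (ep_DD n).1
  fld_le := fun g n i hn _ hi => goodRows_spec DD goodRowsDD g n i hn hi
  G_S := fun g hg => goodG_spec DD goodGDD g hg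
  A0_pos := by decide +kernel
  A0_le := by decide +kernel

end Pool.Agent.helper237_G5
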