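import Pool.Agent.helper237_G5.Stmts3
import Pool.Agent.helper237_G5.GoodDD

/-!
# From the checks to the critical density
-/

namespace Pool.Agent.helper237_G5

open MeasureTheory ProbabilityTheory Filter Topology

/-- the conclusion for a given `p0` -/
def S_final (p0 : ℝ) : Prop :=
  ∀ (V : Type) (G : SimpleGraph V) [G.LocallyFinite], G.IsTree → (∀ v, G.degree v = 5) → ∀ o : V,
    (∀ (Ω : Type) [MeasurableSpace Ω] (p : ℝ) (μ : Measure Ω) (init : V → Ω → Bool)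
      (rings : V → Ω → Set ℝ) (σ : Ω → ℝ → V → Bool), p0 ≤ p → p ≤ 1 →
      IsGlauber G p μ init rings σ → 0 < μ (Fplus σ o)) ∧
    (∀ p ∈ minusSet G o, p < p0) ∧ pc G o ≤ p0

theorem final_gen (D : Dat) (A : ℕ) (hA0 : D.A0 = A) (hg : Good D) (hR : ∀ n < D.S, 1 ≤ D.R n ∧ D.R n < 2^24)
    (hs0 : ∀ n ≤ D.S, 1 ≤ fld (D.nrow n) 0)
    (h0 : check0 D = true) (hC : checkC D = true)
    (hA : ∀ a, 1 ≤ a → a ≤ D.S → ∃ a1 a2, a1 ≤ a ∧ a < a2 ∧ checkA D a1 a2 = true)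
    (hs : S_sound) (hm : S_main) : S_final ((A : ℝ)/4096) := by
  subst hA0
  obtain ⟨ct, hct⟩ := hs D hg h0 hC hA
  intro V G _ hT hd o
  have hA1 : (1:ℝ) ≤ (D.A0 : ℝ) := by exact_mod_cast hg.A0_pos
  have hA2 : (D.A0 : ℝ) ≤ 4096 := by exact_mod_cast hg.A0_le
  have hr : ∀ n < D.S, (1:ℝ) ≤ (D.R n : ℝ) ∧ ((D.R n : ℝ) < 2^24) := by
    intro n hn
    have h := hR n hn
    exact ⟨by exact_mod_cast h.1, by exact_mod_cast h.2⟩
  have key := hm D.S ((D.A0 : ℝ)/4096) (fun n => (D.R n : ℝ)/2^24) (by positivity)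
    (by rw [div_le_one (by norm_num)]; exact hA2)
    (fun n hn => div_pos (lt_of_lt_of_le one_pos (hr n hn).1) (by norm_num))
    (fun n hn => by
      rw [div_lt_one (by norm_num)]; exact (hr n hn).2)
    (by rw [hg.R_S]; norm_num) ct
    (fun n hn => by
      rw [hct n hn]
      have h2 : (1:ℝ) ≤ (fld (D.nrow n) 0 : ℝ) := by exact_mod_cast hs0 n hn
      exact div_pos (lt_of_lt_of_le one_pos h2) (by norm_num)) V G hT hd o
  obtain ⟨k1, k2, k3⟩ := key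
  refine ⟨?_, k2, k3⟩
  intro Ω _ p μ init rings σ hp hp1 hg
  have := k1 Ω p μ init rings σ hp hp1 hg
  refine lt_of_lt_of_eq this ?_
  congr 1
  ext ω
  simp only [Fplus, Set.mem_setOf_eq, Filter.eventually_atTop, ge_iff_le]

theorem s0_DD (n : ℕ) (hn : n ≤ DD.S) : 1 ≤ fld (DD.nrow n) 0 :=
  Nat.le_of_ble_eq_true (allB_spec _ _ s0_checkDD n (Nat.lt_succ_of_le hn))

theorem final_of (h0 : check0 DD = true) (hC : checkC DD = true)
    (hA : ∀ a, 1 ≤ a → a ≤ 140 → ∃ a1 a2, a1 ≤ a ∧ a < a2 ∧ checkA DD a1 a2 = true)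
    (hs : S_sound) (hm : S_main) : S_final (2047/4096) := by
  have h := final_gen DD 2047 rfl good_DD (fun n hn => ⟨(R_DD n hn).1, (R_DD n hn).2.1⟩) s0_DD h0 hC hA hs hm
  have e : ((2047 : ℕ) : ℝ)/4096 = 2047/4096 := by norm_num
  rwa [e] at h

end Pool.Agent.helper237_G5
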