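

/-!
# The integer checker

`P` is a nested representation of a homogeneous polynomial of degree `d` in the variables
`C, U_cur, …, U_1, U_0` and `Z` (`Z` dehomogenised).  `P(k,d)` (`k` = number of variables other than `Z`):
`lf x` if `k = 0` or `d = 0`, and otherwise `nd p0 p1` standing for `p0 + v * p1`, where `v` is the top variable,
`p0 ∈ P(k-1,d)`, `p1 ∈ P(k,d-1)`.  The leaves are natural numbers; in the packed version a leaf holds
one 80-bit field per lane (lane = class of the parent).
All functions are written with recursors so that the kernel evaluates them quickly.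
-/

namespace Pool.Agent.helper237_G5

inductive P where
  | lf (n : Nat)
  | nd (p q : P)

noncomputable section

namespace P

/-- map over the leaves -/
def map (f : Nat → Nat) (p : P) : P :=
  P.rec (motive := fun _ => P) (fun n => P.lf (f n)) (fun _ _ ip iq => P.nd ip iq) p

/-- add `x` to the leftmost leaf -/
def addLeft (p : P) (x : Nat) : P :=
  P.rec (motive := fun _ => P) (fun n => P.lf (Nat.add n x)) (fun _ q ip _ => P.nd ip q) p

/-- addition `p + q`, where `q` has degree at most that of `p` (same variables) -/
def add (p : P) : P → P :=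
  P.rec (motive := fun _ => P → P)
    (fun n q => P.rec (motive := fun _ => P) (fun m => P.lf (Nat.add n m)) (fun _ _ _ _ => P.lf n) q)
    (fun p1 p2 ip iq q => P.rec (motive := fun _ => P) (fun m => P.nd (P.addLeft p1 m) p2)
      (fun q1 q2 _ _ => P.nd (ip q1) (iq q2)) q) p

/-- one step of the substitution `v ↦ a v + b Z`: the node `p0 + v p1`, with `q` = substituted `p1` -/
def failStep (A B : Nat → Nat) (p0 q : P) : P :=
  P.rec (motive := fun _ => P)
    (fun x => P.nd (P.addLeft p0 (B x)) (P.lf (A x)))
    (fun q0 q1 _ _ => P.nd (P.add p0 (P.map B q0)) (P.add (P.nd (P.map A q0) (P.map A q1)) (P.map B q1))) q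

/-- substitution `v ↦ a v + b Z` for the variable `v` at offset `t` from the top; `A x ≤ a x`, `B x ≤ b x` -/
def fail (A B : Nat → Nat) (p : P) : Nat → P :=
  P.rec (motive := fun _ => Nat → P) (fun n _ => P.lf n)
    (fun p0 _ ih0 ih1 t => Nat.rec (motive := fun _ => P) (P.failStep A B p0 (ih1 0))
      (fun t' _ => P.nd (ih0 t') (ih1 (Nat.succ t'))) t) p

/-- `p + U z` where `U` is the top variable of `p` and `z` has degree one less -/
def addU (p z : P) : P :=
  P.rec (motive := fun _ => P) (fun n => P.lf n) (fun a0 a1 _ _ => P.nd a0 (P.add a1 z)) p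

/-- `p + U z` where `C` is the top variable and `U` the second one; `z` has degree one less than `p` -/
def addUC (p : P) : P → P :=
  P.rec (motive := fun _ => P → P) (fun n _ => P.lf n)
    (fun p0 p1 _ ih1 z => P.rec (motive := fun _ => P) (fun x => P.nd (P.addU p0 (P.lf x)) p1)
      (fun z0 z1 _ _ => P.nd (P.addU p0 z0) (ih1 z1)) z) p

/-- one step of `C ↦ a C + b U` (`C` top variable, `U` second) -/
def moveStep (A B : Nat → Nat) (p0 q : P) : P :=
  P.rec (motive := fun _ => P)
    (fun x => P.nd (P.addU p0 (P.lf (B x))) (P.lf (A x)))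
    (fun q0 q1 _ _ => P.nd (P.addU p0 (P.map B q0)) (P.addUC (P.nd (P.map A q0) (P.map A q1)) (P.map B q1))) q

/-- substitution `C ↦ a C + b U` -/
def move (A B : Nat → Nat) (p : P) : P :=
  P.rec (motive := fun _ => P) (fun n => P.lf n) (fun p0 _ _ ih1 => P.moveStep A B p0 ih1) p

/-- apply `f u` at the leaves, `u` = number of `U`'s (all variables here are `U`'s) -/
def maskU (f : Nat → Nat → Nat) (p : P) : Nat → P :=
  P.rec (motive := fun _ => Nat → P) (fun n u => P.lf (f u n)) (fun _ _ ip iq u => P.nd (ip u) (iq (Nat.succ u))) p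

/-- the same with top variable `C` -/
def maskC (f : Nat → Nat → Nat) (p : P) : P :=
  P.rec (motive := fun _ => P) (fun n => P.lf (f 0 n)) (fun p0 _ _ ih1 => P.nd (P.maskU f p0 0) ih1) p

def sum (p : P) : Nat :=
  P.rec (motive := fun _ => Nat) (fun n => n) (fun _ _ ip iq => Nat.add ip iq) p

/-- the zero polynomial in `P(k,d)` -/
def zero (k : Nat) : Nat → P :=
  Nat.rec (motive := fun _ => Nat → P) (fun _ => P.lf 0)
    (fun _ ih d => Nat.rec (motive := fun _ => P) (P.lf 0) (fun d' ihd => P.nd (ih (Nat.succ d')) ihd) d) k

/-- insert a new variable directly below the top variable `C`; `k` = number of variables below `C` in the result,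
`d` = degree -/
def ins (k : Nat) (p : P) : Nat → P :=
  P.rec (motive := fun _ => Nat → P) (fun n _ => P.lf n)
    (fun p0 _ _ ih1 d => P.nd (P.nd p0 (P.zero k (Nat.pred d))) (ih1 (Nat.pred d))) p

end P

/-! ### leaf operations (packed) -/

/-- multiply every lane by `c / 2^24`, rounding down; `M` masks the low 48 bits of each lane -/
def rnd (M c x : Nat) : Nat := Nat.land (Nat.shiftRight (Nat.mul c x) 24) M

end

end Pool.Agent.helper237_G5
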