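import Pool.Agent.helper237_G5.Model

/-!
# Definitions: labels and labelled paths, the closure certificate (the model is in `Model.lean`)
-/

namespace Pool.Agent.helper237_G5

open MeasureTheory ProbabilityTheory Filter Topology

/-! ## 2. Labels and paths -/

/-- labels: `Z` dead, `C` initially `-` and never up, `U j` up (born in epoch `j`) -/
inductive Lab where
  | Z | C | U (j : Fin 6)
  deriving DecidableEq, Fintype

def Lab.up : Lab → Bool
  | .U _ => true
  | _ => false

/-- label paths: `Path m` = labels at times `0..m` -/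
def Path : ℕ → Type
  | 0 => Lab
  | m+1 => Path m × Lab

instance instFintypePath : (m : ℕ) → Fintype (Path m)
  | 0 => inferInstanceAs (Fintype Lab)
  | m+1 => by haveI := instFintypePath m; exact inferInstanceAs (Fintype (Path m × Lab))

instance instDecEqPath : (m : ℕ) → DecidableEq (Path m)
  | 0 => inferInstanceAs (DecidableEq Lab)
  | m+1 => by haveI := instDecEqPath m; exact inferInstanceAs (DecidableEq (Path m × Lab))

/-- the last label -/
def last : {m : ℕ} → Path m → Lab
  | 0, x => x
  | _+1, x => x.2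

/-- the class of a path: `some a` if the first up label is at time `a` -/
def cls : {m : ℕ} → Path m → Option ℕ
  | 0, x => if Lab.up x = true then some 0 else none
  | m+1, x => match cls x.1 with
    | some a => some a
    | none => if x.2.up = true then some (m+1) else none

/-- the path `U0, U0, …, U0` -/
def star : (m : ℕ) → Path m
  | 0 => Lab.U 0
  | m+1 => (star m, Lab.U 0)

/-- number of children needed in slot `n` when the parent has class `g` -/
def need (g : Option ℕ) (n : ℕ) : ℕ :=
  match g with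
  | none => 3
  | some a => if a ≤ n then 2 else 3

/-- number of children which are up at both times -/
def cnt (x y : Fin 4 → Lab) : ℕ :=
  (Finset.univ.filter (fun i => (x i).up = true ∧ (y i).up = true)).card

/-! ## 3. Local randomness and valid labellings -/

/-- initial spin and ring indicators of the slots `0..S-1` -/
abbrev Own (S : ℕ) := Bool × (Fin S → Bool)

/-- ring indicator; in the final slot `S` (and later) the vertex counts as ringing -/
def rg {S : ℕ} (o : Own S) (n : ℕ) : Bool := if h : n < S then o.2 ⟨n, h⟩ else true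

/-- admissible step of a vertex in slot `n` from label `x` to label `y`, `g` the class of the parent,
`c` the number of children up at both times -/
def stepOK {S : ℕ} (o : Own S) (g : Option ℕ) (n : ℕ) (x y : Lab) (c : ℕ) : Prop :=
  match x, y with
  | _, .Z => True
  | .Z, .C => False
  | .Z, .U _ => False
  | .C, .C => True
  | .C, .U _ => rg o n = true ∧ need g n ≤ c
  | .U _, .C => False
  | .U i, .U j => i = j ∧ (rg o n = true → need g n ≤ c)

/-- the label path `l` of a vertex is admissible, given its parent's class `g` and its children's paths `k` -/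
def okPath {S : ℕ} (o : Own S) (g : Option ℕ) : (m : ℕ) → Path m → (Fin 4 → Path m) → Prop
  | 0, x, _ => Lab.up x = true → o.1 = true
  | m+1, l, k => okPath o g m l.1 (fun i => (k i).1) ∧
      stepOK o g m (last l.1) l.2 (cnt (fun i => last (k i).1) (fun i => (k i).2))

/-- randomness of a 4-ary tree of depth `D` (leaves at depth `D` carry nothing) -/
def Cfg (S : ℕ) : ℕ → Type
  | 0 => Unit
  | D+1 => Own S × (Fin 4 → Cfg S D)

instance instFintypeCfg (S : ℕ) : (D : ℕ) → Fintype (Cfg S D)
  | 0 => inferInstanceAs (Fintype Unit)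
  | D+1 => by haveI := instFintypeCfg S D; exact inferInstanceAs (Fintype (Own S × (Fin 4 → Cfg S D)))

/-- existence of a valid labelling of the depth-`D` tree in which the root has label path `l`;
`g` = class of the parent of the root -/
def VD (S : ℕ) : (D : ℕ) → Cfg S D → Option ℕ → Path (S+1) → Prop
  | 0, _, _, _ => True
  | D+1, c, g, l => ∃ k : Fin 4 → Path (S+1), okPath c.1 g (S+1) l k ∧ ∀ i, VD S D (c.2 i) (cls l) (k i)

/-- weights of the product measure: initial spin `+` w.p. `p`, ring in slot `n` w.p. `r n` -/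
noncomputable def ownWt {S : ℕ} (p : ℝ) (r : ℕ → ℝ) (o : Own S) : ℝ :=
  (if o.1 = true then p else 1 - p) * ∏ n : Fin S, (if o.2 n = true then r n else 1 - r n)

noncomputable def wt {S : ℕ} (p : ℝ) (r : ℕ → ℝ) : (D : ℕ) → Cfg S D → ℝ
  | 0, _ => 1
  | D+1, c => ownWt p r c.1 * ∏ i, wt p r D (c.2 i)

open Classical in
/-- probability of the existence of a valid labelling with root path `U0…U0`, root without parent support -/
noncomputable def probV (S : ℕ) (p : ℝ) (r : ℕ → ℝ) (D : ℕ) : ℝ :=
  ∑ c : Cfg S D, wt p r D c * (if VD S D c none (star (S+1)) then 1 else 0)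

/-! ## 4. The certificate -/

/-- transition probabilities of the label process of a vertex whose parent has class `g`, in slot `n` -/
noncomputable def Tm (e : ℕ → Fin 6) (s : Option ℕ → ℕ → Fin 6 → ℝ) (u k : Option ℕ → ℕ → ℝ)
    (g : Option ℕ) (n : ℕ) : Lab → Lab → ℝ
  | .Z, .Z => 1
  | .Z, .C => 0
  | .Z, .U _ => 0
  | .C, .Z => 1 - k g n - u g n
  | .C, .C => k g n
  | .C, .U j => if j = e (n+1) then u g n else 0
  | .U i, .Z => 1 - s g n i
  | .U _, .C => 0
  | .U i, .U j => if i = j then s g n i else 0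

/-- initial law of the label -/
noncomputable def initW (p : ℝ) : Lab → ℝ
  | .Z => 0
  | .C => 1 - p
  | .U j => if j = 0 then p else 0

/-- one slot for the (unnormalised) law of the labels of the four children of a vertex, weighted by the
vertex's own transition weight `w c`, `c` = number of children which are up at both times;
`T` = transition matrix of the children -/
noncomputable def nat4 (T : Lab → Lab → ℝ) (w : ℕ → ℝ) (Y : (Fin 4 → Lab) → ℝ) (y : Fin 4 → Lab) : ℝ :=
  ∑ x : Fin 4 → Lab, Y x * (∏ i, T (x i) (y i)) * w (cnt x y)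

/-- own weights, ring probability `ρ`, number of children needed `d` -/
noncomputable def wUp (ρ : ℝ) (d c : ℕ) : ℝ := if d ≤ c then 1 else 1 - ρ
noncomputable def wStay (ρ : ℝ) (d c : ℕ) : ℝ := if d ≤ c then 1 - ρ else 1
noncomputable def wRise (ρ : ℝ) (d c : ℕ) : ℝ := if d ≤ c then ρ else 0

/-- A closure certificate. `Y h g n` = (multiple of) the law of the labels at time `n` of the children of a vertex
with own history `h` (`none`: label `C`; `some a`: up since time `a`), whose parent has class `g`. -/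
structure Cert (S : ℕ) (p : ℝ) (r : ℕ → ℝ) where
  e : ℕ → Fin 6
  s : Option ℕ → ℕ → Fin 6 → ℝ
  u : Option ℕ → ℕ → ℝ
  k : Option ℕ → ℕ → ℝ
  Y : Option ℕ → Option ℕ → ℕ → (Fin 4 → Lab) → ℝ
  e0 : e 0 = 0
  s_pre : ∀ b n j, n < b → s (some b) n j = s none n j
  u_pre : ∀ b n, n < b → u (some b) n = u none n
  k_pre : ∀ b n, n < b → k (some b) n = k none n
  s_nonneg : ∀ g n j, 0 ≤ s g n j
  s_le : ∀ g n j, s g n j ≤ 1
  u_nonneg : ∀ g n, 0 ≤ u g n
  k_nonneg : ∀ g n, 0 ≤ k g n
  uk_le : ∀ g n, k g n + u g n ≤ 1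
  uS : ∀ g, u g S = 0
  kS : ∀ g, k g S = 0
  Y_nonneg : ∀ h g n y, 0 ≤ Y h g n y
  Y_pre : ∀ h b n y, n ≤ b → Y h (some b) n y = Y h none n y
  c0 : ℝ
  c0_pos : 0 < c0
  initC : ∀ g y, Y none g 0 y = c0 * ∏ i, initW p (y i)
  initU : ∀ g y, Y (some 0) g 0 y = c0 * ∏ i, initW p (y i)
  up_le : ∀ (a : ℕ) (g : Option ℕ) (n : ℕ), a ≤ n → n ≤ S → (∀ b, g = some b → b ≤ S) → ∀ y,
    Y (some a) g (n+1) y ≤ nat4 (Tm e s u k (some a) n) (wUp (r n) (need g n)) (Y (some a) g n) y
  up_mass : ∀ (a : ℕ) (g : Option ℕ) (n : ℕ), a ≤ n → n ≤ S → (∀ b, g = some b → b ≤ S) →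
    s g n (e a) * ∑ x, Y (some a) g n x ≤ ∑ x, Y (some a) g (n+1) x
  stay_le : ∀ (g : Option ℕ) (n : ℕ), n < S → (∀ b, g = some b → b ≤ S) → ∀ y,
    Y none g (n+1) y ≤ nat4 (Tm e s u k none n) (wStay (r n) (need g n)) (Y none g n) y
  stay_mass : ∀ (g : Option ℕ) (n : ℕ), n < S → (∀ b, g = some b → b ≤ S) →
    k g n * ∑ x, Y none g n x ≤ ∑ x, Y none g (n+1) x
  c : ℕ → ℝ
  c_pos : ∀ n, 0 < c n
  rise_le : ∀ (g : Option ℕ) (n : ℕ), n < S → (∀ b, g = some b → b ≤ S) → ∀ y,
    Y (some (n+1)) g (n+1) y ≤ c n * nat4 (Tm e s u k none n) (wRise (r n) (need g n)) (Y none g n) y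
  rise_mass : ∀ (g : Option ℕ) (n : ℕ), n < S → (∀ b, g = some b → b ≤ S) →
    c n * u g n * ∑ x, Y none g n x ≤ ∑ x, Y (some (n+1)) g (n+1) x

/-! ## 5. From the process to configurations -/

/-- ring indicators of the slots `(t n, t (n+1)]` and initial spins read off along an embedding `φ` of the 4-ary tree -/
noncomputable def ownOf {Ω V : Type} (init : V → Ω → Bool) (rings : V → Ω → Set ℝ) (t : ℕ → ℝ) (S : ℕ) (v : V) (ω : Ω) :
    Own S :=
  (init v ω, fun n => decide (ringCount rings v (t n) (t (n+1)) ω ≠ 0))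

def cfgO {S : ℕ} (own : List (Fin 4) → Own S) : (D : ℕ) → List (Fin 4) → Cfg S D
  | 0, _ => ()
  | D+1, w => (own w, fun i => cfgO own D (i :: w))

/-- embedding of the 4-ary tree with root `o` -/
structure IsEmb {V : Type} (G : SimpleGraph V) (o : V) (φ : List (Fin 4) → V) : Prop where
  root : φ [] = o
  inj : Function.Injective φ
  adj : ∀ w i, G.Adj (φ w) (φ (i :: w))

/-- class of the parent of the vertex `w` in a labelling -/
def pcls {S : ℕ} (lab : List (Fin 4) → Path (S+1)) : List (Fin 4) → Option ℕ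
  | [] => none
  | _ :: w => cls (lab w)

/-- all clusters of vertices ringing in `(a,b]` are finite -/
def FiniteClusters {V : Type} (G : SimpleGraph V) (R : V → Set ℝ) (a b : ℝ) : Prop :=
  ∀ v, {w | ∃ q : G.Walk v w, ∀ x ∈ q.support, (R x ∩ Set.Ioc a b).Nonempty}.Finite

/-- time-slot data: `t n` starts slot `n`, `P(ring in slot n) = r n` for `n < S` -/
def IsGrid (S : ℕ) (r : ℕ → ℝ) (t : ℕ → ℝ) : Prop :=
  t 0 = 0 ∧ StrictMono t ∧ ∀ n < S, r n = 1 - Real.exp (-(t (n+1) - t n))

end Pool.Agent.helper237_G5
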