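import Mathlib

/-!
# Zero-temperature Glauber dynamics with Poisson clocks, and its critical density

Spins: `true = +1`, `false = -1`. All definitions are for graphs all of whose degrees are odd (no ties).
-/

namespace Pool.Agent.helper237_G5

open MeasureTheory ProbabilityTheory Filter Topology

/-! ## The dynamics -/

/-- number of `+` (= `true`) neighbours -/
def plusNbrs {V : Type} (G : SimpleGraph V) [G.LocallyFinite] (η : V → Bool) (v : V) : ℕ :=
  ((G.neighborFinset v).filter (fun w => η w = true)).card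

/-- strict majority of the neighbours (odd degree: no ties) -/
def majority {V : Type} (G : SimpleGraph V) [G.LocallyFinite] (η : V → Bool) (v : V) : Bool :=
  decide (G.degree v < 2 * plusNbrs G η v)

/-- number of rings in the interval `(a,b]` -/
noncomputable def ringCount {Ω V : Type} (rings : V → Ω → Set ℝ) (v : V) (a b : ℝ) (ω : Ω) : ℕ :=
  (rings v ω ∩ Set.Ioc a b).ncard

/-- `(init, rings, σ)` is a zero-temperature Glauber dynamics on `G` (all degrees odd), started from i.i.d.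
spins with `P(+)=p`, run by independent rate-one Poisson clocks. Spins: `true = +1`, `false = -1`. -/
structure IsGlauber {Ω V : Type} [MeasurableSpace Ω] (G : SimpleGraph V) [G.LocallyFinite] (p : ℝ)
    (μ : Measure Ω) (init : V → Ω → Bool) (rings : V → Ω → Set ℝ) (σ : Ω → ℝ → V → Bool) : Prop where
  prob : IsProbabilityMeasure μ
  rings_pos : ∀ v ω, rings v ω ⊆ Set.Ioi 0
  rings_fin : ∀ v ω t, (rings v ω ∩ Set.Iic t).Finite
  init_meas : ∀ v, Measurable (init v)
  count_meas : ∀ v a b, Measurable (ringCount rings v a b)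
  init_law : ∀ v, μ {ω | init v ω = true} = ENNReal.ofReal p
  count_law : ∀ v (a b : ℝ), 0 ≤ a → a < b → ∀ k : ℕ,
    μ {ω | ringCount rings v a b ω = k} = ENNReal.ofReal (Real.exp (-(b-a)) * (b-a)^k / k.factorial)
  indep : ∀ t : ℕ → ℝ, t 0 = 0 → StrictMono t →
    iIndepFun (fun (i : V × Option ℕ) (ω : Ω) => (match i.2 with
      | none => if init i.1 ω = true then 1 else 0
      | some n => ringCount rings i.1 (t n) (t (n+1)) ω : ℕ)) μ
  start : ∀ᵐ ω ∂μ, ∀ v, σ ω 0 v = init v ω
  const : ∀ᵐ ω ∂μ, ∀ v s t, 0 ≤ s → s ≤ t → rings v ω ∩ Set.Ioc s t = ∅ → σ ω t v = σ ω s v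
  update : ∀ᵐ ω ∂μ, ∀ v t, t ∈ rings v ω → ∀ᶠ s in 𝓝[<] t, σ ω t v = majority G (σ ω s) v

/-! ## The critical density -/

/-- the event that `σ_o(t)` converges to `-1` -/
def Fminus {Ω V : Type} (σ : Ω → ℝ → V → Bool) (o : V) : Set Ω := {ω | ∀ᶠ t in atTop, σ ω t o = false}

/-- the event that `σ_o(t)` converges to `+1` -/
def Fplus {Ω V : Type} (σ : Ω → ℝ → V → Bool) (o : V) : Set Ω := {ω | ∀ᶠ t in atTop, σ ω t o = true}

/-- `{p ∈ [0,1] : P_p(F_-) = 1}` -/
def minusSet {V : Type} (G : SimpleGraph V) [G.LocallyFinite] (o : V) : Set ℝ :=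
  {p | 0 ≤ p ∧ p ≤ 1 ∧ ∃ (Ω : Type) (_ : MeasurableSpace Ω) (μ : Measure Ω) (init : V → Ω → Bool)
    (rings : V → Ω → Set ℝ) (σ : Ω → ℝ → V → Bool), IsGlauber G p μ init rings σ ∧ ∀ᵐ ω ∂μ, ω ∈ Fminus σ o}

/-- the critical density -/
noncomputable def pc {V : Type} (G : SimpleGraph V) [G.LocallyFinite] (o : V) : ℝ := sSup (minusSet G o)

end Pool.Agent.helper237_G5
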