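import Pool.Agent.helper237_G5.Checker

/-!
# The run functions of the checker

Lanes: lane `b ≤ S` = class `some b` of the parent, lane `S+1` = class `none`. Every lane has 80 bits, the value of a
lane is at most `2^48`. Scalars have 24 bits.
-/

namespace Pool.Agent.helper237_G5

noncomputable section

/-- the data of a certificate -/
structure Dat where
  S : Nat
  /-- ring probabilities times `2^24` (`R S = 2^24`) -/
  R : Nat → Nat
  /-- scale factors for newly risen arrays; `R n * cs n ≤ 2^24` -/
  cs : Nat → Nat
  /-- epoch of a rise time (`0 ≤ ep n ≤ 5`), `ep 0 = 0` -/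
  ep : Nat → Nat
  /-- row of the class `none` in slot `n`: eight 32-bit fields `s_0,…,s_5,G,B` -/
  nrow : Nat → Nat
  /-- rows of the classes `some 0, …, some n` in slot `n` (256 bits each) -/
  rows : Nat → Nat
  /-- initial probability numerator: `p0 = A0 / 2^12` -/
  A0 : Nat

/-- field `i` of a row -/
def fld (row i : Nat) : Nat := Nat.land (Nat.shiftRight row (Nat.mul 32 i)) 4294967295

/-- row of lane `g` in slot `n` -/
def rowOf (D : Dat) (g n : Nat) : Nat :=
  Bool.rec (D.nrow n) (Nat.land (Nat.shiftRight (D.rows n) (Nat.mul 256 g)) (2^256 - 1)) (Nat.ble g n)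

/-- mask of the low 48 bits of the lanes `0,…,S+1` -/
def msk (S : Nat) : Nat := (2^48 - 1) * ((2^(80*(S+2)) - 1) / (2^80 - 1))

/-- lanes `g ≤ n` -/
def loMask (n : Nat) : Nat := 2^(80*(n+1)) - 1

def lo (n x : Nat) : Nat := Nat.land x (loMask n)

/-- value by number `u` of `U`'s: `u ≤ 1`, `u = 2`, `u ≥ 3` -/
def by3 (a b c : Nat) (u : Nat) : Nat :=
  Nat.rec (motive := fun _ => Nat) a (fun u' _ => Nat.rec (motive := fun _ => Nat) a
    (fun u'' _ => Nat.rec (motive := fun _ => Nat) b (fun _ _ => c) u'') u') u

/-- weights of an up vertex: `1` if enough children, `1 - r` otherwise -/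
def fS (M R n : Nat) (u x : Nat) : Nat :=
  by3 (rnd M (Nat.sub (2^24) R) x)
    (Nat.add (lo n x) (rnd M (Nat.sub (2^24) R) (Nat.sub x (lo n x)))) x u

/-- weights of a `C` vertex which stays -/
def fT (M R n : Nat) (u x : Nat) : Nat :=
  by3 x (Nat.add (rnd M (Nat.sub (2^24) R) (lo n x)) (Nat.sub x (lo n x))) (rnd M (Nat.sub (2^24) R) x) u

/-- weights of a `C` vertex which rises, scaled by `cs` (`Rc = R * cs`) -/
def fR (M Rc n : Nat) (u x : Nat) : Nat :=
  by3 0 (rnd M Rc (lo n x)) (rnd M Rc x) u

/-- failing step of `U_0` -- `U_(j)`, offsets `cur+1-j`: here `i` runs from `cur` down, the variable `U_(i)` has offset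
`cur - i + 1`; the recursion is on `i`, starting with `i = cur` -/
def failAll (M row cur : Nat) (i : Nat) : P → P :=
  Nat.rec (motive := fun _ => P → P)
    (fun p => P.fail (rnd M (fld row 0)) (rnd M (Nat.sub (2^24) (fld row 0))) p (Nat.succ cur))
    (fun i' ih p => ih (P.fail (rnd M (fld row (Nat.succ i'))) (rnd M (Nat.sub (2^24) (fld row (Nat.succ i')))) p
      (Nat.sub cur i'))) i

/-- insertion of a new epoch variable if `ep` increases; `cur` = current epoch index -/
def extend (cur nxt : Nat) (p : P) : P :=
  Bool.rec p (P.ins (Nat.add cur 2) p 4) (Nat.blt cur nxt)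

/-- rise step of the children -/
def riseStep (M row : Nat) (p : P) : P :=
  P.move (rnd M (Nat.sub (2^24) (fld row 7))) (rnd M (fld row 7))
    (P.fail (rnd M (fld row 6)) (rnd M (Nat.sub (2^24) (fld row 6))) p 0)

/-- one slot for an own vertex with leaf function `f` and children of class row `row` -/
def slot (M row cur nxt : Nat) (f : Nat → Nat → Nat) (p : P) : P :=
  riseStep M row (extend cur nxt (P.maskC f (failAll M row cur cur p)))

/-- lane `g` of `x` -/
def lane (g x : Nat) : Nat := x / 2^(80*g) % 2^80

def laneK (g x : Nat) : Nat := Nat.land (Nat.shiftRight x (Nat.mul 80 g)) 1208925819614629174706175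

/-- test of the mass inequality in lane `g` : `num g * tot_g ≤ 2^48 * tot'_g` -/
def test1 (num : Nat → Nat) (g tot tot' : Nat) : Bool :=
  Nat.ble (Nat.mul (num g) (laneK g tot)) (Nat.mul 281474976710656 (laneK g tot'))

/-- test of the lanes `0,…,n` and of the lane `S+1` -/
def tests (S : Nat) (num : Nat → Nat) (n tot tot' : Nat) : Bool :=
  Bool.rec false
    (Nat.rec (motive := fun _ => Bool) (test1 num 0 tot tot')
      (fun g ih => Bool.rec false ih (test1 num (Nat.succ g) tot tot')) n)
    (test1 num (Nat.succ S) tot tot')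

/-- mass test coefficients for an up vertex with label `U_j` -/
def numUp (D : Dat) (j n g : Nat) : Nat := Nat.mul 16777216 (fld (rowOf D g n) j)
def numStay (D : Dat) (n g : Nat) : Nat := Nat.mul (fld (rowOf D g n) 6) (Nat.sub 16777216 (fld (rowOf D g n) 7))
def numRise (D : Dat) (n g : Nat) : Nat := Nat.mul (D.cs n) (Nat.mul (fld (rowOf D g n) 6) (fld (rowOf D g n) 7))

/-- check of the run of an own vertex up since time `a` (`j = ep a`), from time `n` on, `fuel` slots -/
def runUp (D : Dat) (M a j : Nat) (fuel : Nat) : Nat → P → Nat → Bool :=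
  Nat.rec (motive := fun _ => Nat → P → Nat → Bool) (fun _ _ _ => true)
    (fun _ ih n p tot =>
      (fun p' => (fun tot' => Bool.rec false (ih (Nat.succ n) p' tot') (tests D.S (numUp D j n) n tot tot'))
        (P.sum p'))
      (slot M (rowOf D a n) (D.ep n) (D.ep (Nat.succ n)) (fS M (D.R n) n) p)) fuel

/-- array of an own vertex with label `C` after the slot -/
def stepC (D : Dat) (M n : Nat) (p : P) : P :=
  slot M (D.nrow n) (D.ep n) (D.ep (Nat.succ n)) (fT M (D.R n) n) p

/-- array of an own vertex rising in slot `n` -/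
def stepR (D : Dat) (M n : Nat) (p : P) : P :=
  slot M (D.nrow n) (D.ep n) (D.ep (Nat.succ n)) (fR M (Nat.mul (D.R n) (D.cs n)) n) p

/-- run of the `C` array from time `n`, `fuel` slots; in the slots `n` with `sel (n+1)` the rising array is checked
(mass test and its whole run); if `chk` the mass tests of the `C` array are made -/
def runC (D : Dat) (M : Nat) (sel : Nat → Bool) (chk : Bool) (fuel : Nat) : Nat → P → Nat → Bool :=
  Nat.rec (motive := fun _ => Nat → P → Nat → Bool) (fun _ _ _ => true)
    (fun _ ih n p tot =>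
      (fun p' => (fun tot' =>
        Bool.rec false
          (Bool.rec false (ih (Nat.succ n) p' tot')
            (Bool.rec true
              ((fun q => (fun totq =>
                Bool.rec false (runUp D M (Nat.succ n) (D.ep (Nat.succ n)) (Nat.sub D.S n) (Nat.succ n) q totq)
                  (tests D.S (numRise D n) n tot totq)) (P.sum q))
               (stepR D M n p))
              (sel (Nat.succ n))))
          (Bool.rec true (tests D.S (numStay D n) n tot tot') chk))
        (P.sum p'))
      (stepC D M n p)) fuel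

/-- the initial array (variables `C, U_0`), the same in all lanes, then extended by `U_1` if `ep 0 < 1`… the initial
array is over `Vs 0` -/
def initP (D : Dat) : P :=
  (fun (one A B : Nat) =>
    -- coefficient of C^c U^(4-c): binomial * B^c * A^(4-c)
    P.nd (P.nd (P.lf 0) (P.nd (P.lf 0) (P.nd (P.lf 0) (P.nd (P.lf 0) (P.lf (one * (A*A*A*A)))))))
      (P.nd (P.nd (P.lf 0) (P.nd (P.lf 0) (P.nd (P.lf 0) (P.lf (one * (4*(A*A*A*B)))))))
        (P.nd (P.nd (P.lf 0) (P.nd (P.lf 0) (P.lf (one * (6*(A*A*B*B))))))
          (P.nd (P.nd (P.lf 0) (P.lf (one * (4*(A*B*B*B)))))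
            (P.lf (one * (B*B*B*B)))))))
  ((2^(80*(D.S+2)) - 1) / (2^80 - 1)) D.A0 (4096 - D.A0)

/-- full check of the run `a = 0` -/
def check0 (D : Dat) : Bool :=
  runUp D (msk D.S) 0 0 (Nat.succ D.S) 0 (initP D) (P.sum (initP D))

/-- check of the `C` run in all slots `0,…,S-1` -/
def checkC (D : Dat) : Bool :=
  runC D (msk D.S) (fun _ => false) true D.S 0 (initP D) (P.sum (initP D))

/-- check of the runs `a` with `a1 ≤ a < a2` -/
def checkA (D : Dat) (a1 a2 : Nat) : Bool :=
  runC D (msk D.S) (fun a => Bool.rec false (Nat.blt a a2) (Nat.ble a1 a)) false (Nat.pred a2) 0 (initP D)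
    (P.sum (initP D))

end

end Pool.Agent.helper237_G5
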