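import Pool.Agent.helper237_G5.Stmts2

/-!
# Semantics of the nested polynomials as multivariate polynomials
-/

namespace Pool.Agent.helper237_G5

namespace sem_aux

open MvPolynomial

abbrev MP := MvPolynomial Lab ℝ

/-- the multivariate polynomial represented by a nested polynomial -/
noncomputable def pol : List Lab → ℕ → P → MP
  | [], d, .lf n => C (n : ℝ) * X Lab.Z ^ d
  | [], _, .nd _ _ => 0
  | _ :: _, 0, .lf n => C (n : ℝ)
  | _ :: _, 0, .nd _ _ => 0
  | _ :: _, _+1, .lf _ => 0
  | v :: vs, d+1, .nd p q => pol vs (d+1) p + X v * pol (v :: vs) d q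

/-- the Finsupp of a multiset -/
noncomputable abbrev fs (m : Multiset Lab) : Lab →₀ ℕ := Multiset.toFinsupp m

lemma fs_inj {m m' : Multiset Lab} : fs m = fs m' ↔ m = m' :=
  Multiset.toFinsupp.injective.eq_iff

lemma fs_replicate (d : ℕ) (a : Lab) : fs (Multiset.replicate d a) = Finsupp.single a d := by
  ext b
  rw [Multiset.toFinsupp_apply, Multiset.count_replicate, Finsupp.single_apply]

lemma fs_erase (m : Multiset Lab) (v : Lab) : fs (m.erase v) = fs m - Finsupp.single v 1 := by
  ext b
  rw [Multiset.toFinsupp_apply, Finsupp.tsub_apply, Multiset.toFinsupp_apply, Finsupp.single_apply]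
  by_cases h : v = b
  · subst h; simp
  · rw [if_neg h, Multiset.count_erase_of_ne (Ne.symm h)]; simp

lemma val_zero_of_mem : ∀ (p : P) (vs : List Lab) (d : ℕ) (v : Lab), v ∉ vs → v ≠ Lab.Z →
    ∀ m : Multiset Lab, v ∈ m → val vs d p m = 0 := by
  intro p
  induction p with
  | lf n =>
    intro vs d v hv hZ m hm
    cases vs with
    | nil =>
      simp only [val]
      rw [if_neg]
      rintro rfl
      exact hZ (Multiset.eq_of_mem_replicate hm)
    | cons w vs =>
      cases d with
      | zero =>
        simp only [val]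
        rw [if_neg]
        rintro rfl
        exact Multiset.notMem_zero _ hm
      | succ d => rfl
  | nd p q ihp ihq =>
    intro vs d v hv hZ m hm
    cases vs with
    | nil => rfl
    | cons w vs =>
      cases d with
      | zero => rfl
      | succ d =>
        simp only [val]
        have hvw : v ≠ w := fun h => hv (by simp [h])
        split_ifs with h
        · exact ihq _ _ v hv hZ _ ((Multiset.mem_erase_of_ne hvw).2 hm)
        · exact ihp _ _ v (fun h => hv (by simp [h])) hZ _ hm

lemma val_zero_of_card : ∀ (p : P) (vs : List Lab) (d : ℕ) (m : Multiset Lab),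
    Multiset.card m ≠ d → val vs d p m = 0 := by
  intro p
  induction p with
  | lf n =>
    intro vs d m hm
    cases vs with
    | nil =>
      simp only [val]
      rw [if_neg]
      rintro rfl
      simp at hm
    | cons w vs =>
      cases d with
      | zero =>
        simp only [val]
        rw [if_neg]
        rintro rfl
        simp at hm
      | succ d => rfl
  | nd p q ihp ihq =>
    intro vs d m hm
    cases vs with
    | nil => rfl
    | cons w vs =>
      cases d with
      | zero => rfl
      | succ d =>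
        simp only [val]
        split_ifs with h
        · refine ihq _ _ _ (fun h' => hm ?_)
          rw [← h', Multiset.card_erase_add_one h]
        · exact ihp _ _ _ hm

lemma coeff_pol : ∀ (p : P) (vs : List Lab) (d : ℕ), vs.Nodup → Lab.Z ∉ vs →
    ∀ m : Multiset Lab, coeff (fs m) (pol vs d p) = (val vs d p m : ℝ) := by
  intro p
  induction p with
  | lf n =>
    intro vs d hn hZ m
    cases vs with
    | nil =>
      simp only [pol, val]
      rw [coeff_C_mul, X_pow_eq_monomial, coeff_monomial, ← fs_replicate]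
      by_cases h : m = Multiset.replicate d Lab.Z
      · subst h; simp
      · rw [if_neg (fun h' => h (fs_inj.1 h').symm), if_neg h]; simp
    | cons w vs =>
      cases d with
      | zero =>
        simp only [pol, val]
        rw [coeff_C]
        by_cases h : m = 0
        · subst h; simp
        · rw [if_neg, if_neg h]
          · simp
          · intro h'
            apply h
            have : fs m = fs 0 := by rw [← h']; simp
            exact fs_inj.1 this
      | succ d => simp [pol, val]
  | nd p q ihp ihq =>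
    intro vs d hn hZ m
    cases vs with
    | nil => simp [pol, val]
    | cons w vs =>
      cases d with
      | zero => simp [pol, val]
      | succ d =>
        simp only [pol, val]
        have hn' : vs.Nodup := (List.nodup_cons.1 hn).2
        have hw : w ∉ vs := (List.nodup_cons.1 hn).1
        have hZ' : Lab.Z ∉ vs := fun h => hZ (by simp [h])
        have hwZ : w ≠ Lab.Z := fun h => hZ (by simp [h])
        rw [coeff_add, coeff_X_mul', ihp vs (d+1) hn' hZ' m, Multiset.toFinsupp_support]
        by_cases h : w ∈ m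
        · rw [if_pos (Multiset.mem_toFinset.2 h), if_pos h, ← fs_erase, ihq _ _ hn hZ,
            val_zero_of_mem p vs (d+1) w hw hwZ m h]
          simp
        · rw [if_neg (fun h' => h (Multiset.mem_toFinset.1 h')), if_neg h]
          simp

/-- a substitution fixing the variables in `vs` and `Z` fixes the polynomial -/
lemma bind_pol (S : Lab → MP) (hZ : S Lab.Z = X Lab.Z) : ∀ (p : P) (vs : List Lab) (d : ℕ),
    (∀ x ∈ vs, S x = X x) → bind₁ S (pol vs d p) = pol vs d p := by
  intro p
  induction p with
  | lf n =>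
    intro vs d h
    cases vs with
    | nil => simp only [pol, map_mul, map_pow, bind₁_X_right, hZ, bind₁_C_right]
    | cons w vs =>
      cases d with
      | zero => simp only [pol, bind₁_C_right]
      | succ d => simp only [pol, map_zero]
  | nd p q ihp ihq =>
    intro vs d h
    cases vs with
    | nil => simp only [pol, map_zero]
    | cons w vs =>
      cases d with
      | zero => simp only [pol, map_zero]
      | succ d =>
        simp only [pol, map_add, map_mul, bind₁_X_right]
        rw [ihp vs (d+1) (fun x hx => h x (by simp [hx])), ihq (w :: vs) d h,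
          h w (by simp)]

/-! ### the coefficientwise order -/

def cle (f g : MP) : Prop := ∀ m, coeff m f ≤ coeff m g

lemma cle_refl (f : MP) : cle f f := fun _ => le_rfl

lemma cle_of_eq {f g : MP} (h : f = g) : cle f g := h ▸ cle_refl f

lemma cle_trans {f g h : MP} (h1 : cle f g) (h2 : cle g h) : cle f h :=
  fun m => (h1 m).trans (h2 m)

lemma cle_add {f g f' g' : MP} (h1 : cle f g) (h2 : cle f' g') : cle (f + f') (g + g') := by
  intro m
  rw [coeff_add, coeff_add]
  exact add_le_add (h1 m) (h2 m)

lemma cle_mul {h f g : MP} (hh : cle 0 h) (hfg : cle f g) : cle (h * f) (h * g) := by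
  intro m
  rw [coeff_mul, coeff_mul]
  refine Finset.sum_le_sum fun x _ => mul_le_mul_of_nonneg_left (hfg _) ?_
  have := hh x.1
  rwa [coeff_zero] at this

lemma cle_zero_X (v : Lab) : cle 0 (X v) := by
  intro m
  rw [coeff_zero, coeff_X]
  split_ifs <;> norm_num

lemma cle_zero_C {a : ℝ} (ha : 0 ≤ a) : cle 0 (C a) := by
  intro m
  rw [coeff_zero, coeff_C]
  split_ifs <;> simp [ha]

lemma cle_zero_mul {f g : MP} (hf : cle 0 f) (hg : cle 0 g) : cle 0 (f * g) := by
  have := cle_mul hf hg
  rwa [mul_zero] at this

lemma cle_zero_add {f g : MP} (hf : cle 0 f) (hg : cle 0 g) : cle 0 (f + g) := by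
  have := cle_add hf hg
  rwa [zero_add] at this

lemma cle_zero_pow {f : MP} (hf : cle 0 f) (n : ℕ) : cle 0 (f ^ n) := by
  induction n with
  | zero => rw [pow_zero]; exact cle_zero_C (a := 1) zero_le_one
  | succ n ih => rw [pow_succ]; exact cle_zero_mul ih hf

lemma cle_C_mul {a b : ℝ} {f : MP} (hab : a ≤ b) (hf : cle 0 f) : cle (C a * f) (C b * f) := by
  intro m
  rw [coeff_C_mul, coeff_C_mul]
  have := hf m
  rw [coeff_zero] at this
  exact mul_le_mul_of_nonneg_right hab this

/-! ### basic operations -/

lemma map_le (A : ℕ → ℕ) (a : ℝ) (hA : ∀ x, (A x : ℝ) ≤ a * x) :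
    ∀ (p : P) (vs : List Lab) (d : ℕ), wf vs d p →
      wf vs d (p.map A) ∧ cle (pol vs d (p.map A)) (C a * pol vs d p) := by
  intro p
  induction p with
  | lf n =>
    intro vs d h
    cases vs with
    | nil =>
      refine ⟨trivial, ?_⟩
      show cle (C ((A n : ℕ) : ℝ) * X Lab.Z ^ d) (C a * (C (n : ℝ) * X Lab.Z ^ d))
      rw [← mul_assoc, ← C_mul]
      exact cle_C_mul (hA n) (cle_zero_pow (cle_zero_X _) _)
    | cons w vs =>
      cases d with
      | zero =>
        refine ⟨trivial, ?_⟩
        show cle (C ((A n : ℕ) : ℝ)) (C a * C (n : ℝ))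
        rw [← C_mul, ← mul_one (C ((A n : ℕ) : ℝ)), ← mul_one (C (a * (n : ℝ)))]
        exact cle_C_mul (hA n) (cle_zero_C (a := 1) zero_le_one)
      | succ d => exact absurd h id
  | nd p q ihp ihq =>
    intro vs d h
    cases vs with
    | nil => exact absurd h id
    | cons w vs =>
      cases d with
      | zero => exact absurd h id
      | succ d =>
        obtain ⟨h1, h2⟩ := h
        obtain ⟨hp1, hp2⟩ := ihp _ _ h1
        obtain ⟨hq1, hq2⟩ := ihq _ _ h2
        refine ⟨⟨hp1, hq1⟩, ?_⟩
        show cle (pol vs (d+1) (p.map A) + X w * pol (w :: vs) d (q.map A))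
          (C a * (pol vs (d+1) p + X w * pol (w :: vs) d q))
        have := cle_add hp2 (cle_mul (cle_zero_X w) hq2)
        refine cle_trans this (cle_of_eq (by ring))

lemma addLeft_eq (x : ℕ) : ∀ (p : P) (vs : List Lab) (d : ℕ), wf vs d p →
    wf vs d (p.addLeft x) ∧ pol vs d (p.addLeft x) = pol vs d p + C (x : ℝ) * X Lab.Z ^ d := by
  intro p
  induction p with
  | lf n =>
    intro vs d h
    cases vs with
    | nil =>
      refine ⟨trivial, ?_⟩
      show C ((Nat.add n x : ℕ) : ℝ) * X Lab.Z ^ d = C (n : ℝ) * X Lab.Z ^ d + C (x : ℝ) * X Lab.Z ^ d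
      rw [Nat.add_eq, Nat.cast_add, C_add]; ring
    | cons w vs =>
      cases d with
      | zero =>
        refine ⟨trivial, ?_⟩
        show C ((Nat.add n x : ℕ) : ℝ) = C (n : ℝ) + C (x : ℝ) * X Lab.Z ^ 0
        rw [Nat.add_eq, Nat.cast_add, C_add]; ring
      | succ d => exact absurd h id
  | nd p q ihp ihq =>
    intro vs d h
    cases vs with
    | nil => exact absurd h id
    | cons w vs =>
      cases d with
      | zero => exact absurd h id
      | succ d =>
        obtain ⟨h1, h2⟩ := h
        obtain ⟨hp1, hp2⟩ := ihp _ _ h1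
        refine ⟨⟨hp1, h2⟩, ?_⟩
        show pol vs (d+1) (p.addLeft x) + X w * pol (w :: vs) d q = _
        rw [hp2]
        show _ = pol vs (d+1) p + X w * pol (w :: vs) d q + _
        ring

lemma add_eq (e : ℕ) : ∀ (p q : P) (vs : List Lab) (d : ℕ), wf vs (d+e) p → wf vs d q →
    wf vs (d+e) (p.add q) ∧ pol vs (d+e) (p.add q) = pol vs (d+e) p + X Lab.Z ^ e * pol vs d q := by
  intro p
  induction p with
  | lf n =>
    intro q vs d h h'
    cases vs with
    | nil =>
      cases q with
      | nd q1 q2 => exact absurd h' id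
      | lf m =>
        refine ⟨trivial, ?_⟩
        show C ((Nat.add n m : ℕ) : ℝ) * X Lab.Z ^ (d+e) = C (n : ℝ) * X Lab.Z ^ (d+e) +
          X Lab.Z ^ e * (C (m : ℝ) * X Lab.Z ^ d)
        rw [Nat.add_eq, Nat.cast_add, C_add]; ring
    | cons w vs =>
      rcases Nat.eq_zero_or_pos (d+e) with hde | hde
      · have hd : d = 0 := by omega
        have he : e = 0 := by omega
        subst hd; subst he
        cases q with
        | nd q1 q2 => exact absurd h' id
        | lf m =>
          refine ⟨trivial, ?_⟩
          show C ((Nat.add n m : ℕ) : ℝ) = C (n : ℝ) + X Lab.Z ^ 0 * C (m : ℝ)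
          rw [Nat.add_eq, Nat.cast_add, C_add]; ring
      · obtain ⟨k, hk⟩ := Nat.exists_eq_succ_of_ne_zero hde.ne'
        rw [hk] at h
        exact absurd h id
  | nd p1 p2 ih1 ih2 =>
    intro q vs d h h'
    cases vs with
    | nil => exact absurd h id
    | cons w vs =>
      cases d with
      | zero =>
        cases q with
        | nd q1 q2 => exact absurd h' id
        | lf m =>
          cases e with
          | zero => exact absurd h id
          | succ e =>
            rw [Nat.zero_add] at h ⊢
            obtain ⟨h1, h2⟩ := h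
            obtain ⟨hp1, hp2⟩ := addLeft_eq m _ _ _ h1
            refine ⟨⟨hp1, h2⟩, ?_⟩
            show pol vs (e+1) (p1.addLeft m) + X w * pol (w :: vs) e p2 =
              pol vs (e+1) p1 + X w * pol (w :: vs) e p2 + X Lab.Z ^ (e+1) * C (m : ℝ)
            rw [hp2]; ring
      | succ d =>
        cases q with
        | lf m => exact absurd h' id
        | nd q1 q2 =>
          rw [Nat.succ_add] at h ⊢
          obtain ⟨h1, h2⟩ := h
          obtain ⟨h1', h2'⟩ := h'
          have h1'' : wf vs (d + 1 + e) p1 := by rw [Nat.succ_add]; exact h1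
          obtain ⟨ha1, ha2⟩ := ih1 q1 vs (d+1) h1'' h1'
          obtain ⟨hb1, hb2⟩ := ih2 q2 (w :: vs) d h2 h2'
          rw [Nat.succ_add] at ha1 ha2
          refine ⟨⟨ha1, hb1⟩, ?_⟩
          show pol vs (d+e+1) (p1.add q1) + X w * pol (w :: vs) (d+e) (p2.add q2) =
            pol vs (d+e+1) p1 + X w * pol (w :: vs) (d+e) p2 + X Lab.Z ^ e *
              (pol vs (d+1) q1 + X w * pol (w :: vs) d q2)
          rw [ha2, hb2]; ring

/-! ### tuples -/

/-- tuples with the same multiset of labels differ by a permutation -/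
lemma perm_of_typ {f g : Fin 4 → Lab} (h : typ f = typ g) :
    ∃ σ : Equiv.Perm (Fin 4), ∀ i, g (σ i) = f i := by
  have hc : ∀ b : Lab, Fintype.card {i // f i = b} = Fintype.card {i // g i = b} := by
    intro b
    have h1 : Multiset.count b (typ f) = Multiset.count b (typ g) := by rw [h]
    rw [typ, typ, Multiset.count_map, Multiset.count_map] at h1
    rw [Fintype.card_subtype, Fintype.card_subtype]
    have h2 : ∀ k : Fin 4 → Lab, (Finset.univ.filter (fun i => k i = b)).card =
        Multiset.card (Multiset.filter (fun a => b = k a) Finset.univ.val) := by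
      intro k
      rw [Finset.card_def, Finset.filter_val]
      congr 1
      exact Multiset.filter_congr (fun x _ => eq_comm)
    rw [h2, h2, h1]
  let σ : Equiv.Perm (Fin 4) := (Equiv.sigmaFiberEquiv f).symm.trans
    ((Equiv.sigmaCongrRight (fun b => Fintype.equivOfCardEq (hc b))).trans
      (Equiv.sigmaFiberEquiv g))
  refine ⟨σ, fun i => ?_⟩
  show g ((Fintype.equivOfCardEq (hc (f i)) ⟨i, rfl⟩ : {j // g j = f i}) : Fin 4) = f i
  exact (Fintype.equivOfCardEq (hc (f i)) ⟨i, rfl⟩).2

lemma exists_typ (m : Multiset Lab) (hm : Multiset.card m = 4) : ∃ z : Fin 4 → Lab, typ z = m := by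
  induction m using Quotient.inductionOn with
  | h l =>
    have hl : l.length = 4 := hm
    refine ⟨fun i => l.get (i.cast hl.symm), ?_⟩
    rw [typ, Fin.univ_val_map]
    show ((List.ofFn (fun i : Fin 4 => l.get (i.cast hl.symm)) : List Lab) : Multiset Lab) =
      (l : Multiset Lab)
    congr 1
    apply List.ext_get
    · simp [hl]
    · intro n h1 h2
      rw [List.get_ofFn]
      rfl

lemma card_typ (x : Fin 4 → Lab) : Multiset.card (typ x) = 4 := by
  simp [typ]

/-- the homogeneous polynomial of an array on tuples -/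
noncomputable def Phi (Y : (Fin 4 → Lab) → ℝ) : MP := ∑ x, C (Y x) * ∏ i, X (x i)

lemma prod_X (x : Fin 4 → Lab) : (∏ i, X (x i) : MP) = monomial (fs (typ x)) 1 := by
  have h : fs (typ x) = ∑ i, Finsupp.single (x i) 1 := by
    ext b
    rw [Multiset.toFinsupp_apply, typ, Multiset.count_map, Finsupp.finsetSum_apply]
    simp only [Finsupp.single_apply]
    rw [Finset.sum_boole, Finset.card_def, Finset.filter_val]
    simp only [Nat.cast_id]
    congr 1
    exact Multiset.filter_congr (fun x _ => eq_comm)
  rw [h, monomial_sum_one]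
  rfl

lemma coeff_Phi (Y : (Fin 4 → Lab) → ℝ) (m : Multiset Lab) :
    coeff (fs m) (Phi Y) = ∑ x ∈ Finset.univ.filter (fun x => typ x = m), Y x := by
  rw [Phi, coeff_sum, Finset.sum_filter]
  refine Finset.sum_congr rfl fun x _ => ?_
  rw [prod_X, coeff_C_mul, coeff_monomial]
  by_cases h : typ x = m
  · rw [if_pos (fs_inj.2 h), if_pos h, mul_one]
  · rw [if_neg (fun h' => h (fs_inj.1 h')), if_neg h, mul_zero]

def Sym4 (Y : (Fin 4 → Lab) → ℝ) : Prop := ∀ x x', typ x = typ x' → Y x = Y x'

lemma mult_pos (z : Fin 4 → Lab) : (0 : ℝ) < mult z := by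
  have : 0 < mult z := by
    unfold mult
    exact Finset.card_pos.2 ⟨z, by simp⟩
  exact_mod_cast this

lemma mult_eq (z : Fin 4 → Lab) : mult z = (Finset.univ.filter (fun x => typ x = typ z)).card := by
  unfold mult
  congr 1

lemma coeff_Phi_sym {Y : (Fin 4 → Lab) → ℝ} (hY : Sym4 Y) (z : Fin 4 → Lab) :
    coeff (fs (typ z)) (Phi Y) = mult z * Y z := by
  rw [coeff_Phi, Finset.sum_congr rfl (g := fun _ => Y z)]
  · rw [Finset.sum_const, mult_eq, nsmul_eq_mul]
  · intro x hx
    exact hY x z (Finset.mem_filter.1 hx).2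

lemma Yof_sym (vs : List Lab) (p : P) : Sym4 (Yof vs p) := by
  intro x x' h
  unfold Yof
  rw [mult_eq, mult_eq, h]

lemma push_sym (E : Lab → Lab → ℝ) {Y : (Fin 4 → Lab) → ℝ} (hY : Sym4 Y) :
    Sym4 (push E Y) := by
  intro y y' h
  obtain ⟨σ, hσ⟩ := perm_of_typ h
  unfold push
  refine Fintype.sum_equiv (Equiv.arrowCongr σ (Equiv.refl Lab)) _ _ fun x => ?_
  have h1 : Y ((Equiv.arrowCongr σ (Equiv.refl Lab)) x) = Y x := by
    apply hY
    show Multiset.map (fun i => x (σ.symm i)) Finset.univ.val = Multiset.map x Finset.univ.val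
    have h2 : Multiset.map (fun i => x (σ.symm i)) (Finset.univ : Finset (Fin 4)).val =
        Multiset.map x (Multiset.map σ.symm Finset.univ.val) := by
      rw [Multiset.map_map]; rfl
    rw [h2, Multiset.map_univ_val_equiv]
  rw [h1]
  congr 1
  refine Fintype.prod_equiv σ _ _ fun i => ?_
  rw [hσ i]
  simp [Equiv.arrowCongr]

lemma Phi_push (E : Lab → Lab → ℝ) (Y : (Fin 4 → Lab) → ℝ) :
    Phi (push E Y) = bind₁ (fun x => ∑ y, C (E x y) * X y) (Phi Y) := by
  unfold Phi push
  rw [map_sum]
  simp only [map_mul, map_prod, bind₁_C_right, bind₁_X_right]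
  simp only [map_sum, Finset.sum_mul]
  rw [Finset.sum_comm]
  refine Finset.sum_congr rfl fun x _ => ?_
  rw [Finset.prod_univ_sum, Fintype.piFinset_univ, Finset.mul_sum]
  refine Finset.sum_congr rfl fun y _ => ?_
  rw [Finset.prod_mul_distrib, C_mul, map_prod, mul_assoc]

lemma Phi_Yof (vs : List Lab) (p : P) (hn : vs.Nodup) (hZ : Lab.Z ∉ vs) :
    Phi (Yof vs p) = pol vs 4 p := by
  ext m
  obtain ⟨m', rfl⟩ : ∃ m', m = fs m' := ⟨Finsupp.toMultiset m, (Finsupp.toMultiset_toFinsupp m).symm⟩
  rw [coeff_pol p vs 4 hn hZ]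
  by_cases h : Multiset.card m' = 4
  · obtain ⟨z, rfl⟩ := exists_typ m' h
    rw [coeff_Phi_sym (Yof_sym vs p)]
    unfold Yof
    have := (mult_pos z).ne'
    field_simp
  · rw [val_zero_of_card p vs 4 m' h, coeff_Phi, Finset.sum_eq_zero]
    · simp
    · intro x hx
      exfalso
      apply h
      rw [← (Finset.mem_filter.1 hx).2, card_typ]

/-- comparison of an array with a pushed array, through the polynomials -/
lemma le_push (vs : List Lab) (p p' : P) (E : Lab → Lab → ℝ) (S : Lab → MP) (hn : vs.Nodup)
    (hZ : Lab.Z ∉ vs) (hS : ∀ x, ∑ y, C (E x y) * X y = S x)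
    (h : cle (pol vs 4 p') (bind₁ S (pol vs 4 p))) (x : Fin 4 → Lab) :
    Yof vs p' x ≤ push E (Yof vs p) x := by
  have h1 := h (fs (typ x))
  have hS' : (fun x => ∑ y, C (E x y) * X y) = S := funext hS
  rw [← Phi_Yof vs p' hn hZ, ← Phi_Yof vs p hn hZ, ← hS', ← Phi_push,
    coeff_Phi_sym (Yof_sym vs p'), coeff_Phi_sym (push_sym E (Yof_sym vs p))] at h1
  exact le_of_mul_le_mul_left h1 (mult_pos x)

end sem_aux

end Pool.Agent.helper237_G5
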