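import Pool.Agent.helper237_G5.Defs
import Pool.Agent.helper237_G5.Checker

/-!
# Statements of the parts of the proof (each `S_xxx` is a `Prop`, to be proved in a separate file)
-/

namespace Pool.Agent.helper237_G5

open MeasureTheory ProbabilityTheory Filter Topology

/-! ## A. Closure theorem (finite sums only) -/

/-- A certificate gives a uniform lower bound for the probability of a valid labelling. -/
def S_closure : Prop :=
  ∀ (S : ℕ) (p0 p : ℝ) (r : ℕ → ℝ), 0 < p0 → p0 ≤ p → p ≤ 1 → (∀ n, 0 ≤ r n) → (∀ n, r n ≤ 1) → r S = 1 →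
    ∀ (ct : Cert S p0 r) (D : ℕ),
      p0 * ∏ n ∈ Finset.range (S+1), ct.s none n 0 ≤ probV S p r D

/-! ## B. Probability: passing to the process -/

def S_prob : Prop :=
  ∀ (Ω V : Type) [MeasurableSpace Ω] (G : SimpleGraph V) [G.LocallyFinite] (p : ℝ) (μ : Measure Ω)
    (init : V → Ω → Bool) (rings : V → Ω → Set ℝ) (σ : Ω → ℝ → V → Bool),
    IsGlauber G p μ init rings σ → 0 ≤ p → p ≤ 1 →
    ∀ (S : ℕ) (r t : ℕ → ℝ), IsGrid S r t → ∀ (o : V) (φ : List (Fin 4) → V), IsEmb G o φ →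
    ∀ Q : ℝ, (∀ D, Q ≤ probV S p r D) →
      ENNReal.ofReal Q ≤
        μ {ω | ∀ D, VD S D (cfgO (fun w => ownOf init rings t S (φ w) ω) D []) none (star (S+1))}

/-- compactness: labellings of all finite depths give an infinite labelling -/
def S_compact : Prop :=
  ∀ (S : ℕ) (own : List (Fin 4) → Own S), (∀ D, VD S D (cfgO own D []) none (star (S+1))) →
    ∃ lab : List (Fin 4) → Path (S+1), lab [] = star (S+1) ∧
      ∀ w, okPath (own w) (pcls lab w) (S+1) (lab w) (fun i => lab (i :: w))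

/-! ## C. Deterministic comparison -/

/-- number of neighbours with `z` -/
noncomputable def znbrs {V : Type} (G : SimpleGraph V) [G.LocallyFinite] (z : V → Prop) (v : V) : ℕ := by
  classical exact ((G.neighborFinset v).filter (fun w => z w)).card

/-- the slot rule: `z v n` certifies that `v` is `+` during the whole slot `n` (slot `S` is `[t S, ∞)`) -/
def ZRule {V : Type} (G : SimpleGraph V) [G.LocallyFinite] (init : V → Bool) (R : V → Set ℝ) (t : ℕ → ℝ) (S : ℕ)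
    (z : V → ℕ → Prop) : Prop :=
  (∀ v, z v 0 → init v = true) ∧
  (∀ v n, n < S → z v n → (R v ∩ Set.Ioc (t n) (t (n+1))).Nonempty → 3 ≤ znbrs G (fun w => z w n) v) ∧
  (∀ v, z v S → 3 ≤ znbrs G (fun w => z w S) v) ∧
  (∀ v n, n < S → ¬ z v n → z v (n+1) →
    (R v ∩ Set.Ioc (t n) (t (n+1))).Nonempty ∧ 3 ≤ znbrs G (fun w => z w n) v)

/-- a labelling gives a `z` satisfying the slot rule, with the root certified in the final slot -/
def S_lab : Prop :=
  ∀ (V : Type) (G : SimpleGraph V) [G.LocallyFinite] (o : V) (φ : List (Fin 4) → V), IsEmb G o φ →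
  ∀ (init : V → Bool) (R : V → Set ℝ) (t : ℕ → ℝ) (S : ℕ) (own : List (Fin 4) → Own S),
    (∀ w, (own w).1 = init (φ w)) →
    (∀ w (n : Fin S), (own w).2 n = true ↔ (R (φ w) ∩ Set.Ioc (t n) (t (n+1))).Nonempty) →
    ∀ lab : List (Fin 4) → Path (S+1), lab [] = star (S+1) →
      (∀ w, okPath (own w) (pcls lab w) (S+1) (lab w) (fun i => lab (i :: w))) →
      ∃ z : V → ℕ → Prop, ZRule G init R t S z ∧ z o S

/-- the slot rule gives a lower bound of the dynamics -/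
def S_cmp : Prop :=
  ∀ (V : Type) (G : SimpleGraph V) [G.LocallyFinite], (∀ v, G.degree v = 5) →
  ∀ (init : V → Bool) (R : V → Set ℝ) (σ : ℝ → V → Bool) (t τ : ℕ → ℝ) (S : ℕ),
    (∀ v, R v ⊆ Set.Ioi 0) → (∀ v s, (R v ∩ Set.Iic s).Finite) →
    (∀ v, σ 0 v = init v) →
    (∀ v s s', 0 ≤ s → s ≤ s' → R v ∩ Set.Ioc s s' = ∅ → σ s' v = σ s v) →
    (∀ v s', s' ∈ R v → ∀ᶠ s in 𝓝[<] s', σ s' v = majority G (σ s) v) →
    t 0 = 0 → StrictMono t → τ 0 = 0 → StrictMono τ → Tendsto τ atTop atTop →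
    (∀ k, FiniteClusters G R (τ k) (τ (k+1))) →
    ∀ z : V → ℕ → Prop, ZRule G init R t S z →
      ∀ v, z v S → ∀ s, t S ≤ s → σ s v = true

/-- almost surely the clusters of vertices ringing in short windows are finite -/
def S_clusters : Prop :=
  ∀ (Ω V : Type) [MeasurableSpace Ω] (G : SimpleGraph V) [G.LocallyFinite], (∀ v, G.degree v = 5) → G.Connected →
    ∀ (p : ℝ) (μ : Measure Ω) (init : V → Ω → Bool) (rings : V → Ω → Set ℝ) (σ : Ω → ℝ → V → Bool),
    IsGlauber G p μ init rings σ →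
    ∃ τ : ℕ → ℝ, τ 0 = 0 ∧ StrictMono τ ∧ Tendsto τ atTop atTop ∧
      ∀ᵐ ω ∂μ, ∀ k, FiniteClusters G (fun v => rings v ω) (τ k) (τ (k+1))

def S_emb : Prop :=
  ∀ (V : Type) (G : SimpleGraph V) [G.LocallyFinite], G.IsTree → (∀ v, G.degree v = 5) →
    ∀ o, ∃ φ : List (Fin 4) → V, IsEmb G o φ

/-! ## D. Semantics of the integer arrays -/

/-- shape: `p ∈ P(vs, d)` -/
def wf : List Lab → ℕ → P → Prop
  | [], _, .lf _ => True
  | [], _, .nd _ _ => False
  | _ :: _, 0, .lf _ => True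
  | _ :: _, 0, .nd _ _ => False
  | _ :: _, _+1, .lf _ => False
  | v :: vs, d+1, .nd p q => wf vs (d+1) p ∧ wf (v :: vs) d q

open Classical in
/-- coefficient of the monomial `∏_{x ∈ m} X_x` (a multiset of `d` labels) -/
noncomputable def val : List Lab → ℕ → P → Multiset Lab → ℕ
  | [], d, .lf n, m => if m = Multiset.replicate d Lab.Z then n else 0
  | [], _, .nd _ _, _ => 0
  | _ :: _, 0, .lf n, m => if m = 0 then n else 0
  | _ :: _, 0, .nd _ _, _ => 0
  | _ :: _, _+1, .lf _, _ => 0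
  | v :: vs, d+1, .nd p q, m => if v ∈ m then val (v :: vs) d q (m.erase v) else val vs (d+1) p m

/-- the multiset of the labels of the children -/
def typ (x : Fin 4 → Lab) : Multiset Lab := Finset.univ.val.map x

open Classical in
/-- number of tuples with the same multiset of labels -/
noncomputable def mult (x : Fin 4 → Lab) : ℕ := (Finset.univ.filter (fun y : Fin 4 → Lab => typ y = typ x)).card

/-- the array on tuples represented by `p` -/
noncomputable def Yof (vs : List Lab) (p : P) (x : Fin 4 → Lab) : ℝ := (val vs 4 p (typ x) : ℝ) / mult x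

/-- apply a transition matrix to each child -/
noncomputable def push (E : Lab → Lab → ℝ) (Y : (Fin 4 → Lab) → ℝ) (y : Fin 4 → Lab) : ℝ :=
  ∑ x : Fin 4 → Lab, Y x * ∏ i, E (x i) (y i)

/-- elementary matrix: `v ↦ a v + b Z` -/
noncomputable def EF (v : Lab) (a b : ℝ) (x y : Lab) : ℝ :=
  if x = v then (if y = v then a else if y = Lab.Z then b else 0) else (if y = x then 1 else 0)

/-- elementary matrix: `C ↦ a C + b w` -/
noncomputable def EM (w : Lab) (a b : ℝ) (x y : Lab) : ℝ :=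
  if x = Lab.C then (if y = Lab.C then a else if y = w then b else 0) else (if y = x then 1 else 0)

/-- the variables `C, U m, U (m-1), …, U 0` -/
def Vs : (m : ℕ) → List Lab
  | m => Lab.C :: (List.range (m+1)).reverse.map (fun j => Lab.U (Fin.ofNat 6 j))

def S_fail : Prop :=
  ∀ (vs : List Lab) (p : P) (t : ℕ) (v : Lab) (A B : ℕ → ℕ) (a b : ℝ), vs.Nodup → Lab.Z ∉ vs → vs[t]? = some v →
    wf vs 4 p → 0 ≤ a → 0 ≤ b → (∀ x, (A x : ℝ) ≤ a * x) → (∀ x, (B x : ℝ) ≤ b * x) →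
    wf vs 4 (P.fail A B p t) ∧ (∀ x, Yof vs (P.fail A B p t) x ≤ push (EF v a b) (Yof vs p) x)

def S_move : Prop :=
  ∀ (w : Lab) (vs : List Lab) (p : P) (A B : ℕ → ℕ) (a b : ℝ), (Lab.C :: w :: vs).Nodup → Lab.Z ∉ (Lab.C :: w :: vs) →
    wf (Lab.C :: w :: vs) 4 p → 0 ≤ a → 0 ≤ b → (∀ x, (A x : ℝ) ≤ a * x) → (∀ x, (B x : ℝ) ≤ b * x) →
    wf (Lab.C :: w :: vs) 4 (P.move A B p) ∧
      (∀ x, Yof (Lab.C :: w :: vs) (P.move A B p) x ≤ push (EM w a b) (Yof (Lab.C :: w :: vs) p) x)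

def S_mask : Prop :=
  ∀ (m : ℕ) (p : P) (f : ℕ → ℕ → ℕ) (w : ℕ → ℝ), m < 6 → wf (Vs m) 4 p → (∀ u x, (f u x : ℝ) ≤ w u * x) →
    wf (Vs m) 4 (P.maskC f p) ∧
      (∀ x, Yof (Vs m) (P.maskC f p) x ≤
        w ((Finset.univ.filter (fun i => (x i).up = true)).card) * Yof (Vs m) p x)

def S_ins : Prop :=
  ∀ (m : ℕ) (p : P), m < 5 → wf (Vs m) 4 p →
    wf (Vs (m+1)) 4 (P.ins (m+2) p 4) ∧ Yof (Vs (m+1)) (P.ins (m+2) p 4) = Yof (Vs m) p

def S_sum : Prop :=
  ∀ (vs : List Lab) (p : P), vs.Nodup → Lab.Z ∉ vs → wf vs 4 p → ∑ x, Yof vs p x = (P.sum p : ℝ)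

/-- the one-slot operator in three steps -/
def S_three : Prop :=
  ∀ (e : ℕ → Fin 6) (s : Option ℕ → ℕ → Fin 6 → ℝ) (u k : Option ℕ → ℕ → ℝ) (g : Option ℕ) (n : ℕ)
    (w : ℕ → ℝ) (Y : (Fin 4 → Lab) → ℝ) (γ β : ℝ), k g n = γ * (1 - β) → u g n = γ * β →
    nat4 (Tm e s u k g n) w Y =
      push (EM (Lab.U (e (n+1))) (1 - β) β) (push (EF Lab.C γ (1 - γ))
        (fun y => w ((Finset.univ.filter (fun i => (y i).up = true)).card) *
          push (EF (Lab.U 5) (s g n 5) (1 - s g n 5)) (push (EF (Lab.U 4) (s g n 4) (1 - s g n 4))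
          (push (EF (Lab.U 3) (s g n 3) (1 - s g n 3)) (push (EF (Lab.U 2) (s g n 2) (1 - s g n 2))
          (push (EF (Lab.U 1) (s g n 1) (1 - s g n 1)) (push (EF (Lab.U 0) (s g n 0) (1 - s g n 0)) Y))))) y))

end Pool.Agent.helper237_G5
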