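import Pool.Agent.helper237_G5.Stmts
import Pool.Agent.helper237_G5.Run

/-!
# Statements, second part: packed lanes, and soundness of the checker
-/

namespace Pool.Agent.helper237_G5

open MeasureTheory ProbabilityTheory Filter Topology

/-! ## E. Packed lanes -/

/-- `p` is the packing of the polynomials `q 0, …, q (N-1)` (same shape; leaf = `∑_g 2^(80 g) * leaf of q g`) -/
def Rel (N : ℕ) : P → (ℕ → P) → Prop
  | .lf x, q => ∃ f : ℕ → ℕ, (∀ g, q g = .lf (f g)) ∧ x = ∑ g ∈ Finset.range N, f g * 2^(80*g)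
  | .nd p1 p2, q => ∃ q1 q2 : ℕ → P, (∀ g, q g = .nd (q1 g) (q2 g)) ∧ Rel N p1 q1 ∧ Rel N p2 q2

/-- the operation `rnd` in one lane -/
def rl (c x : ℕ) : ℕ := c * x / 2^24 % 2^48

/-- mask of the low 48 bits of the lanes `0,…,N-1` (`msk S = mk (S+2)`) -/
def mk (N : ℕ) : ℕ := ∑ g ∈ Finset.range N, (2^48 - 1) * 2^(80*g)

/-- `fS`, `fT`, `fR` in lane `g` -/
def lS (R n g u x : ℕ) : ℕ := by3 (rl (2^24 - R) x) (if g ≤ n then x else rl (2^24 - R) x) x u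
def lT (R n g u x : ℕ) : ℕ := by3 x (if g ≤ n then rl (2^24 - R) x else x) (rl (2^24 - R) x) u
def lR (Rc n g u x : ℕ) : ℕ := by3 0 (if g ≤ n then rl Rc x else 0) (rl Rc x) u

/-- operations which do not increase the sum of the coefficients (one lane) -/
def S_mass : Prop :=
  (∀ (A B : ℕ → ℕ), (∀ x, A x + B x ≤ x) → ∀ (p : P) (t : ℕ), (P.fail A B p t).sum ≤ p.sum) ∧
  (∀ (A B : ℕ → ℕ), (∀ x, A x + B x ≤ x) → ∀ (p : P), (P.move A B p).sum ≤ p.sum) ∧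
  (∀ (f : ℕ → ℕ → ℕ), (∀ u x, f u x ≤ x) → ∀ (p : P), (P.maskC f p).sum ≤ p.sum) ∧
  (∀ (k d : ℕ) (p : P), (P.ins k p d).sum ≤ p.sum)

def S_packFail : Prop :=
  ∀ (N : ℕ) (p : P) (q : ℕ → P) (a b t : ℕ), Rel N p q → (∀ g, (q g).sum ≤ 2^48) → a + b ≤ 2^24 →
    Rel N (P.fail (rnd (mk N) a) (rnd (mk N) b) p t) (fun g => P.fail (rl a) (rl b) (q g) t)

def S_packMove : Prop :=
  ∀ (N : ℕ) (p : P) (q : ℕ → P) (a b : ℕ), Rel N p q → (∀ g, (q g).sum ≤ 2^48) → a + b ≤ 2^24 →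
    Rel N (P.move (rnd (mk N) a) (rnd (mk N) b) p) (fun g => P.move (rl a) (rl b) (q g))

def S_packIns : Prop :=
  ∀ (N : ℕ) (p : P) (q : ℕ → P) (k d : ℕ), Rel N p q → Rel N (P.ins k p d) (fun g => P.ins k (q g) d)

def S_packMask : Prop :=
  ∀ (N : ℕ) (p : P) (q : ℕ → P) (R Rc n : ℕ), Rel N p q → (∀ g, (q g).sum ≤ 2^48) → R ≤ 2^24 → Rc ≤ 2^24 →
    Rel N (P.maskC (fS (mk N) R n) p) (fun g => P.maskC (lS R n g) (q g)) ∧
    Rel N (P.maskC (fT (mk N) R n) p) (fun g => P.maskC (lT R n g) (q g)) ∧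
    Rel N (P.maskC (fR (mk N) Rc n) p) (fun g => P.maskC (lR Rc n g) (q g))

def S_packSum : Prop :=
  (∀ S, msk S = mk (S+2)) ∧
  ∀ (N : ℕ) (p : P) (q : ℕ → P), Rel N p q → (∀ g, (q g).sum ≤ 2^48) → ∀ g < N, laneK g (P.sum p) = (q g).sum

/-! ## F. Soundness of the checker -/

/-- side conditions on the data -/
structure Good (D : Dat) : Prop where
  R_le : ∀ n < D.S, D.R n ≤ 2^24
  R_S : D.R D.S = 2^24
  cs_pos : ∀ n, 0 < D.cs n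
  Rcs : ∀ n < D.S, D.R n * D.cs n ≤ 2^24
  ep0 : D.ep 0 = 0
  ep_mono : ∀ n, D.ep n ≤ D.ep (n+1)
  ep_step : ∀ n, D.ep (n+1) ≤ D.ep n + 1
  ep_le : ∀ n, D.ep n ≤ 5
  fld_le : ∀ g n i, n ≤ D.S → g ≤ D.S + 1 → i < 8 → fld (rowOf D g n) i ≤ 2^24
  G_S : ∀ g, g ≤ D.S + 1 → fld (rowOf D g D.S) 6 = 0
  A0_pos : 0 < D.A0
  A0_le : D.A0 ≤ 4096

/-- the three checks give a closure certificate with `p = A0/2^12`, `r n = R n / 2^24` -/
def S_sound : Prop :=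
  ∀ D : Dat, Good D → check0 D = true → checkC D = true →
    (∀ a, 1 ≤ a → a ≤ D.S → ∃ a1 a2, a1 ≤ a ∧ a < a2 ∧ checkA D a1 a2 = true) →
    ∃ ct : Cert D.S ((D.A0 : ℝ)/4096) (fun n => (D.R n : ℝ)/2^24),
      ∀ n ≤ D.S, ct.s none n 0 = (fld (D.nrow n) 0 : ℝ)/2^24

/-! ## G. Assembly -/

/-- from a family of closure certificates to the critical density -/
def S_main : Prop :=
  ∀ (S : ℕ) (p0 : ℝ) (r : ℕ → ℝ), 0 < p0 → p0 ≤ 1 → (∀ n < S, 0 < r n) → (∀ n < S, r n < 1) → r S = 1 →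
    ∀ ct : Cert S p0 r, (∀ n ≤ S, 0 < ct.s none n 0) →
    ∀ (V : Type) (G : SimpleGraph V) [G.LocallyFinite], G.IsTree → (∀ v, G.degree v = 5) → ∀ o : V,
      (∀ (Ω : Type) [MeasurableSpace Ω] (p : ℝ) (μ : Measure Ω) (init : V → Ω → Bool)
        (rings : V → Ω → Set ℝ) (σ : Ω → ℝ → V → Bool), p0 ≤ p → p ≤ 1 → IsGlauber G p μ init rings σ →
        0 < μ {ω | ∃ T, ∀ t ≥ T, σ ω t o = true}) ∧
      (∀ p ∈ minusSet G o, p < p0) ∧ pc G o ≤ p0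

end Pool.Agent.helper237_G5
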