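import Pool.Agent.helper237_G5.Stmts2

/-!
# Statements, third part: existence of the objects (so that nothing is vacuous)
-/

namespace Pool.Agent.helper237_G5

open MeasureTheory ProbabilityTheory Filter Topology

/-- i.i.d. initial spins and independent rate-one Poisson clocks (the part of `IsGlauber` without the dynamics) -/
structure IsClocks {Ω V : Type} [MeasurableSpace Ω] (p : ℝ)
    (μ : Measure Ω) (init : V → Ω → Bool) (rings : V → Ω → Set ℝ) : Prop where
  prob : IsProbabilityMeasure μ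
  rings_pos : ∀ v ω, rings v ω ⊆ Set.Ioi 0
  rings_fin : ∀ v ω t, (rings v ω ∩ Set.Iic t).Finite
  init_meas : ∀ v, Measurable (init v)
  count_meas : ∀ v a b, Measurable (ringCount rings v a b)
  init_law : ∀ v, μ {ω | init v ω = true} = ENNReal.ofReal p
  count_law : ∀ v (a b : ℝ), 0 ≤ a → a < b → ∀ k : ℕ,
    μ {ω | ringCount rings v a b ω = k} = ENNReal.ofReal (Real.exp (-(b-a)) * (b-a)^k / k.factorial)
  indep : ∀ t : ℕ → ℝ, t 0 = 0 → StrictMono t →
    iIndepFun (fun (i : V × Option ℕ) (ω : Ω) => (match i.2 with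
      | none => if init i.1 ω = true then 1 else 0
      | some n => ringCount rings i.1 (t n) (t (n+1)) ω : ℕ)) μ

/-- construction of the clocks -/
def S_clocks : Prop :=
  ∀ (V : Type) [Countable V] (p : ℝ), 0 ≤ p → p ≤ 1 →
    ∃ (Ω : Type) (_ : MeasurableSpace Ω) (μ : Measure Ω) (init : V → Ω → Bool) (rings : V → Ω → Set ℝ),
      IsClocks p μ init rings

/-- construction of the dynamics from the clocks (deterministic) -/
def S_flow : Prop :=
  ∀ (V : Type) (G : SimpleGraph V) [G.LocallyFinite] (init : V → Bool) (R : V → Set ℝ) (τ : ℕ → ℝ),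
    (∀ v, R v ⊆ Set.Ioi 0) → (∀ v s, (R v ∩ Set.Iic s).Finite) →
    τ 0 = 0 → StrictMono τ → Tendsto τ atTop atTop → (∀ k, FiniteClusters G R (τ k) (τ (k+1))) →
    ∃ σ : ℝ → V → Bool, (∀ v, σ 0 v = init v) ∧
      (∀ v s t, 0 ≤ s → s ≤ t → R v ∩ Set.Ioc s t = ∅ → σ t v = σ s v) ∧
      (∀ v t, t ∈ R v → ∀ᶠ s in 𝓝[<] t, σ t v = majority G (σ s) v)

/-- finite clusters, for the clocks alone -/
def S_clusters' : Prop :=
  ∀ (Ω V : Type) [MeasurableSpace Ω] (G : SimpleGraph V) [G.LocallyFinite], (∀ v, G.degree v = 5) → G.Connected →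
    ∀ (p : ℝ) (μ : Measure Ω) (init : V → Ω → Bool) (rings : V → Ω → Set ℝ), IsClocks p μ init rings →
    ∃ τ : ℕ → ℝ, τ 0 = 0 ∧ StrictMono τ ∧ Tendsto τ atTop atTop ∧
      ∀ᵐ ω ∂μ, ∀ k, FiniteClusters G (fun v => rings v ω) (τ k) (τ (k+1))

/-- the dynamics exists -/
def S_exists : Prop :=
  ∀ (V : Type) (G : SimpleGraph V) [G.LocallyFinite], (∀ v, G.degree v = 5) → G.Connected →
    ∀ p : ℝ, 0 ≤ p → p ≤ 1 →
    ∃ (Ω : Type) (_ : MeasurableSpace Ω) (μ : Measure Ω) (init : V → Ω → Bool) (rings : V → Ω → Set ℝ)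
      (σ : Ω → ℝ → V → Bool), IsGlauber G p μ init rings σ

/-- there is a 5-regular tree -/
def S_tree : Prop :=
  ∃ (V : Type) (G : SimpleGraph V) (_ : G.LocallyFinite), G.IsTree ∧ ∀ v, G.degree v = 5

/-- the event that the root converges to `-1` has the same probability in all realisations of the dynamics -/
def S_unique : Prop :=
  ∀ (V : Type) (G : SimpleGraph V) [G.LocallyFinite], (∀ v, G.degree v = 5) → G.Connected →
    ∀ (o : V) (p : ℝ) (Ω Ω' : Type) [MeasurableSpace Ω] [MeasurableSpace Ω'] (μ : Measure Ω) (μ' : Measure Ω')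
      (init : V → Ω → Bool) (rings : V → Ω → Set ℝ) (σ : Ω → ℝ → V → Bool)
      (init' : V → Ω' → Bool) (rings' : V → Ω' → Set ℝ) (σ' : Ω' → ℝ → V → Bool),
      IsGlauber G p μ init rings σ → IsGlauber G p μ' init' rings' σ' →
      (∀ᵐ ω ∂μ, ω ∈ Fminus σ o) → (∀ᵐ ω ∂μ', ω ∈ Fminus σ' o)

end Pool.Agent.helper237_G5
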