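import Pool.Agent.helper237_G5.Stmts2

/-! # `S_ins`: insertion of a new variable below the top variable -/

namespace Pool.Agent.helper237_G5

namespace ins_aux

theorem zero_succ_zero (k : ℕ) : P.zero (k + 1) 0 = P.lf 0 := rfl
theorem zero_succ_succ (k d : ℕ) :
    P.zero (k + 1) (d + 1) = P.nd (P.zero k (d + 1)) (P.zero (k + 1) d) := rfl
theorem zero_zero (d : ℕ) : P.zero 0 d = P.lf 0 := rfl

theorem wf_zero (vs : List Lab) : ∀ d, wf vs d (P.zero vs.length d) := by
  induction vs with
  | nil =>
    intro d
    rw [List.length_nil, zero_zero]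
    simp only [wf]
  | cons v vs ih =>
    intro d
    induction d with
    | zero =>
      rw [List.length_cons, zero_succ_zero]
      simp only [wf]
    | succ d ihd =>
      rw [List.length_cons, zero_succ_succ]
      simp only [wf]
      exact ⟨ih _, ihd⟩

theorem val_zero (vs : List Lab) : ∀ d m, val vs d (P.zero vs.length d) m = 0 := by
  induction vs with
  | nil =>
    intro d m
    rw [List.length_nil, zero_zero]
    simp [val]
  | cons v vs ih =>
    intro d
    induction d with
    | zero =>
      intro m
      rw [List.length_cons, zero_succ_zero]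
      simp [val]
    | succ d ihd =>
      intro m
      rw [List.length_cons, zero_succ_succ]
      simp only [val]
      split_ifs with h
      · exact ihd _
      · exact ih _ _

/-- the coefficients vanish on multisets which contain a label outside `vs ∪ {Z}` -/
theorem val_eq_zero (p : P) : ∀ (vs : List Lab) (d : ℕ) (m : Multiset Lab) (v : Lab),
    v ∈ m → v ∉ vs → v ≠ Lab.Z → val vs d p m = 0 := by
  induction p with
  | lf n =>
    intro vs d m v hv hvs hz
    cases vs with
    | nil =>
      simp only [val]
      rw [if_neg]
      rintro rfl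
      exact hz (Multiset.eq_of_mem_replicate hv)
    | cons w vs =>
      cases d with
      | zero =>
        simp only [val]
        rw [if_neg]
        rintro rfl
        simp at hv
      | succ d => simp only [val]
  | nd p q ihp ihq =>
    intro vs d m v hv hvs hz
    cases vs with
    | nil => simp only [val]
    | cons w vs =>
      cases d with
      | zero => simp only [val]
      | succ d =>
        simp only [val]
        split_ifs with hw
        · refine ihq (w :: vs) d _ v ?_ hvs hz
          have hne : v ≠ w := fun h => hvs (by simp [h])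
          exact (Multiset.mem_erase_of_ne hne).2 hv
        · exact ihp vs (d + 1) m v hv (fun h => hvs (List.mem_cons_of_mem _ h)) hz

theorem wf_ins (w : Lab) (vs : List Lab) (p : P) : ∀ d, wf (Lab.C :: vs) d p →
    wf (Lab.C :: w :: vs) d (P.ins (vs.length + 1) p d) := by
  induction p with
  | lf n =>
    intro d h
    change wf (Lab.C :: w :: vs) d (P.lf n)
    cases d with
    | zero => simp only [wf]
    | succ d => simp only [wf] at h
  | nd p q ihp ihq =>
    intro d h
    cases d with
    | zero => simp only [wf] at h
    | succ d =>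
      change wf (Lab.C :: w :: vs) (d + 1)
        (P.nd (P.nd p (P.zero (vs.length + 1) d)) (P.ins (vs.length + 1) q d))
      simp only [wf] at h ⊢
      exact ⟨⟨h.1, wf_zero (w :: vs) d⟩, ihq _ h.2⟩

theorem val_ins (w : Lab) (vs : List Lab) (hw : w ∉ vs) (hz : w ≠ Lab.Z) (p : P) :
    ∀ d, wf (Lab.C :: vs) d p → ∀ m,
    val (Lab.C :: w :: vs) d (P.ins (vs.length + 1) p d) m = val (Lab.C :: vs) d p m := by
  induction p with
  | lf n =>
    intro d h m
    change val (Lab.C :: w :: vs) d (P.lf n) m = _
    cases d with
    | zero => simp only [val]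
    | succ d => simp only [wf] at h
  | nd p q ihp ihq =>
    intro d h m
    cases d with
    | zero => simp only [wf] at h
    | succ d =>
      change val (Lab.C :: w :: vs) (d + 1)
        (P.nd (P.nd p (P.zero (vs.length + 1) d)) (P.ins (vs.length + 1) q d)) m = _
      simp only [wf] at h
      simp only [val]
      by_cases hc : Lab.C ∈ m
      · rw [if_pos hc, if_pos hc]
        exact ihq _ h.2 _
      · rw [if_neg hc, if_neg hc]
        by_cases hwm : w ∈ m
        · rw [if_pos hwm, val_eq_zero p vs (d + 1) m w hwm hw hz]
          exact val_zero (w :: vs) d _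
        · rw [if_neg hwm]

end ins_aux

theorem t_ins : S_ins := by
  intro m p hm hwf
  have hV : Vs (m + 1) = Lab.C :: Lab.U (Fin.ofNat 6 (m + 1)) ::
      (List.range (m+1)).reverse.map (fun j => Lab.U (Fin.ofNat 6 j)) := by
    change Lab.C :: (List.range (m + 1 + 1)).reverse.map (fun j => Lab.U (Fin.ofNat 6 j)) = _
    rw [List.range_succ (n := m + 1), List.reverse_append]
    rfl
  have hlen : ((List.range (m+1)).reverse.map (fun j => Lab.U (Fin.ofNat 6 j))).length + 1
      = m + 2 := by
    simp
  have hnot : Lab.U (Fin.ofNat 6 (m + 1)) ∉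
      (List.range (m+1)).reverse.map (fun j => Lab.U (Fin.ofNat 6 j)) := by
    intro h
    rw [List.mem_map] at h
    obtain ⟨j, hj, he⟩ := h
    rw [List.mem_reverse, List.mem_range] at hj
    have h1 : (Fin.ofNat 6 j) = Fin.ofNat 6 (m + 1) := by
      injection he
    have h2 := congrArg Fin.val h1
    simp only [Fin.ofNat] at h2
    rw [Nat.mod_eq_of_lt (by omega), Nat.mod_eq_of_lt (by omega)] at h2
    omega
  have hval := ins_aux.val_ins (Lab.U (Fin.ofNat 6 (m + 1))) _ hnot (by simp) p 4 hwf
  have hw := ins_aux.wf_ins (Lab.U (Fin.ofNat 6 (m + 1))) _ p 4 hwf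
  rw [hlen] at hval hw
  constructor
  · rw [hV]
    exact hw
  · funext x
    unfold Yof
    rw [hV, hval]
    rfl

end Pool.Agent.helper237_G5
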